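import Mathlib

/-!
Tensor triangular geometry: the definitions used in the statement.
-/

set_option autoImplicit false

open CategoryTheory Limits Pretriangulated MonoidalCategory

noncomputable section

namespace Pool.Agent.Lib.MP_ded707_al

/-- A triangulated category (octahedral axiom included) with set-indexed coproducts and an
additive symmetric monoidal structure such that every `X ⊗ -` is an exact functor
preserving coproducts. -/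
structure TTCat : Type 2 where
  T : Type 1
  [cat : Category.{0} T]
  [preadd : Preadditive T]
  [zero : HasZeroObject T]
  [shift : HasShift T ℤ]
  [shiftAdd : ∀ n : ℤ, (shiftFunctor T n).Additive]
  [pretri : Pretriangulated T]
  [tri : IsTriangulated T]
  [mon : MonoidalCategory T]
  [symm : SymmetricCategory T]
  [monPre : MonoidalPreadditive T]
  [coprod : HasCoproducts.{0} T]
  [tensShift : ∀ X : T, (tensorLeft X).CommShift ℤ]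
  [tensTri : ∀ X : T, (tensorLeft X).IsTriangulated]
  [tensCoprod : ∀ (X : T) (J : Type), PreservesColimitsOfShape (Discrete J) (tensorLeft X)]

attribute [instance] TTCat.cat TTCat.preadd TTCat.zero TTCat.shift TTCat.shiftAdd TTCat.pretri
  TTCat.tri TTCat.mon TTCat.symm TTCat.monPre TTCat.coprod TTCat.tensShift TTCat.tensTri
  TTCat.tensCoprod

namespace TTCat

variable (𝒯 : TTCat)

/-- the structure isomorphism `X ⊗ Y⟦n⟧ ⟶ (X ⊗ Y)⟦n⟧` -/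
def sh (X Y : 𝒯.T) (n : ℤ) : X ⊗ Y⟦n⟧ ⟶ (X ⊗ Y)⟦n⟧ :=
  ((tensorLeft X).commShiftIso n).hom.app Y

/-- the isomorphisms `sh` are natural in the first variable -/
def ShNat : Prop := ∀ (X X' Y : 𝒯.T) (f : X ⟶ X') (n : ℤ),
  f ▷ Y⟦n⟧ ≫ 𝒯.sh X' Y n = 𝒯.sh X Y n ≫ (f ▷ Y)⟦n⟧'

/-- the isomorphisms `sh` are compatible with the unit -/
def ShUnit : Prop := ∀ (Y : 𝒯.T) (n : ℤ),
  𝒯.sh (𝟙_ 𝒯.T) Y n ≫ (λ_ Y).hom⟦n⟧' = (λ_ (Y⟦n⟧)).hom

/-- the isomorphisms `sh` are compatible with the associator -/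
def ShAssoc : Prop := ∀ (X X' Y : 𝒯.T) (n : ℤ),
  (α_ X X' (Y⟦n⟧)).hom ≫ X ◁ 𝒯.sh X' Y n ≫ 𝒯.sh X (X' ⊗ Y) n =
    𝒯.sh (X ⊗ X') Y n ≫ (α_ X X' Y).hom⟦n⟧'

/-- the twist of the suspended unit with itself is minus the identity -/
def ShTwist : Prop := (β_ ((𝟙_ 𝒯.T)⟦(1 : ℤ)⟧) ((𝟙_ 𝒯.T)⟦(1 : ℤ)⟧)).hom = -𝟙 _

/-- Compatibility of the tensor product with the suspension (Hovey, Palmieri, Strickland A.2.1):
naturality in the first variable, unit, associativity, and the sign of the twist. -/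
def Compatible : Prop := 𝒯.ShNat ∧ 𝒯.ShUnit ∧ 𝒯.ShAssoc ∧ 𝒯.ShTwist

variable {𝒯}

/-- compact object: every map to a coproduct factors through finitely many summands -/
def Compact (x : 𝒯.T) : Prop :=
  ∀ (J : Type) (Y : J → 𝒯.T) (f : x ⟶ ∐ Y),
    ∃ (s : Finset J) (g : ∀ j, x ⟶ Y j), f = ∑ j ∈ s, g j ≫ Sigma.ι Y j

variable (𝒯)

/-- rigidly-compactly generated: closed monoidal, generated by a set of compact objects, and the
compact objects are exactly the dualizable ones -/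
structure IsRCG : Prop where
  closed : Nonempty (MonoidalClosed 𝒯.T)
  gen : ∃ (I : Type) (g : I → 𝒯.T), (∀ i, Compact (g i)) ∧
    ∀ y : 𝒯.T, (∀ (i : I) (n : ℤ) (f : (g i)⟦n⟧ ⟶ y), f = 0) → IsZero y
  rigid : ∀ x : 𝒯.T, Compact x ↔ ∃ y : 𝒯.T, Nonempty (ExactPairing x y)

variable {𝒯}

/-- thick tensor ideal of the category of compact objects -/
structure IsThickIdeal (P : Set 𝒯.T) : Prop where
  compact : ∀ x ∈ P, Compact x
  zero : ∀ x : 𝒯.T, IsZero x → x ∈ P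
  shift : ∀ x ∈ P, ∀ n : ℤ, x⟦n⟧ ∈ P
  ext : ∀ D ∈ distTriang 𝒯.T, D.obj₁ ∈ P → D.obj₃ ∈ P → D.obj₂ ∈ P
  retract : ∀ x y : 𝒯.T, Retract x y → y ∈ P → x ∈ P
  tensor : ∀ a x : 𝒯.T, Compact a → x ∈ P → a ⊗ x ∈ P

variable (𝒯)

/-- the Balmer spectrum: prime thick tensor ideals of the compact objects -/
@[ext]
structure Spc : Type 1 where
  carrier : Set 𝒯.T
  thick : IsThickIdeal carrier
  proper : 𝟙_ 𝒯.T ∉ carrier
  prime : ∀ a b : 𝒯.T, Compact a → Compact b → a ⊗ b ∈ carrier → a ∈ carrier ∨ b ∈ carrier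

variable {𝒯}

/-- Balmer support of a compact object -/
def supp (x : 𝒯.T) : Set 𝒯.Spc := {P | x ∉ P.carrier}

/-- the Balmer topology: the supports of compact objects are a basis of closed sets -/
instance : TopologicalSpace 𝒯.Spc :=
  TopologicalSpace.generateFrom {U | ∃ x : 𝒯.T, Compact x ∧ U = (supp x)ᶜ}

/-- Thomason subset: union of closed sets with quasi-compact complement -/
def Thomason (Y : Set 𝒯.Spc) : Prop :=
  ∀ P ∈ Y, ∃ Z : Set 𝒯.Spc, IsClosed Z ∧ IsCompact Zᶜ ∧ P ∈ Z ∧ Z ⊆ Y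

/-- localizing tensor ideal -/
structure IsLocIdeal (L : Set 𝒯.T) : Prop where
  zero : ∀ x : 𝒯.T, IsZero x → x ∈ L
  iso : ∀ x y : 𝒯.T, (x ≅ y) → x ∈ L → y ∈ L
  shift : ∀ x ∈ L, ∀ n : ℤ, x⟦n⟧ ∈ L
  ext : ∀ D ∈ distTriang 𝒯.T, D.obj₁ ∈ L → D.obj₃ ∈ L → D.obj₂ ∈ L
  coprod : ∀ (J : Type) (Y : J → 𝒯.T), (∀ j, Y j ∈ L) → ∐ Y ∈ L
  tensor : ∀ a : 𝒯.T, ∀ x ∈ L, a ⊗ x ∈ L

/-- the smallest localizing tensor ideal containing `S` -/
def Loc (S : Set 𝒯.T) : Set 𝒯.T := ⋂₀ {L | IsLocIdeal L ∧ S ⊆ L}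

/-- `e ⟶ 𝟙 ⟶ f ⟶ e⟦1⟧` is the idempotent triangle of the localizing ideal generated by the
compact objects supported in `Y`: `e` lies in the ideal and `f` is right orthogonal to it -/
def IsIdem (Y : Set 𝒯.Spc) (e f : 𝒯.T) : Prop :=
  ∃ (u : e ⟶ 𝟙_ 𝒯.T) (v : 𝟙_ 𝒯.T ⟶ f) (w : f ⟶ e⟦(1 : ℤ)⟧),
    Triangle.mk u v w ∈ distTriang 𝒯.T ∧ e ∈ Loc {x | Compact x ∧ supp x ⊆ Y} ∧
      ∀ a ∈ Loc {x | Compact x ∧ supp x ⊆ Y}, ∀ φ : a ⟶ f, φ = 0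

/-- weakly visible point -/
def WeaklyVisible (P : 𝒯.Spc) : Prop :=
  ∃ Y₁ Y₂ : Set 𝒯.Spc, Thomason Y₁ ∧ Thomason Y₂ ∧ Y₁ ∩ Y₂ᶜ = {P}

/-- `g` is the object `g(P) = e_{Y₁} ⊗ f_{Y₂}` for Thomason subsets with `{P} = Y₁ ∖ Y₂` -/
def IsG (P : 𝒯.Spc) (g : 𝒯.T) : Prop :=
  ∃ (Y₁ Y₂ : Set 𝒯.Spc) (e₁ f₁ e₂ f₂ : 𝒯.T), Thomason Y₁ ∧ Thomason Y₂ ∧ Y₁ ∩ Y₂ᶜ = {P} ∧
    IsIdem Y₁ e₁ f₁ ∧ IsIdem Y₂ e₂ f₂ ∧ g = e₁ ⊗ f₂

/-- support of an arbitrary object -/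
def Supp (t : 𝒯.T) : Set 𝒯.Spc := {P | ∃ g, IsG P g ∧ ¬ IsZero (g ⊗ t)}

/-- the local-to-global principle for `t` -/
def LTG (t : 𝒯.T) : Prop := Loc {t} = Loc {z | ∃ P g, IsG P g ∧ z = g ⊗ t}

end TTCat

end Pool.Agent.Lib.MP_ded707_al
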