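import Mathlib

-- part Pool.Agent.Lib.MP_ded707_al.KDefs
section

/-!
Symmetric monoidal structure on cochain complexes and on the homotopy category of an additive
symmetric monoidal category of characteristic two (no signs).
-/

set_option autoImplicit false

open CategoryTheory Limits MonoidalCategory

noncomputable section

namespace Pool.Agent.Lib.MP_ded707_al

/-- additive symmetric monoidal category with coproducts, killed by two -/
structure ACat : Type 2 where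
  A : Type 1
  [cat : Category.{0} A]
  [preadd : Preadditive A]
  [zero : HasZeroObject A]
  [mon : MonoidalCategory A]
  [symm : SymmetricCategory A]
  [monPre : MonoidalPreadditive A]
  [coprod : HasCoproducts.{0} A]
  [tensCoprod : ∀ (X : A) (J : Type), PreservesColimitsOfShape (Discrete J) (tensorLeft X)]
  two : ∀ (X Y : A) (f : X ⟶ Y), f + f = 0

attribute [instance] ACat.cat ACat.preadd ACat.zero ACat.mon ACat.symm ACat.monPre ACat.coprod
  ACat.tensCoprod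

namespace ACat

variable (𝒜 : ACat)

instance (X : 𝒜.A) (J : Type) : PreservesColimitsOfShape (Discrete J) (tensorRight X) :=
  preservesColimitsOfShape_of_natIso (BraidedCategory.tensorLeftIsoTensorRight X)

instance : HasFiniteBiproducts 𝒜.A := HasFiniteBiproducts.of_hasFiniteCoproducts

instance : HasBinaryBiproducts 𝒜.A := hasBinaryBiproducts_of_finite_biproducts _

theorem neg_eq {X Y : 𝒜.A} (f : X ⟶ Y) : -f = f := by
  rw [neg_eq_iff_add_eq_zero, 𝒜.two]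

theorem units_smul {X Y : 𝒜.A} (u : ℤˣ) (f : X ⟶ Y) : u • f = f := by
  rcases Int.units_eq_one_or u with rfl | rfl
  · simp
  · simp [neg_eq]

/-- cochain complexes -/
abbrev Cx := CochainComplex 𝒜.A ℤ

/-- homotopy category -/
abbrev K := HomotopyCategory 𝒜.A (ComplexShape.up ℤ)

/-- quotient functor -/
abbrev Q : 𝒜.Cx ⥤ 𝒜.K := HomotopyCategory.quotient _ _

instance monCx : MonoidalCategory 𝒜.Cx := HomologicalComplex.monoidalCategory _ _

instance monGr : MonoidalCategory (GradedObject ℤ 𝒜.A) := inferInstance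

instance forgetMon : (HomologicalComplex.forget 𝒜.A (ComplexShape.up ℤ)).Monoidal :=
  (Monoidal.fromInducedCoreMonoidal _
    (HomologicalComplex.Monoidal.inducingFunctorData 𝒜.A (ComplexShape.up ℤ))).toMonoidal

variable {𝒜}

/-- inclusion of a summand of the tensor product of complexes -/
abbrev ιT (K L : 𝒜.Cx) (p q n : ℤ) (h : p + q = n) : K.X p ⊗ L.X q ⟶ (K ⊗ L).X n :=
  HomologicalComplex.ιMapBifunctor K L (curriedTensor 𝒜.A) (ComplexShape.up ℤ) p q n h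

theorem extT {K L : 𝒜.Cx} {n : ℤ} {Y : 𝒜.A} {f g : (K ⊗ L).X n ⟶ Y}
    (h : ∀ p q (hpq : p + q = n), ιT K L p q n hpq ≫ f = ιT K L p q n hpq ≫ g) : f = g :=
  HomologicalComplex.mapBifunctor.hom_ext h

/-- maps out of the tensor product of complexes -/
def descT {K L : 𝒜.Cx} {n : ℤ} {Y : 𝒜.A}
    (f : ∀ p q (_ : p + q = n), K.X p ⊗ L.X q ⟶ Y) : (K ⊗ L).X n ⟶ Y :=
  HomologicalComplex.mapBifunctorDesc (K₁ := K) (K₂ := L) (F := curriedTensor 𝒜.A)
    (c := ComplexShape.up ℤ) f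

@[reassoc (attr := simp)]
theorem ιT_descT {K L : 𝒜.Cx} {n : ℤ} {Y : 𝒜.A}
    (f : ∀ p q (_ : p + q = n), K.X p ⊗ L.X q ⟶ Y) (p q : ℤ) (h : p + q = n) :
    ιT K L p q n h ≫ descT f = f p q h :=
  HomologicalComplex.ι_mapBifunctorDesc _ _ _ _

@[reassoc]
theorem ιT_d (K L : 𝒜.Cx) (p q n : ℤ) (h : p + q = n) :
    ιT K L p q n h ≫ (K ⊗ L).d n (n + 1) =
      K.d p (p + 1) ▷ L.X q ≫ ιT K L (p + 1) q (n + 1) (by omega) +
        K.X p ◁ L.d q (q + 1) ≫ ιT K L p (q + 1) (n + 1) (by omega) := by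
  change _ ≫ (HomologicalComplex.mapBifunctor K L (curriedTensor 𝒜.A) (ComplexShape.up ℤ)).d
    n (n + 1) = _
  rw [HomologicalComplex.mapBifunctor.d_eq, Preadditive.comp_add,
    HomologicalComplex.mapBifunctor.ι_D₁, HomologicalComplex.mapBifunctor.ι_D₂,
    HomologicalComplex.mapBifunctor.d₁_eq _ _ _ _ (show (ComplexShape.up ℤ).Rel p (p + 1) from rfl)
      _ _ (by simp; omega),
    HomologicalComplex.mapBifunctor.d₂_eq _ _ _ _ _ (show (ComplexShape.up ℤ).Rel q (q + 1) from rfl)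
      _ (by simp; omega), units_smul, units_smul]
  rfl

@[reassoc]
theorem ιT_tensorHom {K K' L L' : 𝒜.Cx} (f : K ⟶ K') (g : L ⟶ L') (p q n : ℤ) (h : p + q = n) :
    ιT K L p q n h ≫ (f ⊗ₘ g).f n = f.f p ▷ L.X q ≫ K'.X p ◁ g.f q ≫ ιT K' L' p q n h :=
  HomologicalComplex.ι_mapBifunctorMap _ _ _ _ _ _ _ _

@[reassoc (attr := simp)]
theorem ιT_whiskerLeft (K : 𝒜.Cx) {L L' : 𝒜.Cx} (g : L ⟶ L') (p q n : ℤ) (h : p + q = n) :
    ιT K L p q n h ≫ (K ◁ g).f n = K.X p ◁ g.f q ≫ ιT K L' p q n h := by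
  refine (HomologicalComplex.ι_mapBifunctorMap (𝟙 K) g (curriedTensor 𝒜.A) (ComplexShape.up ℤ)
    p q n h).trans ?_
  simp

@[reassoc (attr := simp)]
theorem ιT_whiskerRight {K K' : 𝒜.Cx} (f : K ⟶ K') (L : 𝒜.Cx) (p q n : ℤ) (h : p + q = n) :
    ιT K L p q n h ≫ (f ▷ L).f n = f.f p ▷ L.X q ≫ ιT K' L p q n h := by
  refine (HomologicalComplex.ι_mapBifunctorMap f (𝟙 L) (curriedTensor 𝒜.A) (ComplexShape.up ℤ)
    p q n h).trans ?_
  simp

/-- the braiding in one degree -/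
def brX (K L : 𝒜.Cx) (n : ℤ) : (K ⊗ L).X n ⟶ (L ⊗ K).X n :=
  descT (fun p q h => (β_ _ _).hom ≫ ιT L K q p n (by omega))

@[reassoc (attr := simp)]
theorem ιT_brX (K L : 𝒜.Cx) (p q n : ℤ) (h : p + q = n) :
    ιT K L p q n h ≫ brX K L n = (β_ _ _).hom ≫ ιT L K q p n (by omega) :=
  ιT_descT _ _ _ _

/-- the braiding as a chain map -/
def brHom (K L : 𝒜.Cx) : K ⊗ L ⟶ L ⊗ K where
  f n := brX K L n
  comm' i j hij := by
    obtain rfl : i + 1 = j := hij
    apply extT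
    intro p q h
    simp only [ιT_brX_assoc, ιT_d, ιT_d_assoc, Preadditive.comp_add, Preadditive.add_comp,
      Category.assoc, ιT_brX, BraidedCategory.braiding_naturality_left_assoc,
      BraidedCategory.braiding_naturality_right_assoc]
    exact add_comm _ _

/-- the braiding of complexes -/
def br (K L : 𝒜.Cx) : K ⊗ L ≅ L ⊗ K where
  hom := brHom K L
  inv := brHom L K
  hom_inv_id := by
    ext n
    apply extT
    intro p q h
    simp [brHom]
  inv_hom_id := by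
    ext n
    apply extT
    intro p q h
    simp [brHom]

variable (𝒜)

instance braidedCx : BraidedCategory 𝒜.Cx :=
  BraidedCategory.ofFaithful (HomologicalComplex.forget 𝒜.A (ComplexShape.up ℤ)) br (by
    intro X Y
    erw [Category.id_comp, Category.comp_id]
    rfl)

instance symmCx : SymmetricCategory 𝒜.Cx where
  symmetry K L := (br K L).hom_inv_id

variable {𝒜}

@[reassoc (attr := simp)]
theorem ιT_braiding (K L : 𝒜.Cx) (p q n : ℤ) (h : p + q = n) :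
    ιT K L p q n h ≫ (β_ K L).hom.f n = (β_ _ _).hom ≫ ιT L K q p n (by omega) :=
  ιT_brX K L p q n h

variable (𝒜)

instance monPreCx : MonoidalPreadditive 𝒜.Cx where
  whiskerLeft_zero := by
    intro X Y Z
    ext n
    apply extT
    intro p q h
    simp
  zero_whiskerRight := by
    intro X Y Z
    ext n
    apply extT
    intro p q h
    simp
  whiskerLeft_add := by
    intro X Y Z f g
    ext n
    apply extT
    intro p q h
    simp
  add_whiskerRight := by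
    intro X Y Z f g
    ext n
    apply extT
    intro p q h
    simp

variable {𝒜}

/-- `K ⊗ -` on the homotopy category -/
def tL (K : 𝒜.Cx) : 𝒜.K ⥤ 𝒜.K :=
  CategoryTheory.Quotient.lift _ (tensorLeft K ⋙ 𝒜.Q) (fun _ _ _ _ h =>
    HomotopyCategory.eq_of_homotopy _ _
      (HomologicalComplex.mapBifunctorMapHomotopy₂ (𝟙 K) h.some (curriedTensor 𝒜.A) _))

/-- `- ⊗ L` on the homotopy category -/
def tR (L : 𝒜.Cx) : 𝒜.K ⥤ 𝒜.K :=
  CategoryTheory.Quotient.lift _ (tensorRight L ⋙ 𝒜.Q) (fun _ _ _ _ h =>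
    HomotopyCategory.eq_of_homotopy _ _
      (HomologicalComplex.mapBifunctorMapHomotopy₁ h.some (𝟙 L) (curriedTensor 𝒜.A) _))

variable (𝒜)

instance monStructK : MonoidalCategoryStruct 𝒜.K where
  tensorObj X Y := 𝒜.Q.obj (X.as ⊗ Y.as)
  whiskerLeft X _ _ g := (tL X.as).map g
  whiskerRight f Y := (tR Y.as).map f
  tensorUnit := 𝒜.Q.obj (𝟙_ _)
  associator X Y Z := 𝒜.Q.mapIso (α_ X.as Y.as Z.as)
  leftUnitor X := 𝒜.Q.mapIso (λ_ X.as)
  rightUnitor X := 𝒜.Q.mapIso (ρ_ X.as)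

variable {𝒜}

theorem Q_tensor (K L : 𝒜.Cx) : 𝒜.Q.obj K ⊗ 𝒜.Q.obj L = 𝒜.Q.obj (K ⊗ L) := rfl

theorem Q_unit : 𝟙_ 𝒜.K = 𝒜.Q.obj (𝟙_ _) := rfl

theorem Q_whiskerLeft (K : 𝒜.Cx) {L L' : 𝒜.Cx} (g : L ⟶ L') :
    𝒜.Q.obj K ◁ 𝒜.Q.map g = 𝒜.Q.map (K ◁ g) := rfl

theorem Q_whiskerRight {K K' : 𝒜.Cx} (f : K ⟶ K') (L : 𝒜.Cx) :
    𝒜.Q.map f ▷ 𝒜.Q.obj L = 𝒜.Q.map (f ▷ L) := rfl

theorem Q_tensorHom {K K' L L' : 𝒜.Cx} (f : K ⟶ K') (g : L ⟶ L') :
    𝒜.Q.map f ⊗ₘ 𝒜.Q.map g = 𝒜.Q.map (f ⊗ₘ g) := by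
  rw [MonoidalCategory.tensorHom_def f g, Functor.map_comp]
  rfl

theorem Q_assoc (K L M : 𝒜.Cx) :
    α_ (𝒜.Q.obj K) (𝒜.Q.obj L) (𝒜.Q.obj M) = 𝒜.Q.mapIso (α_ K L M) := rfl

theorem Q_leftUnitor (K : 𝒜.Cx) : λ_ (𝒜.Q.obj K) = 𝒜.Q.mapIso (λ_ K) := rfl

theorem Q_rightUnitor (K : 𝒜.Cx) : ρ_ (𝒜.Q.obj K) = 𝒜.Q.mapIso (ρ_ K) := rfl

variable (𝒜)

instance monK : MonoidalCategory 𝒜.K where
  tensorHom_def _ _ := rfl
  id_tensorHom_id X Y := by
    obtain ⟨X, rfl⟩ := HomotopyCategory.quotient_obj_surjective X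
    obtain ⟨Y, rfl⟩ := HomotopyCategory.quotient_obj_surjective Y
    rw [← 𝒜.Q.map_id, ← 𝒜.Q.map_id, Q_tensorHom, id_tensorHom_id]
    rfl
  tensorHom_comp_tensorHom := by
    rintro ⟨X₁⟩ ⟨Y₁⟩ ⟨Z₁⟩ ⟨X₂⟩ ⟨Y₂⟩ ⟨Z₂⟩ f₁ f₂ g₁ g₂
    obtain ⟨f₁, rfl⟩ := 𝒜.Q.map_surjective f₁
    obtain ⟨f₂, rfl⟩ := 𝒜.Q.map_surjective f₂
    obtain ⟨g₁, rfl⟩ := 𝒜.Q.map_surjective g₁
    obtain ⟨g₂, rfl⟩ := 𝒜.Q.map_surjective g₂
    change (𝒜.Q.map f₁ ⊗ₘ 𝒜.Q.map f₂) ≫ (𝒜.Q.map g₁ ⊗ₘ 𝒜.Q.map g₂) =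
      (𝒜.Q.map f₁ ≫ 𝒜.Q.map g₁) ⊗ₘ (𝒜.Q.map f₂ ≫ 𝒜.Q.map g₂)
    rw [← 𝒜.Q.map_comp, ← 𝒜.Q.map_comp, Q_tensorHom, Q_tensorHom, Q_tensorHom,
      ← tensorHom_comp_tensorHom]
    exact (𝒜.Q.map_comp _ _).symm
  whiskerLeft_id X Y := (tL X.as).map_id Y
  id_whiskerRight X Y := (tR Y.as).map_id X
  associator_naturality := by
    rintro ⟨X₁⟩ ⟨X₂⟩ ⟨X₃⟩ ⟨Y₁⟩ ⟨Y₂⟩ ⟨Y₃⟩ f₁ f₂ f₃
    obtain ⟨f₁, rfl⟩ := 𝒜.Q.map_surjective f₁
    obtain ⟨f₂, rfl⟩ := 𝒜.Q.map_surjective f₂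
    obtain ⟨f₃, rfl⟩ := 𝒜.Q.map_surjective f₃
    change ((𝒜.Q.map f₁ ⊗ₘ 𝒜.Q.map f₂) ⊗ₘ 𝒜.Q.map f₃) ≫ 𝒜.Q.map (α_ Y₁ Y₂ Y₃).hom =
      𝒜.Q.map (α_ X₁ X₂ X₃).hom ≫ (𝒜.Q.map f₁ ⊗ₘ (𝒜.Q.map f₂ ⊗ₘ 𝒜.Q.map f₃))
    have h1 : ((𝒜.Q.map f₁ ⊗ₘ 𝒜.Q.map f₂) ⊗ₘ 𝒜.Q.map f₃) = 𝒜.Q.map ((f₁ ⊗ₘ f₂) ⊗ₘ f₃) :=
      (congrArg (· ⊗ₘ 𝒜.Q.map f₃) (Q_tensorHom f₁ f₂)).trans (Q_tensorHom _ _)
    have h2 : (𝒜.Q.map f₁ ⊗ₘ (𝒜.Q.map f₂ ⊗ₘ 𝒜.Q.map f₃)) = 𝒜.Q.map (f₁ ⊗ₘ (f₂ ⊗ₘ f₃)) :=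
      (congrArg (𝒜.Q.map f₁ ⊗ₘ ·) (Q_tensorHom f₂ f₃)).trans (Q_tensorHom _ _)
    exact (congrArg (· ≫ 𝒜.Q.map (α_ Y₁ Y₂ Y₃).hom) h1).trans (((𝒜.Q.map_comp _ _).symm.trans
      ((congrArg 𝒜.Q.map (associator_naturality f₁ f₂ f₃)).trans (𝒜.Q.map_comp _ _))).trans
        (congrArg (𝒜.Q.map (α_ X₁ X₂ X₃).hom ≫ ·) h2.symm))
  leftUnitor_naturality := by
    rintro ⟨X⟩ ⟨Y⟩ f
    obtain ⟨f, rfl⟩ := 𝒜.Q.map_surjective f
    exact (𝒜.Q.map_comp _ _).symm.trans
      ((congrArg 𝒜.Q.map (leftUnitor_naturality f)).trans (𝒜.Q.map_comp _ _))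
  rightUnitor_naturality := by
    rintro ⟨X⟩ ⟨Y⟩ f
    obtain ⟨f, rfl⟩ := 𝒜.Q.map_surjective f
    exact (𝒜.Q.map_comp _ _).symm.trans
      ((congrArg 𝒜.Q.map (rightUnitor_naturality f)).trans (𝒜.Q.map_comp _ _))
  pentagon := by
    rintro ⟨W⟩ ⟨X⟩ ⟨Y⟩ ⟨Z⟩
    have := congrArg 𝒜.Q.map (pentagon W X Y Z)
    simp only [Functor.map_comp] at this
    exact this
  triangle := by
    rintro ⟨X⟩ ⟨Y⟩
    have := congrArg 𝒜.Q.map (triangle X Y)
    simp only [Functor.map_comp] at this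
    exact this

instance braidedK : BraidedCategory 𝒜.K where
  braiding X Y := 𝒜.Q.mapIso (β_ X.as Y.as)
  braiding_naturality_right := by
    rintro ⟨X⟩ ⟨Y⟩ ⟨Z⟩ f
    obtain ⟨f, rfl⟩ := 𝒜.Q.map_surjective f
    exact (𝒜.Q.map_comp _ _).symm.trans ((congrArg 𝒜.Q.map
      (BraidedCategory.braiding_naturality_right X f)).trans (𝒜.Q.map_comp _ _))
  braiding_naturality_left := by
    rintro ⟨X⟩ ⟨Y⟩ f ⟨Z⟩
    obtain ⟨f, rfl⟩ := 𝒜.Q.map_surjective f
    exact (𝒜.Q.map_comp _ _).symm.trans ((congrArg 𝒜.Q.map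
      (BraidedCategory.braiding_naturality_left f Z)).trans (𝒜.Q.map_comp _ _))
  hexagon_forward := by
    rintro ⟨X⟩ ⟨Y⟩ ⟨Z⟩
    have := congrArg 𝒜.Q.map (BraidedCategory.hexagon_forward X Y Z)
    simp only [Functor.map_comp] at this
    exact this
  hexagon_reverse := by
    rintro ⟨X⟩ ⟨Y⟩ ⟨Z⟩
    have := congrArg 𝒜.Q.map (BraidedCategory.hexagon_reverse X Y Z)
    simp only [Functor.map_comp] at this
    exact this

instance symmK : SymmetricCategory 𝒜.K where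
  symmetry := by
    rintro ⟨X⟩ ⟨Y⟩
    exact (𝒜.Q.map_comp _ _).symm.trans ((congrArg 𝒜.Q.map
      (SymmetricCategory.symmetry X Y)).trans (𝒜.Q.map_id _))

theorem Q_braiding (K L : 𝒜.Cx) : β_ (𝒜.Q.obj K) (𝒜.Q.obj L) = 𝒜.Q.mapIso (β_ K L) := rfl

instance monPreK : MonoidalPreadditive 𝒜.K where
  whiskerLeft_zero := by
    rintro ⟨X⟩ ⟨Y⟩ ⟨Z⟩
    exact (congrArg 𝒜.Q.map (MonoidalPreadditive.whiskerLeft_zero (X := X) (Y := Y) (Z := Z))).trans
      (𝒜.Q.map_zero _ _)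
  zero_whiskerRight := by
    rintro ⟨X⟩ ⟨Y⟩ ⟨Z⟩
    exact (congrArg 𝒜.Q.map
      (MonoidalPreadditive.zero_whiskerRight (X := X) (Y := Y) (Z := Z))).trans (𝒜.Q.map_zero _ _)
  whiskerLeft_add := by
    rintro ⟨X⟩ ⟨Y⟩ ⟨Z⟩ f g
    obtain ⟨f, rfl⟩ := 𝒜.Q.map_surjective f
    obtain ⟨g, rfl⟩ := 𝒜.Q.map_surjective g
    exact (congrArg 𝒜.Q.map (MonoidalPreadditive.whiskerLeft_add (X := X) f g)).trans
      𝒜.Q.map_add
  add_whiskerRight := by
    rintro ⟨X⟩ ⟨Y⟩ ⟨Z⟩ f g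
    obtain ⟨f, rfl⟩ := 𝒜.Q.map_surjective f
    obtain ⟨g, rfl⟩ := 𝒜.Q.map_surjective g
    exact (congrArg 𝒜.Q.map (MonoidalPreadditive.add_whiskerRight (X := X) f g)).trans
      𝒜.Q.map_add

variable {𝒜}

instance commShiftCx (K : 𝒜.Cx) : (tensorLeft K).CommShift ℤ :=
  inferInstanceAs (((curriedTensor 𝒜.A).map₂CochainComplex.obj K).CommShift ℤ)

theorem commShiftCx_hom_app (K L : 𝒜.Cx) (n : ℤ) :
    ((tensorLeft K).commShiftIso n).hom.app L =
      (CochainComplex.mapBifunctorShift₂Iso K L (curriedTensor 𝒜.A) n).hom := rfl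

instance commShiftK (X : 𝒜.K) : (tensorLeft X).CommShift ℤ :=
  CategoryTheory.Quotient.liftCommShift (tensorLeft X.as ⋙ 𝒜.Q) _ ℤ (fun _ _ _ _ h =>
    HomotopyCategory.eq_of_homotopy _ _
      (HomologicalComplex.mapBifunctorMapHomotopy₂ (𝟙 X.as) h.some (curriedTensor 𝒜.A) _))

theorem commShiftK_hom_app (K L : 𝒜.Cx) (n : ℤ) :
    ((tensorLeft (𝒜.Q.obj K)).commShiftIso n).hom.app (𝒜.Q.obj L) =
      𝒜.Q.obj K ◁ (𝒜.Q.commShiftIso n).inv.app L ≫
        𝒜.Q.map (((tensorLeft K).commShiftIso n).hom.app L) ≫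
          (𝒜.Q.commShiftIso n).hom.app (K ⊗ L) := by
  have := CategoryTheory.Quotient.LiftCommShift.iso_hom_app (tensorLeft K ⋙ 𝒜.Q)
    (homotopic 𝒜.A (ComplexShape.up ℤ)) (fun _ _ _ _ h =>
    HomotopyCategory.eq_of_homotopy _ _
      (HomologicalComplex.mapBifunctorMapHomotopy₂ (𝟙 K) h.some (curriedTensor 𝒜.A) _)) n L
  rw [Functor.commShiftIso_comp_hom_app] at this
  exact this

end ACat

end Pool.Agent.Lib.MP_ded707_al
end
end

-- part Pool.Agent.Lib.MP_ded707_al.KTri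
section

/-!
Tensoring is a triangulated functor on the homotopy category.
-/

set_option autoImplicit false
set_option backward.isDefEq.respectTransparency false
set_option backward.defeqAttrib.useBackward true

open CategoryTheory Limits Pretriangulated MonoidalCategory ZeroObject

noncomputable section

namespace Pool.Agent.Lib.MP_ded707_al

namespace ACat

namespace KTri

variable {𝒜 : ACat} (K : 𝒜.Cx)

/-- degreewise extension of a family of maps, in the second variable -/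
def extd {L L' : 𝒜.Cx} (r : ∀ q, L.X q ⟶ L'.X q) (n : ℤ) : (K ⊗ L).X n ⟶ (K ⊗ L').X n :=
  descT (fun p q h => K.X p ◁ r q ≫ ιT K L' p q n h)

@[reassoc]
theorem ιT_extd {L L' : 𝒜.Cx} (r : ∀ q, L.X q ⟶ L'.X q) (p q n : ℤ) (h : p + q = n) :
    ιT K L p q n h ≫ extd K r n = K.X p ◁ r q ≫ ιT K L' p q n h :=
  ιT_descT _ _ _ _

variable (S : ShortComplex 𝒜.Cx)
  (σ : ∀ n, (S.map (HomologicalComplex.eval 𝒜.A _ n)).Splitting)

/-- the tensored short complex -/
def tS : ShortComplex 𝒜.Cx :=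
  ShortComplex.mk (K ◁ S.f) (K ◁ S.g) (by
    rw [← MonoidalCategory.whiskerLeft_comp, S.zero, MonoidalPreadditive.whiskerLeft_zero])

/-- retraction, with a convenient type -/
def rr (q : ℤ) : S.X₂.X q ⟶ S.X₁.X q := (σ q).r

/-- section, with a convenient type -/
def ss (q : ℤ) : S.X₃.X q ⟶ S.X₂.X q := (σ q).s

theorem f_rr (q : ℤ) : S.f.f q ≫ rr S σ q = 𝟙 _ := (σ q).f_r

theorem ss_g (q : ℤ) : ss S σ q ≫ S.g.f q = 𝟙 _ := (σ q).s_g

theorem ss_rr (q : ℤ) : ss S σ q ≫ rr S σ q = 0 := (σ q).s_r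

theorem rr_id (q : ℤ) : rr S σ q ≫ S.f.f q + S.g.f q ≫ ss S σ q = 𝟙 _ := (σ q).id

/-- the tensored splitting -/
def tσ (n : ℤ) : ((tS K S).map (HomologicalComplex.eval 𝒜.A _ n)).Splitting where
  r := extd K (rr S σ) n
  s := extd K (ss S σ) n
  f_r := by
    change (K ◁ S.f).f n ≫ extd K (rr S σ) n = 𝟙 ((K ⊗ S.X₁).X n)
    apply extT
    intro p q h
    rw [ιT_whiskerLeft_assoc, ιT_extd, ← MonoidalCategory.whiskerLeft_comp_assoc, f_rr,
      MonoidalCategory.whiskerLeft_id, Category.id_comp, Category.comp_id]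
  s_g := by
    change extd K (ss S σ) n ≫ (K ◁ S.g).f n = 𝟙 ((K ⊗ S.X₃).X n)
    apply extT
    intro p q h
    rw [ιT_extd_assoc, ιT_whiskerLeft, ← MonoidalCategory.whiskerLeft_comp_assoc, ss_g,
      MonoidalCategory.whiskerLeft_id, Category.id_comp, Category.comp_id]
  id := by
    change extd K (rr S σ) n ≫ (K ◁ S.f).f n + (K ◁ S.g).f n ≫ extd K (ss S σ) n =
      𝟙 ((K ⊗ S.X₂).X n)
    apply extT
    intro p q h
    rw [Preadditive.comp_add, ιT_extd_assoc, ιT_whiskerLeft, ιT_whiskerLeft_assoc, ιT_extd,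
      ← MonoidalCategory.whiskerLeft_comp_assoc, ← MonoidalCategory.whiskerLeft_comp_assoc,
      ← Preadditive.add_comp, ← MonoidalPreadditive.whiskerLeft_add, rr_id,
      MonoidalCategory.whiskerLeft_id, Category.id_comp, Category.comp_id]

theorem hom_f (q : ℤ) : (CochainComplex.homOfDegreewiseSplit S σ).f q =
    ss S σ q ≫ S.X₂.d q (q + 1) ≫ rr S σ (q + 1) :=
  CochainComplex.homOfDegreewiseSplit_f S σ q

theorem chain_eq : K ◁ CochainComplex.homOfDegreewiseSplit S σ ≫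
    ((tensorLeft K).commShiftIso (1 : ℤ)).hom.app S.X₁ =
      CochainComplex.homOfDegreewiseSplit (tS K S) (tσ K S σ) := by
  ext n
  rw [hom_f]
  change (K ◁ CochainComplex.homOfDegreewiseSplit S σ).f n ≫
    (CochainComplex.mapBifunctorShift₂Iso K S.X₁ (curriedTensor 𝒜.A) 1).hom.f n =
      extd K (ss S σ) n ≫ (K ⊗ S.X₂).d n (n + 1) ≫ extd K (rr S σ) (n + 1)
  apply extT
  intro p q h
  have h1 := CochainComplex.ι_mapBifunctorShift₂Iso_hom_f K S.X₁ (curriedTensor 𝒜.A) 1 p q n h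
    (q + 1) (n + 1) rfl rfl
  rw [units_smul] at h1
  have h2 : ιT K (S.X₁⟦(1 : ℤ)⟧) p q n h ≫
      (CochainComplex.mapBifunctorShift₂Iso K S.X₁ (curriedTensor 𝒜.A) 1).hom.f n =
        ιT K S.X₁ p (q + 1) (n + 1) (by omega) := by
    refine h1.trans ?_
    simp [HomologicalComplex.XIsoOfEq]
  rw [ιT_whiskerLeft_assoc, h2, hom_f, ιT_extd_assoc, ιT_d_assoc, Preadditive.add_comp,
    Category.assoc, Category.assoc, ιT_extd, ιT_extd, Preadditive.comp_add, ← whisker_exchange_assoc,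
    ← MonoidalCategory.whiskerLeft_comp_assoc, ss_rr, MonoidalPreadditive.whiskerLeft_zero,
    zero_comp, zero_add, MonoidalCategory.whiskerLeft_comp, MonoidalCategory.whiskerLeft_comp,
    Category.assoc, Category.assoc]

end KTri

open KTri in
instance tensTriK {𝒜 : ACat} (X : 𝒜.K) : (tensorLeft X).IsTriangulated := by
  obtain ⟨K, rfl⟩ := HomotopyCategory.quotient_obj_surjective X
  refine ⟨fun T hT => ?_⟩
  obtain ⟨S, σ, ⟨e⟩⟩ := (HomotopyCategory.distinguished_iff_iso_trianglehOfDegreewiseSplit T).1 hT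
  refine (HomotopyCategory.distinguished_iff_iso_trianglehOfDegreewiseSplit _).2
    ⟨tS K S, tσ K S σ, ⟨(tensorLeft (𝒜.Q.obj K)).mapTriangle.mapIso e ≪≫
      Triangle.isoMk _ _ (Iso.refl _) (Iso.refl _) (Iso.refl _) ?_ ?_ ?_⟩⟩
  · exact (Category.comp_id _).trans (Category.id_comp _).symm
  · exact (Category.comp_id _).trans (Category.id_comp _).symm
  · have key : 𝒜.Q.obj K ◁ (𝒜.Q.map (CochainComplex.homOfDegreewiseSplit S σ) ≫
        (𝒜.Q.commShiftIso (1 : ℤ)).hom.app S.X₁) ≫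
        ((tensorLeft (𝒜.Q.obj K)).commShiftIso (1 : ℤ)).hom.app (𝒜.Q.obj S.X₁) =
      𝒜.Q.map (CochainComplex.homOfDegreewiseSplit (tS K S) (tσ K S σ)) ≫
        (𝒜.Q.commShiftIso (1 : ℤ)).hom.app (K ⊗ S.X₁) := by
      rw [commShiftK_hom_app, ← MonoidalCategory.whiskerLeft_comp_assoc, Category.assoc,
        Iso.hom_inv_id_app, ← chain_eq, Functor.map_comp, Category.assoc]
      erw [Category.comp_id]
      rfl
    exact ((congrArg (_ ≫ ·) ((shiftFunctor 𝒜.K (1 : ℤ)).map_id _)).trans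
      (Category.comp_id _)).trans (key.trans (Category.id_comp _).symm)

end ACat

end Pool.Agent.Lib.MP_ded707_al
end
end

-- part Pool.Agent.Lib.MP_ded707_al.KCoprod
section

/-!
Coproducts in the homotopy category.
-/

set_option autoImplicit false
set_option backward.isDefEq.respectTransparency false
set_option backward.defeqAttrib.useBackward true

open CategoryTheory Limits Pretriangulated MonoidalCategory ZeroObject

noncomputable section

namespace Pool.Agent.Lib.MP_ded707_al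

namespace ACat

variable (𝒜 : ACat)

instance hasCoprodCx : HasCoproducts.{0} 𝒜.Cx := fun _ => inferInstance

variable {𝒜}

/-- the coproduct of complexes is a coproduct in every degree -/
def isColimitX {J : Type} (Y : J → 𝒜.Cx) (n : ℤ) :
    IsColimit (Cofan.mk ((∐ Y).X n) (fun j => (Sigma.ι Y j).f n) : Cofan fun j => (Y j).X n) :=
  isColimitOfHasCoproductOfPreservesColimit (HomologicalComplex.eval 𝒜.A (ComplexShape.up ℤ) n) Y

/-- homotopies on the summands assemble to a homotopy on the coproduct -/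
def homotopyCoprod {J : Type} (Y : J → 𝒜.Cx) {Z : 𝒜.Cx} (f g : ∐ Y ⟶ Z)
    (h : ∀ j, Homotopy (Sigma.ι Y j ≫ f) (Sigma.ι Y j ≫ g)) : Homotopy f g where
  hom p q := Cofan.IsColimit.desc (isColimitX Y p) (fun j => (h j).hom p q)
  zero p q hpq := by
    apply Cofan.IsColimit.hom_ext (isColimitX Y p)
    intro j
    rw [Cofan.IsColimit.fac, comp_zero, (h j).zero p q hpq]
  comm n := by
    apply Cofan.IsColimit.hom_ext (isColimitX Y n)
    intro j
    have key : (fun p q => (Sigma.ι Y j).f p ≫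
        Cofan.IsColimit.desc (isColimitX Y p) (fun j => (h j).hom p q)) = (h j).hom := by
      funext p q
      exact Cofan.IsColimit.fac (isColimitX Y p) (fun j => (h j).hom p q) j
    have h1 := (h j).comm n
    rw [← key, dNext_comp_left, prevD_comp_left] at h1
    change (Sigma.ι Y j).f n ≫ _ = (Sigma.ι Y j).f n ≫ _
    rw [Preadditive.comp_add, Preadditive.comp_add]
    exact h1

/-- the image of the coproduct of complexes in the homotopy category is a coproduct -/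
def isColimitQ {J : Type} (Y : J → 𝒜.Cx) :
    IsColimit (Cofan.mk (𝒜.Q.obj (∐ Y)) (fun j => 𝒜.Q.map (Sigma.ι Y j)) :
      Cofan fun j => 𝒜.Q.obj (Y j)) :=
  Cofan.IsColimit.mk _
    (fun t => 𝒜.Q.map (Sigma.desc fun j => 𝒜.Q.preimage (X := Y j) (Y := t.pt.as) (t.inj j)))
    (fun t j => by
      change 𝒜.Q.map _ ≫ 𝒜.Q.map _ = _
      rw [← 𝒜.Q.map_comp, Sigma.ι_desc, Functor.map_preimage])
    (fun t m hm => by
      obtain ⟨m, rfl⟩ := 𝒜.Q.map_surjective (X := ∐ Y) (Y := t.pt.as) m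
      refine HomotopyCategory.eq_of_homotopy _ _ (homotopyCoprod Y _ _ fun j =>
        HomotopyCategory.homotopyOfEq _ _ ?_)
      rw [Sigma.ι_desc, Functor.map_preimage, Functor.map_comp]
      exact hm j)

variable (𝒜)

instance presQ (J : Type) : PreservesColimitsOfShape (Discrete J) 𝒜.Q := by
  have : ∀ Y : J → 𝒜.Cx, PreservesColimit (Discrete.functor Y) 𝒜.Q := fun Y =>
    preservesColimit_of_preserves_colimit_cocone (coproductIsCoproduct Y)
      ((isColimitMapCoconeCofanMkEquiv _ _ _).symm (isColimitQ Y))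
  exact preservesColimitsOfShape_of_discrete _

instance hasCoprodK : HasCoproducts.{0} 𝒜.K :=
  hasCoproducts_of_colimit_cofans
    (fun {_} Y => Cofan.mk (𝒜.Q.obj (∐ fun j => (Y j).as))
      (fun j => 𝒜.Q.map (Sigma.ι (fun j => (Y j).as) j)))
    (fun {_} Y => isColimitQ fun j => (Y j).as)

variable {𝒜}

/-- one summand of the tensor product with a coproduct -/
def isColimitTX (A : 𝒜.A) {J : Type} (Y : J → 𝒜.Cx) (q : ℤ) :
    IsColimit (Cofan.mk (A ⊗ (∐ Y).X q) (fun j => A ◁ (Sigma.ι Y j).f q) :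
      Cofan fun j => A ⊗ (Y j).X q) :=
  isColimitCofanMkObjOfIsColimit (tensorLeft A) _ _ (isColimitX Y q)

/-- the tensor product with a coproduct of complexes in one degree -/
def isColimitT (X : 𝒜.Cx) {J : Type} (Y : J → 𝒜.Cx) (n : ℤ) :
    IsColimit (Cofan.mk ((X ⊗ ∐ Y).X n) (fun j => (X ◁ Sigma.ι Y j).f n) :
      Cofan fun j => (X ⊗ Y j).X n) :=
  Cofan.IsColimit.mk _
    (fun t => descT fun p q h => Cofan.IsColimit.desc (isColimitTX (X.X p) Y q)
      (fun j => ιT X (Y j) p q n h ≫ t.inj j))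
    (fun t j => by
      apply extT
      intro p q h
      change ιT X (Y j) p q n h ≫ (X ◁ Sigma.ι Y j).f n ≫ _ = _
      rw [ιT_whiskerLeft_assoc, ιT_descT]
      exact Cofan.IsColimit.fac (isColimitTX (X.X p) Y q) _ j)
    (fun t m hm => by
      apply extT
      intro p q h
      rw [ιT_descT]
      apply Cofan.IsColimit.hom_ext (isColimitTX (X.X p) Y q)
      intro j
      rw [Cofan.IsColimit.fac, ← hm j]
      change X.X p ◁ (Sigma.ι Y j).f q ≫ _ = _ ≫ (X ◁ Sigma.ι Y j).f n ≫ m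
      rw [ιT_whiskerLeft_assoc])

variable (𝒜)

instance tensCoprodCx (X : 𝒜.Cx) (J : Type) :
    PreservesColimitsOfShape (Discrete J) (tensorLeft X) := by
  have : ∀ Y : J → 𝒜.Cx, PreservesColimit (Discrete.functor Y) (tensorLeft X) := fun Y =>
    preservesColimit_of_preserves_colimit_cocone (coproductIsCoproduct Y)
      ((isColimitMapCoconeCofanMkEquiv _ _ _).symm (HomologicalComplex.isColimitOfEval _ _ fun n =>
        (isColimitMapCoconeCofanMkEquiv _ _ _).symm (isColimitT X Y n)))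
  exact preservesColimitsOfShape_of_discrete _

instance tensCoprodK (X : 𝒜.K) (J : Type) :
    PreservesColimitsOfShape (Discrete J) (tensorLeft X) := by
  have : ∀ Y : J → 𝒜.K, PreservesColimit (Discrete.functor Y) (tensorLeft X) := fun Y =>
    preservesColimit_of_preserves_colimit_cocone (isColimitQ fun j => (Y j).as)
      ((isColimitMapCoconeCofanMkEquiv _ _ _).symm
        (isColimitOfHasCoproductOfPreservesColimit (tensorLeft X.as ⋙ 𝒜.Q) fun j => (Y j).as))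
  exact preservesColimitsOfShape_of_discrete _

end ACat

end Pool.Agent.Lib.MP_ded707_al
end
end

-- part Pool.Agent.Lib.MP_ded707_al.Fil
section

/-!
Filtered vector spaces over the field with two elements, indexed by a group preordered by a
submonoid.
-/

set_option autoImplicit false
set_option backward.isDefEq.respectTransparency false
set_option backward.defeqAttrib.useBackward true

open CategoryTheory Limits MonoidalCategory TensorProduct DirectSum

noncomputable section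

namespace Pool.Agent.Lib.MP_ded707_al

/-- the field with two elements -/
abbrev k2 := ZMod 2

variable {G : Type} [AddCommGroup G] (M : AddSubmonoid G)

/-- filtered vector space -/
structure Fil : Type 1 where
  V : ModuleCat.{0} k2
  F : G → Submodule k2 V
  mono : ∀ α β, β - α ∈ M → F α ≤ F β

namespace Fil

variable {M}

/-- filtered maps -/
def homSub (X Y : Fil M) : AddSubgroup (X.V ⟶ Y.V) where
  carrier := {f | ∀ γ, ∀ v ∈ X.F γ, f v ∈ Y.F γ}
  add_mem' hf hg γ v hv := (Y.F γ).add_mem (hf γ v hv) (hg γ v hv)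
  zero_mem' γ _ _ := (Y.F γ).zero_mem
  neg_mem' hf γ v hv := (Y.F γ).neg_mem (hf γ v hv)

instance : Category.{0} (Fil M) where
  Hom X Y := homSub X Y
  id X := ⟨𝟙 X.V, fun _ _ hv => hv⟩
  comp f g := ⟨f.1 ≫ g.1, fun γ v hv => g.2 γ _ (f.2 γ v hv)⟩

@[ext]
theorem hom_ext {X Y : Fil M} {f g : X ⟶ Y} (h : f.1 = g.1) : f = g := Subtype.ext h

@[simp] theorem id_val (X : Fil M) : (𝟙 X : X ⟶ X).1 = 𝟙 X.V := rfl

@[simp] theorem comp_val {X Y Z : Fil M} (f : X ⟶ Y) (g : Y ⟶ Z) : (f ≫ g).1 = f.1 ≫ g.1 := rfl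

theorem map_mem {X Y : Fil M} (f : X ⟶ Y) {γ : G} {v : X.V} (hv : v ∈ X.F γ) : f.1 v ∈ Y.F γ :=
  f.2 γ v hv

instance : Preadditive (Fil M) where
  homGroup X Y := inferInstanceAs (AddCommGroup (homSub X Y))
  add_comp _ _ _ f f' g := hom_ext (Preadditive.add_comp _ _ _ f.1 f'.1 g.1)
  comp_add _ _ _ f g g' := hom_ext (Preadditive.comp_add _ _ _ f.1 g.1 g'.1)

@[simp] theorem add_val {X Y : Fil M} (f g : X ⟶ Y) : (f + g).1 = f.1 + g.1 := rfl

@[simp] theorem neg_val {X Y : Fil M} (f : X ⟶ Y) : (-f).1 = -f.1 := rfl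

@[simp] theorem zero_val (X Y : Fil M) : (0 : X ⟶ Y).1 = 0 := rfl

variable (M) in
/-- forgetful functor -/
@[simps]
def U : Fil M ⥤ ModuleCat.{0} k2 where
  obj X := X.V
  map f := f.1

instance : (U M).Faithful where
  map_injective h := hom_ext h

instance : (U M).Additive where

/-- isomorphisms of filtered spaces -/
@[simps]
def isoMk {X Y : Fil M} (e : X.V ≅ Y.V) (h : ∀ γ, ∀ v ∈ X.F γ, e.hom v ∈ Y.F γ)
    (h' : ∀ γ, ∀ v ∈ Y.F γ, e.inv v ∈ X.F γ) : X ≅ Y where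
  hom := ⟨e.hom, h⟩
  inv := ⟨e.inv, h'⟩
  hom_inv_id := hom_ext e.hom_inv_id
  inv_hom_id := hom_ext e.inv_hom_id

instance : HasZeroObject (Fil M) :=
  ⟨⟨⟨ModuleCat.of k2 PUnit, fun _ => ⊤, fun _ _ _ => le_rfl⟩, by
    rw [IsZero.iff_id_eq_zero]
    ext⟩⟩

/-- tensor product of filtered spaces -/
def tens (X Y : Fil M) : Fil M where
  V := X.V ⊗ Y.V
  F γ := Submodule.span k2 {z | ∃ α β, α + β = γ ∧ ∃ v ∈ X.F α, ∃ w ∈ Y.F β, z = v ⊗ₜ w}
  mono γ γ' h := by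
    apply Submodule.span_mono
    rintro _ ⟨α, β, rfl, v, hv, w, hw, rfl⟩
    exact ⟨α + (γ' - (α + β)), β, by abel, v, X.mono _ _ (by simpa using h) hv, w, hw, rfl⟩

theorem tmul_mem {X Y : Fil M} {α β γ : G} (h : α + β = γ) {v : X.V} {w : Y.V} (hv : v ∈ X.F α)
    (hw : w ∈ Y.F β) : (v ⊗ₜ w : (tens X Y).V) ∈ (tens X Y).F γ :=
  Submodule.subset_span ⟨α, β, h, v, hv, w, hw, rfl⟩

theorem tens_ind {X Y : Fil M} {W : Type} [AddCommGroup W] [Module k2 W]
    (f : (tens X Y).V →ₗ[k2] W) (N : Submodule k2 W) {γ : G}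
    (h : ∀ α β, α + β = γ → ∀ v ∈ X.F α, ∀ w ∈ Y.F β, f (v ⊗ₜ w) ∈ N) {z : (tens X Y).V}
    (hz : z ∈ (tens X Y).F γ) : f z ∈ N := by
  have : (tens X Y).F γ ≤ N.comap f := by
    apply Submodule.span_le.2
    rintro _ ⟨α, β, hαβ, v, hv, w, hw, rfl⟩
    exact h α β hαβ v hv w hw
  exact this hz

variable (M) in
/-- the line generated in filtration degree `δ` -/
def line (δ : G) : Fil M where
  V := 𝟙_ (ModuleCat.{0} k2)
  F γ := ⨆ (_ : γ - δ ∈ M), ⊤
  mono α β h := by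
    refine iSup_le fun hα => le_iSup_of_le ?_ le_rfl
    have := M.add_mem h hα
    simpa using this

theorem mem_line {δ γ : G} {v : (line M δ).V} : v ∈ (line M δ).F γ ↔ γ - δ ∈ M ∨ v = 0 := by
  by_cases h : γ - δ ∈ M <;> simp [line, h]

/-- tensor product of filtered maps -/
def tensHom {X X' Y Y' : Fil M} (f : X ⟶ X') (g : Y ⟶ Y') : tens X Y ⟶ tens X' Y' :=
  ⟨f.1 ⊗ₘ g.1, fun _ _ hz => tens_ind (f.1 ⊗ₘ g.1).hom _
    (fun _ _ h _ hv _ hw => tmul_mem h (map_mem f hv) (map_mem g hw)) hz⟩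

/-- braiding -/
def brd (X Y : Fil M) : tens X Y ≅ tens Y X :=
  isoMk (β_ X.V Y.V)
    (fun _ _ hz => tens_ind (β_ X.V Y.V).hom.hom _ (fun α β h v hv w hw => by
      erw [ModuleCat.MonoidalCategory.braiding_hom_apply]
      exact tmul_mem ((add_comm β α).trans h) hw hv) hz)
    (fun _ _ hz => tens_ind (X := Y) (Y := X) (β_ X.V Y.V).inv.hom _ (fun α β h v hv w hw => by
      erw [ModuleCat.MonoidalCategory.braiding_inv_apply]
      exact tmul_mem ((add_comm β α).trans h) hw hv) hz)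

/-- associator -/
def asc (X Y Z : Fil M) : tens (tens X Y) Z ≅ tens X (tens Y Z) :=
  isoMk (α_ X.V Y.V Z.V)
    (fun γ _ hz => tens_ind (α_ X.V Y.V Z.V).hom.hom _ (fun α β h u hu w hw =>
      tens_ind ((α_ X.V Y.V Z.V).hom.hom ∘ₗ (TensorProduct.mk k2 (tens X Y).V Z.V).flip w) _
        (fun α₁ α₂ h' v hv v' hv' =>
          tmul_mem (show α₁ + (α₂ + β) = γ by rw [← h, ← h', add_assoc]) hv
            (tmul_mem rfl hv' hw)) hu) hz)
    (fun γ _ hz => tens_ind (X := X) (Y := tens Y Z) (α_ X.V Y.V Z.V).inv.hom _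
      (fun α β h u hu w hw =>
      tens_ind ((α_ X.V Y.V Z.V).inv.hom ∘ₗ TensorProduct.mk k2 X.V (tens Y Z).V u) _
        (fun α₁ α₂ h' v hv v' hv' =>
          tmul_mem (show (α + α₁) + α₂ = γ by rw [← h, ← h', add_assoc]) (tmul_mem rfl hu hv)
            hv') hw) hz)

/-- twist of the filtration -/
def tw (ψ : G) (X : Fil M) : Fil M where
  V := X.V
  F γ := X.F (γ - ψ)
  mono α β h := X.mono _ _ (by simpa using h)

/-- tensoring with a line twists the filtration -/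
def lineTens (ψ : G) (X : Fil M) : tens (line M ψ) X ≅ tw ψ X :=
  isoMk (λ_ X.V)
    (fun γ _ hz => tens_ind (λ_ X.V).hom.hom _ (fun α β h c hc w hw => by
      erw [ModuleCat.MonoidalCategory.leftUnitor_hom_apply]
      rcases mem_line.1 hc with hc | rfl
      · refine Submodule.smul_mem _ _ (X.mono β _ ?_ hw)
        rw [← h]
        convert hc using 1
        abel
      · simp) hz)
    (fun γ v hv => by
      erw [ModuleCat.MonoidalCategory.leftUnitor_inv_apply]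
      exact tmul_mem (X := line M ψ) (show ψ + (γ - ψ) = γ by abel) (mem_line.2 (Or.inl (by simp)))
        hv)

/-- the trivial twist -/
def tw0 (X : Fil M) : tw 0 X ≅ X :=
  isoMk (Iso.refl _) (fun γ v hv => by simpa [tw] using hv) (fun γ v hv => by simpa [tw] using hv)

instance : MonoidalCategoryStruct (Fil M) where
  tensorObj := tens
  whiskerLeft X _ _ g := tensHom (𝟙 X) g
  whiskerRight f Y := tensHom f (𝟙 Y)
  tensorHom := tensHom
  tensorUnit := line M 0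
  associator := asc
  leftUnitor X := lineTens 0 X ≪≫ tw0 X
  rightUnitor X := isoMk (ρ_ X.V)
    (fun γ v hv => by
      have := map_mem ((brd X (line M 0)).hom ≫ (lineTens 0 X ≪≫ tw0 X).hom) hv
      have e : ((brd X (line M 0)).hom ≫ (lineTens 0 X ≪≫ tw0 X).hom).1 = (ρ_ X.V).hom := by
        change (β_ X.V (𝟙_ _)).hom ≫ (λ_ X.V).hom ≫ 𝟙 _ = _
        simp
      rwa [e] at this)
    (fun γ v hv => by
      erw [ModuleCat.MonoidalCategory.rightUnitor_inv_apply]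
      exact tmul_mem (Y := line M 0) (add_zero γ) hv (mem_line.2 (Or.inl (by simp))))

variable (M) in
/-- the forgetful functor is monoidal -/
def indData : Monoidal.InducingFunctorData (U M) where
  μIso _ _ := Iso.refl _
  εIso := Iso.refl _
  whiskerLeft_eq X _ _ f := by
    change 𝟙 X.V ⊗ₘ f.1 = 𝟙 _ ≫ X.V ◁ f.1 ≫ 𝟙 _
    simp
  whiskerRight_eq f Y := by
    change f.1 ⊗ₘ 𝟙 Y.V = 𝟙 _ ≫ f.1 ▷ Y.V ≫ 𝟙 _
    simp
  tensorHom_eq f g := by
    change f.1 ⊗ₘ g.1 = 𝟙 _ ≫ (f.1 ⊗ₘ g.1) ≫ 𝟙 _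
    simp
  associator_eq X Y Z := by
    change (α_ X.V Y.V Z.V).hom = (𝟙 _ ≫ (𝟙 (tens X Y).V ⊗ₘ 𝟙 Z.V)) ≫ (α_ X.V Y.V Z.V).hom ≫
      (𝟙 X.V ⊗ₘ 𝟙 (tens Y Z).V) ≫ 𝟙 _
    simp [tens]
  leftUnitor_eq X := by
    change (λ_ X.V).hom ≫ 𝟙 _ = (𝟙 _ ≫ (𝟙 _ ⊗ₘ 𝟙 X.V)) ≫ (λ_ X.V).hom
    simp
  rightUnitor_eq X := by
    change (ρ_ X.V).hom = (𝟙 _ ≫ (𝟙 X.V ⊗ₘ 𝟙 _)) ≫ (ρ_ X.V).hom
    simp

instance : MonoidalCategory (Fil M) := Monoidal.induced (U M) (indData M)

instance : (U M).Monoidal := (Monoidal.fromInducedCoreMonoidal (U M) (indData M)).toMonoidal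

instance : BraidedCategory (Fil M) :=
  BraidedCategory.ofFaithful (U M) brd (fun X Y => by
    change 𝟙 _ ≫ (β_ X.V Y.V).hom = (β_ X.V Y.V).hom ≫ 𝟙 _
    simp)

instance : SymmetricCategory (Fil M) where
  symmetry X Y := hom_ext (SymmetricCategory.symmetry X.V Y.V)

instance : MonoidalPreadditive (Fil M) := monoidalPreadditive_of_faithful (U M)

@[simp] theorem whiskerLeft_val (X : Fil M) {Y Z : Fil M} (f : Y ⟶ Z) :
    (X ◁ f).1 = X.V ◁ f.1 := id_tensorHom X.V f.1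

@[simp] theorem whiskerRight_val {X Y : Fil M} (f : X ⟶ Y) (Z : Fil M) :
    (f ▷ Z).1 = f.1 ▷ Z.V := tensorHom_id f.1 Z.V

/-! ### coproducts -/

open Classical in
/-- direct sum of filtered spaces -/
def dsum {J : Type} (Y : J → Fil M) : Fil M where
  V := ModuleCat.of k2 (⨁ j, (Y j).V)
  F γ := ⨆ j, ((Y j).F γ).map (DirectSum.lof k2 J (fun j => (Y j).V) j)
  mono α β h := iSup_mono fun j => Submodule.map_mono ((Y j).mono α β h)

open Classical in
/-- inclusion of a summand -/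
def dι {J : Type} (Y : J → Fil M) (j : J) : Y j ⟶ dsum Y :=
  ⟨ModuleCat.ofHom (DirectSum.lof k2 J (fun j => (Y j).V) j), fun _ _ hv =>
    Submodule.mem_iSup_of_mem j (Submodule.mem_map_of_mem hv)⟩

theorem dsum_ind {J : Type} {Y : J → Fil M} {W : Type} [AddCommGroup W] [Module k2 W]
    (f : (dsum Y).V →ₗ[k2] W) (N : Submodule k2 W) {γ : G}
    (h : ∀ j, ∀ v ∈ (Y j).F γ, f ((dι Y j).1 v) ∈ N) {z : (dsum Y).V}
    (hz : z ∈ (dsum Y).F γ) : f z ∈ N := by
  have : (dsum Y).F γ ≤ N.comap f := by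
    refine iSup_le fun j => ?_
    rintro _ ⟨v, hv, rfl⟩
    exact h j v hv
  exact this hz

open Classical in
/-- the underlying cofan is a colimit -/
def dsumIsColimitV {J : Type} (Y : J → Fil M) :
    IsColimit (Cofan.mk (dsum Y).V (fun j => (dι Y j).1)) :=
  Cofan.IsColimit.mk _
    (fun s => ModuleCat.ofHom (DirectSum.toModule k2 J s.pt (fun j => (s.inj j).hom)))
    (fun s j => by
      ext v
      exact DirectSum.toModule_lof (M := fun j => (Y j).V) (N := s.pt)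
        (φ := fun j => (s.inj j).hom) k2 j v)
    (fun s m hm => by
      ext1
      apply DirectSum.linearMap_ext
      intro j
      ext v
      simp only [LinearMap.comp_apply, ModuleCat.hom_ofHom, DirectSum.toModule_lof]
      rw [← hm j]
      rfl)

/-- a cofan whose underlying cofan is a colimit and whose filtration is final is a colimit -/
def isColimitOf {J : Type} {Y : J → Fil M} {Z : Fil M} (i : ∀ j, Y j ⟶ Z)
    (hV : IsColimit (Cofan.mk Z.V (fun j => (i j).1)))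
    (hF : ∀ (W : Fil M) (f : Z.V ⟶ W.V), (∀ j, (i j).1 ≫ f ∈ homSub (Y j) W) → f ∈ homSub Z W) :
    IsColimit (Cofan.mk Z i) :=
  Cofan.IsColimit.mk _
    (fun s => ⟨Cofan.IsColimit.desc hV (fun j => (s.inj j).1), hF _ _ fun j => by
      erw [Cofan.IsColimit.fac hV]
      exact (s.inj j).2⟩)
    (fun s j => hom_ext (Cofan.IsColimit.fac hV _ j))
    (fun s m hm => hom_ext (Cofan.IsColimit.hom_ext hV _ _ fun j => by
      erw [Cofan.IsColimit.fac hV]
      rw [← hm j]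
      rfl))

/-- the direct sum is a coproduct -/
def dsumIsColimit {J : Type} (Y : J → Fil M) : IsColimit (Cofan.mk (dsum Y) (dι Y)) :=
  isColimitOf _ (dsumIsColimitV Y) fun _ f hf γ _ hz =>
    dsum_ind f.hom _ (fun j v hv => hf j γ v hv) hz

instance : HasCoproducts.{0} (Fil M) :=
  hasCoproducts_of_colimit_cofans (fun Y => Cofan.mk (dsum Y) (dι Y)) dsumIsColimit

/-- tensoring preserves the direct sum -/
def tensIsColimit (X : Fil M) {J : Type} (Y : J → Fil M) :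
    IsColimit (Cofan.mk (X ⊗ dsum Y) (fun j => X ◁ dι Y j)) :=
  isColimitOf _
    (IsColimit.ofIsoColimit (isColimitCofanMkObjOfIsColimit (tensorLeft X.V) _ _ (dsumIsColimitV Y))
      (Cofan.ext (Iso.refl _) (fun j => by simp)))
    fun W f hf γ _ hz => tens_ind f.hom _ (fun α β h v hv w hw =>
      dsum_ind (f.hom ∘ₗ TensorProduct.mk k2 X.V (dsum Y).V v) _
        (fun j u hu => hf j γ _ (tmul_mem h hv hu)) hw) hz

instance (X : Fil M) (J : Type) : PreservesColimitsOfShape (Discrete J) (tensorLeft X) := by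
  have : ∀ Y : J → Fil M, PreservesColimit (Discrete.functor Y) (tensorLeft X) := fun Y =>
    preservesColimit_of_preserves_colimit_cocone (dsumIsColimit Y)
      ((isColimitMapCoconeCofanMkEquiv _ _ _).symm (tensIsColimit X Y))
  exact preservesColimitsOfShape_of_discrete _

theorem two (X Y : Fil M) (f : X ⟶ Y) : f + f = 0 := by
  apply hom_ext
  change f.1 + f.1 = 0
  rw [← two_smul k2, show (2 : k2) = 0 from rfl, zero_smul]

end Fil

/-- filtered vector spaces as an additive symmetric monoidal category -/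
def filA : ACat where
  A := Fil M
  two := Fil.two

end Pool.Agent.Lib.MP_ded707_al
end
end
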