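import Pool.Agent.Lib.MP_ded707_al.SubDefs
import Pool.Agent.Shared.SingHom.Main

-- part Pool.Agent.Lib.MP_ded707_al.Primes
section

/-!
The Balmer spectrum: existence of primes and Thomason subsets.
-/

set_option autoImplicit false
set_option backward.isDefEq.respectTransparency false
set_option backward.defeqAttrib.useBackward true

open CategoryTheory Limits Pretriangulated MonoidalCategory ZeroObject

noncomputable section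

namespace Pool.Agent.Lib.MP_ded707_al

namespace TTCat

variable {𝒯 : TTCat}

/-- the ideal quotient -/
theorem IsRCG.thick_quot (h : 𝒯.IsRCG) {J : Set 𝒯.T} (hJ : IsThickIdeal J) (a : 𝒯.T) :
    IsThickIdeal {x | Compact x ∧ x ⊗ a ∈ J} where
  compact _ hx := hx.1
  zero _ hx := ⟨compact_of_isZero hx, hJ.zero _ (isZero_tensR hx a)⟩
  shift x hx n := ⟨hx.1.shift n, hJ.iso (shiftTensIso x a n).symm (hJ.shift _ hx.2 n)⟩
  ext D hD h₁ h₃ := ⟨Compact.ext D hD h₁.1 h₃.1, by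
    obtain ⟨w, hw⟩ := tensR_dist a D hD
    exact hJ.ext _ hw h₁.2 h₃.2⟩
  retract x y r hy := ⟨hy.1.retract r, hJ.retract _ _ (r.map (tensorRight a)) hy.2⟩
  tensor b x hb hx := ⟨h.compact_tensor hb hx.1, hJ.iso (α_ _ _ _).symm (hJ.tensor b _ hb hx.2)⟩

theorem thick_sUnion {F : Set (Set 𝒯.T)} (hF : ∀ J ∈ F, IsThickIdeal J) (hne : F.Nonempty)
    (hd : DirectedOn (· ⊆ ·) F) : IsThickIdeal (⋃₀ F) where
  compact x := fun ⟨J, hJ, hx⟩ => (hF J hJ).compact x hx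
  zero x hx := hne.imp fun J hJ => ⟨hJ, (hF J hJ).zero x hx⟩
  shift x := fun ⟨J, hJ, hx⟩ n => ⟨J, hJ, (hF J hJ).shift x hx n⟩
  ext D hD := fun ⟨J, hJ, h₁⟩ ⟨J', hJ', h₃⟩ => by
    obtain ⟨K, hK, e, e'⟩ := hd J hJ J' hJ'
    exact ⟨K, hK, (hF K hK).ext D hD (e h₁) (e' h₃)⟩
  retract x y r := fun ⟨J, hJ, hy⟩ => ⟨J, hJ, (hF J hJ).retract x y r hy⟩
  tensor a x ha := fun ⟨J, hJ, hx⟩ => ⟨J, hJ, (hF J hJ).tensor a x ha hx⟩

/-- Balmer, Lemma 2.2 -/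
theorem IsRCG.exists_prime (h : 𝒯.IsRCG) {J S : Set 𝒯.T} (hJ : IsThickIdeal J)
    (hc : ∀ s ∈ S, Compact s) (h1 : 𝟙_ 𝒯.T ∈ S) (hm : ∀ s ∈ S, ∀ s' ∈ S, s ⊗ s' ∈ S)
    (hd : ∀ s ∈ S, s ∉ J) : ∃ P : 𝒯.Spc, J ⊆ P.carrier ∧ ∀ s ∈ S, s ∉ P.carrier := by
  obtain ⟨M, hJM, ⟨hM, hMS⟩, hmax⟩ := zorn_subset_nonempty
    {K : Set 𝒯.T | IsThickIdeal K ∧ ∀ s ∈ S, s ∉ K} (fun c hc hch hne =>
      ⟨⋃₀ c, ⟨thick_sUnion (fun K hK => (hc hK).1) hne hch.directedOn,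
        fun s hs ⟨K, hK, hsK⟩ => (hc hK).2 s hs hsK⟩, fun K hK => Set.subset_sUnion_of_mem hK⟩)
    J ⟨hJ, hd⟩
  have hsub : ∀ a, Compact a → M ⊆ {x | Compact x ∧ x ⊗ a ∈ M} := fun a ha x hx =>
    ⟨hM.compact x hx, hM.tensorR hx ha⟩
  have hsat : ∀ a, Compact a → ∀ c ∈ S, a ⊗ c ∈ M → a ∈ M := by
    intro a ha c hcS hac
    refine hmax (y := ⋃₀ ((fun c => {x | Compact x ∧ x ⊗ c ∈ M}) '' S))
      ⟨thick_sUnion ?_ ⟨_, _, h1, rfl⟩ ?_, ?_⟩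
      ((hsub c (hc c hcS)).trans (Set.subset_sUnion_of_mem ⟨c, hcS, rfl⟩))
      ⟨_, ⟨c, hcS, rfl⟩, ha, hac⟩
    · rintro _ ⟨c, -, rfl⟩
      exact h.thick_quot hM c
    · rintro _ ⟨c, hcS, rfl⟩ _ ⟨c', hcS', rfl⟩
      refine ⟨_, ⟨c ⊗ c', hm c hcS c' hcS', rfl⟩, fun x hx => ⟨hx.1, ?_⟩, fun x hx => ⟨hx.1, ?_⟩⟩
      · exact hM.iso (α_ _ _ _) (hM.tensorR hx.2 (hc c' hcS'))
      · exact hM.iso (α_ _ _ _ ≪≫ whiskerLeftIso x (β_ _ _)) (hM.tensorR hx.2 (hc c hcS))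
    · rintro s hs ⟨_, ⟨c, hcS, rfl⟩, -, hx⟩
      exact hMS _ (hm s hs c hcS) hx
  refine ⟨⟨M, hM, hMS _ h1, fun a b ha hb hab => ?_⟩, hJM, hMS⟩
  by_cases hS : ∀ s ∈ S, s ∉ {x | Compact x ∧ x ⊗ b ∈ M}
  · exact Or.inl (hmax ⟨h.thick_quot hM b, hS⟩ (hsub b hb) ⟨ha, hab⟩)
  · push Not at hS
    obtain ⟨s, hs, -, hsb⟩ := hS
    exact Or.inr (hsat b hb s hs (hM.iso (β_ _ _) hsb))

/-- tensor words -/
inductive Word (A : Set 𝒯.T) : 𝒯.T → Prop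
  | one : Word A (𝟙_ 𝒯.T)
  | base (x : 𝒯.T) : x ∈ A → Word A x
  | mul (x y : 𝒯.T) : Word A x → Word A y → Word A (x ⊗ y)

theorem Word.compact (h : 𝒯.IsRCG) {A : Set 𝒯.T} (hA : ∀ x ∈ A, Compact x) {s : 𝒯.T}
    (hs : Word A s) : Compact s := by
  induction hs with
  | one => exact h.compact_unit
  | base x hx => exact hA x hx
  | mul x y _ _ hx hy => exact h.compact_tensor hx hy

/-- thick ideals are radical, hence intersections of primes -/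
theorem IsRCG.exists_prime_not_mem (h : 𝒯.IsRCG) {J : Set 𝒯.T} (hJ : IsThickIdeal J) {x : 𝒯.T}
    (hx : Compact x) (hxJ : x ∉ J) : ∃ P : 𝒯.Spc, J ⊆ P.carrier ∧ x ∉ P.carrier := by
  have hA : ∀ z ∈ ({x} : Set 𝒯.T), Compact z := fun z hz => hz ▸ hx
  have key : ∀ s, Word {x} s → ∀ K, IsThickIdeal K → s ∈ K → x ∈ K := by
    intro s hs
    induction hs with
    | one => exact fun K hK h1 => hK.iso (ρ_ x) (hK.tensor x _ hx h1)
    | base z hz => exact fun K _ hz' => hz ▸ hz'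
    | mul s s' hs hs' ih ih' =>
      intro K hK hm
      have h1 := (ih _ (h.thick_quot hK s') ⟨hs.compact h hA, hm⟩).2
      have h2 := (ih' _ (h.thick_quot hK x) ⟨hs'.compact h hA, hK.iso (β_ _ _) h1⟩).2
      obtain ⟨y, hy, ⟨p⟩⟩ := h.exists_dual hx
      exact hK.retract _ _ (retractPairing x y)
        (hK.iso ((α_ _ _ _).symm ≪≫ whiskerRightIso (β_ _ _) x) (hK.tensor y _ hy h2))
  obtain ⟨P, h1, h2⟩ := h.exists_prime hJ (S := {s | Word {x} s}) (fun s hs => hs.compact h hA)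
    Word.one (fun s hs s' hs' => Word.mul s s' hs hs') fun s hs hsJ => hxJ (key s hs J hJ hsJ)
  exact ⟨P, h1, h2 x (Word.base x rfl)⟩

theorem IsRCG.nonempty_spc (h : 𝒯.IsRCG) (h1 : ¬ IsZero (𝟙_ 𝒯.T)) : Nonempty 𝒯.Spc := by
  obtain ⟨P, -⟩ := h.exists_prime_not_mem (h.isThickIdeal_ann (𝟙_ 𝒯.T)) h.compact_unit
    fun h0 => h1 (IsZero.of_iso h0.2 (λ_ _).symm)
  exact ⟨P⟩

theorem IsRCG.isCompact_compl_supp (h : 𝒯.IsRCG) {x : 𝒯.T} (hx : Compact x) :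
    IsCompact (supp x)ᶜ := by
  refine isCompact_generateFrom rfl fun F hF hcov => ?_
  let A : Set 𝒯.T := {y | Compact y ∧ (supp y)ᶜ ∈ F}
  have hA : ∀ y ∈ A, Compact y := fun y hy => hy.1
  have hJ : IsThickIdeal {z | ∀ K, IsThickIdeal K → x ∈ K → z ∈ K} :=
    ⟨fun z hz => hz _ h.isThickIdeal_compact hx, fun z hz K hK _ => hK.zero z hz,
      fun z hz n K hK hxK => hK.shift z (hz K hK hxK) n,
      fun D hD h₁ h₃ K hK hxK => hK.ext D hD (h₁ K hK hxK) (h₃ K hK hxK),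
      fun z y r hy K hK hxK => hK.retract z y r (hy K hK hxK),
      fun a z ha hz K hK hxK => hK.tensor a z ha (hz K hK hxK)⟩
  have key : ∀ s, Word A s → ∃ G ⊆ F, G.Finite ∧ (supp s)ᶜ ⊆ ⋃₀ G := by
    intro s hs
    induction hs with
    | one => exact ⟨∅, Set.empty_subset _, Set.finite_empty, fun P hP => (hP P.proper).elim⟩
    | base z hz => exact ⟨{_}, Set.singleton_subset_iff.mpr hz.2, Set.finite_singleton _, by simp⟩
    | mul s s' hs hs' ih ih' =>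
      obtain ⟨G, h1, h2, h3⟩ := ih
      obtain ⟨G', k1, k2, k3⟩ := ih'
      refine ⟨G ∪ G', Set.union_subset h1 k1, h2.union k2, fun P hP => ?_⟩
      rw [Set.sUnion_union]
      exact (P.prime s s' (hs.compact h hA) (hs'.compact h hA) (not_not.mp hP)).imp
        (fun e => h3 (not_not.mpr e)) fun e => k3 (not_not.mpr e)
  by_cases hd : ∀ s ∈ {s | Word A s}, s ∉ {z | ∀ K, IsThickIdeal K → x ∈ K → z ∈ K}
  · obtain ⟨P, h1, h2⟩ := h.exists_prime hJ (fun s hs => hs.compact h hA)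
      Word.one (fun s hs s' hs' => Word.mul s s' hs hs') hd
    obtain ⟨U, hU, hP⟩ := hcov (not_not.mpr (h1 fun _ _ hxK => hxK) : P ∈ (supp x)ᶜ)
    obtain ⟨y, hy, rfl⟩ := hF hU
    exact (hP (h2 y (Word.base y ⟨hy, hU⟩))).elim
  · push Not at hd
    obtain ⟨s, hs, hsJ⟩ := hd
    obtain ⟨G, h1, h2, h3⟩ := key s hs
    exact ⟨G, h1, h2, fun P hP => h3 (not_not.mpr (hsJ _ P.thick (not_not.mp hP)))⟩

theorem isOpen_compl_supp {x : 𝒯.T} (hx : Compact x) : IsOpen (supp x)ᶜ :=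
  TopologicalSpace.GenerateOpen.basic _ ⟨x, hx, rfl⟩

theorem exists_basic {U : Set 𝒯.Spc} (hU : IsOpen U) :
    ∀ Q ∈ U, ∃ x : 𝒯.T, Compact x ∧ Q ∈ (supp x)ᶜ ∧ (supp x)ᶜ ⊆ U := by
  induction hU with
  | basic V hV =>
    obtain ⟨x, hx, rfl⟩ := hV
    exact fun Q hQ => ⟨x, hx, hQ, subset_rfl⟩
  | univ => exact fun Q _ => ⟨0, compact_of_isZero (isZero_zero _),
      not_not.mpr (Q.thick.zero _ (isZero_zero _)), Set.subset_univ _⟩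
  | inter V W _ _ ih ih' =>
    intro Q hQ
    obtain ⟨x, hx, h1, h2⟩ := ih Q hQ.1
    obtain ⟨y, hy, k1, k2⟩ := ih' Q hQ.2
    refine ⟨x ⊞ y, hx.biprod hy, not_not.mpr (Q.thick.biprod (not_not.mp h1) (not_not.mp k1)),
      fun P hP => ⟨h2 (not_not.mpr ?_), k2 (not_not.mpr ?_)⟩⟩
    · exact P.thick.retract _ _ ⟨biprod.inl, biprod.fst, by simp⟩ (not_not.mp hP)
    · exact P.thick.retract _ _ ⟨biprod.inr, biprod.snd, by simp⟩ (not_not.mp hP)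
  | sUnion F _ ih =>
    rintro Q ⟨V, hV, hQ⟩
    obtain ⟨x, hx, h1, h2⟩ := ih V hV Q hQ
    exact ⟨x, hx, h1, h2.trans (Set.subset_sUnion_of_mem hV)⟩

theorem IsRCG.thomason_iff (h : 𝒯.IsRCG) (Y : Set 𝒯.Spc) :
    Thomason Y ↔ ∀ P ∈ Y, ∃ x : 𝒯.T, Compact x ∧ P ∈ supp x ∧ supp x ⊆ Y := by
  refine forall₂_congr fun P _ => ⟨fun ⟨Z, hZ, hc, hP, hY⟩ => ?_, fun ⟨x, hx, hP, hY⟩ =>
    ⟨supp x, ⟨isOpen_compl_supp hx⟩, h.isCompact_compl_supp hx, hP, hY⟩⟩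
  obtain ⟨x, hx, h1, h2⟩ : ∃ x : 𝒯.T, Compact x ∧ Zᶜ ⊆ (supp x)ᶜ ∧ (supp x)ᶜ ⊆ Zᶜ := by
    refine hc.induction_on (p := fun s => ∃ x : 𝒯.T, Compact x ∧ s ⊆ (supp x)ᶜ ∧ (supp x)ᶜ ⊆ Zᶜ)
      ⟨𝟙_ _, h.compact_unit, Set.empty_subset _, fun Q hQ => (hQ Q.proper).elim⟩
      (fun s t hst ⟨x, hx, h1, h2⟩ => ⟨x, hx, hst.trans h1, h2⟩) ?_ ?_
    · rintro s t ⟨x, hx, h1, h2⟩ ⟨y, hy, k1, k2⟩
      refine ⟨x ⊗ y, h.compact_tensor hx hy, ?_, fun Q hQ => ?_⟩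
      · rintro Q (hQ | hQ)
        · exact not_not.mpr (Q.thick.tensorR (not_not.mp (h1 hQ)) hy)
        · exact not_not.mpr (Q.thick.tensor x y hx (not_not.mp (k1 hQ)))
      · exact (Q.prime x y hx hy (not_not.mp hQ)).elim (fun e => h2 (not_not.mpr e))
          fun e => k2 (not_not.mpr e)
    · intro Q hQ
      obtain ⟨x, hx, h1, h2⟩ := exists_basic hZ.isOpen_compl Q hQ
      exact ⟨_, mem_nhdsWithin_of_mem_nhds ((isOpen_compl_supp hx).mem_nhds h1), x, hx,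
        subset_rfl, h2⟩
  exact ⟨x, hx, Set.compl_subset_compl.mp h2 hP, (Set.compl_subset_compl.mp h1).trans hY⟩

end TTCat

end Pool.Agent.Lib.MP_ded707_al
end
end

-- part Pool.Agent.Lib.MP_ded707_al.Chain
section

/-!
Singular chains modulo two filtered by positivity sets.
-/

set_option autoImplicit false
set_option backward.isDefEq.respectTransparency false
set_option backward.defeqAttrib.useBackward true

open Set Pool.Agent.Shared.SingHom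

noncomputable section

namespace Pool.Agent.Lib.MP_ded707_al

namespace Chain

/-- the segment between two points of the Hilbert cube -/
def seg (t : ℝ) (y z : HC) : HC := fun i => projIcc 0 1 zero_le_one ((1 - t) * y i + t * z i)

theorem seg_eq (t : ℝ) {y z : HC} {i : ℕ} (h : z i = y i) : seg t y z i = y i := by
  rw [seg, h, show (1 - t) * (y i : ℝ) + t * y i = y i by ring, projIcc_val]

theorem push_seg (g : C(HC, HC)) {K A : Set HC} (h : ∀ t, ∀ y ∈ K, seg t y (g y) ∈ A) {m : ℕ}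
    {z : Ch HC} (hz : z ∈ Z K m) (hg : push g z ∈ B A m) : z ∈ B A m := by
  have := push_sub_mem_B (g₀ := ContinuousMap.id HC) (g₁ := g) (A' := A)
    (fun q => seg q.1 q.2 (g q.2)) (Continuous.continuousOn (continuous_pi fun i =>
      continuous_projIcc.comp (by fun_prop))) (fun t _ y hy => h t y hy)
    (fun y _ => by ext i; simp [seg]) (fun y _ => by ext i; simp [seg]) hz
  rw [push_id] at this
  simpa using Submodule.sub_mem _ hg this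

theorem acyc_seg {A : Set HC} {p : HC} (hp : p ∈ A) (h : ∀ t, ∀ y ∈ A, seg t y p ∈ A) : Acyc A :=
  fun m _ hz => push_seg (ContinuousMap.const _ p) h hz (B_mono (singleton_subset_iff.2 hp) m
    (acyc_singleton p m (push_mem_Z _ (fun _ _ => rfl) hz)))

variable {X : Type} [TopologicalSpace X]

/-- reduction modulo two -/
def red : Ch X →+ (Sx X →₀ ZMod 2) := Finsupp.mapRange.addMonoidHom (Int.castAddHom (ZMod 2))

theorem red_apply (c : Ch X) (σ : Sx X) : red c σ = (c σ : ZMod 2) := rfl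

/-- the boundary modulo two -/
def d2 : (Sx X →₀ ZMod 2) →ₗ[ZMod 2] (Sx X →₀ ZMod 2) :=
  Finsupp.linearCombination (ZMod 2) fun σ => red (bd (Finsupp.single σ 1))

theorem d2_red (c : Ch X) : d2 (red c) = red (bd c) := by
  induction c using Finsupp.induction_linear with
  | zero => simp
  | add f g hf hg => simp only [map_add, hf, hg]
  | single σ n =>
    have : Finsupp.single σ n = n • Finsupp.single σ (1 : ℤ) := by simp
    rw [this, map_zsmul, map_zsmul, map_smul, map_zsmul]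
    congr 1
    simp [red, d2]

theorem red_mem {s : Set (Sx X)} {c : Ch X} (hc : c ∈ Finsupp.supported ℤ ℤ s) :
    red c ∈ Finsupp.supported (ZMod 2) (ZMod 2) s := by
  rw [Finsupp.mem_supported'] at hc ⊢
  intro σ hσ
  rw [red_apply, hc σ hσ, Int.cast_zero]

theorem exists_red {s : Set (Sx X)} {v : Sx X →₀ ZMod 2}
    (hv : v ∈ Finsupp.supported (ZMod 2) (ZMod 2) s) :
    ∃ c ∈ Finsupp.supported ℤ ℤ s, red c = v := by
  refine ⟨v.mapRange (fun a => (a.cast : ℤ)) ZMod.cast_zero, ?_, ?_⟩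
  · rw [Finsupp.mem_supported'] at hv ⊢
    intro σ hσ
    rw [Finsupp.mapRange_apply, hv σ hσ, ZMod.cast_zero]
  · ext σ
    rw [red_apply, Finsupp.mapRange_apply, ZMod.intCast_zmod_cast]

theorem mem_of_two {s : Set (Sx X)} {c : Ch X} (hc : c + c ∈ Finsupp.supported ℤ ℤ s) :
    c ∈ Finsupp.supported ℤ ℤ s := by
  rw [Finsupp.mem_supported'] at hc ⊢
  intro σ hσ
  have := hc σ hσ
  rw [Finsupp.add_apply] at this
  omega

theorem exists_half {c : Ch X} (hc : red c = 0) : ∃ c', c = c' + c' := by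
  refine ⟨c.mapRange (· / 2) (by simp), ?_⟩
  ext σ
  have : (c σ : ZMod 2) = 0 := by rw [← red_apply, hc]; rfl
  rw [ZMod.intCast_zmod_eq_zero_iff_dvd] at this
  simp only [Finsupp.add_apply, Finsupp.mapRange_apply]
  omega

theorem red_two (c : Ch X) : red (c + c) = 0 := by
  ext σ
  rw [map_add, Finsupp.add_apply]
  exact CharTwo.add_self_eq_zero _

/-- integral chains of simplices with `m` vertices and property `p` -/
def K1 (p : Sx X → Prop) (m : ℕ) : Submodule ℤ (Ch X) :=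
  Finsupp.supported ℤ ℤ {σ | σ.1 = m ∧ p σ}

/-- chains modulo two of simplices with `-m` vertices and property `p` -/
def K2 (p : Sx X → Prop) (m : ℤ) : Submodule (ZMod 2) (Sx X →₀ ZMod 2) :=
  Finsupp.supported (ZMod 2) (ZMod 2) {σ | (σ.1 : ℤ) = -m ∧ p σ}

theorem K2_eq (p : Sx X → Prop) {m : ℤ} {k : ℕ} (h : (k : ℤ) = -m) :
    K2 p m = Finsupp.supported (ZMod 2) (ZMod 2) {σ | σ.1 = k ∧ p σ} := by
  simp only [K2, ← h, Nat.cast_inj]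

theorem K2_zero {p : Sx X → Prop} {m : ℤ} (h : ∀ σ : Sx X, (σ.1 : ℤ) = -m → ¬ p σ)
    {v : Sx X →₀ ZMod 2} (hv : v ∈ K2 p m) : v = 0 := by
  ext σ
  exact (Finsupp.mem_supported' _ _).1 hv σ fun h' => h σ h'.1 h'.2

theorem K2_mono {p q : Sx X → Prop} (h : ∀ σ, p σ → q σ) (m : ℤ) : K2 p m ≤ K2 q m :=
  Finsupp.supported_mono fun σ hσ => ⟨hσ.1, h σ hσ.2⟩

theorem K2_sup (p q : Sx X → Prop) (m : ℤ) : K2 p m ⊔ K2 q m = K2 (fun σ => p σ ∨ q σ) m := by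
  simp only [K2, and_or_left, ← Finsupp.supported_union]
  rfl

theorem K1_sup (p q : Sx X → Prop) (m : ℕ) : K1 p m ⊔ K1 q m = K1 (fun σ => p σ ∨ q σ) m := by
  simp only [K1, and_or_left, ← Finsupp.supported_union]
  rfl

theorem K1_bd_zero {p : Sx X → Prop} {c : Ch X} (hc : c ∈ K1 p 0) : bd c = 0 :=
  bd_eq_zero (A := univ) fun _ hσ => ⟨(hc hσ).1, fun _ => trivial⟩

theorem d2_mem {p : Sx X → Prop} (hp : ∀ m, ∀ c ∈ K1 p m, bd c ∈ K1 p (m - 1)) {m : ℤ}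
    {v : Sx X →₀ ZMod 2} (hv : v ∈ K2 p m) : d2 v ∈ K2 p (m + 1) := by
  by_cases hm : 0 < m
  · rw [K2_zero (fun σ h => by omega) hv, map_zero]
    exact Submodule.zero_mem _
  · obtain ⟨k, hk⟩ := Int.eq_ofNat_of_zero_le (a := -m) (by omega)
    rw [K2_eq p hk.symm] at hv
    obtain ⟨c, hc, rfl⟩ := exists_red hv
    rw [d2_red]
    cases k with
    | zero => rw [K1_bd_zero hc, map_zero]; exact Submodule.zero_mem _
    | succ k =>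
      rw [K2_eq p (k := k) (by omega)]
      exact red_mem (hp _ c hc)

theorem transfer {p q : Sx X → Prop} (hqp : ∀ σ, q σ → p σ)
    (hp : ∀ m, ∀ c ∈ K1 p m, bd c ∈ K1 p (m - 1)) (hq : ∀ m, ∀ c ∈ K1 q m, bd c ∈ K1 q (m - 1))
    (h : AcK (K1 p) (K1 q)) {m : ℤ} {v : Sx X →₀ ZMod 2} (hv : v ∈ K2 p m)
    (hd : d2 v ∈ K2 q (m + 1)) : ∃ w ∈ K2 p (m - 1), v - d2 w ∈ K2 q m := by
  by_cases hm : 0 < m
  · rw [K2_zero (fun σ h => by omega) hv]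
    exact ⟨0, Submodule.zero_mem _, by simp⟩
  obtain ⟨k, hk⟩ := Int.eq_ofNat_of_zero_le (a := -m) (by omega)
  rw [K2_eq p hk.symm] at hv
  obtain ⟨b, hb, rfl⟩ := exists_red hv
  rw [K2_eq p (k := k + 1) (by omega), K2_eq q hk.symm]
  obtain ⟨b', hb', e, hd'⟩ : ∃ b' ∈ K1 p k, red b' = red b ∧ bd b' ∈ K1 q (k - 1) := by
    cases k with
    | zero => exact ⟨b, hb, rfl, by rw [K1_bd_zero hb]; exact Submodule.zero_mem _⟩
    | succ k =>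
      rw [K2_eq q (k := k) (by omega), d2_red] at hd
      obtain ⟨t, ht, e⟩ := exists_red hd
      obtain ⟨c, hc⟩ := exists_half (c := bd b - t) (by rw [map_sub, e, sub_self])
      have h1 : c ∈ K1 p k := mem_of_two (hc ▸ Submodule.sub_mem _ (hp _ b hb)
        fun σ hσ => ⟨(ht hσ).1, hqp σ (ht hσ).2⟩)
      have h2 : bd c ∈ K1 q (k - 1) := mem_of_two (by
        rw [← map_add, ← hc, map_sub, bd_bd, zero_sub]
        exact Submodule.neg_mem _ (hq _ t ht))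
      obtain ⟨c', hc', h3⟩ := h k c h1 h2
      refine ⟨b - (c' + c'), Submodule.sub_mem _ hb (Submodule.add_mem _ hc' hc'),
        by rw [map_sub, red_two, sub_zero], ?_⟩
      have : bd (b - (c' + c')) = t + ((c - bd c') + (c - bd c')) := by
        rw [map_sub, map_add, eq_add_of_sub_eq hc]
        abel
      rw [this]
      exact Submodule.add_mem _ ht (Submodule.add_mem _ h3 h3)
  obtain ⟨y, hy, h4⟩ := h k b' hb' hd'
  exact ⟨red y, red_mem hy, by rw [d2_red, ← e, ← map_sub]; exact red_mem h4⟩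

/-- simplices inside a set -/
def In (A : Set X) (σ : Sx X) : Prop := ∀ t, σ.2 t ∈ A

theorem In.bd (A : Set X) (m : ℕ) (c : Ch X) (hc : c ∈ K1 (In A) m) : bd c ∈ K1 (In A) (m - 1) :=
  bd_mem' (A := A) hc

theorem In.mono {A A' : Set X} (h : A ⊆ A') (m : ℤ) : K2 (In A) m ≤ K2 (In A') m :=
  K2_mono (fun _ hσ t => h (hσ t)) m

/-- the localized positivity set -/
def U (Φ : AddSubmonoid C(X, ℝ)) (γ : C(X, ℝ)) : Set X := {y | y ∈ zs Φ → 0 < γ y}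

theorem le_U (Φ : AddSubmonoid C(X, ℝ)) (γ : C(X, ℝ)) (m : ℤ) :
    K2 (In {y | 0 < γ y}) m ≤ K2 (In (U Φ γ)) m :=
  In.mono (A' := U Φ γ) (fun _ hy _ => hy) m

theorem U_eq {Φ : AddSubmonoid C(X, ℝ)} (hΦ : ∀ φ ∈ Φ, ∀ y, 0 ≤ φ y) (γ : C(X, ℝ)) :
    U Φ γ = ⋃ φ : Φ, {y | 0 < (γ + φ : C(X, ℝ)) y} := by
  ext y
  simp only [U, mem_ofPred_eq, mem_iUnion, ContinuousMap.add_apply]
  constructor
  · intro h
    by_cases hy : y ∈ zs Φ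
    · exact ⟨0, by simpa using h hy⟩
    · simp only [zs, mem_ofPred_eq, not_forall] at hy
      obtain ⟨φ, hφ, h0⟩ := hy
      obtain ⟨n, hn⟩ := exists_lt_nsmul (lt_of_le_of_ne (hΦ φ hφ y) (Ne.symm h0)) (-γ y)
      exact ⟨⟨n • φ, Φ.nsmul_mem hφ n⟩, by
        simp only [ContinuousMap.nsmul_apply]; linarith⟩
  · rintro ⟨φ, h⟩ hy
    rwa [hy φ φ.2, add_zero] at h

theorem isOpen_U {Φ : AddSubmonoid C(X, ℝ)} (hΦ : ∀ φ ∈ Φ, ∀ y, 0 ≤ φ y) (γ : C(X, ℝ)) :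
    IsOpen (U Φ γ) := by
  rw [U_eq hΦ]
  exact isOpen_iUnion fun φ => isOpen_lt continuous_const (map_continuous _)

theorem exists_phi {Φ : AddSubmonoid C(X, ℝ)} (hΦ : ∀ φ ∈ Φ, ∀ y, 0 ≤ φ y) {γ : C(X, ℝ)} {m : ℤ}
    {v : Sx X →₀ ZMod 2} (hv : v ∈ K2 (In (U Φ γ)) m) :
    ∃ φ ∈ Φ, v ∈ K2 (In {y | 0 < γ y + φ y}) m := by
  obtain ⟨φ, hφ⟩ := (v.support.isCompact_biUnion fun s _ =>
    isCompact_range s.2.continuous).elim_directed_cover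
    (fun φ : Φ => {y | 0 < (γ + φ : C(X, ℝ)) y})
    (fun φ => isOpen_lt continuous_const (map_continuous _)) (by
      rw [← U_eq hΦ]
      refine iUnion₂_subset fun s hs => ?_
      rintro _ ⟨t, rfl⟩
      exact (hv hs).2 t) (fun a b => ⟨a + b, fun y hy => by
        have := hΦ b b.2 y
        simp only [mem_ofPred_eq, ContinuousMap.add_apply, AddSubmonoid.coe_add] at hy ⊢
        linarith, fun y hy => by
        have := hΦ a a.2 y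
        simp only [mem_ofPred_eq, ContinuousMap.add_apply, AddSubmonoid.coe_add] at hy ⊢
        linarith⟩)
  exact ⟨φ, φ.2, fun s hs => ⟨(hv hs).1, fun t => hφ (mem_biUnion hs ⟨t, rfl⟩)⟩⟩

theorem mono_le {α : X → ℝ} {β : C(X, ℝ)} {m : ℤ} {v : Sx X →₀ ZMod 2}
    (h : v ∈ K2 (In {y | 0 < α y}) m) (h' : ∀ y, α y ≤ β y) : v ∈ K2 (In {y | 0 < β y}) m :=
  In.mono (fun y hy => lt_of_lt_of_le hy (h' y)) _ h

theorem ta {Φ : AddSubmonoid C(X, ℝ)} (hΦ : ∀ φ ∈ Φ, ∀ y, 0 ≤ φ y) (hu : Acyc (univ : Set X))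
    (hx : ∀ x : X, Acyc ({x}ᶜ : Set X)) (hs : (zs Φ).Subsingleton) {m : ℤ} {γ : C(X, ℝ)}
    {z : Sx X →₀ ZMod 2} (hz : z ∈ K2 (In {y | 0 < γ y}) m) (hd : d2 z = 0) :
    ∃ φ ∈ Φ, ∃ w ∈ K2 (In {y | 0 < (γ + φ) y}) (m - 1), d2 w = z := by
  have hac : Acyc (U Φ γ) := by
    have : (U Φ γ)ᶜ.Subsingleton := hs.anti fun y hy => by_contra fun h => hy fun h' => absurd h' h
    rcases this.eq_empty_or_singleton with h | ⟨x, h⟩
    · rwa [compl_empty_iff.1 h]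
    · rw [← compl_compl (U Φ γ), h]
      exact hx x
  have hbot : ∀ m, ∀ c : Ch X, c ∈ K1 (fun _ => False) m ↔ c = 0 := fun m c => by simp [K1]
  obtain ⟨w, hw, h⟩ := transfer (p := In (U Φ γ)) (q := fun _ => False) (fun _ h => h.elim)
    (In.bd _) (fun m c hc => by rw [hbot] at hc ⊢; rw [hc, map_zero])
    (fun m c hc hb => by
      obtain ⟨y, hy, e⟩ := hac m ⟨hc, (hbot _ _).1 hb⟩
      exact ⟨y, hy, (hbot _ _).2 (by rw [e, sub_self])⟩)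
    (le_U Φ γ m hz) (by rw [hd]; exact Submodule.zero_mem _)
  obtain ⟨φ, hφ, hw⟩ := exists_phi hΦ hw
  exact ⟨φ, hφ, w, hw, (sub_eq_zero.1 (K2_zero (fun _ _ h => h) h)).symm⟩

theorem mv {Φ : AddSubmonoid C(X, ℝ)} (hΦ : ∀ φ ∈ Φ, ∀ y, 0 ≤ φ y) {ψ₁ ψ₂ : C(X, ℝ)}
    (h₁ : ∀ y, 0 ≤ ψ₁ y) (h₂ : ∀ y, 0 ≤ ψ₂ y) (hψ : ∀ y ∈ zs Φ, ψ₁ y = 0 ∨ ψ₂ y = 0) {m : ℤ}
    {γ : C(X, ℝ)} {b : Sx X →₀ ZMod 2} (hb : b ∈ K2 (In {y | 0 < γ y}) m)
    (hd : d2 b ∈ K2 (In {y | 0 < (γ - ψ₁) y}) (m + 1) ⊔ K2 (In {y | 0 < (γ - ψ₂) y}) (m + 1)) :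
    ∃ φ ∈ Φ, ∃ w ∈ K2 (In {y | 0 < (γ + φ) y}) (m - 1),
      b - d2 w ∈ K2 (In {y | 0 < (γ + φ - ψ₁) y}) m ⊔ K2 (In {y | 0 < (γ + φ - ψ₂) y}) m := by
  have sub : ∀ ψ : C(X, ℝ), (∀ y, 0 ≤ ψ y) → U Φ (γ - ψ) ⊆ U Φ γ := fun ψ hψ y hy h => by
    have := hy h
    rw [ContinuousMap.sub_apply] at this
    linarith [hψ y]
  have hexc := exc_of_open (A := U Φ γ) (isOpen_U hΦ (γ - ψ₁)) (isOpen_U hΦ (γ - ψ₂))
    (fun y hy => by
      by_cases h : y ∈ zs Φ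
      · exact (hψ y h).imp (fun h' _ => by simpa [h'] using hy h)
          (fun h' _ => by simpa [h'] using hy h)
      · exact .inl fun h' => absurd h' h)
    (inter_eq_right.2 (sub _ h₁)).symm (inter_eq_right.2 (sub _ h₂)).symm rfl
  obtain ⟨w, hw, h⟩ := transfer (p := In (U Φ γ))
    (q := fun σ => In (U Φ (γ - ψ₁)) σ ∨ In (U Φ (γ - ψ₂)) σ)
    (fun σ h t => h.elim (fun h => sub _ h₁ (h t)) (fun h => sub _ h₂ (h t))) (In.bd _)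
    (fun m c hc => by
      rw [← K1_sup] at hc ⊢
      exact map_sup_mem (In.bd _ m) (In.bd _ m) hc)
    (fun m c hc hb => by
      rw [← K1_sup] at hb ⊢
      exact hexc.small m c hc hb)
    (le_U Φ γ m hb) ((K2_sup _ _ _).le (sup_le_sup (le_U Φ _ _) (le_U Φ _ _) hd))
  obtain ⟨v₁, k₁, v₂, k₂, e⟩ := Submodule.mem_sup.1
    ((K2_sup (In (U Φ (γ - ψ₁))) (In (U Φ (γ - ψ₂))) m).ge h)
  obtain ⟨φ, hφ, hw⟩ := exists_phi hΦ hw
  obtain ⟨φ₁, hφ₁, k₁⟩ := exists_phi hΦ k₁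
  obtain ⟨φ₂, hφ₂, k₂⟩ := exists_phi hΦ k₂
  refine ⟨φ + φ₁ + φ₂, Φ.add_mem (Φ.add_mem hφ hφ₁) hφ₂, w, mono_le hw fun y => ?_,
    Submodule.mem_sup.2 ⟨v₁, mono_le k₁ fun y => ?_, v₂, mono_le k₂ fun y => ?_, e⟩⟩
  all_goals
    simp only [ContinuousMap.sub_apply, ContinuousMap.add_apply]
    linarith [hΦ _ hφ y, hΦ _ hφ₁ y, hΦ _ hφ₂ y]

theorem mv' {Φ : AddSubmonoid C(X, ℝ)} (hΦ : ∀ φ ∈ Φ, ∀ y, 0 ≤ φ y) {ψ₁ ψ₂ : C(X, ℝ)}
    (hψ : ∀ y ∈ zs Φ, ψ₁ y = 0 ∨ ψ₂ y = 0) {m : ℤ} {γ : C(X, ℝ)} {v : Sx X →₀ ZMod 2}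
    (h₁ : v ∈ K2 (In {y | 0 < (γ - ψ₁) y}) m) (h₂ : v ∈ K2 (In {y | 0 < (γ - ψ₂) y}) m) :
    ∃ φ ∈ Φ, v ∈ K2 (In {y | 0 < (γ + φ - ψ₁ - ψ₂) y}) m := by
  obtain ⟨φ, hφ, h⟩ := exists_phi hΦ (γ := γ - ψ₁ - ψ₂) (m := m)
    (v := v) fun σ hσ => ⟨(h₁ hσ).1, fun t h => by
      have e₁ := (h₁ hσ).2 t
      have e₂ := (h₂ hσ).2 t
      simp only [mem_ofPred_eq, ContinuousMap.sub_apply] at e₁ e₂ ⊢
      rcases hψ _ h with h' | h' <;> linarith⟩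
  refine ⟨φ, hφ, mono_le h fun y => ?_⟩
  simp only [ContinuousMap.sub_apply, ContinuousMap.add_apply]
  linarith

theorem nonz : ∃ z ∈ K2 (In {y | 0 < (0 : C(X, ℝ)) y}) 0, d2 z = 0 ∧
    ∀ w ∈ K2 (In {y | 0 < (0 : C(X, ℝ)) y}) (0 - 1), d2 w ≠ z := by
  let σ : C(Dl 0, X) := ⟨isEmptyElim, continuous_of_discreteTopology⟩
  refine ⟨Finsupp.single ⟨0, σ⟩ 1,
    Finsupp.single_mem_supported _ _ ⟨rfl, fun t => isEmptyElim t⟩, ?_, fun w hw => ?_⟩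
  · simp [d2, bd_zero]
  · rw [K2_zero (fun ⟨k, τ⟩ h h' => ?_) hw, map_zero]
    · exact (Finsupp.single_ne_zero.2 one_ne_zero).symm
    · obtain rfl : k = 1 := by simpa using h
      exact lt_irrefl (0 : ℝ) (h' (Classical.arbitrary _))

end Chain

open Chain

theorem acyc_cube : Acyc (univ : Set HC) :=
  acyc_seg (p := fun _ => 0) trivial fun _ _ _ => trivial

theorem acyc_cube_compl (x : HC) : Acyc ({x}ᶜ : Set HC) := by
  intro m z hz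
  obtain ⟨K, hK, hKx, hzK⟩ := exists_compact hz.1
  obtain ⟨n, hn⟩ := hK.elim_directed_cover (fun n : ℕ => ⋃ i < n, {y : HC | y i ≠ x i})
    (fun n => isOpen_iUnion fun i => isOpen_iUnion fun _ =>
      isOpen_ne_fun (continuous_apply i) continuous_const)
    (fun y hy => by
      obtain ⟨i, hi⟩ := Function.ne_iff.1 (hKx hy)
      exact mem_iUnion.2 ⟨i + 1, mem_iUnion₂.2 ⟨i, Nat.lt_succ_self i, hi⟩⟩)
    (Monotone.directed_le fun a b hab => biUnion_subset_biUnion_left fun i hi => lt_of_lt_of_le hi hab)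
  obtain ⟨c, hc⟩ := exists_ne (x n)
  let g : C(HC, HC) := ⟨fun y => Function.update y n c, continuous_id.update n continuous_const⟩
  refine push_seg g (K := K) (A := {x}ᶜ) (fun t y hy h => ?_) ⟨hzK, hz.2⟩
    (B_mono (A := {y : HC | y n = c}) ?_ m
    (acyc_seg (A := {y : HC | y n = c}) (p := fun _ => c) rfl (fun t y hy => ?_) m
      (push_mem_Z g (A := K) (fun y _ => Function.update_self ..) ⟨hzK, hz.2⟩)))
  · obtain ⟨i, hi, hy⟩ := mem_iUnion₂.1 (hn hy)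
    refine hy ?_
    rw [← seg_eq t (z := g y) (Function.update_of_ne (ne_of_lt hi) ..), h]
  · rintro y hy rfl
    exact hc (Eq.symm hy)
  · exact (seg_eq t (z := fun _ => c) (i := n) (Eq.symm hy)).trans hy

theorem exists_FC {X : Type} [TopologicalSpace X] (M : AddSubmonoid C(X, ℝ))
    (hM : ∀ φ ∈ M, ∀ y, 0 ≤ φ y) (hu : Acyc (univ : Set X)) (hx : ∀ x : X, Acyc ({x}ᶜ : Set X)) :
    ∃ E : FC M, E.NonZ ∧
      (∀ Φ : AddSubmonoid C(X, ℝ), Φ ≤ M → (zs Φ).Subsingleton → E.TA Φ) ∧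
      ∀ Φ : AddSubmonoid C(X, ℝ), Φ ≤ M → ∀ ψ₁ ∈ M, ∀ ψ₂ ∈ M,
        (∀ y ∈ zs Φ, ψ₁ y = 0 ∨ ψ₂ y = 0) → E.MV Φ ψ₁ ψ₂ := by
  refine ⟨
    { V := Sx X →₀ ZMod 2
      d := d2
      dd := fun v => ?_
      F := fun m γ => K2 (In {y | 0 < γ y}) m
      mono := fun m α β h v hv => mono_le hv fun y => by simpa using hM _ h y
      dF := fun m γ v hv => d2_mem (In.bd _) hv }, ⟨0, 0, nonz⟩,
    fun Φ hΦ hs m γ z hz hd => ta (fun φ h => hM φ (hΦ h)) hu hx hs hz hd,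
    fun Φ hΦ ψ₁ h₁ ψ₂ h₂ hψ =>
      ⟨fun m γ b hb hd => mv (fun φ h => hM φ (hΦ h)) (hM _ h₁) (hM _ h₂) hψ hb hd,
        fun m γ v hv => mv' (fun φ h => hM φ (hΦ h)) hψ hv.1 hv.2⟩⟩
  obtain ⟨c, -, rfl⟩ := exists_red (s := univ) (v := v) fun _ _ => trivial
  rw [d2_red, d2_red, bd_bd, map_zero]

end Pool.Agent.Lib.MP_ded707_al
end
end

-- part Pool.Agent.Lib.MP_ded707_al.KCompat
section

/-!
Compatibility of the tensor product with the shift in the homotopy category.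
-/

set_option autoImplicit false
set_option backward.isDefEq.respectTransparency false
set_option backward.defeqAttrib.useBackward true

open CategoryTheory Limits Pretriangulated MonoidalCategory ZeroObject

noncomputable section

namespace Pool.Agent.Lib.MP_ded707_al

namespace ACat

variable {𝒜 : ACat}

/-- the shift isomorphism on complexes -/
def shC (K L : 𝒜.Cx) (n : ℤ) : K ⊗ L⟦n⟧ ⟶ (K ⊗ L)⟦n⟧ :=
  ((tensorLeft K).commShiftIso n).hom.app L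

@[reassoc]
theorem ιT_shC (K L : 𝒜.Cx) (n p q m : ℤ) (h : p + q = m) :
    ιT K (L⟦n⟧) p q m h ≫ (shC K L n).f m = ιT K L p (q + n) (m + n) (by omega) := by
  refine (CochainComplex.ι_mapBifunctorShift₂Iso_hom_f K L (curriedTensor 𝒜.A) n p q m h
    (q + n) (m + n) rfl rfl).trans ?_
  rw [units_smul]
  simp

theorem shC_nat {K K' : 𝒜.Cx} (f : K ⟶ K') (L : 𝒜.Cx) (n : ℤ) :
    f ▷ L⟦n⟧ ≫ shC K' L n = shC K L n ≫ (f ▷ L)⟦n⟧' := by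
  ext m
  apply extT
  intro p q h
  rw [HomologicalComplex.comp_f, HomologicalComplex.comp_f, ιT_whiskerRight_assoc, ιT_shC,
    ιT_shC_assoc]
  exact (ιT_whiskerRight f L p (q + n) (m + n) _).symm

theorem leftUnitor_inv_f (K : 𝒜.Cx) (i : ℤ) :
    (λ_ K).inv.f i = (λ_ (K.X i)).inv ≫
      (HomologicalComplex.singleObjXSelf (ComplexShape.up ℤ) 0 (𝟙_ 𝒜.A)).inv ▷ (K.X i) ≫
        ιT (𝟙_ 𝒜.Cx) K 0 i i (zero_add i) :=
  HomologicalComplex.leftUnitor'_inv K i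

theorem shC_unit (L : 𝒜.Cx) (n : ℤ) :
    shC (𝟙_ 𝒜.Cx) L n ≫ (λ_ L).hom⟦n⟧' = (λ_ (L⟦n⟧)).hom := by
  have h : (λ_ (L⟦n⟧)).inv ≫ shC (𝟙_ 𝒜.Cx) L n = (λ_ L).inv⟦n⟧' := by
    ext m
    rw [HomologicalComplex.comp_f, leftUnitor_inv_f, Category.assoc, Category.assoc, ιT_shC]
    exact (leftUnitor_inv_f L (m + n)).symm
  rw [← cancel_epi (λ_ (L⟦n⟧)).inv, reassoc_of% h, Iso.inv_hom_id, ← Functor.map_comp,
    Iso.inv_hom_id, CategoryTheory.Functor.map_id]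

@[reassoc]
theorem ιT_assoc (K L M : 𝒜.Cx) (p q r s m : ℤ) (h : p + q = s) (h' : s + r = m) :
    ιT K L p q s h ▷ M.X r ≫ ιT (K ⊗ L) M s r m h' ≫ (α_ K L M).hom.f m =
      (α_ (K.X p) (L.X q) (M.X r)).hom ≫ K.X p ◁ ιT L M q r (q + r) rfl ≫
        ιT K (L ⊗ M) p (q + r) m (by omega) := by
  have h1 := HomologicalComplex.ι_mapBifunctorAssociatorX_hom (curriedAssociatorNatIso 𝒜.A)
    K L M (ComplexShape.up ℤ) (ComplexShape.up ℤ) (ComplexShape.up ℤ) p q r m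
    (by change p + q + r = m; omega)
  rw [HomologicalComplex.mapBifunctor₁₂.ι_eq _ _ _ _ _ _ _ p q r s m h h',
    HomologicalComplex.mapBifunctor₂₃.ι_eq _ _ _ _ _ _ _ _ p q r (q + r) m rfl
      (by change p + (q + r) = m; omega), Category.assoc] at h1
  exact h1

theorem ext₃ {K L M : 𝒜.Cx} {m : ℤ} {Y : 𝒜.A} {f g : ((K ⊗ L) ⊗ M).X m ⟶ Y}
    (h : ∀ p q r (h : p + q + r = m),
      ιT K L p q (p + q) rfl ▷ M.X r ≫ ιT (K ⊗ L) M (p + q) r m h ≫ f =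
        ιT K L p q (p + q) rfl ▷ M.X r ≫ ιT (K ⊗ L) M (p + q) r m h ≫ g) : f = g := by
  refine HomologicalComplex.mapBifunctor₁₂.hom_ext (F₁₂ := curriedTensor 𝒜.A)
    (G := curriedTensor 𝒜.A) (K₁ := K) (K₂ := L) (K₃ := M) (c₁₂ := ComplexShape.up ℤ)
    (c₄ := ComplexShape.up ℤ) fun p q r hh => ?_
  rw [HomologicalComplex.mapBifunctor₁₂.ι_eq _ _ _ _ _ _ _ p q r (p + q) m rfl hh,
    Category.assoc, Category.assoc]
  exact h p q r hh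

theorem ιT_congr (K L M : 𝒜.Cx) (p q r s s' m : ℤ) (h : q + r = s) (h' : q + r = s')
    (e : p + s = m) (e' : p + s' = m) :
    K.X p ◁ ιT L M q r s h ≫ ιT K (L ⊗ M) p s m e =
      K.X p ◁ ιT L M q r s' h' ≫ ιT K (L ⊗ M) p s' m e' := by
  subst h
  subst h'
  rfl

theorem shC_assoc (K K' L : 𝒜.Cx) (n : ℤ) :
    (α_ K K' (L⟦n⟧)).hom ≫ K ◁ shC K' L n ≫ shC K (K' ⊗ L) n =
      shC (K ⊗ K') L n ≫ (α_ K K' L).hom⟦n⟧' := by
  ext m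
  apply ext₃
  intro p q r h
  rw [HomologicalComplex.comp_f, HomologicalComplex.comp_f, HomologicalComplex.comp_f,
    ιT_assoc_assoc, ιT_whiskerLeft_assoc, ιT_shC, ιT_shC_assoc, ← whiskerLeft_comp_assoc, ιT_shC]
  refine Eq.trans ?_ (ιT_assoc K K' L p q (r + n) (p + q) (m + n) rfl (by omega)).symm
  exact congrArg (_ ≫ ·) (ιT_congr K K' L p q (r + n) _ _ (m + n) _ _ _ _)

theorem braiding_of_iso {X : 𝒜.A} (e : X ≅ 𝟙_ 𝒜.A) : (β_ X X).hom = 𝟙 _ := by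
  rw [← cancel_mono (e.hom ⊗ₘ e.hom), ← BraidedCategory.braiding_naturality,
    braiding_tensorUnit_left, unitors_equal, Iso.hom_inv_id, Category.comp_id, Category.id_comp]

theorem braiding_shift : (β_ ((𝟙_ 𝒜.Cx)⟦(1 : ℤ)⟧) ((𝟙_ 𝒜.Cx)⟦(1 : ℤ)⟧)).hom = -𝟙 _ := by
  ext m
  apply extT
  intro p q h
  rw [ιT_braiding, HomologicalComplex.neg_f_apply, neg_eq, HomologicalComplex.id_f,
    Category.comp_id]
  have hz : ∀ i : ℤ, i ≠ -1 → IsZero (((𝟙_ 𝒜.Cx)⟦(1 : ℤ)⟧).X i) := fun i hi =>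
    HomologicalComplex.isZero_single_obj_X (ComplexShape.up ℤ) 0 (𝟙_ 𝒜.A) (i + 1) (by omega)
  have he : ∀ i : ℤ, i + 1 = 0 → (((𝟙_ 𝒜.Cx)⟦(1 : ℤ)⟧).X i ≅ 𝟙_ 𝒜.A) := fun i hi =>
    HomologicalComplex.singleObjXIsoOfEq (ComplexShape.up ℤ) 0 (𝟙_ 𝒜.A) (i + 1) hi
  by_cases hp : p = -1
  · by_cases hq : q = -1
    · subst hp
      subst hq
      rw [braiding_of_iso (he (-1) (by norm_num)), Category.id_comp]
    · exact ((tensorLeft _).map_isZero (hz q hq)).eq_of_src _ _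
  · exact ((tensorRight _).map_isZero (hz p hp)).eq_of_src _ _

/-- the quotient functor commutes with the shift -/
def eQ (L : 𝒜.Cx) (n : ℤ) : 𝒜.Q.obj (L⟦n⟧) ≅ (𝒜.Q.obj L)⟦n⟧ := (𝒜.Q.commShiftIso n).app L

@[reassoc]
theorem eQ_nat {L L' : 𝒜.Cx} (f : L ⟶ L') (n : ℤ) :
    𝒜.Q.map (f⟦n⟧') ≫ (eQ L' n).hom = (eQ L n).hom ≫ (𝒜.Q.map f)⟦n⟧' :=
  𝒜.Q.commShiftIso_hom_naturality f n

/-- the shift isomorphism on the homotopy category -/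
def shK (X Y : 𝒜.K) (n : ℤ) : X ⊗ Y⟦n⟧ ⟶ (X ⊗ Y)⟦n⟧ :=
  ((tensorLeft X).commShiftIso n).hom.app Y

theorem shK_Q' (K L : 𝒜.Cx) (n : ℤ) :
    shK (𝒜.Q.obj K) (𝒜.Q.obj L) n =
      𝒜.Q.obj K ◁ (eQ L n).inv ≫ 𝒜.Q.map (shC K L n) ≫ (eQ (K ⊗ L) n).hom :=
  commShiftK_hom_app K L n

theorem shK_Q (K L : 𝒜.Cx) (n : ℤ) :
    𝒜.Q.obj K ◁ (eQ L n).hom ≫ shK (𝒜.Q.obj K) (𝒜.Q.obj L) n =
      𝒜.Q.map (shC K L n) ≫ (eQ (K ⊗ L) n).hom := by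
  rw [shK_Q', whiskerLeft_hom_inv_assoc]

theorem shK_nat {K K' : 𝒜.Cx} (f : K ⟶ K') (L : 𝒜.Cx) (n : ℤ) :
    𝒜.Q.map f ▷ (𝒜.Q.obj L)⟦n⟧ ≫ shK (𝒜.Q.obj K') (𝒜.Q.obj L) n =
      shK (𝒜.Q.obj K) (𝒜.Q.obj L) n ≫ (𝒜.Q.map f ▷ 𝒜.Q.obj L)⟦n⟧' := by
  rw [← cancel_epi (𝒜.Q.obj K ◁ (eQ L n).hom), whisker_exchange_assoc, shK_Q,
    ← Category.assoc (𝒜.Q.obj K ◁ (eQ L n).hom), shK_Q]
  change 𝒜.Q.map (f ▷ L⟦n⟧) ≫ 𝒜.Q.map (shC K' L n) ≫ (eQ (K' ⊗ L) n).hom =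
    (𝒜.Q.map (shC K L n) ≫ (eQ (K ⊗ L) n).hom) ≫ (𝒜.Q.map (f ▷ L))⟦n⟧'
  rw [← Functor.map_comp_assoc, shC_nat, Functor.map_comp_assoc, eQ_nat, Category.assoc]

theorem shK_unit (L : 𝒜.Cx) (n : ℤ) :
    shK (𝟙_ 𝒜.K) (𝒜.Q.obj L) n ≫ (λ_ (𝒜.Q.obj L)).hom⟦n⟧' = (λ_ ((𝒜.Q.obj L)⟦n⟧)).hom := by
  rw [← cancel_epi (𝟙_ 𝒜.K ◁ (eQ L n).hom), leftUnitor_naturality, ← Category.assoc]
  refine (congrArg (· ≫ _) (shK_Q (𝟙_ 𝒜.Cx) L n)).trans ?_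
  change (𝒜.Q.map (shC (𝟙_ 𝒜.Cx) L n) ≫ (eQ (𝟙_ 𝒜.Cx ⊗ L) n).hom) ≫ (𝒜.Q.map (λ_ L).hom)⟦n⟧' =
    𝒜.Q.map (λ_ (L⟦n⟧)).hom ≫ (eQ L n).hom
  rw [Category.assoc, ← eQ_nat, ← Functor.map_comp_assoc, shC_unit]

theorem shK_assoc (K K' L : 𝒜.Cx) (n : ℤ) :
    (α_ (𝒜.Q.obj K) (𝒜.Q.obj K') ((𝒜.Q.obj L)⟦n⟧)).hom ≫
      𝒜.Q.obj K ◁ shK (𝒜.Q.obj K') (𝒜.Q.obj L) n ≫
        shK (𝒜.Q.obj K) (𝒜.Q.obj K' ⊗ 𝒜.Q.obj L) n =
      shK (𝒜.Q.obj K ⊗ 𝒜.Q.obj K') (𝒜.Q.obj L) n ≫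
        (α_ (𝒜.Q.obj K) (𝒜.Q.obj K') (𝒜.Q.obj L)).hom⟦n⟧' := by
  rw [← cancel_epi ((𝒜.Q.obj K ⊗ 𝒜.Q.obj K') ◁ (eQ L n).hom), associator_naturality_right_assoc,
    ← whiskerLeft_comp_assoc, shK_Q, ← Category.assoc (_ ◁ (eQ L n).hom)]
  refine Eq.trans ?_ (congrArg (· ≫ _) (shK_Q (K ⊗ K') L n)).symm
  change 𝒜.Q.map (α_ K K' (L⟦n⟧)).hom ≫
    𝒜.Q.obj K ◁ (𝒜.Q.map (shC K' L n) ≫ (eQ (K' ⊗ L) n).hom) ≫
      shK (𝒜.Q.obj K) (𝒜.Q.obj (K' ⊗ L)) n =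
    (𝒜.Q.map (shC (K ⊗ K') L n) ≫ (eQ ((K ⊗ K') ⊗ L) n).hom) ≫ (𝒜.Q.map (α_ K K' L).hom)⟦n⟧'
  rw [whiskerLeft_comp_assoc, shK_Q, Category.assoc, ← eQ_nat, ← Functor.map_comp_assoc,
    ← shC_assoc, Functor.map_comp_assoc, Functor.map_comp_assoc]
  rfl

theorem braidingK_shift : (β_ ((𝟙_ 𝒜.K)⟦(1 : ℤ)⟧) ((𝟙_ 𝒜.K)⟦(1 : ℤ)⟧)).hom = -𝟙 _ := by
  have h : (β_ (𝒜.Q.obj ((𝟙_ 𝒜.Cx)⟦(1 : ℤ)⟧)) (𝒜.Q.obj ((𝟙_ 𝒜.Cx)⟦(1 : ℤ)⟧))).hom = -𝟙 _ :=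
    (congrArg 𝒜.Q.map braiding_shift).trans
      (𝒜.Q.map_neg.trans (congrArg Neg.neg (𝒜.Q.map_id _)))
  have e : 𝒜.Q.obj ((𝟙_ 𝒜.Cx)⟦(1 : ℤ)⟧) ≅ (𝟙_ 𝒜.K)⟦(1 : ℤ)⟧ := eQ (𝟙_ 𝒜.Cx) 1
  rw [← cancel_epi (e.hom ⊗ₘ e.hom), BraidedCategory.braiding_naturality, h, Preadditive.neg_comp,
    Preadditive.comp_neg, Category.id_comp, Category.comp_id]

theorem compatK (𝒜 : ACat) : 𝒜.KTT.Compat := by
  constructor
  · rintro ⟨K⟩ ⟨K'⟩ ⟨L⟩ f n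
    obtain ⟨f, rfl⟩ := 𝒜.Q.map_surjective f
    exact shK_nat f L n
  · rintro ⟨L⟩ n
    exact shK_unit L n
  · rintro ⟨K⟩ ⟨K'⟩ ⟨L⟩ n
    exact shK_assoc K K' L n
  · exact braidingK_shift

end ACat

end Pool.Agent.Lib.MP_ded707_al
end
end

-- part Pool.Agent.Lib.MP_ded707_al.Geo
section

/-!
The monoid of functions on the Hilbert cube.
-/

set_option autoImplicit false
set_option backward.isDefEq.respectTransparency false
set_option backward.defeqAttrib.useBackward true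

open Set

noncomputable section

namespace Pool.Agent.Lib.MP_ded707_al

namespace Geo

/-- distance to a coordinate half-space -/
def hs (h : ℕ × SignType × ℝ) : C(HC, ℝ) :=
  ⟨fun y => max (h.2.2 - h.2.1 * (y h.1 : ℝ)) 0, by fun_prop⟩

/-- sum of distances to half-spaces -/
def dT (T : List (ℕ × SignType × ℝ)) : C(HC, ℝ) := (T.map hs).sum

theorem hs_nonneg (h : ℕ × SignType × ℝ) (y : HC) : 0 ≤ hs h y := le_max_right _ _

theorem hs_eq_zero {h : ℕ × SignType × ℝ} {y : HC} : hs h y = 0 ↔ h.2.2 ≤ h.2.1 * (y h.1 : ℝ) := by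
  change max _ _ = 0 ↔ _
  rw [max_eq_right_iff, sub_nonpos]

theorem dT_cons (h : ℕ × SignType × ℝ) (T : List (ℕ × SignType × ℝ)) (y : HC) :
    dT (h :: T) y = hs h y + dT T y := by simp [dT]

theorem dT_nonneg (T : List (ℕ × SignType × ℝ)) (y : HC) : 0 ≤ dT T y := by
  induction T with
  | nil => simp [dT]
  | cons h T ih => rw [dT_cons]; exact add_nonneg (hs_nonneg h y) ih

theorem hs_le {T : List (ℕ × SignType × ℝ)} {h : ℕ × SignType × ℝ} (hh : h ∈ T) (y : HC) :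
    hs h y ≤ dT T y := by
  induction T with
  | nil => simp at hh
  | cons g T ih =>
    rw [dT_cons]
    rcases List.mem_cons.mp hh with rfl | hh
    · exact le_add_of_nonneg_right (dT_nonneg T y)
    · exact (ih hh).trans (le_add_of_nonneg_left (hs_nonneg g y))

theorem dT_le {T : List (ℕ × SignType × ℝ)} {y : HC} {c : ℝ} (h : ∀ g ∈ T, hs g y ≤ c) :
    dT T y ≤ T.length * c := by
  induction T with
  | nil => simp [dT]
  | cons g T ih =>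
    rw [dT_cons, List.length_cons]
    have h1 := h g (by simp)
    have h2 := ih fun g hg => h g (by simp [hg])
    push_cast
    linarith

theorem dT_eq_zero {T : List (ℕ × SignType × ℝ)} {y : HC} : dT T y = 0 ↔ ∀ g ∈ T, hs g y = 0 :=
  ⟨fun h g hg => le_antisymm (h ▸ hs_le hg y) (hs_nonneg g y),
    fun h => le_antisymm (by simpa using dT_le fun g hg => (h g hg).le) (dT_nonneg T y)⟩

theorem hs_le_of_subset {T : List (ℕ × SignType × ℝ)} {h : ℕ × SignType × ℝ} {y : HC}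
    (hy : dT T y = 0) (hT : ∀ w, dT T w = 0 → hs h w = 0) (z : HC) : hs h z ≤ dT T z := by
  obtain ⟨i, s, c⟩ := h
  have h0 := dT_nonneg T z
  have h1 : c ≤ s * (y i : ℝ) := hs_eq_zero.mp (hT y hy)
  refine max_le ?_ h0
  change c - s * (z i : ℝ) ≤ _
  by_contra hc
  have hz := (z i).2
  have hy' := (y i).2
  have ht : (z i : ℝ) + s * dT T z ∈ unitInterval := by
    obtain ⟨a, b⟩ := hz
    obtain ⟨a', b'⟩ := hy'
    rcases s with _ | _ | _ <;> simp at h1 hc ⊢ <;> constructor <;> linarith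
  have h2 := hs_eq_zero.mp (hT (Function.update y i ⟨_, ht⟩) (dT_eq_zero.mpr fun g hg => ?_))
  · simp only [Function.update_self] at h2
    rcases s with _ | _ | _ <;> simp at h1 hc h2 <;> linarith
  · have h3 := hs_eq_zero.mp (dT_eq_zero.mp hy g hg)
    have h4 := (le_max_left _ _).trans (hs_le hg z)
    rw [hs_eq_zero]
    obtain ⟨i', s', c'⟩ := g
    by_cases hi : i' = i
    · subst hi
      simp only [Function.update_self] at h3 h4 ⊢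
      rcases s with _ | _ | _ <;> rcases s' with _ | _ | _ <;> simp at h1 hc h3 h4 ⊢ <;> linarith
    · simpa [hi] using h3

/-- comparable to a sum of distances to half-spaces -/
def Reg (φ : C(HC, ℝ)) : Prop :=
  ∃ T, ∃ c : ℝ, 0 < c ∧ ∀ y, φ y ≤ c * dT T y ∧ dT T y ≤ c * φ y

/-- zero set -/
def Z (φ : C(HC, ℝ)) : Set HC := {y | φ y = 0}

theorem Reg.nonneg {φ : C(HC, ℝ)} (h : Reg φ) (y : HC) : 0 ≤ φ y := by
  obtain ⟨T, c, hc, h⟩ := h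
  exact nonneg_of_mul_nonneg_right ((dT_nonneg T y).trans (h y).2) hc

theorem reg_dT (T : List (ℕ × SignType × ℝ)) : Reg (dT T) := ⟨T, 1, one_pos, by simp⟩

theorem Reg.add {φ ψ : C(HC, ℝ)} (h : Reg φ) (h' : Reg ψ) : Reg (φ + ψ) := by
  have h0 := h.nonneg
  have h0' := h'.nonneg
  obtain ⟨T, c, hc, h⟩ := h
  obtain ⟨T', c', hc', h'⟩ := h'
  refine ⟨T ++ T', c + c', by positivity, fun y => ?_⟩
  have e : dT (T ++ T') y = dT T y + dT T' y := by simp [dT]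
  have h1 := mul_nonneg hc.le (dT_nonneg T' y)
  have h2 := mul_nonneg hc'.le (dT_nonneg T y)
  have h3 := mul_nonneg hc.le (h0' y)
  have h4 := mul_nonneg hc'.le (h0 y)
  rw [e, ContinuousMap.add_apply]
  constructor <;> nlinarith [h y, h' y]

theorem Z_add {φ ψ : C(HC, ℝ)} (h : Reg φ) (h' : Reg ψ) : Z (φ + ψ) = Z φ ∩ Z ψ :=
  Set.ext fun y => add_eq_zero_iff_of_nonneg (h.nonneg y) (h'.nonneg y)

theorem Reg.le {φ ψ : C(HC, ℝ)} (h : Reg φ) (h' : Reg ψ) (hZ : Z φ ⊆ Z ψ) :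
    ∃ c : ℝ, ∀ y, ψ y ≤ c * φ y := by
  rcases (Z φ).eq_empty_or_nonempty with h0 | ⟨y, hy⟩
  · have h1 : ∀ y, 0 < φ y := fun y => (h.nonneg y).lt_of_ne' fun e => (h0.subset e : False)
    obtain ⟨c, hc⟩ := (isCompact_range
      (ψ.continuous.div φ.continuous fun y => (h1 y).ne')).bddAbove
    exact ⟨c, fun y => (div_le_iff₀ (h1 y)).mp (hc ⟨y, rfl⟩)⟩
  · have h0 := h.nonneg
    have h0' := h'.nonneg
    obtain ⟨T, c, hc, h⟩ := h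
    obtain ⟨T', c', hc', h'⟩ := h'
    have h1 : dT T y = 0 := le_antisymm (by simpa [show φ y = 0 from hy] using (h y).2)
      (dT_nonneg T y)
    refine ⟨c' * (T'.length * c), fun z => (h' z).1.trans ?_⟩
    rw [mul_assoc, mul_assoc]
    refine mul_le_mul_of_nonneg_left (dT_le fun g hg =>
      (hs_le_of_subset h1 (fun w hw => ?_) z).trans (h z).2) hc'.le
    have h2 : ψ w = 0 := hZ (le_antisymm (by simpa [hw] using (h w).1) (h0 w))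
    exact le_antisymm ((hs_le hg w).trans (by simpa [h2] using (h' w).2)) (hs_nonneg g w)

/-- dyadic cells -/
def cell (k : ℕ) (x : HC) (n j : ℕ) : Set HC :=
  {y | (∀ i < k, y i = x i) ∧ (j : ℝ) ≤ 2 ^ n * (y k : ℝ) ∧ 2 ^ n * (y k : ℝ) ≤ j + 1}

theorem mem_wall {k : ℕ} {x y : HC} : y ∈ cell k x 0 0 ↔ ∀ i < k, y i = x i :=
  ⟨fun h => h.1, fun h => ⟨h, by simpa using (y k).2.1, by simpa using (y k).2.2⟩⟩

theorem wall_subset {k n j l : ℕ} {x y w : HC} (hy : y ∈ cell k x n j) (hl : k < l)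
    (hw : ∀ i < l, y i = w i) (n' j' : ℕ) : cell l w n' j' ⊆ cell k x n j := fun z hz => by
  have h : ∀ i ≤ k, z i = y i := fun i hi => (hz.1 i (by omega)).trans (hw i (by omega)).symm
  exact ⟨fun i hi => (h i hi.le).trans (hy.1 i hi), h k le_rfl ▸ hy.2⟩

theorem parent (k : ℕ) (x : HC) (n m j : ℕ) : cell k x (n + m) j ⊆ cell k x n (j / 2 ^ m) := by
  rintro y ⟨h0, h1, h2⟩
  have e1 : (2 ^ m * (j / 2 ^ m : ℕ) : ℝ) ≤ j := by exact_mod_cast Nat.mul_div_le j (2 ^ m)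
  have e2 : (j + 1 : ℝ) ≤ 2 ^ m * ((j / 2 ^ m : ℕ) + 1) := by
    exact_mod_cast Nat.lt_mul_div_succ j (by positivity : 0 < 2 ^ m)
  have e3 : (0 : ℝ) < 2 ^ m := by positivity
  rw [pow_add, mul_comm (2 ^ n), mul_assoc] at h1 h2
  exact ⟨h0, le_of_mul_le_mul_left (e1.trans h1) e3, le_of_mul_le_mul_left (h2.trans e2) e3⟩

theorem same_gen {k n j j' : ℕ} {x x' y : HC} (hy : y ∈ cell k x n j) (hy' : y ∈ cell k x' n j') :
    (j = j' ∧ cell k x n j = cell k x' n j') ∨ cell k x n j ∩ cell k x' n j' ⊆ cell (k + 1) y 0 0 := by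
  by_cases h : j = j'
  · subst h
    refine Or.inl ⟨rfl, Set.ext fun z => and_congr_left fun _ => forall₂_congr fun i hi => ?_⟩
    rw [← hy.1 i hi, hy'.1 i hi]
  · refine Or.inr fun z ⟨hz, hz'⟩ => mem_wall.mpr fun i hi => ?_
    rcases Nat.lt_succ_iff_lt_or_eq.mp hi with hi | rfl
    · rw [hz.1 i hi, hy.1 i hi]
    · refine Subtype.ext (mul_left_cancel₀ (by positivity : (2 : ℝ) ^ n ≠ 0) ?_)
      have : (j + 1 : ℝ) ≤ j' ∨ (j' + 1 : ℝ) ≤ j := by exact_mod_cast lt_or_gt_of_ne h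
      rcases this with h | h <;>
        linarith [hy.2.1, hy.2.2, hy'.2.1, hy'.2.2, hz.2.1, hz.2.2, hz'.2.1, hz'.2.2]

/-- the semilattice of cells -/
def BB : Set (Set HC) := {B | B = ∅ ∨ ∃ k x n j, B = cell k x n j}

theorem cell_mem {k : ℕ} {x : HC} {n j : ℕ} : cell k x n j ∈ BB := Or.inr ⟨k, x, n, j, rfl⟩

theorem inter_aux {k n m j j' : ℕ} {x x' y : HC} (hy : y ∈ cell k x n j)
    (hy' : y ∈ cell k x' (n + m) j') : cell k x n j ∩ cell k x' (n + m) j' ∈ BB := by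
  rcases same_gen hy (parent _ _ _ _ _ hy') with ⟨-, h⟩ | h
  · rw [inter_eq_right.mpr (h ▸ parent _ _ _ _ _)]
    exact cell_mem
  · rw [Subset.antisymm ((inter_subset_inter_right _ (parent _ _ _ _ _)).trans h) (subset_inter
      (wall_subset hy k.lt_succ_self (fun _ _ => rfl) 0 0)
      (wall_subset hy' k.lt_succ_self (fun _ _ => rfl) 0 0))]
    exact cell_mem

theorem inter_mem {B B' : Set HC} (h : B ∈ BB) (h' : B' ∈ BB) : B ∩ B' ∈ BB := by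
  rcases (B ∩ B').eq_empty_or_nonempty with h0 | ⟨y, hy, hy'⟩
  · exact Or.inl h0
  obtain rfl | ⟨k, x, n, j, rfl⟩ := h
  · exact hy.elim
  obtain rfl | ⟨k', x', n', j', rfl⟩ := h'
  · exact hy'.elim
  rcases lt_trichotomy k k' with h | rfl | h
  · rw [inter_eq_right.mpr (wall_subset hy h hy'.1 _ _)]
    exact cell_mem
  · rcases le_total n n' with h | h <;> obtain ⟨m, rfl⟩ := Nat.exists_eq_add_of_le h
    · exact inter_aux hy hy'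
    · rw [inter_comm]
      exact inter_aux hy' hy
  · rw [inter_eq_left.mpr (wall_subset hy' h hy.1 _ _)]
    exact cell_mem

theorem exists_fun {B : Set HC} (h : B ∈ BB) : ∃ φ, Reg φ ∧ Z φ = B := by
  have hI : ∀ {B B' : Set HC}, (∃ φ, Reg φ ∧ Z φ = B) → (∃ φ, Reg φ ∧ Z φ = B') →
      ∃ φ, Reg φ ∧ Z φ = B ∩ B' := by
    rintro _ _ ⟨φ, h, rfl⟩ ⟨ψ, h', rfl⟩
    exact ⟨_, h.add h', Z_add h h'⟩
  have hH : ∀ (i : ℕ) (s : SignType) (c : ℝ), ∃ φ, Reg φ ∧ Z φ = {y | c ≤ s * (y i : ℝ)} :=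
    fun i s c => ⟨_, reg_dT [(i, s, c)], Set.ext fun y => by simp [Z, dT_eq_zero, hs_eq_zero]⟩
  have hW : ∀ (x : HC) k, ∃ φ, Reg φ ∧ Z φ = {y | ∀ i < k, y i = x i} := by
    intro x k
    induction k with
    | zero => exact ⟨_, reg_dT [], by simp [Z, dT]⟩
    | succ k ih =>
      convert hI ih (hI (hH k 1 (x k)) (hH k (-1) (-x k))) using 4
      ext y
      rw [mem_ofPred, Nat.forall_lt_succ_right]
      simp [le_antisymm_iff, and_comm]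
  obtain rfl | ⟨k, x, n, j, rfl⟩ := h
  · convert hH 0 0 1 using 4
    ext y
    simp
  · convert hI (hW x k) (hI (hH k 1 (j / 2 ^ n)) (hH k (-1) (-((j + 1) / 2 ^ n)))) using 4
    ext y
    have : (0 : ℝ) < 2 ^ n := by positivity
    simp [cell, div_le_iff₀ this, le_div_iff₀ this, mul_comm]

/-- the monoid -/
def MM : AddSubmonoid C(HC, ℝ) where
  carrier := {φ | Reg φ ∧ Z φ ∈ BB}
  add_mem' h h' := ⟨h.1.add h'.1, Z_add h.1 h'.1 ▸ inter_mem h.2 h'.2⟩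
  zero_mem' := ⟨reg_dT [], Or.inr ⟨0, 0, 0, 0, Set.ext fun y => by simp [Z, mem_wall]⟩⟩

theorem face_mem {Φ : AddSubmonoid C(HC, ℝ)} (hΦ : TTCat.IsFace MM Φ) {φ ψ : C(HC, ℝ)}
    (h : φ ∈ Φ) (h' : ψ ∈ MM) (hZ : Z φ ⊆ Z ψ) : ψ ∈ Φ := by
  obtain ⟨h1, h2⟩ := hΦ.le h
  obtain ⟨c, hc⟩ := h1.le h'.1 hZ
  obtain ⟨N, hN⟩ := exists_nat_ge (c + 1)
  have h3 : ∀ y, φ y ≤ (N • φ - ψ) y ∧ (N • φ - ψ) y ≤ N * φ y := fun y => by
    have := mul_le_mul_of_nonneg_right hN (h1.nonneg y)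
    rw [ContinuousMap.sub_apply, ContinuousMap.nsmul_apply, nsmul_eq_mul]
    constructor <;> linarith [hc y, h'.1.nonneg y]
  refine hΦ.face ψ h' (N • φ - ψ) ⟨?_, ?_⟩ (by simpa using Φ.nsmul_mem h N)
  · have h0 := h1.nonneg
    obtain ⟨T, e, he, h1⟩ := h1
    refine ⟨T, (N + 1) * e, by positivity, fun y => ?_⟩
    have h4 := mul_le_mul_of_nonneg_left (h1 y).1 (Nat.cast_nonneg (α := ℝ) N)
    have h5 := mul_le_mul_of_nonneg_left (h3 y).1 he.le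
    have h6 := mul_nonneg he.le (dT_nonneg T y)
    have h7 := mul_nonneg (Nat.cast_nonneg (α := ℝ) N) (mul_nonneg he.le ((h0 y).trans (h3 y).1))
    constructor <;> nlinarith [h1 y, h3 y]
  · convert h2 using 1
    ext y
    exact ⟨fun e => le_antisymm (e ▸ (h3 y).1) (h1.nonneg y),
      fun e => le_antisymm (by simpa [show φ y = 0 from e] using (h3 y).2) (e ▸ (h3 y).1)⟩

/-- filters of cells -/
structure Flt (F : Set (Set HC)) : Prop where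
  sub : F ⊆ BB
  top : ∀ x, cell 0 x 0 0 ∈ F
  inter : ∀ B ∈ F, ∀ B' ∈ F, B ∩ B' ∈ F
  up : ∀ B ∈ F, ∀ B' ∈ BB, B ⊆ B' → B' ∈ F

theorem flt_of_face {Φ : AddSubmonoid C(HC, ℝ)} (hΦ : TTCat.IsFace MM Φ) : Flt (Z '' Φ) where
  sub := by rintro _ ⟨φ, h, rfl⟩; exact (hΦ.le h).2
  top x := ⟨0, Φ.zero_mem, Set.ext fun y => by simp [Z, mem_wall]⟩
  inter := by
    rintro _ ⟨φ, h, rfl⟩ _ ⟨ψ, h', rfl⟩
    exact ⟨_, Φ.add_mem h h', Z_add (hΦ.le h).1 (hΦ.le h').1⟩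
  up := by
    rintro _ ⟨φ, h, rfl⟩ B hB e
    obtain ⟨ψ, h', rfl⟩ := exists_fun hB
    exact ⟨ψ, face_mem hΦ h ⟨h', hB⟩ e, rfl⟩

theorem Flt.ne {F : Set (Set HC)} (h : Flt F) (h0 : ∅ ∉ F) {B B' : Set HC} (hB : B ∈ F)
    (hB' : B' ∈ F) : ∃ y, y ∈ B ∧ y ∈ B' :=
  nonempty_iff_ne_empty.mpr fun e => h0 (e ▸ h.inter B hB B' hB')

theorem Flt.same {F : Set (Set HC)} (h : Flt F) (h0 : ∅ ∉ F) {k n j j' : ℕ} {x x' : HC}
    (hw : ∀ w, cell (k + 1) w 0 0 ∉ F) (hB : cell k x n j ∈ F) (hB' : cell k x' n j' ∈ F) :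
    j = j' ∧ cell k x n j = cell k x' n j' := by
  obtain ⟨y, hy, hy'⟩ := h.ne h0 hB hB'
  exact (same_gen hy hy').resolve_right fun e => hw y (h.up _ (h.inter _ hB _ hB') _ cell_mem e)

/-- a new member of a bigger filter without deeper walls has the same level -/
theorem Flt.level {F F' : Set (Set HC)} (h : Flt F) (h' : Flt F') (hF : F ⊂ F') (h0 : ∅ ∉ F')
    {k : ℕ} {x : HC} (hx : cell k x 0 0 ∈ F) (hw : ∀ w, cell (k + 1) w 0 0 ∉ F') :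
    ∃ x' n j, cell k x' n j ∈ F' ∧ cell k x' n j ∉ F := by
  obtain ⟨B, hB, hB'⟩ := exists_of_ssubset hF
  obtain rfl | ⟨k', x', n, j, rfl⟩ := h'.sub hB
  · exact absurd hB h0
  rcases lt_trichotomy k' k with e | rfl | e
  · obtain ⟨y, hy, hy'⟩ := h'.ne h0 hB (hF.1 hx)
    exact absurd (h.up _ hx _ cell_mem (wall_subset hy e hy'.1 _ _)) hB'
  · exact ⟨x', n, j, hB, hB'⟩
  · exact absurd (h'.up _ hB _ cell_mem fun z hz =>
      mem_wall.mpr fun i hi => hz.1 i (by omega)) (hw x')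

theorem isClosed_of_mem {B : Set HC} (h : B ∈ BB) : IsClosed B := by
  obtain ⟨φ, -, rfl⟩ := exists_fun h
  exact isClosed_eq φ.continuous continuous_const

theorem exists_last {p : ℕ → Prop} (h0 : p 0) (h : ¬ ∀ k, p k) : ∃ k, p k ∧ ¬ p (k + 1) := by
  by_contra hc
  exact h fun k => Nat.rec h0 (fun k hk => by_contra fun e => hc ⟨k, hk, e⟩) k

theorem eq_of_cells {k : ℕ} {x y z : HC} {j : ℕ → ℕ} (hy : ∀ n, y ∈ cell k x n (j n))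
    (hz : ∀ n, ∃ z' ∈ cell k x n (j n), ∀ i < k + 1, z' i = z i) : ∀ i < k + 1, z i = y i := by
  intro i hi
  rcases Nat.lt_succ_iff_lt_or_eq.mp hi with hi' | rfl
  · obtain ⟨z', h1, h2⟩ := hz 0
    rw [← h2 i hi, h1.1 i hi', (hy 0).1 i hi']
  · refine Subtype.ext (eq_of_abs_sub_nonpos (not_lt.mp fun e => ?_))
    obtain ⟨n, hn⟩ := pow_unbounded_of_one_lt |(z i : ℝ) - y i|⁻¹ (one_lt_two (α := ℝ))
    obtain ⟨z', h1, h2⟩ := hz n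
    rw [inv_lt_iff_one_lt_mul₀ e, ← abs_of_pos (by positivity : (0 : ℝ) < 2 ^ n), ← abs_mul,
      mul_sub, ← h2 i hi, lt_abs] at hn
    rcases hn with hn | hn <;> linarith [h1.2.1, h1.2.2, (hy n).2.1, (hy n).2.2]

theorem Flt.main {F : Set (Set HC)} (h : Flt F) (h0 : ∅ ∉ F) :
    ∃ B₁ ∈ BB, ∃ B₂ ∈ BB, B₁ ∉ F ∧ B₂ ∉ F ∧ (∀ F', Flt F' → F ⊂ F' → B₁ ∈ F' ∨ B₂ ∈ F') ∧
      ((⋂₀ F).Subsingleton ∨ ⋂₀ F ⊆ B₁ ∪ B₂) := by
  by_cases hA : ∀ k, ∃ x, cell k x 0 0 ∈ F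
  · refine ⟨∅, Or.inl rfl, ∅, Or.inl rfl, h0, h0, fun F' h' hF => Or.inl (by_contra fun h1 => ?_),
      Or.inl fun y hy z hz => funext fun i => ?_⟩
    · obtain ⟨B, hB, hB'⟩ := exists_of_ssubset hF
      obtain rfl | ⟨k, x, n, j, rfl⟩ := h'.sub hB
      · exact h1 hB
      obtain ⟨w, hw⟩ := hA (k + 1)
      obtain ⟨y, hy, hy'⟩ := h'.ne h1 hB (hF.1 hw)
      exact hB' (h.up _ hw _ cell_mem (wall_subset hy k.lt_succ_self hy'.1 _ _))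
    · obtain ⟨w, hw⟩ := hA (i + 1)
      rw [(hy _ hw).1 i i.lt_succ_self, (hz _ hw).1 i i.lt_succ_self]
  obtain ⟨k, ⟨x, hx⟩, hk⟩ := exists_last ⟨0, h.top 0⟩ hA
  by_cases hB : ∀ n, ∃ j, cell k x n j ∈ F
  · choose j hj using hB
    have : Nonempty F := ⟨⟨_, hx⟩⟩
    obtain ⟨y, hy⟩ := IsCompact.nonempty_sInter_of_directed_nonempty_isCompact_isClosed (S := F)
      (fun B hB B' hB' => ⟨_, h.inter B hB B' hB', inter_subset_left, inter_subset_right⟩)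
      (fun B hB => nonempty_iff_ne_empty.mpr fun e => h0 (e ▸ hB))
      (fun B hB => (isClosed_of_mem (h.sub hB)).isCompact) fun B hB => isClosed_of_mem (h.sub hB)
    have hW : cell (k + 1) y 0 0 ∉ F := fun e => hk ⟨y, e⟩
    refine ⟨_, cell_mem, _, cell_mem, hW, hW, fun F' h' hF => Or.inl ?_, Or.inr fun z hz =>
      Or.inl (mem_wall.mpr (eq_of_cells (fun n => hy _ (hj n))
        fun n => ⟨z, hz _ (hj n), fun _ _ => rfl⟩))⟩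
    by_cases h1 : ∅ ∈ F'
    · exact h'.up _ h1 _ cell_mem (empty_subset _)
    by_cases hw : ∀ w, cell (k + 1) w 0 0 ∉ F'
    · obtain ⟨x', n, j', h2, h3⟩ := h.level h' hF h1 hx hw
      exact absurd ((h'.same h1 hw (hF.1 (hj n)) h2).2 ▸ hj n) h3
    · obtain ⟨w, hw⟩ := not_forall_not.mp hw
      have h2 := eq_of_cells (z := w) (fun n => hy _ (hj n)) fun n => by
        obtain ⟨z, h2, h3⟩ := h'.ne h1 (hF.1 (hj n)) hw
        exact ⟨z, h2, h3.1⟩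
      exact h'.up _ hw _ cell_mem fun z hz => mem_wall.mpr fun i hi => (hz.1 i hi).trans (h2 i hi)
  obtain ⟨n, ⟨j, hj⟩, hn⟩ := exists_last ⟨0, hx⟩ hB
  have hU : cell k x n j ⊆ cell k x (n + 1) (2 * j) ∪ cell k x (n + 1) (2 * j + 1) := by
    rintro z ⟨h1, h2, h3⟩
    rcases le_total (2 ^ (n + 1) * (z k : ℝ)) (2 * j + 1) with e | e
    · exact Or.inl ⟨h1, by push_cast; rw [pow_succ]; linarith, by push_cast; exact e⟩
    · exact Or.inr ⟨h1, by push_cast; exact e, by push_cast; rw [pow_succ]; linarith⟩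
  refine ⟨_, cell_mem, _, cell_mem, fun e => hn ⟨_, e⟩, fun e => hn ⟨_, e⟩, fun F' h' hF => ?_,
    Or.inr ((sInter_subset_of_mem hj).trans hU)⟩
  by_cases h1 : ∅ ∈ F'
  · exact Or.inl (h'.up _ h1 _ cell_mem (empty_subset _))
  by_cases hw : ∀ w, cell (k + 1) w 0 0 ∉ F'
  · obtain ⟨x', n', j', h2, h3⟩ := h.level h' hF h1 hx hw
    rcases le_or_gt n' n with e | e
    · obtain ⟨m, rfl⟩ := Nat.exists_eq_add_of_le e
      have h4 := h.up _ hj _ cell_mem (parent k x n' m j)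
      exact absurd ((h'.same h1 hw (hF.1 h4) h2).2 ▸ h4) h3
    · obtain ⟨m, rfl⟩ := Nat.exists_eq_add_of_le (show n + 1 ≤ n' from e)
      have h4 := h'.up _ h2 _ cell_mem (parent k x' (n + 1) m j')
      have h5 := (h'.same h1 hw (hF.1 hj) (h'.up _ h4 _ cell_mem (parent k x' n 1 _))).1
      obtain ⟨y, hy, hy'⟩ := h'.ne h1 h2 (hF.1 hx)
      have h6 : cell k x (n + 1) (j' / 2 ^ m) ∈ F' := h'.up _ h4 _ cell_mem fun z hz =>
        ⟨fun i hi => by rw [hz.1 i hi, ← hy.1 i hi, hy'.1 i hi], hz.2⟩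
      generalize j' / 2 ^ m = p at h5 h6
      obtain rfl | rfl : p = 2 * j ∨ p = 2 * j + 1 := by omega
      exacts [Or.inl h6, Or.inr h6]
  · obtain ⟨w, hw⟩ := not_forall_not.mp hw
    obtain ⟨y, hy, hy'⟩ := h'.ne h1 (hF.1 hj) hw
    exact (hU hy).imp
      (fun e => h'.up _ hw _ cell_mem (wall_subset e k.lt_succ_self hy'.1 _ _))
      fun e => h'.up _ hw _ cell_mem (wall_subset e k.lt_succ_self hy'.1 _ _)

theorem zs_eq (Φ : AddSubmonoid C(HC, ℝ)) : zs Φ = ⋂₀ (Z '' Φ) := by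
  ext y
  simp [zs, Z]

theorem face_main {Φ : AddSubmonoid C(HC, ℝ)} (hΦ : TTCat.IsFace MM Φ) (h0 : ∅ ∉ Z '' Φ) :
    ∃ ψ₁ ∈ MM, ∃ ψ₂ ∈ MM, ψ₁ ∉ Φ ∧ ψ₂ ∉ Φ ∧
      (∀ Φ', TTCat.IsFace MM Φ' → Φ < Φ' → ψ₁ ∈ Φ' ∨ ψ₂ ∈ Φ') ∧
      ((zs Φ).Subsingleton ∨ ∀ y ∈ zs Φ, ψ₁ y = 0 ∨ ψ₂ y = 0) := by
  obtain ⟨B₁, h₁, B₂, h₂, n₁, n₂, hV, hK⟩ := (flt_of_face hΦ).main h0
  obtain ⟨ψ₁, r₁, rfl⟩ := exists_fun h₁
  obtain ⟨ψ₂, r₂, rfl⟩ := exists_fun h₂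
  refine ⟨ψ₁, ⟨r₁, h₁⟩, ψ₂, ⟨r₂, h₂⟩, fun e => n₁ ⟨_, e, rfl⟩, fun e => n₂ ⟨_, e, rfl⟩,
    fun Φ' hΦ' hl => ?_, zs_eq Φ ▸ hK⟩
  obtain ⟨φ, h1, h2⟩ := SetLike.exists_of_lt hl
  refine (hV _ (flt_of_face hΦ') ⟨image_mono hl.le, fun e => ?_⟩).imp
    (fun ⟨χ, h3, e⟩ => face_mem hΦ' h3 ⟨r₁, h₁⟩ e.le) fun ⟨χ, h3, e⟩ => face_mem hΦ' h3 ⟨r₂, h₂⟩ e.le
  obtain ⟨χ, h3, e⟩ := e ⟨φ, h1, rfl⟩
  exact h2 (face_mem hΦ h3 (hΦ'.le h1) e.le)

end Geo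

theorem exists_monoid : ∃ M : AddSubmonoid C(HC, ℝ), (∀ φ ∈ M, ∀ y, 0 ≤ φ y) ∧ TTCat.HypV M ∧
    ∀ Φ : AddSubmonoid C(HC, ℝ), TTCat.IsFace M Φ → (zs Φ).Subsingleton ∨
      ∃ ψ₁ ∈ M, ∃ ψ₂ ∈ M, ψ₁ ∉ Φ ∧ ψ₂ ∉ Φ ∧ ∀ y ∈ zs Φ, ψ₁ y = 0 ∨ ψ₂ y = 0 := by
  classical
  refine ⟨Geo.MM, fun φ h => h.1.nonneg, fun Φ hΦ => ?_, fun Φ hΦ => ?_⟩
  · by_cases h0 : ∅ ∈ Geo.Z '' Φ
    · obtain ⟨φ, h1, e⟩ := h0
      refine ⟨∅, by simp, fun Φ' hΦ' hl => absurd (fun ψ h2 => ?_) hl.not_ge⟩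
      exact Geo.face_mem hΦ h1 (hΦ'.le h2) (e ▸ empty_subset _)
    · obtain ⟨ψ₁, h₁, ψ₂, h₂, n₁, n₂, hV, -⟩ := Geo.face_main hΦ h0
      exact ⟨{ψ₁, ψ₂}, by simp [h₁, h₂, n₁, n₂], fun Φ' hΦ' hl => by simpa using hV Φ' hΦ' hl⟩
  · by_cases h0 : ∅ ∈ Geo.Z '' Φ
    · rw [Geo.zs_eq]
      exact Or.inl (subsingleton_empty.anti (sInter_subset_of_mem h0))
    · obtain ⟨ψ₁, h₁, ψ₂, h₂, n₁, n₂, -, hK⟩ := Geo.face_main hΦ h0
      exact hK.imp_right fun h => ⟨ψ₁, h₁, ψ₂, h₂, n₁, n₂, h⟩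

end Pool.Agent.Lib.MP_ded707_al
end
end
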