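import Pool.Agent.Lib.MP_ded707_al.SubDefs
import Pool.Agent.Lib.MP_ded707_al.Geo

-- part Pool.Agent.Lib.MP_ded707_al.Cones
section

/-!
Iterated cones of a filtered complex with the Mayer-Vietoris property.
-/

set_option autoImplicit false
set_option backward.isDefEq.respectTransparency false
set_option backward.defeqAttrib.useBackward true

open CategoryTheory Limits Pretriangulated MonoidalCategory ZeroObject

noncomputable section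

namespace Pool.Agent.Lib.MP_ded707_al

variable {G : Type} [AddCommGroup G] {M : AddSubmonoid G}

namespace Fil

open CochainComplex.mappingCone

theorem ev {X Y : Fil M} {f g : X ⟶ Y} (h : f = g) (v : X.V) : f.1 v = g.1 v := by rw [h]

section pr

variable {ψ : G} (h : ψ ∈ M) (Z : (filA M).Cx) {i j k : ℤ}

/-- the element of the cone with given components -/
def pr (hij : i + 1 = j) (a : (Z.X j).V) (b : (Z.X i).V) : ((Cn h Z).X i).V :=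
  ((inl (twCι h Z)).v j i (by omega)).1 a + ((inr (twCι h Z)).f i).1 b

theorem fst_pr (hij : i + 1 = j) (a : (Z.X j).V) (b : (Z.X i).V) :
    ((fst (twCι h Z)).1.v i j hij).1 (pr h Z hij a b) = a := by
  rw [pr, map_add]
  exact (congrArg₂ (· + ·) (ev (inl_v_fst_v (twCι h Z) j i hij) a)
    (ev (inr_f_fst_v (twCι h Z) i j hij) b)).trans (add_zero a)

theorem snd_pr (hij : i + 1 = j) (a : (Z.X j).V) (b : (Z.X i).V) :
    ((snd (twCι h Z)).v i i (add_zero i)).1 (pr h Z hij a b) = b := by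
  rw [pr, map_add]
  exact (congrArg₂ (· + ·) (ev (inl_v_snd_v (twCι h Z) j i (by omega)) a)
    (ev (inr_f_snd_v (twCι h Z) i) b)).trans (zero_add b)

theorem pr_mem (hij : i + 1 = j) {a : (Z.X j).V} {b : (Z.X i).V} {γ : G} :
    pr h Z hij a b ∈ ((Cn h Z).X i).F γ ↔ a ∈ (Z.X j).F (γ - ψ) ∧ b ∈ (Z.X i).F γ :=
  ⟨fun H => ⟨fst_pr h Z hij a b ▸ map_mem ((fst (twCι h Z)).1.v i j hij) H,
    snd_pr h Z hij a b ▸ map_mem ((snd (twCι h Z)).v i i (add_zero i)) H⟩,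
    fun H => add_mem (map_mem ((inl (twCι h Z)).v j i (by omega)) H.1)
      (map_mem ((inr (twCι h Z)).f i) H.2)⟩

theorem exists_pr (hij : i + 1 = j) (z : ((Cn h Z).X i).V) : ∃ a b, z = pr h Z hij a b :=
  ⟨_, _, (ev (id_X (twCι h Z) i j hij) z).symm⟩

theorem pr_sub (hij : i + 1 = j) (a a' : (Z.X j).V) (b b' : (Z.X i).V) :
    pr h Z hij a b - pr h Z hij a' b' = pr h Z hij (a - a') (b - b') := by
  rw [pr, pr, pr, add_sub_add_comm, map_sub, map_sub]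

theorem d_pr (hij : i + 1 = j) (hjk : j + 1 = k) (a : (Z.X j).V) (b : (Z.X i).V) :
    ((Cn h Z).d i j).1 (pr h Z hij a b) =
      pr h Z hjk (-(Z.d j k).1 a) (a + (Z.d i j).1 b) := by
  rw [pr, pr, map_add, map_add]
  refine (congrArg₂ (· + ·) (ev (inl_v_d (twCι h Z) j i k (by omega) (by omega)) a)
    (ev (inr_f_d (twCι h Z) i j) b)).trans ?_
  rw [← add_assoc]
  refine congrArg (· + _) ((sub_eq_neg_add _ _).trans (congrArg (· + _) ?_))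
  exact (map_neg ((inl (twCι h Z)).v k j (by omega)).1.hom _).symm

end pr

/-- acyclicity relative to a twist -/
def RelTA (Φ : AddSubmonoid G) (ψ : G) (Z : (filA M).Cx) : Prop :=
  ∀ (m : ℤ) (γ : G), ∀ y ∈ (Z.X m).F γ, (Z.d m (m + 1)).1 y ∈ (Z.X (m + 1)).F (γ - ψ) →
    ∃ φ ∈ Φ, ∃ w ∈ (Z.X (m - 1)).F (γ + φ), y - (Z.d (m - 1) m).1 w ∈ (Z.X m).F (γ + φ - ψ)

theorem RelTA.cone {Φ : AddSubmonoid G} {ψ : G} (h : ψ ∈ M) {Z : (filA M).Cx}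
    (H : RelTA Φ ψ Z) : TA Φ (Cn h Z) := by
  intro m γ z hz h0
  obtain ⟨a, b, rfl⟩ := exists_pr h Z rfl z
  obtain ⟨ha, hb⟩ := (pr_mem h Z rfl).1 hz
  rw [d_pr h Z rfl rfl] at h0
  have h1 : (Z.d m (m + 1)).1 b = -a := eq_neg_of_add_eq_zero_right <| by
    rw [← snd_pr h Z rfl _ (a + _), h0, map_zero]
  obtain ⟨φ, hφ, w, hw, h2⟩ := H m γ b hb (h1 ▸ neg_mem ha)
  refine ⟨φ, hφ, pr h Z (sub_add_cancel m 1) _ w, (pr_mem h Z _).2 ⟨h2, hw⟩, ?_⟩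
  rw [d_pr h Z _ rfl, sub_add_cancel, map_sub, h1,
    show (Z.d m (m + 1)).1 ((Z.d (m - 1) m).1 w) = 0 from ev (Z.d_comp_d (m - 1) m (m + 1)) w,
    sub_zero, neg_neg]

theorem TA_ofFC {Φ : AddSubmonoid G} {E : FC M} (h : E.TA Φ) : TA Φ (ofFC E) := by
  intro m γ z hz h0
  obtain ⟨φ, hφ, w, hw, e⟩ := h m γ z hz ((ofFC_d E rfl z).symm.trans h0)
  exact ⟨φ, hφ, w, hw, (ofFC_d E (sub_add_cancel m 1) w).trans e⟩

theorem TA_cone_cone {Φ : AddSubmonoid G} (hΦ : Φ ≤ M) {ψ₁ ψ₂ : G} (h₁ : ψ₁ ∈ M) (h₂ : ψ₂ ∈ M)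
    {E : FC M} (h : E.MV Φ ψ₁ ψ₂) : TA Φ (Cn h₁ (Cn h₂ (ofFC E))) := by
  refine RelTA.cone h₁ fun m γ y hy hd => ?_
  obtain ⟨a : E.V, b : E.V, rfl⟩ := exists_pr h₂ _ rfl y
  obtain ⟨ha : a ∈ E.F _ _, hb : b ∈ E.F _ _⟩ := (pr_mem h₂ _ rfl).1 hy
  rw [d_pr h₂ _ rfl rfl, ofFC_d E rfl b] at hd
  have h1 : a + E.d b ∈ E.F (m + 1) (γ - ψ₁) := ((pr_mem h₂ _ rfl).1 hd).2
  obtain ⟨φ, hφ, b', hb', h2⟩ := h.1 m γ b hb (by
    simpa using Submodule.add_mem_sup h1 (neg_mem ha))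
  obtain ⟨b1, h3, b2, h4, h5⟩ := Submodule.mem_sup.1 h2
  have h6 : a + E.d b2 = a + E.d b - E.d b1 := by
    rw [eq_sub_iff_add_eq, add_assoc, ← map_add, add_comm b2, h5, map_sub, E.dd, sub_zero]
  obtain ⟨φ', hφ', h7⟩ := h.2 (m + 1) (γ + φ) (a + E.d b2)
    ⟨h6 ▸ sub_mem (E.mono _ _ _ (by simpa using hΦ hφ) h1) (E.dF _ _ _ h3),
      add_mem (E.mono _ _ _ (by simpa using hΦ hφ) ha) (E.dF _ _ _ h4)⟩
  refine ⟨φ + φ', add_mem hφ hφ', pr h₂ (ofFC E) (sub_add_cancel m 1) b2 b', (pr_mem h₂ _ _).2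
    ⟨E.mono _ _ _ (by simpa using hΦ hφ') h4, E.mono _ _ _ (by simpa using hΦ hφ') hb'⟩, ?_⟩
  rw [d_pr h₂ _ _ rfl, pr_sub, ofFC_d E rfl b2, ofFC_d E (sub_add_cancel m 1) b', pr_mem,
    ← add_assoc]
  refine ⟨(sub_neg_eq_add a _).symm ▸ h7, ?_⟩
  change b - (b2 + E.d b') ∈ E.F _ _
  rw [add_comm b2, ← sub_sub, ← h5, add_sub_cancel_right]
  exact E.mono _ _ _ (by simpa using hΦ hφ') h3

end Fil

end Pool.Agent.Lib.MP_ded707_al
end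
end

-- part Pool.Agent.Lib.MP_ded707_al.Brown
section

/-!
Brown representability and cellular approximation.
-/

set_option autoImplicit false
set_option backward.isDefEq.respectTransparency false
set_option backward.defeqAttrib.useBackward true

open CategoryTheory Limits Pretriangulated MonoidalCategory ZeroObject

noncomputable section

namespace Pool.Agent.Lib.MP_ded707_al

namespace TTCat

variable {𝒯 : TTCat}

theorem tens_exact (a : 𝒯.T) {Z : 𝒯.T} (D : Triangle 𝒯.T) (hD : D ∈ distTriang 𝒯.T)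
    (h : a ⊗ D.obj₂ ⟶ Z) (hh : a ◁ D.mor₁ ≫ h = 0) :
    ∃ k : a ⊗ D.obj₃ ⟶ Z, h = a ◁ D.mor₂ ≫ k := by
  obtain ⟨w, hw⟩ := tensL_dist a D hD
  exact Triangle.yoneda_exact₂ _ hw h hh

theorem bij_iff {a X Y Z : 𝒯.T} (x : a ⊗ X ⟶ Z) :
    Function.Bijective (fun f : Y ⟶ X => a ◁ f ≫ x) ↔
      (∀ f : Y ⟶ X, a ◁ f ≫ x = 0 → f = 0) ∧ ∀ h : a ⊗ Y ⟶ Z, ∃ f : Y ⟶ X, a ◁ f ≫ x = h := by
  refine and_congr ⟨fun h f hf => h (hf.trans (by simp)), fun h f f' hf => ?_⟩ Iff.rfl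
  rw [← sub_eq_zero]
  apply h
  have hf' : a ◁ f ≫ x = a ◁ f' ≫ x := hf
  have e : a ◁ (f - f') = a ◁ f - a ◁ f' := (tensorLeft a).map_sub
  rw [e, Preadditive.sub_comp, hf', sub_self]

/-- bijectivity on shifted generators extends to the localizing subcategory -/
theorem bij_of_gen {S : Set 𝒯.T} {a X Z : 𝒯.T} (x : a ⊗ X ⟶ Z)
    (gen : ∀ s ∈ S, ∀ n : ℤ, Function.Bijective (fun f : s⟦n⟧ ⟶ X => a ◁ f ≫ x)) {Y : 𝒯.T}
    (hY : LocSub S Y) : Function.Bijective (fun f : Y ⟶ X => a ◁ f ≫ x) := by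
  refine LocSub.five (fun Y => Function.Bijective (fun f : Y ⟶ X => a ◁ f ≫ x)) ?_ ?_ ?_ ?_ gen hY
  · intro Y Y' e h
    rw [bij_iff] at h ⊢
    refine ⟨fun f hf => ?_, fun k => ?_⟩
    · rw [← cancel_epi e.hom, comp_zero]
      apply h.1
      rw [whiskerLeft_comp, Category.assoc, hf, comp_zero]
    · obtain ⟨f, hf⟩ := h.2 (a ◁ e.hom ≫ k)
      refine ⟨e.inv ≫ f, ?_⟩
      rw [whiskerLeft_comp, Category.assoc, hf, ← whiskerLeft_comp_assoc, e.inv_hom_id,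
        whiskerLeft_id, Category.id_comp]
  · intro Y h
    rw [bij_iff]
    exact ⟨fun f _ => h.eq_of_src _ _, fun k => ⟨0, (isZero_tensL a h).eq_of_src _ _⟩⟩
  · intro D hD h₀ h₁ h₃ h₄
    rw [bij_iff] at h₀ h₁ h₃ h₄ ⊢
    refine ⟨fun f hf => ?_, fun h => ?_⟩
    · obtain ⟨g, rfl⟩ := Triangle.yoneda_exact₂ D hD f (h₁.1 _ (by
        rw [whiskerLeft_comp, Category.assoc, hf, comp_zero]))
      obtain ⟨k, hk⟩ := tens_exact a _ (rot_of_distTriang D hD) (a ◁ g ≫ x) (by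
        rw [whiskerLeft_comp, Category.assoc] at hf
        exact hf)
      obtain ⟨k', rfl⟩ := h₄.2 k
      have e : g - D.mor₃ ≫ k' = 0 := by
        apply h₃.1
        have e : a ◁ (g - D.mor₃ ≫ k') = a ◁ g - a ◁ (D.mor₃ ≫ k') := (tensorLeft a).map_sub
        rw [e, Preadditive.sub_comp, whiskerLeft_comp, Category.assoc, sub_eq_zero]
        exact hk
      rw [sub_eq_zero] at e
      rw [e, ← Category.assoc, comp_distTriang_mor_zero₂₃ D hD, zero_comp]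
    · obtain ⟨f₁, hf₁⟩ := h₁.2 (a ◁ D.mor₁ ≫ h)
      obtain ⟨f₂, hf₂'⟩ : ∃ f₂ : D.obj₂ ⟶ X, f₁ = D.mor₁ ≫ f₂ :=
        Triangle.yoneda_exact₂ _ (inv_rot_of_distTriang D hD) f₁ (h₀.1 _ (by
          have e : D.invRotate.mor₁ ≫ D.mor₁ = 0 :=
            comp_distTriang_mor_zero₁₂ _ (inv_rot_of_distTriang D hD)
          rw [whiskerLeft_comp, Category.assoc, hf₁, ← whiskerLeft_comp_assoc, e]
          simp))
      obtain ⟨k, hk⟩ := tens_exact a D hD (h - a ◁ f₂ ≫ x) (by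
        rw [Preadditive.comp_sub, ← hf₁, hf₂', whiskerLeft_comp, Category.assoc, sub_self])
      obtain ⟨k', rfl⟩ := h₃.2 k
      refine ⟨f₂ + D.mor₂ ≫ k', ?_⟩
      rw [MonoidalPreadditive.whiskerLeft_add, Preadditive.add_comp, whiskerLeft_comp,
        Category.assoc, ← hk]
      abel
  · intro J Y h
    simp only [bij_iff] at h ⊢
    refine ⟨fun f hf => ?_, fun k => ?_⟩
    · ext j
      rw [comp_zero]
      apply (h j).1
      rw [whiskerLeft_comp, Category.assoc, hf, comp_zero]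
    · choose f hf using fun j => (h j).2 (a ◁ Sigma.ι Y j ≫ k)
      refine ⟨Sigma.desc f, tens_coprod_ext a Y fun j => ?_⟩
      rw [← whiskerLeft_comp_assoc, Sigma.ι_desc, hf]

theorem brown_step {I : Type} (g : I → 𝒯.T) {a Z X : 𝒯.T} (hX : LocSub (Set.range g) X)
    (x : a ⊗ X ⟶ Z) : ∃ (X' : 𝒯.T) (_ : LocSub (Set.range g) X') (j : X ⟶ X') (x' : a ⊗ X' ⟶ Z),
      a ◁ j ≫ x' = x ∧ ∀ (i : I) (n : ℤ) (f : (g i)⟦n⟧ ⟶ X), a ◁ f ≫ x = 0 → f ≫ j = 0 := by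
  let J : Type := Σ (i : I) (n : ℤ), {f : (g i)⟦n⟧ ⟶ X // a ◁ f ≫ x = 0}
  let Y : J → 𝒯.T := fun p => (g p.1)⟦p.2.1⟧
  let v : ∐ Y ⟶ X := Sigma.desc fun p => p.2.2.1
  obtain ⟨X', j, w, hD⟩ := distinguished_cocone_triangle v
  obtain ⟨x', hx'⟩ := tens_exact a _ hD x (tens_coprod_ext a Y fun p => by
    change a ◁ Sigma.ι Y p ≫ a ◁ v ≫ x = _
    rw [← whiskerLeft_comp_assoc, Sigma.ι_desc, comp_zero]
    exact p.2.2.2)
  refine ⟨X', LocSub.ext₃ _ hD (.coprod _ _ fun p => .shift _ _ (.of _ ⟨p.1, rfl⟩)) hX, j, x',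
    hx'.symm, fun i n f hf => ?_⟩
  have e : v ≫ j = 0 := comp_distTriang_mor_zero₁₂ _ hD
  have e' : f = Sigma.ι Y ⟨i, n, f, hf⟩ ≫ v := by simp [v]
  rw [e', Category.assoc, e, comp_zero]

/-- the map `1 - shift` on a sequential coproduct -/
def telMap (X : ℕ → 𝒯.T) (j : ∀ k, X k ⟶ X (k + 1)) : ∐ X ⟶ ∐ X :=
  Sigma.desc fun k => Sigma.ι X k - j k ≫ Sigma.ι X (k + 1)

open Classical in
theorem telMap_inj (X : ℕ → 𝒯.T) (j : ∀ k, X k ⟶ X (k + 1)) {s : 𝒯.T} (hs : Compact s)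
    (u : s ⟶ ∐ X) (hu : u ≫ telMap X j = 0) : u = 0 := by
  have h0 : telMap X j ≫ Sigma.π X 0 = Sigma.π X 0 := by
    ext k
    simp [telMap, Sigma.ι_π_of_ne]
  have h1 : ∀ k, telMap X j ≫ Sigma.π X (k + 1) = Sigma.π X (k + 1) - Sigma.π X k ≫ j k := by
    intro k
    ext l
    simp only [telMap, Sigma.ι_desc_assoc, Preadditive.sub_comp, Category.assoc,
      Preadditive.comp_sub]
    congr 1
    by_cases hl : l = k
    · subst hl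
      simp
    · rw [Sigma.ι_π_of_ne _ (by omega), ← Category.assoc, Sigma.ι_π_of_ne _ hl]
      simp
  have key : ∀ k, u ≫ Sigma.π X k = 0 := by
    intro k
    induction k with
    | zero => rw [← h0, ← Category.assoc, hu, zero_comp]
    | succ k ih =>
      have := h1 k
      rw [eq_sub_iff_add_eq] at this
      rw [← this, Preadditive.comp_add, ← Category.assoc, hu, ← Category.assoc, ih]
      simp
  obtain ⟨t, ht⟩ := compact_iff.1 hs _ X u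
  refine ht.trans (Finset.sum_eq_zero fun k _ => ?_)
  have hk := key k
  rw [Subsingleton.elim (instDecidableEqNat) (fun a b => Classical.propDecidable (a = b))] at hk
  rw [hk, zero_comp]

theorem tel_lift (X : ℕ → 𝒯.T) (j : ∀ k, X k ⟶ X (k + 1)) {W : 𝒯.T} {π : ∐ X ⟶ W}
    {w : W ⟶ (∐ X)⟦(1 : ℤ)⟧} (hD : Triangle.mk (telMap X j) π w ∈ distTriang 𝒯.T) {s : 𝒯.T}
    (hs : Compact s) (f : s ⟶ W) : ∃ (N : ℕ) (f' : s ⟶ X N), f = f' ≫ Sigma.ι X N ≫ π := by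
  have hz : telMap X j ≫ π = 0 := comp_distTriang_mor_zero₁₂ _ hD
  have hstep : ∀ k, Sigma.ι X k ≫ π = j k ≫ Sigma.ι X (k + 1) ≫ π := by
    intro k
    have := Sigma.ι X k ≫= hz
    simpa [telMap, sub_eq_zero] using this
  have hw : f ≫ w = 0 := by
    let e := (shiftFunctorCompIsoId 𝒯.T (-1) 1 (by simp)).app s
    obtain ⟨u, hu⟩ := (shiftFunctor 𝒯.T (1 : ℤ)).map_surjective (e.hom ≫ f ≫ w)
    have h31 : w ≫ (telMap X j)⟦(1 : ℤ)⟧' = 0 := comp_distTriang_mor_zero₃₁ _ hD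
    have hu0 : u = 0 := telMap_inj X j (hs.shift (-1)) u
      ((shiftFunctor 𝒯.T (1 : ℤ)).map_injective (by
        rw [Functor.map_comp, hu, Category.assoc, Category.assoc, h31]
        simp))
    rw [hu0, Functor.map_zero] at hu
    rw [← cancel_epi e.hom, ← hu, comp_zero]
  obtain ⟨f', rfl⟩ := Triangle.coyoneda_exact₃ _ hD f hw
  obtain ⟨t, c, rfl⟩ := hs _ X f'
  have up : ∀ (k : ℕ) (c : s ⟶ X k) (N : ℕ), k ≤ N →
      ∃ c' : s ⟶ X N, c ≫ Sigma.ι X k ≫ π = c' ≫ Sigma.ι X N ≫ π := by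
    intro k c N hN
    induction N, hN using Nat.le_induction with
    | base => exact ⟨c, rfl⟩
    | succ N _ ih =>
      obtain ⟨c', hc'⟩ := ih
      exact ⟨c' ≫ j N, by rw [hc', hstep N, Category.assoc]⟩
  have up' : ∀ k, ∃ c' : s ⟶ X (t.sup id), k ∈ t →
      c k ≫ Sigma.ι X k ≫ π = c' ≫ Sigma.ι X (t.sup id) ≫ π := by
    intro k
    by_cases hk : k ∈ t
    · obtain ⟨c', hc'⟩ := up k (c k) _ (Finset.le_sup (f := id) hk)
      exact ⟨c', fun _ => hc'⟩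
    · exact ⟨0, fun h => (hk h).elim⟩
  choose c' hc' using up'
  refine ⟨t.sup id, ∑ k ∈ t, c' k, ?_⟩
  change (∑ k ∈ t, c k ≫ Sigma.ι X k) ≫ π = _
  rw [Preadditive.sum_comp, Preadditive.sum_comp]
  exact Finset.sum_congr rfl fun k hk => by rw [Category.assoc, hc' k hk]

/-- Brown representability for the functor `Y ↦ Hom(a ⊗ Y, Z)` on `LocSub (range g)` -/
theorem brown {I : Type} (g : I → 𝒯.T) (hg : ∀ i, Compact (g i)) (a Z : 𝒯.T) :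
    ∃ X : 𝒯.T, LocSub (Set.range g) X ∧ ∃ x : a ⊗ X ⟶ Z,
      ∀ Y : 𝒯.T, LocSub (Set.range g) Y → Function.Bijective (fun f : Y ⟶ X => a ◁ f ≫ x) := by
  let J : Type := Σ (i : I) (n : ℤ), (a ⊗ (g i)⟦n⟧ ⟶ Z)
  let Y : J → 𝒯.T := fun p => (g p.1)⟦p.2.1⟧
  obtain ⟨x₀, hx₀⟩ := tens_coprod_desc a Y (Z := Z) fun p => p.2.2
  let St : Type 1 := Σ X : {X : 𝒯.T // LocSub (Set.range g) X}, (a ⊗ X.1 ⟶ Z)
  choose nX nL nj nx hn1 hn2 using fun p : St => brown_step g p.1.2 p.2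
  let seq : ℕ → St := fun k => Nat.rec
    ⟨⟨∐ Y, .coprod _ _ fun p => .shift _ _ (.of _ ⟨p.1, rfl⟩)⟩, x₀⟩
    (fun _ p => ⟨⟨nX p, nL p⟩, nx p⟩) k
  let X : ℕ → 𝒯.T := fun k => (seq k).1.1
  let j : ∀ k, X k ⟶ X (k + 1) := fun k => nj (seq k)
  let xs : ∀ k, a ⊗ X k ⟶ Z := fun k => (seq k).2
  have h1 : ∀ k, a ◁ j k ≫ xs (k + 1) = xs k := fun k => hn1 (seq k)
  have h2 : ∀ k (i : I) (n : ℤ) (f : (g i)⟦n⟧ ⟶ X k), a ◁ f ≫ xs k = 0 → f ≫ j k = 0 :=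
    fun k => hn2 (seq k)
  obtain ⟨y, hy⟩ := tens_coprod_desc a X xs
  obtain ⟨W, π, w, hD⟩ := distinguished_cocone_triangle (telMap X j)
  obtain ⟨x, hx⟩ := tens_exact a _ hD y (tens_coprod_ext a X fun k => by
    change a ◁ Sigma.ι X k ≫ a ◁ telMap X j ≫ y = _
    have e : a ◁ (Sigma.ι X k - j k ≫ Sigma.ι X (k + 1)) =
        a ◁ Sigma.ι X k - a ◁ (j k ≫ Sigma.ι X (k + 1)) := (tensorLeft a).map_sub
    rw [← whiskerLeft_comp_assoc, telMap, Sigma.ι_desc, e, Preadditive.sub_comp, whiskerLeft_comp,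
      Category.assoc, hy, hy, h1, sub_self, comp_zero])
  have hx' : y = a ◁ π ≫ x := hx
  have hL : LocSub (Set.range g) (∐ X) := .coprod _ _ fun k => (seq k).1.2
  have hk : ∀ k, a ◁ (Sigma.ι X k ≫ π) ≫ x = xs k := fun k => by
    rw [whiskerLeft_comp, Category.assoc, ← hx', hy]
  refine ⟨W, LocSub.ext₃ _ hD hL hL, x, fun Y' hY' => bij_of_gen x ?_ hY'⟩
  rintro _ ⟨i, rfl⟩ n
  rw [bij_iff]
  refine ⟨fun f hf => ?_, fun h => ⟨Sigma.ι Y ⟨i, n, h⟩ ≫ Sigma.ι X 0 ≫ π, ?_⟩⟩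
  · obtain ⟨N, f', rfl⟩ := tel_lift X j hD ((hg i).shift n) f
    rw [whiskerLeft_comp, Category.assoc, hk] at hf
    have hz : telMap X j ≫ π = 0 := comp_distTriang_mor_zero₁₂ _ hD
    have hstep : Sigma.ι X N ≫ π = j N ≫ Sigma.ι X (N + 1) ≫ π := by
      have := Sigma.ι X N ≫= hz
      simpa [telMap, sub_eq_zero] using this
    rw [hstep, ← Category.assoc, h2 N i n f' hf, zero_comp]
  · rw [whiskerLeft_comp, Category.assoc, hk]
    exact hx₀ ⟨i, n, h⟩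

theorem cellular {I : Type} (g : I → 𝒯.T) (hg : ∀ i, Compact (g i)) (Z : 𝒯.T) :
    ∃ X : 𝒯.T, LocSub (Set.range g) X ∧ ∃ p : X ⟶ Z,
      ∀ Y : 𝒯.T, LocSub (Set.range g) Y → Function.Bijective (fun f : Y ⟶ X => f ≫ p) := by
  obtain ⟨X, hX, x, hx⟩ := brown g hg (𝟙_ 𝒯.T) Z
  refine ⟨X, hX, (λ_ X).inv ≫ x, fun Y hY => ?_⟩
  have e : (fun f : Y ⟶ X => f ≫ (λ_ X).inv ≫ x) =
      (Iso.homFromEquiv (λ_ Y).symm).symm ∘ (fun f : Y ⟶ X => 𝟙_ 𝒯.T ◁ f ≫ x) := by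
    funext f
    simp [Iso.homFromEquiv]
  rw [e]
  exact (Equiv.bijective _).comp (hx Y hY)

theorem cellular_triangle {I : Type} (g : I → 𝒯.T) (hg : ∀ i, Compact (g i)) (Z : 𝒯.T) :
    ∃ (e f : 𝒯.T) (u : e ⟶ Z) (v : Z ⟶ f) (w : f ⟶ e⟦(1 : ℤ)⟧),
      Triangle.mk u v w ∈ distTriang 𝒯.T ∧ LocSub (Set.range g) e ∧
        ∀ a : 𝒯.T, LocSub (Set.range g) a → ∀ φ : a ⟶ f, φ = 0 := by
  obtain ⟨X, hX, p, hp⟩ := cellular g hg Z
  obtain ⟨f, v, w, hD⟩ := distinguished_cocone_triangle p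
  refine ⟨X, f, p, v, w, hD, hX, fun a ha φ => ?_⟩
  have hw : φ ≫ w = 0 := by
    let e := (shiftFunctorCompIsoId 𝒯.T (-1) 1 (by simp)).app a
    obtain ⟨u, hu⟩ := (shiftFunctor 𝒯.T (1 : ℤ)).map_surjective (e.hom ≫ φ ≫ w)
    have h31 : w ≫ p⟦(1 : ℤ)⟧' = 0 := comp_distTriang_mor_zero₃₁ _ hD
    have hu0 : u = 0 := (hp _ (.shift a (-1) ha)).1
      ((shiftFunctor 𝒯.T (1 : ℤ)).map_injective (by
        simp only [Functor.map_comp]
        rw [hu, Category.assoc, Category.assoc, h31]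
        simp))
    rw [hu0, Functor.map_zero] at hu
    rw [← cancel_epi e.hom, ← hu, comp_zero]
  obtain ⟨ψ, rfl⟩ := Triangle.coyoneda_exact₃ _ hD φ hw
  obtain ⟨χ, rfl⟩ := (hp a ha).2 ψ
  have h12 : p ≫ v = 0 := comp_distTriang_mor_zero₁₂ _ hD
  change (χ ≫ p) ≫ v = 0
  rw [Category.assoc, h12, comp_zero]

theorem locSub_top {I : Type} (g : I → 𝒯.T) (hg : ∀ i, Compact (g i)) (hgen : Generates g)
    (x : 𝒯.T) : LocSub (Set.range g) x := by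
  obtain ⟨e, f, u, v, w, hD, he, hf⟩ := cellular_triangle g hg x
  exact .ext _ hD he (.zero _ (hgen f fun i n φ => hf _ (.shift _ n (.of _ ⟨i, rfl⟩)) φ))

end TTCat

end Pool.Agent.Lib.MP_ded707_al
end
end

-- part Pool.Agent.Lib.MP_ded707_al.Neeman
section

/-!
Neeman lemma, essential smallness of the compact objects, localization triangles.
-/

set_option autoImplicit false
set_option backward.isDefEq.respectTransparency false
set_option backward.defeqAttrib.useBackward true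

open CategoryTheory Limits Pretriangulated MonoidalCategory ZeroObject

noncomputable section

namespace Pool.Agent.Lib.MP_ded707_al

namespace TTCat

variable {𝒯 : TTCat}

theorem neeman (𝒟 : Set 𝒯.T) (hc : ∀ x ∈ 𝒟, Compact x) (hz : ∀ x : 𝒯.T, IsZero x → x ∈ 𝒟)
    (hs : ∀ x ∈ 𝒟, ∀ n : ℤ, x⟦n⟧ ∈ 𝒟)
    (he : ∀ D ∈ distTriang 𝒯.T, D.obj₁ ∈ 𝒟 → D.obj₃ ∈ 𝒟 → D.obj₂ ∈ 𝒟)
    {Y : 𝒯.T} (hY : LocSub 𝒟 Y) {c : 𝒯.T} (hcc : Compact c) (f : c ⟶ Y) :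
    ∃ d ∈ 𝒟, ∃ (u : c ⟶ d) (v : d ⟶ Y), f = u ≫ v := by
  have add : ∀ {c Y : 𝒯.T} {f g : c ⟶ Y}, (∃ d ∈ 𝒟, ∃ (u : c ⟶ d) (v : d ⟶ Y), f = u ≫ v) →
      (∃ d ∈ 𝒟, ∃ (u : c ⟶ d) (v : d ⟶ Y), g = u ≫ v) →
      ∃ d ∈ 𝒟, ∃ (u : c ⟶ d) (v : d ⟶ Y), f + g = u ≫ v := by
    rintro c Y _ _ ⟨d, hd, u, v, rfl⟩ ⟨d', hd', u', v', rfl⟩
    exact ⟨d ⊞ d', he _ (binaryBiproductTriangle_distinguished d d') hd hd', biprod.lift u u',
      biprod.desc v v', by simp⟩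
  induction hY generalizing c with
  | of x hx => exact ⟨x, hx, f, 𝟙 x, by simp⟩
  | zero x hx => exact ⟨x, hz x hx, f, 𝟙 x, by simp⟩
  | iso x y e _ ih =>
    obtain ⟨d, hd, u, v, h⟩ := ih hcc (f ≫ e.inv)
    exact ⟨d, hd, u, v ≫ e.hom, by rw [← Category.assoc, ← h]; simp⟩
  | shift x n _ ih =>
    let e := (shiftFunctorCompIsoId 𝒯.T (-n) n (by simp)).app c
    obtain ⟨g, hg⟩ := (shiftFunctor 𝒯.T n).map_surjective (e.hom ≫ f)
    obtain ⟨d, hd, u, v, rfl⟩ := ih (hcc.shift (-n)) g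
    exact ⟨d⟦n⟧, hs d hd n, e.inv ≫ u⟦n⟧', v⟦n⟧', by
      rw [Category.assoc, ← Functor.map_comp, hg, Iso.inv_hom_id_assoc]⟩
  | ext D hD _ _ ih₁ ih₃ =>
    obtain ⟨d₃, h₃, u₃, v₃, e₃⟩ := ih₃ hcc (f ≫ D.mor₂)
    obtain ⟨c'', i, h, hT⟩ := distinguished_cocone_triangle₁ u₃
    obtain ⟨a, a1, a2⟩ := complete_distinguished_triangle_morphism₁ _ D hT hD f v₃ e₃.symm
    obtain ⟨d₁, h₁, u₁, v₁, rfl⟩ := ih₁ (Compact.ext₁ _ hT hcc (hc _ h₃)) a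
    obtain ⟨c', j, k, hT'⟩ := distinguished_cocone_triangle₂ (h ≫ u₁⟦(1 : ℤ)⟧')
    obtain ⟨α, α1, -⟩ := complete_distinguished_triangle_morphism₂ _ _ hT hT' u₁ (𝟙 d₃) (by simp)
    obtain ⟨β, β1, -⟩ := complete_distinguished_triangle_morphism₂ _ D hT' hD v₁ v₃
      (by simpa using a2)
    change c ⟶ c' at α
    change c' ⟶ D.obj₂ at β
    dsimp only [Triangle.mk] at a1 α1 β1
    obtain ⟨g, hg⟩ := Triangle.yoneda_exact₂ _ hT (f - α ≫ β) (by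
      dsimp only [Triangle.mk]
      rw [Preadditive.comp_sub, a1, reassoc_of% α1, β1, Category.assoc, sub_self])
    rw [sub_eq_iff_eq_add.mp hg]
    exact add ⟨d₃, h₃, u₃, g, rfl⟩ ⟨c', he _ hT' h₁ h₃, α, β, rfl⟩
  | coprod J Y _ ih =>
    classical
    obtain ⟨s, g, rfl⟩ := hcc J Y f
    induction s using Finset.induction_on with
    | empty => exact ⟨0, hz _ (isZero_zero _), 0, 0, by simp⟩
    | insert j s hj ih' =>
      rw [Finset.sum_insert hj]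
      obtain ⟨d, hd, u, v, h⟩ := ih j hcc (g j)
      exact add ⟨d, hd, u, v ≫ Sigma.ι Y j, by rw [h, Category.assoc]⟩ ih'

theorem IsThickIdeal.mem_of_locSub {J : Set 𝒯.T} (hJ : IsThickIdeal J) {c : 𝒯.T}
    (hc : Compact c) (h : LocSub J c) : c ∈ J := by
  obtain ⟨d, hd, u, v, e⟩ := neeman J hJ.compact hJ.zero hJ.shift hJ.ext h hc (𝟙 c)
  exact hJ.retract c d ⟨u, v, e.symm⟩ hd

theorem Gen.retract_cell {G : Type} [AddCommGroup G] {M : AddSubmonoid G} (Γ : Gen 𝒯 M)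
    (hgen : Generates Γ.L) {x : 𝒯.T} (hx : Compact x) :
    ∃ C : 𝒯.T, Γ.Cell Set.univ C ∧ Nonempty (Retract x C) := by
  obtain ⟨d, hd, u, v, e⟩ := neeman {C | Γ.Cell Set.univ C} (fun _ h => h.compact) Gen.Cell.zero
    (fun _ h n => h.shift n fun _ _ => Set.mem_univ _) Gen.Cell.ext
    ((locSub_top Γ.L Γ.cpt hgen x).mono (by
      rintro _ ⟨γ, rfl⟩
      exact .gen _ γ 0 trivial ((shiftFunctorZero 𝒯.T ℤ).app _).symm)) hx (𝟙 x)
  exact ⟨d, hd, ⟨⟨u, v, e.symm⟩⟩⟩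

/-- extensions of bounded depth of the shifted generators -/
inductive Dep {I : Type} (g : I → 𝒯.T) : ℕ → 𝒯.T → Prop
  | zero (n : ℕ) (x : 𝒯.T) (h : IsZero x) : Dep g n x
  | gen (n : ℕ) (x : 𝒯.T) (i : I) (k : ℤ) (e : x ≅ (g i)⟦k⟧) : Dep g n x
  | ext (n : ℕ) (D : Triangle 𝒯.T) (hD : D ∈ distTriang 𝒯.T) :
      Dep g n D.obj₁ → Dep g n D.obj₃ → Dep g (n + 1) D.obj₂

theorem Dep.mono {I : Type} {g : I → 𝒯.T} {n m : ℕ} {x : 𝒯.T} (h : Dep g n x) (hm : n ≤ m) :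
    Dep g m x := by
  induction h generalizing m with
  | zero n x hx => exact .zero m x hx
  | gen n x i k e => exact .gen m x i k e
  | ext n D hD _ _ ih₁ ih₃ =>
    obtain ⟨m, rfl⟩ : ∃ l, m = l + 1 := ⟨m - 1, by omega⟩
    exact .ext m D hD (ih₁ (by omega)) (ih₃ (by omega))

theorem Dep.shift {I : Type} {g : I → 𝒯.T} {n : ℕ} {x : 𝒯.T} (h : Dep g n x) (l : ℤ) :
    Dep g n (x⟦l⟧) := by
  induction h with
  | zero n x hx => exact .zero n _ (isZero_shift hx l)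
  | gen n x i k e =>
    exact .gen n _ i (k + l) ((shiftFunctor _ l).mapIso e ≪≫
      ((shiftFunctorAdd' 𝒯.T k l (k + l) rfl).app _).symm)
  | ext n D hD _ _ ih₁ ih₃ => exact .ext n _ (Triangle.shift_distinguished D hD l) ih₁ ih₃

theorem Dep.compact {I : Type} {g : I → 𝒯.T} (hg : ∀ i, Compact (g i)) {n : ℕ} {x : 𝒯.T}
    (h : Dep g n x) : Compact x := by
  induction h with
  | zero n x hx => exact compact_of_isZero hx
  | gen n x i k e => exact ((hg i).shift k).of_iso e.symm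
  | ext n D hD _ _ ih₁ ih₃ => exact Compact.ext D hD ih₁ ih₃

theorem Dep.cover {I : Type} (g : I → 𝒯.T) (n : ℕ) :
    ∃ (J : Type) (F : J → 𝒯.T), ∀ x, Dep g n x → ∃ j, Nonempty (x ≅ F j) := by
  let F₀ : Option (I × ℤ) → 𝒯.T := fun o => o.elim 0 fun p => (g p.1)⟦p.2⟧
  induction n with
  | zero =>
    refine ⟨_, F₀, fun x hx => ?_⟩
    cases hx with
    | zero _ _ hx => exact ⟨none, ⟨hx.isoZero⟩⟩
    | gen _ _ i k e => exact ⟨some (i, k), ⟨e⟩⟩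
  | succ n ih =>
    obtain ⟨J, F, hF⟩ := ih
    choose Y u v hY using fun p : Σ a b : J, (F b ⟶ (F a)⟦(1 : ℤ)⟧) =>
      distinguished_cocone_triangle₂ p.2.2
    refine ⟨_, Sum.elim F₀ Y, fun x hx => ?_⟩
    cases hx with
    | zero _ _ hx => exact ⟨.inl none, ⟨hx.isoZero⟩⟩
    | gen _ _ i k e => exact ⟨.inl (some (i, k)), ⟨e⟩⟩
    | ext _ D hD h₁ h₃ =>
      obtain ⟨a, ⟨e₁⟩⟩ := hF _ h₁
      obtain ⟨b, ⟨e₃⟩⟩ := hF _ h₃
      exact ⟨.inr ⟨a, b, e₃.inv ≫ D.mor₃ ≫ e₁.hom⟦(1 : ℤ)⟧'⟩, ⟨Triangle.π₂.mapIso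
        (isoTriangleOfIso₁₃ D _ hD (hY ⟨a, b, e₃.inv ≫ D.mor₃ ≫ e₁.hom⟦(1 : ℤ)⟧'⟩) e₁ e₃ (by simp))⟩⟩

theorem IsRCG.small (h : 𝒯.IsRCG) :
    ∃ (I : Type) (F : I → 𝒯.T), ∀ x : 𝒯.T, Compact x → ∃ i, Nonempty (x ≅ F i) := by
  classical
  obtain ⟨I, g, hg, hgen⟩ := h.gen
  choose J F hF using Dep.cover g
  refine ⟨Σ (n : ℕ) (j : J n), (F n j ⟶ F n j), fun p =>
    if k : ∃ x, ∃ ρ : Retract x (F p.1 p.2.1), ρ.r ≫ ρ.i = p.2.2 then k.choose else 0,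
    fun x hx => ?_⟩
  obtain ⟨d, ⟨n, hd⟩, u, v, e⟩ := neeman {C | ∃ n, Dep g n C} (fun _ h => h.choose_spec.compact hg)
    (fun x h => ⟨0, .zero 0 x h⟩) (fun _ ⟨n, h⟩ k => ⟨n, h.shift k⟩)
    (fun D hD ⟨m, h₁⟩ ⟨n, h₃⟩ => ⟨max m n + 1, .ext _ D hD (h₁.mono (le_max_left m n))
      (h₃.mono (le_max_right m n))⟩)
    ((locSub_top g hg hgen x).mono (by
      rintro _ ⟨i, rfl⟩
      exact ⟨0, .gen 0 _ i 0 ((shiftFunctorZero 𝒯.T ℤ).app _).symm⟩)) hx (𝟙 x)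
  obtain ⟨j, ⟨e'⟩⟩ := hF n d hd
  let ρ : Retract x (F n j) := ⟨u ≫ e'.hom, e'.inv ≫ v, by simp [← e]⟩
  have k : ∃ x, ∃ ρ' : Retract x (F n j), ρ'.r ≫ ρ'.i = ρ.r ≫ ρ.i := ⟨x, ρ, rfl⟩
  refine ⟨⟨n, j, ρ.r ≫ ρ.i⟩, ?_⟩
  beta_reduce
  rw [dif_pos k]
  have k'' := k.choose_spec
  generalize k.choose = y at k'' ⊢
  obtain ⟨ρ', k'⟩ := k''
  clear_value ρ
  exact ⟨⟨ρ.i ≫ ρ'.r, ρ'.i ≫ ρ.r, by rw [Category.assoc, reassoc_of% k']; simp,
    by rw [Category.assoc, ← Category.assoc ρ.r, ← k']; simp⟩⟩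

theorem IsRCG.exists_loc_triangle (h : 𝒯.IsRCG) (S : Set 𝒯.T) (hS : ∀ x ∈ S, Compact x)
    (Z : 𝒯.T) :
    ∃ (e f : 𝒯.T) (u : e ⟶ Z) (v : Z ⟶ f) (w : f ⟶ e⟦(1 : ℤ)⟧),
      Triangle.mk u v w ∈ distTriang 𝒯.T ∧ LocSub S e ∧
        ∀ a : 𝒯.T, LocSub S a → ∀ φ : a ⟶ f, φ = 0 := by
  obtain ⟨I, F, hF⟩ := h.small
  obtain ⟨e, f, u, v, w, h1, h2, h3⟩ := cellular_triangle
    (fun k : {k // ∃ x ∈ S, Nonempty (x ≅ F k)} => F k)
    (fun ⟨_, x, hx, ⟨e⟩⟩ => (hS x hx).of_iso e) Z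
  refine ⟨e, f, u, v, w, h1, h2.trans ?_, fun a ha => h3 a (ha.trans fun x hx => ?_)⟩
  · rintro _ ⟨⟨k, x, hx, ⟨e⟩⟩, rfl⟩
    exact .iso _ _ e (.of x hx)
  · obtain ⟨k, ⟨e⟩⟩ := hF x (hS x hx)
    exact .iso _ _ e.symm (.of _ ⟨⟨k, x, hx, ⟨e⟩⟩, rfl⟩)

theorem IsRCG.locSub_of_mem_loc (h : 𝒯.IsRCG) {S : Set 𝒯.T}
    (hS : ∀ a x : 𝒯.T, Compact a → x ∈ S → a ⊗ x ∈ S) {x : 𝒯.T} (hx : x ∈ Loc S) :
    LocSub S x := by
  obtain ⟨I, g, hg, hgen⟩ := h.gen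
  refine loc_subset (L := {x | LocSub S x}) ⟨.zero, .iso, fun x hx n => .shift x n hx, .ext,
    .coprod, fun a x hx => LocSub.tensL a (fun s hs => ?_) hx⟩ LocSub.of hx
  refine (locSub_top g hg hgen a).tensR s ?_
  rintro _ ⟨i, rfl⟩
  exact .of _ (hS _ s (hg i) hs)

end TTCat

end Pool.Agent.Lib.MP_ded707_al
end
end

-- part Pool.Agent.Lib.MP_ded707_al.RCG
section

/-!
A tt-category generated by invertible compact objects is rigidly-compactly generated.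
-/

set_option autoImplicit false
set_option backward.isDefEq.respectTransparency false
set_option backward.defeqAttrib.useBackward true

open CategoryTheory Limits Pretriangulated MonoidalCategory ZeroObject

noncomputable section

namespace Pool.Agent.Lib.MP_ded707_al

namespace TTCat

variable {𝒯 : TTCat}

namespace RCG

theorem bij_of_sq {A A' B B' : Type} {θ : A → B} {θ' : A' → B'} (f : A → A') (g : B → B')
    (hf : Function.Bijective f) (hg : Function.Bijective g) (h : ∀ a, θ' (f a) = g (θ a))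
    (hθ : Function.Bijective θ) : Function.Bijective θ' := by
  rw [← Function.Bijective.of_comp_iff θ' hf, show θ' ∘ f = g ∘ θ from funext h]
  exact hg.comp hθ

theorem bij_post (a : 𝒯.T) {u v : 𝒯.T} (e : u ≅ v) :
    Function.Bijective fun f : a ⟶ u => f ≫ e.hom :=
  ⟨fun _ _ h => (cancel_mono _).1 h, fun f => ⟨f ≫ e.inv, by simp⟩⟩

theorem bij_pre {u v : 𝒯.T} (e : u ≅ v) (a : 𝒯.T) :
    Function.Bijective fun f : v ⟶ a => e.hom ≫ f :=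
  ⟨fun _ _ h => (cancel_epi _).1 h, fun f => ⟨e.inv ≫ f, by simp⟩⟩

theorem exact_co (a : 𝒯.T) (D : Triangle 𝒯.T) (hD : D ∈ distTriang 𝒯.T) :
    Function.Exact (Preadditive.rightComp a D.mor₁) (Preadditive.rightComp a D.mor₂) := fun f =>
  ⟨fun h => let ⟨g, hg⟩ := D.coyoneda_exact₂ hD f h; ⟨g, hg.symm⟩, by
    rintro ⟨g, rfl⟩
    change (g ≫ D.mor₁) ≫ D.mor₂ = 0
    rw [Category.assoc, comp_distTriang_mor_zero₁₂ D hD, comp_zero]⟩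

theorem exact_contra (a : 𝒯.T) (D : Triangle 𝒯.T) (hD : D ∈ distTriang 𝒯.T) :
    Function.Exact (Preadditive.leftComp a D.mor₂) (Preadditive.leftComp a D.mor₁) := fun f =>
  ⟨fun h => let ⟨g, hg⟩ := D.yoneda_exact₂ hD f h; ⟨g, hg.symm⟩, by
    rintro ⟨g, rfl⟩
    change D.mor₁ ≫ D.mor₂ ≫ g = 0
    rw [← Category.assoc, comp_distTriang_mor_zero₁₂ D hD, zero_comp]⟩

theorem exact_co' (a y : 𝒯.T) (D : Triangle 𝒯.T) (hD : D ∈ distTriang 𝒯.T) :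
    Function.Exact (Preadditive.rightComp a (y ◁ D.mor₁)) (Preadditive.rightComp a (y ◁ D.mor₂)) :=
  let ⟨_, h⟩ := tensL_dist y D hD; exact_co a _ h

theorem exact_contra' (a y : 𝒯.T) (D : Triangle 𝒯.T) (hD : D ∈ distTriang 𝒯.T) :
    Function.Exact (Preadditive.leftComp a (y ◁ D.mor₂)) (Preadditive.leftComp a (y ◁ D.mor₁)) :=
  let ⟨_, h⟩ := tensL_dist y D hD; exact_contra a _ h

variable {x y : 𝒯.T} (ev : x ⊗ y ⟶ 𝟙_ 𝒯.T)

/-- the counit attached to an evaluation map -/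
def eps (z : 𝒯.T) : x ⊗ (y ⊗ z) ⟶ z := (α_ x y z).inv ≫ ev ▷ z ≫ (λ_ z).hom

theorem eps_nat {z z' : 𝒯.T} (f : z ⟶ z') : x ◁ (y ◁ f) ≫ eps ev z' = eps ev z ≫ f := by
  simp only [eps, Category.assoc]
  rw [associator_inv_naturality_right_assoc, whisker_exchange_assoc, leftUnitor_naturality]

/-- the comparison map -/
def th (a z : 𝒯.T) : (a ⟶ y ⊗ z) →+ (x ⊗ a ⟶ z) :=
  AddMonoidHom.mk' (fun g => x ◁ g ≫ eps ev z) fun g h => by
    rw [MonoidalPreadditive.whiskerLeft_add, Preadditive.add_comp]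

theorem th_apply {a z : 𝒯.T} (g : a ⟶ y ⊗ z) : th ev a z g = x ◁ g ≫ eps ev z := rfl

theorem th_post {a z z' : 𝒯.T} (g : a ⟶ y ⊗ z) (f : z ⟶ z') :
    th ev a z' (g ≫ y ◁ f) = th ev a z g ≫ f := by
  rw [th_apply, th_apply, whiskerLeft_comp, Category.assoc, eps_nat, Category.assoc]

theorem th_pre {a a' z : 𝒯.T} (f : a ⟶ a') (g : a' ⟶ y ⊗ z) :
    th ev a z (f ≫ g) = x ◁ f ≫ th ev a' z g := by
  rw [th_apply, th_apply, whiskerLeft_comp, Category.assoc]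

theorem th_iso_left {a a' : 𝒯.T} (e : a ≅ a') (z : 𝒯.T) (h : Function.Bijective (th ev a z)) :
    Function.Bijective (th ev a' z) :=
  bij_of_sq _ _ (bij_pre e.symm _) (bij_pre (whiskerLeftIso x e.symm) _) (th_pre ev e.inv) h

theorem th_inv (hev : ∀ a : 𝒯.T, Function.Bijective fun f : a ⟶ y => x ◁ f ≫ ev) {z : 𝒯.T}
    (hz : Inv z) (a : 𝒯.T) : Function.Bijective (th ev a z) := by
  have := hz.isEquivalence_right
  refine th_iso_left ev ((tensorRight z).objObjPreimageIso a) z ?_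
  generalize (tensorRight z).objPreimage a = b
  refine bij_of_sq (tensorRight z).map
    (fun f => (α_ x b z).inv ≫ (tensorRight z).map f ≫ (λ_ z).hom)
    ((Functor.FullyFaithful.ofFullyFaithful (tensorRight z)).map_bijective _ _)
    ((bij_pre (α_ x b z).symm _).comp ((bij_post _ (λ_ z)).comp
      ((Functor.FullyFaithful.ofFullyFaithful (tensorRight z)).map_bijective _ _)))
    (fun g => ?_) (hev b)
  change x ◁ (g ▷ z) ≫ eps ev z = (α_ x b z).inv ≫ (x ◁ g ≫ ev) ▷ z ≫ (λ_ z).hom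
  rw [eps, associator_inv_naturality_middle_assoc, comp_whiskerRight, Category.assoc]

theorem th_right {S : Set 𝒯.T} {a : 𝒯.T} (ha : Compact a) (hxa : Compact (x ⊗ a))
    (h : ∀ s ∈ S, ∀ n : ℤ, Function.Bijective (th ev a (s⟦n⟧))) {z : 𝒯.T} (hz : LocSub S z) :
    Function.Bijective (th ev a z) := by
  classical
  refine LocSub.five (fun z => Function.Bijective (th ev a z)) (fun z z' e h => ?_)
    (fun z hz => ⟨fun _ _ _ => (isZero_tensL y hz).eq_of_tgt _ _, fun _ => ⟨0, hz.eq_of_tgt _ _⟩⟩)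
    (fun D hD h0 h1 h3 h4 => ?_) (fun J Y hY => ⟨?_, fun f => ?_⟩) h hz
  · exact bij_of_sq _ _ (bij_post _ (whiskerLeftIso y e)) (bij_post _ e)
      (fun g => th_post ev g e.hom) h
  · exact AddMonoidHom.bijective_of_surjective_of_bijective_of_bijective_of_injective
      _ _ _ _ _ _ _ _ _ _ _ _ _
      (AddMonoidHom.ext fun g => (th_post ev g D.invRotate.mor₁).symm)
      (AddMonoidHom.ext fun g => (th_post ev g D.mor₁).symm)
      (AddMonoidHom.ext fun g => (th_post ev g D.mor₂).symm)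
      (AddMonoidHom.ext fun g => (th_post ev g D.mor₃).symm)
      (exact_co' a y _ (inv_rot_of_distTriang D hD)) (exact_co' a y D hD)
      (exact_co' a y _ (rot_of_distTriang D hD)) (exact_co _ _ (inv_rot_of_distTriang D hD))
      (exact_co _ D hD) (exact_co _ _ (rot_of_distTriang D hD)) h0.2 h1 h3 h4.1
  · rw [injective_iff_map_eq_zero]
    intro g hg
    obtain ⟨s, hs⟩ := compact_iff.1 ha J _ (g ≫ (tensCoprodIso y Y).hom)
    rw [← cancel_mono (tensCoprodIso y Y).hom, hs, zero_comp]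
    refine Finset.sum_eq_zero fun j _ => ?_
    have e : (tensCoprodIso y Y).hom ≫ Sigma.π (fun j => y ⊗ Y j) j = y ◁ Sigma.π Y j := by
      refine tens_coprod_ext y Y fun k => ?_
      rw [ι_tensCoprodIso_hom_assoc, ← whiskerLeft_comp]
      by_cases hk : k = j
      · subst hk; simp
      · simp [Sigma.ι_π_of_ne _ hk]
    rw [Category.assoc g, e, (injective_iff_map_eq_zero _).1 (hY j).1 (g ≫ y ◁ Sigma.π Y j)
      (by rw [th_post, hg, zero_comp]), zero_comp]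
  · obtain ⟨s, u, rfl⟩ := hxa J Y f
    choose v hv using fun j => (hY j).2 (u j)
    exact ⟨∑ j ∈ s, v j ≫ y ◁ Sigma.ι Y j, by simp only [map_sum, th_post, hv]⟩

theorem th_left {S : Set 𝒯.T} {z : 𝒯.T}
    (h : ∀ s ∈ S, ∀ n : ℤ, Function.Bijective (th ev (s⟦n⟧) z)) {a : 𝒯.T} (ha : LocSub S a) :
    Function.Bijective (th ev a z) := by
  refine LocSub.five (fun a => Function.Bijective (th ev a z)) (fun a a' e => th_iso_left ev e z)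
    (fun a ha => ⟨fun _ _ _ => ha.eq_of_src _ _, fun _ => ⟨0, (isZero_tensL x ha).eq_of_src _ _⟩⟩)
    (fun D hD h0 h1 h3 h4 => ?_) (fun J Y hY => ⟨fun g g' e => ?_, fun f => ?_⟩) h ha
  · exact AddMonoidHom.bijective_of_surjective_of_bijective_of_bijective_of_injective
      _ _ _ _ _ _ _ _ _ _ _ _ _
      (AddMonoidHom.ext fun g => (th_pre ev D.mor₃ g).symm)
      (AddMonoidHom.ext fun g => (th_pre ev D.mor₂ g).symm)
      (AddMonoidHom.ext fun g => (th_pre ev D.mor₁ g).symm)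
      (AddMonoidHom.ext fun g => (th_pre ev D.invRotate.mor₁ g).symm)
      (exact_contra _ _ (rot_of_distTriang D hD)) (exact_contra _ D hD)
      (exact_contra _ _ (inv_rot_of_distTriang D hD)) (exact_contra' z x _ (rot_of_distTriang D hD))
      (exact_contra' z x D hD) (exact_contra' z x _ (inv_rot_of_distTriang D hD)) h4.2 h3 h1 h0.1
  · ext j
    exact (hY j).1 (by rw [th_pre, th_pre, e])
  · choose v hv using fun j => (hY j).2 (x ◁ Sigma.ι Y j ≫ f)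
    exact ⟨Sigma.desc v, tens_coprod_ext x Y fun j => by rw [← th_pre, Sigma.ι_desc, hv]⟩

end RCG

theorem closed_of_gen {I : Type} (g : I → 𝒯.T) (hg : ∀ i, Compact (g i)) (hgen : Generates g) :
    Nonempty (MonoidalClosed 𝒯.T) := by
  choose X _ ε h using brown g hg
  let e : ∀ a Y Z : 𝒯.T, ((tensorLeft a).obj Y ⟶ Z) ≃ (Y ⟶ X a Z) := fun a Y Z =>
    (Equiv.ofBijective _ (h a Z Y (locSub_top g hg hgen Y))).symm
  have he : ∀ (a Y' Y Z : 𝒯.T) (f : Y' ⟶ Y) (u : (tensorLeft a).obj Y ⟶ Z),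
      e a Y' Z ((tensorLeft a).map f ≫ u) = f ≫ e a Y Z u := fun a Y' Y Z f u => by
    obtain ⟨v, rfl⟩ := (e a Y Z).symm.surjective u
    rw [Equiv.apply_symm_apply, ← Equiv.eq_symm_apply]
    change a ◁ f ≫ a ◁ v ≫ _ = a ◁ (f ≫ v) ≫ _
    rw [whiskerLeft_comp, Category.assoc]
  exact ⟨⟨fun a => ⟨_, Adjunction.adjunctionOfEquivRight (e a) (he a)⟩⟩⟩

theorem dualizable_of_compact {I : Type} (g : I → 𝒯.T) (hg : ∀ i, Compact (g i))
    (hinv : ∀ i, Inv (g i)) (hgen : Generates g) {x : 𝒯.T} (hx : Compact x) :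
    ∃ y : 𝒯.T, Nonempty (ExactPairing x y) := by
  obtain ⟨y, -, ev, h⟩ := brown g hg x (𝟙_ 𝒯.T)
  replace h := fun a => h a (locSub_top g hg hgen a)
  have h1 : Function.Bijective (RCG.th ev (𝟙_ 𝒯.T) x) := by
    refine RCG.th_left ev ?_ (locSub_top g hg hgen _)
    rintro _ ⟨i, rfl⟩ n
    refine RCG.th_right ev ((hg i).shift n) (((hinv i).shift n).compact_tens hx) ?_
      (locSub_top g hg hgen _)
    rintro _ ⟨j, rfl⟩ m
    exact RCG.th_inv ev h ((hinv j).shift m) _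
  obtain ⟨co, hco⟩ := h1.2 (ρ_ x).hom
  have h2 : x ◁ co ≫ (α_ x y x).inv ≫ ev ▷ x = (ρ_ x).hom ≫ (λ_ x).inv := by
    rw [Iso.eq_comp_inv, ← hco, RCG.th_apply, RCG.eps, Category.assoc, Category.assoc]
  have h3 : co ▷ y ≫ (α_ y x y).hom ≫ y ◁ ev = (λ_ y).hom ≫ (ρ_ y).inv := by
    rw [Iso.eq_comp_inv]
    refine (h _).1 ?_
    calc x ◁ ((co ▷ y ≫ (α_ y x y).hom ≫ y ◁ ev) ≫ (ρ_ y).hom) ≫ ev
        = 𝟙 _ ⊗≫ x ◁ co ▷ y ⊗≫ ((x ⊗ y) ◁ ev ≫ ev ▷ 𝟙_ 𝒯.T) ⊗≫ 𝟙 _ := by monoidal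
      _ = 𝟙 _ ⊗≫ (x ◁ co ≫ (α_ x y x).inv ≫ ev ▷ x) ▷ y ⊗≫ ev := by
        rw [whisker_exchange]; monoidal
      _ = x ◁ (λ_ y).hom ≫ ev := by rw [h2]; monoidal
  let : ExactPairing y x := ⟨co, ev, h2, h3⟩
  exact ⟨y, ⟨BraidedCategory.exactPairing_swap y x⟩⟩

theorem isRCG_of_gen {I : Type} (g : I → 𝒯.T) (hg : ∀ i, Compact (g i))
    (hinv : ∀ i, Inv (g i)) (hu : Compact (𝟙_ 𝒯.T)) (hgen : Generates g) : 𝒯.IsRCG where
  closed := closed_of_gen g hg hgen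
  gen := ⟨I, g, hg, hgen⟩
  rigid x := ⟨dualizable_of_compact g hg hinv hgen, fun ⟨y, ⟨_⟩⟩ =>
    (hu.tens_of_pairing x y).of_iso (λ_ x)⟩

end TTCat

end Pool.Agent.Lib.MP_ded707_al
end
end

-- part Pool.Agent.Lib.MP_ded707_al.Cells
section

/-!
Calculus of finite cell objects.
-/

set_option autoImplicit false
set_option backward.isDefEq.respectTransparency false
set_option backward.defeqAttrib.useBackward true

open CategoryTheory Limits Pretriangulated MonoidalCategory ZeroObject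

noncomputable section

namespace Pool.Agent.Lib.MP_ded707_al

namespace TTCat

variable {𝒯 : TTCat}

namespace Gen

variable {G : Type} [AddCommGroup G] {M : AddSubmonoid G} {Γ : Gen 𝒯 M}

theorem cell_unit : Γ.Cell {0} (𝟙_ 𝒯.T) :=
  .gen _ 0 0 rfl (Γ.eta.some.symm ≪≫ ((shiftFunctorZero 𝒯.T ℤ).app _).symm)

theorem kill_left {a b c : 𝒯.T} {f : a ⟶ b} (h : f ▷ c = 0) (K : 𝒯.T) : f ▷ (c ⊗ K) = 0 := by
  rw [← cancel_epi (α_ _ _ _).hom, ← associator_naturality_left, h,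
    MonoidalPreadditive.zero_whiskerRight, comp_zero, zero_comp]

theorem kill_right {a b c : 𝒯.T} {f : a ⟶ b} (h : f ▷ c = 0) (K : 𝒯.T) : f ▷ (K ⊗ c) = 0 := by
  rw [← cancel_mono (b ◁ (β_ K c).hom), ← whisker_exchange, kill_left h, comp_zero, zero_comp]

theorem Cell.orth {I J : Set ℤ} (hIJ : Disjoint I J) {x y : 𝒯.T} (hx : Γ.Cell I x)
    (hy : Γ.Cell J y) (f : x ⟶ y) : f = 0 := by
  have key : ∀ (γ : G) (n : ℤ), n ∉ J → ∀ g : (Γ.L γ)⟦n⟧ ⟶ y, g = 0 := by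
    intro γ n hn
    clear f
    induction hy with
    | zero y hy => exact fun g => hy.eq_of_tgt _ _
    | gen y γ' m hm e =>
      intro g
      rw [← cancel_mono e.hom, zero_comp]
      exact Γ.hom_shift' _ _ (by rintro rfl; exact hn hm) _
    | ext D hD _ _ ih₁ ih₃ =>
      intro g
      obtain ⟨g', rfl⟩ := Triangle.coyoneda_exact₂ D hD g (ih₃ _)
      rw [ih₁ g', zero_comp]
  induction hx with
  | zero x hx => exact hx.eq_of_src _ _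
  | gen x γ n hn e =>
    rw [← cancel_epi e.inv, comp_zero]
    exact key γ n (Set.disjoint_left.1 hIJ hn) _
  | ext D hD _ _ ih₁ ih₃ =>
    obtain ⟨g, rfl⟩ := Triangle.yoneda_exact₂ D hD f (ih₁ _)
    rw [ih₃ g, comp_zero]

theorem Cell.decomp {I : Set ℤ} (m : ℤ) {x : 𝒯.T} (hx : Γ.Cell I x) :
    ∃ (a b : 𝒯.T) (u : a ⟶ x) (v : x ⟶ b) (w : b ⟶ a⟦(1 : ℤ)⟧),
      Triangle.mk u v w ∈ distTriang 𝒯.T ∧ Γ.Cell (I ∩ Set.Iic m) a ∧ Γ.Cell (I ∩ Set.Ioi m) b := by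
  let A : ObjectProperty 𝒯.T := Γ.Cell (I ∩ Set.Iic m)
  let B : ObjectProperty 𝒯.T := Γ.Cell (I ∩ Set.Ioi m)
  have hA : A.extensionProduct A ≤ A := fun _ ⟨_, _, _, _, _, hD, h₁, h₃⟩ => .ext _ hD h₁ h₃
  have hB : B.extensionProduct B ≤ B := fun _ ⟨_, _, _, _, _, hD, h₁, h₃⟩ => .ext _ hD h₁ h₃
  have hBA : B.extensionProduct A ≤ A.extensionProduct B := by
    rintro z ⟨b, a, u, v, w, hD, h₁, h₃⟩
    obtain ⟨e, -⟩ := exists_iso_binaryBiproduct_of_distTriang _ hD (Cell.orth (J := Set.Ioi m)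
      (Set.disjoint_left.2 fun n h h' => absurd (show n ≤ m from h.2) (not_le.2 h')) h₃
      (Cell.shift 1 (fun n hn => lt_trans hn.2 (lt_add_one n)) h₁) _)
    exact (A.extensionProduct B).prop_of_iso (e ≪≫ biprod.braiding _ _).symm
      ⟨a, b, _, _, _, binaryBiproductTriangle_distinguished a b, h₃, h₁⟩
  have hl : ∀ z, A z → A.extensionProduct B z := fun z h =>
    ⟨z, 0, _, _, _, contractible_distinguished z, h, .zero _ (isZero_zero _)⟩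
  change A.extensionProduct B x
  induction hx with
  | zero x hx => exact hl x (.zero x hx)
  | gen x γ n hn e =>
    rcases le_or_gt n m with h | h
    · exact hl x (.gen x γ n ⟨hn, h⟩ e)
    · exact ⟨0, x, _, _, _, contractible_distinguished₁ x, .zero _ (isZero_zero _),
        .gen x γ n ⟨hn, h⟩ e⟩
  | ext D hD _ _ ih₁ ih₃ =>
    have h1 : (A.extensionProduct B).extensionProduct (A.extensionProduct B) D.obj₂ :=
      ⟨_, _, _, _, _, hD, ih₁, ih₃⟩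
    rw [ObjectProperty.extensionProduct_assoc, ← ObjectProperty.extensionProduct_assoc B] at h1
    have h2 := ObjectProperty.monotone_extensionProduct_right _
      (ObjectProperty.monotone_extensionProduct_left B hBA) _ h1
    rw [ObjectProperty.extensionProduct_assoc, ← ObjectProperty.extensionProduct_assoc A A] at h2
    exact ObjectProperty.monotone_extensionProduct_right _ hB _
      (ObjectProperty.monotone_extensionProduct_left _ hA _ h2)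

theorem Cell.tensor {I J K : Set ℤ} (hK : ∀ i ∈ I, ∀ j ∈ J, i + j ∈ K) {x y : 𝒯.T}
    (hx : Γ.Cell I x) (hy : Γ.Cell J y) : Γ.Cell K (x ⊗ y) := by
  induction hx with
  | zero x hx => exact .zero _ (isZero_tensR hx y)
  | gen x γ n hn e =>
    induction hy with
    | zero y hy => exact .zero _ (isZero_tensL x hy)
    | gen y γ' m hm e' =>
      exact .gen _ (γ + γ') (n + m) (hK n hn m hm) (tensorIso e e' ≪≫ shiftTensIso _ _ n ≪≫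
        (shiftFunctor _ n).mapIso (tensShiftIso _ _ m ≪≫
          (shiftFunctor _ m).mapIso (Γ.mu γ γ').some) ≪≫
        ((shiftFunctorAdd' 𝒯.T m n (n + m) (add_comm m n)).app _).symm)
    | ext D hD _ _ ih₁ ih₃ =>
      obtain ⟨w, hw⟩ := tensL_dist x D hD
      exact .ext _ hw ih₁ ih₃
  | ext D hD _ _ ih₁ ih₃ =>
    obtain ⟨w, hw⟩ := tensR_dist y D hD
    exact .ext _ hw ih₁ ih₃

theorem Cell.free {F : 𝒯.T} (hF : Γ.Cell {0} F) :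
    ∃ (ι : Type) (_ : Fintype ι) (α : ι → G) (i : ∀ k, Γ.L (α k) ⟶ F) (p : ∀ k, F ⟶ Γ.L (α k)),
      ∑ k, p k ≫ i k = 𝟙 F := by
  induction hF with
  | zero x hx => exact ⟨Empty, inferInstance, Empty.elim, fun k => k.elim, fun k => k.elim,
      hx.eq_of_src _ _⟩
  | gen x γ n hn e =>
    obtain rfl : n = 0 := hn
    let e' := e ≪≫ (shiftFunctorZero 𝒯.T ℤ).app _
    exact ⟨Unit, inferInstance, fun _ => γ, fun _ => e'.inv, fun _ => e'.hom, by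
      rw [Fintype.sum_unique]; exact e'.hom_inv_id⟩
  | ext D hD h₁ h₃ ih₁ ih₃ =>
    obtain ⟨ι₁, _, α₁, i₁, p₁, s₁⟩ := ih₁
    obtain ⟨ι₃, _, α₃, i₃, p₃, s₃⟩ := ih₃
    obtain ⟨e, -⟩ := exists_iso_binaryBiproduct_of_distTriang _ hD (Cell.orth (J := {1})
      (by simp) h₃ (Cell.shift 1 (by simp) h₁) _)
    refine ⟨ι₁ ⊕ ι₃, inferInstance, Sum.elim α₁ α₃,
      fun k => Sum.rec (fun k => i₁ k ≫ biprod.inl ≫ e.inv) (fun k => i₃ k ≫ biprod.inr ≫ e.inv) k,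
      fun k => Sum.rec (fun k => e.hom ≫ biprod.fst ≫ p₁ k) (fun k => e.hom ≫ biprod.snd ≫ p₃ k) k,
      ?_⟩
    have a₁ : ∑ k, (e.hom ≫ biprod.fst ≫ p₁ k) ≫ i₁ k ≫ biprod.inl ≫ e.inv =
        e.hom ≫ biprod.fst ≫ (∑ k, p₁ k ≫ i₁ k) ≫ biprod.inl ≫ e.inv := by
      simp only [Preadditive.sum_comp, Preadditive.comp_sum, Category.assoc]
    have a₃ : ∑ k, (e.hom ≫ biprod.snd ≫ p₃ k) ≫ i₃ k ≫ biprod.inr ≫ e.inv =
        e.hom ≫ biprod.snd ≫ (∑ k, p₃ k ≫ i₃ k) ≫ biprod.inr ≫ e.inv := by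
      simp only [Preadditive.sum_comp, Preadditive.comp_sum, Category.assoc]
    rw [Fintype.sum_sum_type]
    refine (congrArg₂ (· + ·) a₁ a₃).trans ?_
    rw [s₁, s₃, Category.id_comp, Category.id_comp, ← Preadditive.comp_add, ← Category.assoc,
      ← Category.assoc, ← Preadditive.add_comp, biprod.total, Category.id_comp, e.hom_inv_id]

theorem Kos.cell {S : Set G} {K : 𝒯.T} (hK : Γ.Kos S K) : ∃ m : ℕ, Γ.Cell (Set.Icc 0 (m : ℤ)) K := by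
  induction hK with
  | one => exact ⟨0, cell_unit.mono (by simp)⟩
  | cons ψ c K _ hc _ ih =>
    obtain ⟨m, hm⟩ := ih
    obtain ⟨τ, u, w, -, hD⟩ := hc
    have h : Γ.Cell (Set.Icc 0 1) c := .ext _ (rot_of_distTriang _ hD) (cell_unit.mono (by simp))
      (.gen _ ψ 1 (by simp) (Iso.refl _))
    exact ⟨m + 1, Cell.tensor (K := Set.Icc 0 ((m + 1 : ℕ) : ℤ)) (fun i hi j hj => ⟨add_nonneg hi.1 hj.1, by
      push_cast; linarith [hi.2, hj.2]⟩) h hm⟩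

theorem IsCone.tau_kill {ψ : G} {c : 𝒯.T} (hc : Γ.IsCone ψ c) (τ : Γ.L ψ ⟶ 𝟙_ 𝒯.T) :
    τ ▷ c = 0 := by
  by_cases h0 : τ = 0
  · rw [h0, MonoidalPreadditive.zero_whiskerRight]
  obtain ⟨τ', u, w, hτ, hD⟩ := hc
  obtain rfl := Γ.tau_uniq h0 hτ
  obtain ⟨h, hh⟩ := tensL_dist (Γ.L ψ) _ hD
  obtain ⟨e⟩ := Γ.mu ψ ψ
  obtain ⟨j⟩ := Γ.eta
  have h1 : τ ≫ u = 0 := comp_distTriang_mor_zero₁₂ _ hD
  have h2 : w ≫ τ⟦(1 : ℤ)⟧' = 0 := comp_distTriang_mor_zero₃₁ _ hD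
  obtain ⟨s, hs⟩ := Triangle.yoneda_exact₃ _ hh (τ ▷ c ≫ (λ_ c).hom) (by
    change Γ.L ψ ◁ u ≫ τ ▷ c ≫ (λ_ c).hom = 0
    rw [whisker_exchange_assoc, leftUnitor_naturality, unitors_equal,
      rightUnitor_naturality_assoc, h1, comp_zero])
  obtain ⟨t, ht⟩ := (shiftFunctor 𝒯.T (1 : ℤ)).map_surjective
    (X := Γ.L ψ ⊗ Γ.L ψ) (s ≫ w)
  have h3 : t ≫ τ = 0 := (shiftFunctor 𝒯.T (1 : ℤ)).map_injective (by
    rw [Functor.map_comp, ht, Category.assoc, h2, comp_zero, Functor.map_zero])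
  have h4 : t = 0 := by
    by_contra h4
    refine Γ.comp_ne _ _ _ (e.inv ≫ t) (τ ≫ j.inv) (fun h => h4 ?_) (fun h => h0 ?_) ?_
    · rw [← cancel_epi e.inv, h, comp_zero]
    · rw [← cancel_mono j.inv, h, zero_comp]
    · rw [Category.assoc, reassoc_of% h3, zero_comp, comp_zero]
  obtain ⟨s', hs'⟩ := Triangle.coyoneda_exact₃ _ hD s (by
    change s ≫ w = 0
    rw [← ht, h4, Functor.map_zero])
  have h5 : s' = 0 := Cell.orth (I := {1}) (by simp)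
    (.gen _ (ψ + ψ) 1 rfl ((shiftFunctor _ (1 : ℤ)).mapIso e)) cell_unit _
  rw [← cancel_mono (λ_ c).hom, hs, hs', h5, zero_comp, comp_zero, zero_comp]

/-- every nonzero map between generators is, up to isomorphisms, `τ ▷ L β` -/
theorem eq_tau {α β : G} (t : Γ.L α ⟶ Γ.L β) (τ : Γ.L (α - β) ⟶ 𝟙_ 𝒯.T) (ht : t ≠ 0)
    (hτ : τ ≠ 0) : ∃ e : Γ.L α ≅ Γ.L (α - β) ⊗ Γ.L β, t = e.hom ≫ τ ▷ Γ.L β ≫ (λ_ _).hom := by
  refine ⟨eqToIso (by rw [sub_add_cancel]) ≪≫ (Γ.mu (α - β) β).some.symm,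
    Γ.uniq _ _ _ _ ht fun h => (Γ.inv β).whiskerRight_ne hτ ?_⟩
  rwa [Preadditive.IsIso.comp_left_eq_zero, Preadditive.IsIso.comp_right_eq_zero] at h

theorem IsCone.kill {α β : G} {c : 𝒯.T} (hc : Γ.IsCone (α - β) c) (t : Γ.L α ⟶ Γ.L β) :
    t ▷ c = 0 := by
  by_cases h0 : t = 0
  · rw [h0, MonoidalPreadditive.zero_whiskerRight]
  obtain ⟨τ, hτ⟩ := (Γ.tau_iff _).2 hc.mem
  obtain ⟨e, rfl⟩ := eq_tau t τ h0 hτ
  have h : τ ▷ Γ.L β ▷ c = 0 := by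
    rw [← cancel_mono (α_ _ _ _).hom, associator_naturality_left, kill_right (hc.tau_kill τ),
      comp_zero, zero_comp]
  rw [comp_whiskerRight, comp_whiskerRight, h, zero_comp, comp_zero]

theorem exists_kos (S : Set G) (s : Finset G) (hs : ∀ ψ ∈ s, ψ ∈ S ∧ ψ ∈ M) :
    ∃ K : 𝒯.T, Γ.Kos S K ∧ ∀ (α β : G) (t : Γ.L α ⟶ Γ.L β), α - β ∈ s → t ▷ K = 0 := by
  classical
  induction s using Finset.induction_on with
  | empty => exact ⟨_, .one, fun _ _ _ h => absurd h (Finset.notMem_empty _)⟩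
  | insert ψ s _ ih =>
    obtain ⟨K, hK, h⟩ := ih fun φ hφ => hs φ (Finset.mem_insert_of_mem hφ)
    obtain ⟨h1, h2⟩ := hs ψ (Finset.mem_insert_self _ _)
    obtain ⟨c, hc⟩ := Γ.exists_cone h2
    refine ⟨c ⊗ K, .cons ψ c K h1 hc hK, fun α β t ht => ?_⟩
    rcases Finset.mem_insert.1 ht with rfl | ht
    · exact kill_left (hc.kill t) K
    · exact kill_right (h α β t ht) c

/-- a nonzero map between generators with exponent in `Φ` has its cone in any thick ideal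
containing the cones with exponents in `Φ` -/
theorem cone_mem {J : Set 𝒯.T} (hJ : IsThickIdeal J) {α β : G}
    (hΦ : ∀ c, Γ.IsCone (α - β) c → c ∈ J) (D : Triangle 𝒯.T) (hD : D ∈ distTriang 𝒯.T)
    (e₁ : Γ.L α ≅ D.obj₁) (e₂ : D.obj₂ ≅ Γ.L β) (h : D.mor₁ ≠ 0) : D.obj₃ ∈ J := by
  have ht : e₁.hom ≫ D.mor₁ ≫ e₂.hom ≠ 0 := by
    rwa [Ne, Preadditive.IsIso.comp_left_eq_zero, Preadditive.IsIso.comp_right_eq_zero]
  obtain ⟨c, hc⟩ := Γ.exists_cone ((Γ.ex_iff α β).1 ⟨_, ht⟩)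
  have hJ' := hJ.tensorR (hΦ c hc) (Γ.cpt β)
  obtain ⟨τ, u, w, hτ, hT⟩ := hc
  obtain ⟨e, he⟩ := eq_tau _ τ ht hτ
  obtain ⟨k, hk⟩ := tensR_dist (Γ.L β) _ hT
  refine hJ.iso (Triangle.π₃.mapIso (isoTriangleOfIso₁₂ _ _ hD hk (e₁.symm ≪≫ e)
    (e₂ ≪≫ (λ_ _).symm) ?_)).symm hJ'
  change D.mor₁ ≫ e₂.hom ≫ (λ_ _).inv = (e₁.inv ≫ e.hom) ≫ τ ▷ Γ.L β
  rw [Category.assoc, Iso.eq_inv_comp, ← cancel_mono (λ_ (Γ.L β)).hom]
  simpa using he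

end Gen

end TTCat

end Pool.Agent.Lib.MP_ded707_al
end
end

-- part Pool.Agent.Lib.MP_ded707_al.Idem
section

/-!
Tensor idempotents, the objects g(P), and the passage to the conclusion.
-/

set_option autoImplicit false
set_option backward.isDefEq.respectTransparency false
set_option backward.defeqAttrib.useBackward true

open CategoryTheory Limits Pretriangulated MonoidalCategory ZeroObject

noncomputable section

namespace Pool.Agent.Lib.MP_ded707_al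

namespace TTCat

variable {𝒯 : TTCat}

/-- exchange of the first two of three tensor factors -/
def swapIso (a b c : 𝒯.T) : a ⊗ (b ⊗ c) ≅ b ⊗ (a ⊗ c) :=
  (α_ _ _ _).symm ≪≫ whiskerRightIso (β_ a b) c ≪≫ α_ _ _ _

theorem Spc.mem_of_pairing (P : 𝒯.Spc) {x y : 𝒯.T} (hy : Compact y) (p : ExactPairing x y)
    (hx : x ∈ P.carrier) : y ∈ P.carrier :=
  haveI : ExactPairing y x := BraidedCategory.exactPairing_swap x y
  P.thick.retract _ _ (retractPairing y x) (P.thick.tensorR (P.thick.tensor y x hy hx) hy)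

theorem IsIdem.kill (h : 𝒯.IsRCG) {Y : Set 𝒯.Spc} {e f : 𝒯.T} (hI : IsIdem Y e f) {a : 𝒯.T}
    (ha : a ∈ Loc {x : 𝒯.T | Compact x ∧ supp x ⊆ Y}) : IsZero (a ⊗ f) := by
  obtain ⟨u, v, w, -, -, horth⟩ := hI
  refine loc_subset (isLocIdeal_killR f) ?_ ha
  rintro x ⟨hx, hxY⟩
  obtain ⟨y, hy, ⟨p⟩⟩ := h.exists_dual hx
  have hyL : y ∈ Loc {x : 𝒯.T | Compact x ∧ supp x ⊆ Y} :=
    subset_loc _ ⟨hy, fun P hP => hxY fun hxP => hP (P.mem_of_pairing hy p hxP)⟩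
  have hL : y ⊗ (x ⊗ f) ∈ Loc {x : 𝒯.T | Compact x ∧ supp x ⊆ Y} :=
    (isLocIdeal_loc _).iso _ _ (β_ _ _) ((isLocIdeal_loc _).tensor (x ⊗ f) y hyL)
  change IsZero (x ⊗ f)
  rw [IsZero.iff_id_eq_zero]
  apply (tensorLeftHomEquiv (x ⊗ f) x y f).symm.injective
  rw [horth _ hL ((tensorLeftHomEquiv (x ⊗ f) x y f).symm (𝟙 _)),
    horth _ hL ((tensorLeftHomEquiv (x ⊗ f) x y f).symm 0)]

theorem IsIdem.kill_compact (h : 𝒯.IsRCG) {Y : Set 𝒯.Spc} {e f : 𝒯.T} (hI : IsIdem Y e f)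
    {x : 𝒯.T} (hx : Compact x) (hxY : supp x ⊆ Y) : IsZero (x ⊗ f) :=
  hI.kill h (subset_loc _ ⟨hx, hxY⟩)

theorem IsIdem.mem_loc {Y : Set 𝒯.Spc} {e f : 𝒯.T} (hI : IsIdem Y e f) :
    e ∈ Loc {x : 𝒯.T | Compact x ∧ supp x ⊆ Y} := by
  obtain ⟨u, v, w, -, he, -⟩ := hI
  exact he

theorem IsIdem.e_f (h : 𝒯.IsRCG) {Y : Set 𝒯.Spc} {e f : 𝒯.T} (hI : IsIdem Y e f) :
    IsZero (e ⊗ f) :=
  hI.kill h hI.mem_loc

theorem IsIdem.isZero_e {Y : Set 𝒯.Spc} {e f : 𝒯.T} (hI : IsIdem Y e f) {z : 𝒯.T}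
    (hz : ∀ x : 𝒯.T, Compact x → supp x ⊆ Y → IsZero (x ⊗ z)) : IsZero (e ⊗ z) :=
  loc_subset (isLocIdeal_killR z) (fun x hx => hz x hx.1 hx.2) hI.mem_loc

theorem IsIdem.iso_e {Y : Set 𝒯.Spc} {e f : 𝒯.T} (hI : IsIdem Y e f) {z : 𝒯.T}
    (hz : IsZero (f ⊗ z)) : Nonempty (e ⊗ z ≅ z) := by
  obtain ⟨u, v, w, hD, -, -⟩ := hI
  obtain ⟨k, hk⟩ := tensR_dist z _ hD
  have : IsIso (u ▷ z) := (Triangle.isZero₃_iff_isIso₁ _ hk).1 hz
  exact ⟨asIso (u ▷ z) ≪≫ λ_ z⟩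

theorem IsIdem.iso_f {Y : Set 𝒯.Spc} {e f : 𝒯.T} (hI : IsIdem Y e f) {z : 𝒯.T}
    (hz : IsZero (e ⊗ z)) : Nonempty (f ⊗ z ≅ z) := by
  obtain ⟨u, v, w, hD, -, -⟩ := hI
  obtain ⟨k, hk⟩ := tensR_dist z _ hD
  have : IsIso (v ▷ z) := (Triangle.isZero₁_iff_isIso₂ _ hk).1 hz
  exact ⟨(asIso (v ▷ z)).symm ≪≫ λ_ z⟩

theorem IsRCG.exists_idem (h : 𝒯.IsRCG) (Y : Set 𝒯.Spc) : ∃ e f : 𝒯.T, IsIdem Y e f := by
  obtain ⟨e, f, u, v, w, hD, he, horth⟩ :=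
    h.exists_loc_triangle {x : 𝒯.T | Compact x ∧ supp x ⊆ Y} (fun _ hx => hx.1) (𝟙_ _)
  refine ⟨e, f, u, v, w, hD, he.mem_loc, fun a ha φ => horth a (h.locSub_of_mem_loc ?_ ha) φ⟩
  rintro b x hb ⟨hx, hxY⟩
  exact ⟨h.compact_tensor hb hx, fun P hP => hxY fun hxP => hP (P.thick.tensor b x hb hxP)⟩

/-- a prime containing the annihilator of `f ⊗ z` lies outside the Thomason subset -/
theorem IsIdem.not_mem_of_ann (h : 𝒯.IsRCG) {Y : Set 𝒯.Spc} (hY : Thomason Y) {e f : 𝒯.T}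
    (hI : IsIdem Y e f) {z : 𝒯.T} {Q : 𝒯.Spc} (hQ : ann (f ⊗ z) ⊆ Q.carrier) : Q ∉ Y := by
  intro hQY
  obtain ⟨y, hy, hQy, hyY⟩ := (h.thomason_iff Y).1 hY Q hQY
  exact hQy (hQ ⟨hy, (isZero_tensR (hI.kill_compact h hy hyY) z).of_iso (α_ _ _ _).symm⟩)

theorem IsRCG.van (h : 𝒯.IsRCG) (P : 𝒯.Spc) {X K : 𝒯.T} (hK : Compact K) (hKP : K ∉ P.carrier)
    (hX : K ⊗ X ∈ Loc P.carrier) {g : 𝒯.T} (hg : IsG P g) : IsZero (g ⊗ X) := by
  obtain ⟨Y₁, Y₂, e₁, f₁, e₂, f₂, -, hY₂, hP, hI₁, hI₂, rfl⟩ := hg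
  refine IsZero.of_iso (hI₁.isZero_e fun x hx hxY => ?_) (α_ e₁ f₂ X)
  by_contra hne
  obtain ⟨Q, hQ, hxQ⟩ := h.exists_prime_not_mem (h.isThickIdeal_ann (f₂ ⊗ X)) hx
    (fun hm => hne hm.2)
  have hQP : Q = P := by
    have : Q ∈ Y₁ ∩ Y₂ᶜ := ⟨hxY hxQ, hI₂.not_mem_of_ann h hY₂ hQ⟩
    rwa [hP] at this
  subst hQP
  have h1 : IsZero ((x ⊗ f₂) ⊗ (K ⊗ X)) := by
    refine loc_subset (isLocIdeal_killL (x ⊗ f₂)) (fun w hw => ?_) hX
    have hwc : Compact w := Q.thick.compact w hw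
    have hs : supp (x ⊗ w) ⊆ Y₂ := by
      intro R hR
      by_contra hR₂
      have hxR : x ∉ R.carrier := fun hxR => hR (R.thick.tensorR hxR hwc)
      have : R ∈ Y₁ ∩ Y₂ᶜ := ⟨hxY hxR, hR₂⟩
      rw [hP] at this
      obtain rfl : R = Q := this
      exact hR (R.thick.tensor x w hx hw)
    exact (hI₂.kill_compact h (h.compact_tensor hx hwc) hs).of_iso
      (α_ _ _ _ ≪≫ whiskerLeftIso x (β_ f₂ w) ≪≫ (α_ _ _ _).symm)
  have h2 : x ⊗ K ∈ Q.carrier := hQ ⟨h.compact_tensor hx hK, h1.of_iso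
    (α_ _ _ _ ≪≫ whiskerLeftIso x (swapIso K f₂ X) ≪≫ (α_ _ _ _).symm)⟩
  rcases Q.prime x K hx hK h2 with h3 | h3
  · exact hxQ h3
  · exact hKP h3

theorem IsRCG.g_tensor_g (h : 𝒯.IsRCG) {P Q : 𝒯.Spc} (hPQ : P ≠ Q) {g g' : 𝒯.T} (hg : IsG P g)
    (hg' : IsG Q g') : IsZero (g ⊗ g') := by
  obtain ⟨Y₁, Y₂, e₁, f₁, e₂, f₂, -, hY₂, hP, hI₁, hI₂, rfl⟩ := hg
  obtain ⟨Y₁', Y₂', e₁', f₁', e₂', f₂', -, hY₂', hQ, hI₁', hI₂', rfl⟩ := hg'
  refine IsZero.of_iso (hI₁.isZero_e (z := e₁' ⊗ (f₂ ⊗ f₂')) fun x hx hxY => ?_)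
    (α_ _ _ _ ≪≫ whiskerLeftIso e₁ (swapIso f₂ e₁' f₂'))
  refine IsZero.of_iso (hI₁'.isZero_e (z := x ⊗ (f₂ ⊗ f₂')) fun y hy hyY => ?_) (swapIso _ _ _)
  by_contra hne
  obtain ⟨R, hR, hxR⟩ := h.exists_prime_not_mem (h.isThickIdeal_ann (f₂ ⊗ f₂'))
    (h.compact_tensor hy hx) (fun hm => hne (hm.2.of_iso (α_ _ _ _).symm))
  have hR' : ann (f₂' ⊗ f₂) ⊆ R.carrier := fun a ha =>
    hR ⟨ha.1, ha.2.of_iso (whiskerLeftIso a (β_ _ _))⟩
  have h1 : R ∈ Y₁ ∩ Y₂ᶜ :=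
    ⟨hxY fun hx' => hxR (R.thick.tensor y x hy hx'), hI₂.not_mem_of_ann h hY₂ hR⟩
  have h2 : R ∈ Y₁' ∩ Y₂'ᶜ :=
    ⟨hyY fun hy' => hxR (R.thick.tensorR hy' hx), hI₂'.not_mem_of_ann h hY₂' hR'⟩
  rw [hP] at h1
  rw [hQ] at h2
  exact hPQ ((Set.mem_singleton_iff.1 h1).symm.trans h2)

theorem IsRCG.g_tensor_self (h : 𝒯.IsRCG) {P : 𝒯.Spc} {g : 𝒯.T} (hg : IsG P g) :
    ¬ IsZero (g ⊗ g) := by
  obtain ⟨Y₁, Y₂, e₁, f₁, e₂, f₂, hY₁, -, hP, hI₁, hI₂, rfl⟩ := hg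
  intro h0
  obtain ⟨i₁⟩ := hI₁.iso_e (z := e₁ ⊗ f₂) ((isZero_tensR (hI₁.e_f h) f₂).of_iso
    ((α_ _ _ _).symm ≪≫ whiskerRightIso (β_ f₁ e₁) f₂))
  obtain ⟨i₂⟩ := hI₂.iso_f (z := e₁ ⊗ f₂) ((isZero_tensL e₁ (hI₂.e_f h)).of_iso (swapIso _ _ _))
  have hg0 : IsZero (e₁ ⊗ f₂) :=
    h0.of_iso (α_ e₁ f₂ (e₁ ⊗ f₂) ≪≫ whiskerLeftIso e₁ i₂ ≪≫ i₁).symm
  have hPm : P ∈ Y₁ ∩ Y₂ᶜ := by rw [hP]; rfl
  obtain ⟨x, hx, hPx, hxY⟩ := (h.thomason_iff Y₁).1 hY₁ P hPm.1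
  obtain ⟨j₁⟩ := hI₁.iso_e (z := x) ((hI₁.kill_compact h hx hxY).of_iso (β_ _ _))
  obtain ⟨j₂⟩ := hI₂.iso_e (z := x) ((isZero_tensR hg0 x).of_iso
    (whiskerLeftIso f₂ j₁.symm ≪≫ swapIso _ _ _ ≪≫ (α_ _ _ _).symm))
  have he : e₂ ∈ Loc P.carrier := by
    refine loc_subset (isLocIdeal_loc _) (fun y hy => subset_loc _ ?_) hI₂.mem_loc
    by_contra hyP
    exact hPm.2 (hy.2 hyP)
  have hxL : x ∈ Loc P.carrier :=
    (isLocIdeal_loc _).iso _ _ (β_ _ _ ≪≫ j₂) ((isLocIdeal_loc _).tensor x e₂ he)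
  exact hPx (P.thick.mem_of_locSub hx (h.locSub_of_mem_loc P.thick.tensor hxL))

theorem tens_biprod_iso {g X Z : 𝒯.T} (hX : IsZero (g ⊗ X)) : Nonempty (g ⊗ (X ⊞ Z) ≅ g ⊗ Z) := by
  obtain ⟨k, hk⟩ := tensL_dist g _ (binaryBiproductTriangle_distinguished X Z)
  have := (Triangle.isZero₁_iff_isIso₂ _ hk).1 hX
  exact ⟨@asIso _ _ _ _ _ this⟩

theorem isZero_tens_of_biprod {a X Z : 𝒯.T} (h0 : IsZero (a ⊗ (X ⊞ Z))) : IsZero (a ⊗ X) := by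
  rw [IsZero.iff_id_eq_zero, ← whiskerLeft_id, ← biprod.inl_fst (X := X) (Y := Z),
    whiskerLeft_comp, h0.eq_of_tgt (a ◁ biprod.inl) 0, zero_comp]

theorem IsRCG.concl (h : 𝒯.IsRCG) (hwv : ∀ P : 𝒯.Spc, WeaklyVisible P) (X : 𝒯.T)
    (hX : ¬ IsZero X) (hvan : ∀ (P : 𝒯.Spc) (g : 𝒯.T), IsG P g → IsZero (g ⊗ X)) : Concl 𝒯 := by
  have hG : ∀ P : 𝒯.Spc, ∃ g, IsG P g := fun P => by
    obtain ⟨Y₁, Y₂, hY₁, hY₂, hP⟩ := hwv P
    obtain ⟨e₁, f₁, hI₁⟩ := h.exists_idem Y₁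
    obtain ⟨e₂, f₂, hI₂⟩ := h.exists_idem Y₂
    exact ⟨_, Y₁, Y₂, e₁, f₁, e₂, f₂, hY₁, hY₂, hP, hI₁, hI₂, rfl⟩
  refine ⟨h, hwv, hG, h.nonempty_spc fun h1 => hX ((isZero_tensR h1 X).of_iso (λ_ X).symm), ?_⟩
  intro S hS
  have noeth : ∀ t : 𝒯.T, Supp t = S → TopologicalSpace.NoetherianSpace (Supp t) := by
    intro t ht
    rw [ht]
    have := hS.finite.to_subtype
    infer_instance
  rcases hS.eq_empty_or_singleton with rfl | ⟨P, rfl⟩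
  · have hs : Supp X = ∅ := by
      ext P
      simp only [Set.mem_empty_iff_false, iff_false]
      rintro ⟨g, hg, h0⟩
      exact h0 (hvan P g hg)
    refine ⟨X, hs, noeth X hs, fun hL => hX ?_⟩
    have h1 : X ∈ Loc {z | ∃ P g, IsG P g ∧ z = g ⊗ X} := by
      rw [← show Loc {X} = _ from hL]
      exact subset_loc _ rfl
    refine loc_subset isLocIdeal_zero ?_ h1
    rintro z ⟨P, g, hg, rfl⟩
    exact hvan P g hg
  · obtain ⟨g₀, hg₀⟩ := hG P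
    have hs : Supp (X ⊞ g₀) = {P} := by
      ext Q
      constructor
      · rintro ⟨g, hg, h0⟩
        by_contra hQ
        obtain ⟨i⟩ := tens_biprod_iso (Z := g₀) (hvan Q g hg)
        exact h0 ((h.g_tensor_g hQ hg hg₀).of_iso i)
      · rintro rfl
        obtain ⟨i⟩ := tens_biprod_iso (Z := g₀) (hvan Q g₀ hg₀)
        exact ⟨g₀, hg₀, fun h0 => h.g_tensor_self hg₀ (h0.of_iso i.symm)⟩
    refine ⟨X ⊞ g₀, hs, noeth _ hs, fun hL => hX ?_⟩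
    have hv := hvan P g₀ hg₀
    obtain ⟨Y₁, Y₂, e₁, f₁, e₂, f₂, -, -, -, hI₁, hI₂, rfl⟩ := hg₀
    have hN := (isLocIdeal_killL f₁).inter (isLocIdeal_killL e₂)
    have hg₀N : e₁ ⊗ f₂ ∈ {a : 𝒯.T | IsZero (f₁ ⊗ a)} ∩ {a : 𝒯.T | IsZero (e₂ ⊗ a)} :=
      ⟨(isZero_tensR (hI₁.e_f h) f₂).of_iso ((α_ _ _ _).symm ≪≫ whiskerRightIso (β_ f₁ e₁) f₂),
        (isZero_tensL e₁ (hI₂.e_f h)).of_iso (swapIso _ _ _)⟩
    have h1 : (X ⊞ (e₁ ⊗ f₂)) ∈ Loc {z | ∃ P g, IsG P g ∧ z = g ⊗ (X ⊞ (e₁ ⊗ f₂))} := by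
      rw [← show Loc {X ⊞ (e₁ ⊗ f₂)} = _ from hL]
      exact subset_loc _ rfl
    have h2 : (X ⊞ (e₁ ⊗ f₂)) ∈ {a : 𝒯.T | IsZero (f₁ ⊗ a)} ∩ {a : 𝒯.T | IsZero (e₂ ⊗ a)} := by
      refine loc_subset hN ?_ h1
      rintro z ⟨Q, g, hg, rfl⟩
      obtain ⟨i⟩ := tens_biprod_iso (Z := e₁ ⊗ f₂) (hvan Q g hg)
      exact hN.iso _ _ i.symm (hN.tensor g _ hg₀N)
    obtain ⟨j₁⟩ := hI₁.iso_e (isZero_tens_of_biprod h2.1)
    obtain ⟨j₂⟩ := hI₂.iso_f (isZero_tens_of_biprod h2.2)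
    exact hv.of_iso (α_ e₁ f₂ X ≪≫ whiskerLeftIso e₁ j₂ ≪≫ j₁).symm

end TTCat

end Pool.Agent.Lib.MP_ded707_al
end
end
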