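import Pool.Agent.Lib.MP_ded707_al.Defs
import Pool.Agent.Lib.MP_ded707_al.Fil

-- part Pool.Agent.Lib.MP_ded707_al.Abs
section

/-!
Auxiliary definitions for the proof (not used in the statement).
-/

set_option autoImplicit false

open CategoryTheory Limits Pretriangulated MonoidalCategory

noncomputable section

namespace Pool.Agent.Lib.MP_ded707_al

namespace TTCat

variable (𝒯 : TTCat)

/-- the compatibilities as a structure -/
structure Compat : Prop where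
  nat : ∀ (X X' Y : 𝒯.T) (f : X ⟶ X') (n : ℤ),
    f ▷ Y⟦n⟧ ≫ 𝒯.sh X' Y n = 𝒯.sh X Y n ≫ (f ▷ Y)⟦n⟧'
  unit : ∀ (Y : 𝒯.T) (n : ℤ), 𝒯.sh (𝟙_ 𝒯.T) Y n ≫ (λ_ Y).hom⟦n⟧' = (λ_ (Y⟦n⟧)).hom
  assoc : ∀ (X X' Y : 𝒯.T) (n : ℤ),
    (α_ X X' (Y⟦n⟧)).hom ≫ X ◁ 𝒯.sh X' Y n ≫ 𝒯.sh X (X' ⊗ Y) n =
      𝒯.sh (X ⊗ X') Y n ≫ (α_ X X' Y).hom⟦n⟧'
  twist : (β_ ((𝟙_ 𝒯.T)⟦(1 : ℤ)⟧) ((𝟙_ 𝒯.T)⟦(1 : ℤ)⟧)).hom = -𝟙 _

variable {𝒯}

theorem Compat.compatible (h : 𝒯.Compat) : 𝒯.Compatible := ⟨h.nat, h.unit, h.assoc, h.twist⟩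

/-- the localizing subcategory generated by `S` -/
inductive LocSub (S : Set 𝒯.T) : 𝒯.T → Prop
  | of (x : 𝒯.T) (h : x ∈ S) : LocSub S x
  | zero (x : 𝒯.T) (h : IsZero x) : LocSub S x
  | iso (x y : 𝒯.T) (e : x ≅ y) : LocSub S x → LocSub S y
  | shift (x : 𝒯.T) (n : ℤ) : LocSub S x → LocSub S (x⟦n⟧)
  | ext (D : Triangle 𝒯.T) (hD : D ∈ distTriang 𝒯.T) :
      LocSub S D.obj₁ → LocSub S D.obj₃ → LocSub S D.obj₂
  | coprod (J : Type) (Y : J → 𝒯.T) : (∀ j, LocSub S (Y j)) → LocSub S (∐ Y)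

/-- invertible object -/
def Inv (x : 𝒯.T) : Prop := ∃ y : 𝒯.T, Nonempty (x ⊗ y ≅ 𝟙_ 𝒯.T)

/-- the family `g` generates: nothing nonzero is right orthogonal to all its shifts -/
def Generates {I : Type} (g : I → 𝒯.T) : Prop :=
  ∀ y : 𝒯.T, (∀ (i : I) (n : ℤ) (f : (g i)⟦n⟧ ⟶ y), f = 0) → IsZero y

/-- `Φ` is a face of the monoid `M` -/
structure IsFace {G : Type} [AddCommGroup G] (M Φ : AddSubmonoid G) : Prop where
  le : Φ ≤ M
  face : ∀ a ∈ M, ∀ b ∈ M, a + b ∈ Φ → a ∈ Φ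

/-- A family of invertible compact objects behaving like the twists of the unit in the derived
category of graded modules over the monoid algebra of `M` over the field with two elements. -/
structure Gen (𝒯 : TTCat) {G : Type} [AddCommGroup G] (M : AddSubmonoid G) where
  L : G → 𝒯.T
  cpt : ∀ γ, Compact (L γ)
  mu : ∀ α β, Nonempty (L α ⊗ L β ≅ L (α + β))
  eta : Nonempty (L 0 ≅ 𝟙_ 𝒯.T)
  hom_shift : ∀ (α β : G) (n : ℤ), n ≠ 0 → ∀ f : L α ⟶ (L β)⟦n⟧, f = 0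
  uniq : ∀ (α β : G) (f g : L α ⟶ L β), f ≠ 0 → g ≠ 0 → f = g
  ex_iff : ∀ α β : G, (∃ f : L α ⟶ L β, f ≠ 0) ↔ α - β ∈ M
  comp_ne : ∀ (α β γ : G) (f : L α ⟶ L β) (g : L β ⟶ L γ), f ≠ 0 → g ≠ 0 → f ≫ g ≠ 0

namespace Gen

variable {G : Type} [AddCommGroup G] {M : AddSubmonoid G} (Γ : Gen 𝒯 M)

/-- `c` is a cone of the nonzero map `L ψ ⟶ 𝟙` -/
def IsCone (ψ : G) (c : 𝒯.T) : Prop :=
  ∃ (τ : Γ.L ψ ⟶ 𝟙_ 𝒯.T) (u : 𝟙_ 𝒯.T ⟶ c) (w : c ⟶ (Γ.L ψ)⟦(1 : ℤ)⟧),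
    τ ≠ 0 ∧ Triangle.mk τ u w ∈ distTriang 𝒯.T

/-- Koszul objects: finite tensor products of cones with exponents in `S` -/
inductive Kos (S : Set G) : 𝒯.T → Prop
  | one : Kos S (𝟙_ 𝒯.T)
  | cons (ψ : G) (c K : 𝒯.T) : ψ ∈ S → Γ.IsCone ψ c → Kos S K → Kos S (c ⊗ K)

/-- the homotopy groups of `z` are `Φ`-torsion -/
def Tors (Φ : AddSubmonoid G) (z : 𝒯.T) : Prop :=
  ∀ (γ : G) (n : ℤ) (a : (Γ.L γ)⟦n⟧ ⟶ z),
    ∃ φ ∈ Φ, ∃ t : Γ.L (γ + φ) ⟶ Γ.L γ, t ≠ 0 ∧ t⟦n⟧' ≫ a = 0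

/-- finite cell objects with cells `L γ⟦n⟧`, `n ∈ I` -/
inductive Cell (I : Set ℤ) : 𝒯.T → Prop
  | zero (x : 𝒯.T) (h : IsZero x) : Cell I x
  | gen (x : 𝒯.T) (γ : G) (n : ℤ) (hn : n ∈ I) (e : x ≅ (Γ.L γ)⟦n⟧) : Cell I x
  | ext (D : Triangle 𝒯.T) (hD : D ∈ distTriang 𝒯.T) :
      Cell I D.obj₁ → Cell I D.obj₃ → Cell I D.obj₂

/-- the homological hypothesis on the object `X` -/
def HypH (X : 𝒯.T) : Prop :=
  ∀ Φ : AddSubmonoid G, IsFace M Φ → Γ.Tors Φ X ∨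
    ∃ ψ₁ ∈ M, ∃ ψ₂ ∈ M, ψ₁ ∉ Φ ∧ ψ₂ ∉ Φ ∧ ∃ c₁ c₂ : 𝒯.T, Γ.IsCone ψ₁ c₁ ∧ Γ.IsCone ψ₂ c₂ ∧
      Γ.Tors Φ (c₁ ⊗ (c₂ ⊗ X))

end Gen

/-- every face is weakly visible -/
def HypV {G : Type} [AddCommGroup G] (M : AddSubmonoid G) : Prop :=
  ∀ Φ : AddSubmonoid G, IsFace M Φ → ∃ s : Finset G, (∀ ψ ∈ s, ψ ∈ M ∧ ψ ∉ Φ) ∧
    ∀ Φ' : AddSubmonoid G, IsFace M Φ' → Φ < Φ' → ∃ ψ ∈ s, ψ ∈ Φ'

/-- thick tensor ideal of the compact objects killing `z` -/
def ann (z : 𝒯.T) : Set 𝒯.T := {y | Compact y ∧ IsZero (y ⊗ z)}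

/-- the conclusion about a tt-category -/
def Concl (𝒯 : TTCat) : Prop :=
  𝒯.IsRCG ∧ (∀ P : 𝒯.Spc, WeaklyVisible P) ∧ (∀ P : 𝒯.Spc, ∃ g, IsG P g) ∧ Nonempty 𝒯.Spc ∧
    ∀ S : Set 𝒯.Spc, S.Subsingleton →
      ∃ t : 𝒯.T, Supp t = S ∧ TopologicalSpace.NoetherianSpace (Supp t) ∧ ¬ LTG t

end TTCat

end Pool.Agent.Lib.MP_ded707_al
end
end

-- part Pool.Agent.Lib.MP_ded707_al.Base
section

/-!
Basic lemmas on tt-categories with coproducts.
-/

set_option autoImplicit false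
set_option backward.isDefEq.respectTransparency false
set_option backward.defeqAttrib.useBackward true

open CategoryTheory Limits Pretriangulated MonoidalCategory ZeroObject

noncomputable section

namespace Pool.Agent.Lib.MP_ded707_al

namespace TTCat

variable {𝒯 : TTCat}

instance (X : 𝒯.T) (J : Type) : PreservesColimitsOfShape (Discrete J) (tensorRight X) :=
  preservesColimitsOfShape_of_natIso (BraidedCategory.tensorLeftIsoTensorRight X)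

/-! ### exactness of the tensor product -/

theorem tensL_dist (X : 𝒯.T) (D : Triangle 𝒯.T) (hD : D ∈ distTriang 𝒯.T) :
    ∃ h : X ⊗ D.obj₃ ⟶ (X ⊗ D.obj₁)⟦(1 : ℤ)⟧,
      Triangle.mk (X ◁ D.mor₁) (X ◁ D.mor₂) h ∈ distTriang 𝒯.T :=
  ⟨_, (tensorLeft X).map_distinguished D hD⟩

theorem tensR_dist (X : 𝒯.T) (D : Triangle 𝒯.T) (hD : D ∈ distTriang 𝒯.T) :
    ∃ h : D.obj₃ ⊗ X ⟶ (D.obj₁ ⊗ X)⟦(1 : ℤ)⟧,
      Triangle.mk (D.mor₁ ▷ X) (D.mor₂ ▷ X) h ∈ distTriang 𝒯.T := by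
  obtain ⟨h, hh⟩ := tensL_dist X D hD
  refine ⟨(β_ _ _).hom ≫ h ≫ (β_ X D.obj₁).hom⟦(1 : ℤ)⟧', isomorphic_distinguished _ hh _ ?_⟩
  refine Triangle.isoMk _ _ (β_ _ _) (β_ _ _) (β_ _ _)
    (BraidedCategory.braiding_naturality_left _ _) (BraidedCategory.braiding_naturality_left _ _) ?_
  change ((β_ D.obj₃ X).hom ≫ h ≫ (β_ X D.obj₁).hom⟦(1 : ℤ)⟧') ≫ (β_ D.obj₁ X).hom⟦(1 : ℤ)⟧' =
    (β_ D.obj₃ X).hom ≫ h
  rw [Category.assoc, Category.assoc, ← Functor.map_comp, SymmetricCategory.symmetry,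
    CategoryTheory.Functor.map_id, Category.comp_id]

/-- `X ⊗ Y⟦n⟧ ≅ (X ⊗ Y)⟦n⟧` -/
def tensShiftIso (X Y : 𝒯.T) (n : ℤ) : X ⊗ Y⟦n⟧ ≅ (X ⊗ Y)⟦n⟧ :=
  ((tensorLeft X).commShiftIso n).app Y

/-- `X⟦n⟧ ⊗ Y ≅ (X ⊗ Y)⟦n⟧` -/
def shiftTensIso (X Y : 𝒯.T) (n : ℤ) : X⟦n⟧ ⊗ Y ≅ (X ⊗ Y)⟦n⟧ :=
  β_ _ _ ≪≫ tensShiftIso Y X n ≪≫ (shiftFunctor _ n).mapIso (β_ _ _)

@[reassoc]
theorem tensShiftIso_nat (X : 𝒯.T) {Y Y' : 𝒯.T} (f : Y ⟶ Y') (n : ℤ) :
    X ◁ f⟦n⟧' ≫ (tensShiftIso X Y' n).hom = (tensShiftIso X Y n).hom ≫ (X ◁ f)⟦n⟧' :=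
  ((tensorLeft X).commShiftIso n).hom.naturality f

@[reassoc]
theorem shiftTensIso_nat {X X' : 𝒯.T} (f : X ⟶ X') (Y : 𝒯.T) (n : ℤ) :
    f⟦n⟧' ▷ Y ≫ (shiftTensIso X' Y n).hom = (shiftTensIso X Y n).hom ≫ (f ▷ Y)⟦n⟧' := by
  simp only [shiftTensIso, Iso.trans_hom, Functor.mapIso_hom, Category.assoc,
    BraidedCategory.braiding_naturality_left_assoc, tensShiftIso_nat_assoc, ← Functor.map_comp,
    BraidedCategory.braiding_naturality_right]

theorem isZero_tensL (X : 𝒯.T) {Y : 𝒯.T} (h : IsZero Y) : IsZero (X ⊗ Y) :=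
  (tensorLeft X).map_isZero h

theorem isZero_tensR {X : 𝒯.T} (h : IsZero X) (Y : 𝒯.T) : IsZero (X ⊗ Y) :=
  (tensorRight Y).map_isZero h

theorem isZero_shift {X : 𝒯.T} (h : IsZero X) (n : ℤ) : IsZero (X⟦n⟧) :=
  (shiftFunctor _ n).map_isZero h

/-! ### coproducts -/

/-- `X ⊗ ∐ Y ≅ ∐ X ⊗ Y j` -/
def tensCoprodIso (X : 𝒯.T) {J : Type} (Y : J → 𝒯.T) : X ⊗ ∐ Y ≅ ∐ (fun j => X ⊗ Y j) :=
  PreservesCoproduct.iso (tensorLeft X) Y

@[reassoc (attr := simp)]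
theorem ι_tensCoprodIso_inv (X : 𝒯.T) {J : Type} (Y : J → 𝒯.T) (j : J) :
    Sigma.ι (fun j => X ⊗ Y j) j ≫ (tensCoprodIso X Y).inv = X ◁ Sigma.ι Y j := by
  simp only [tensCoprodIso, PreservesCoproduct.inv_hom]
  exact ι_comp_sigmaComparison (tensorLeft X) Y j

@[reassoc (attr := simp)]
theorem ι_tensCoprodIso_hom (X : 𝒯.T) {J : Type} (Y : J → 𝒯.T) (j : J) :
    X ◁ Sigma.ι Y j ≫ (tensCoprodIso X Y).hom = Sigma.ι (fun j => X ⊗ Y j) j := by
  rw [← ι_tensCoprodIso_inv, Category.assoc, Iso.inv_hom_id, Category.comp_id]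

/-- `(∐ Y) ⊗ X ≅ ∐ Y j ⊗ X` -/
def coprodTensIso {J : Type} (Y : J → 𝒯.T) (X : 𝒯.T) : (∐ Y) ⊗ X ≅ ∐ (fun j => Y j ⊗ X) :=
  PreservesCoproduct.iso (tensorRight X) Y

@[reassoc (attr := simp)]
theorem ι_coprodTensIso_inv {J : Type} (Y : J → 𝒯.T) (X : 𝒯.T) (j : J) :
    Sigma.ι (fun j => Y j ⊗ X) j ≫ (coprodTensIso Y X).inv = Sigma.ι Y j ▷ X := by
  simp only [coprodTensIso, PreservesCoproduct.inv_hom]
  exact ι_comp_sigmaComparison (tensorRight X) Y j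

@[reassoc (attr := simp)]
theorem ι_coprodTensIso_hom {J : Type} (Y : J → 𝒯.T) (X : 𝒯.T) (j : J) :
    Sigma.ι Y j ▷ X ≫ (coprodTensIso Y X).hom = Sigma.ι (fun j => Y j ⊗ X) j := by
  rw [← ι_coprodTensIso_inv, Category.assoc, Iso.inv_hom_id, Category.comp_id]

/-- `(∐ Y)⟦n⟧ ≅ ∐ Y j⟦n⟧` -/
def shiftCoprodIso {J : Type} (Y : J → 𝒯.T) (n : ℤ) : (∐ Y)⟦n⟧ ≅ ∐ (fun j => (Y j)⟦n⟧) :=
  PreservesCoproduct.iso (shiftFunctor _ n) Y

@[reassoc (attr := simp)]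
theorem ι_shiftCoprodIso_inv {J : Type} (Y : J → 𝒯.T) (n : ℤ) (j : J) :
    Sigma.ι (fun j => (Y j)⟦n⟧) j ≫ (shiftCoprodIso Y n).inv = (Sigma.ι Y j)⟦n⟧' := by
  simp only [shiftCoprodIso, PreservesCoproduct.inv_hom]
  exact ι_comp_sigmaComparison (shiftFunctor _ n) Y j

@[reassoc (attr := simp)]
theorem ι_shiftCoprodIso_hom {J : Type} (Y : J → 𝒯.T) (n : ℤ) (j : J) :
    (Sigma.ι Y j)⟦n⟧' ≫ (shiftCoprodIso Y n).hom = Sigma.ι (fun j => (Y j)⟦n⟧) j := by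
  rw [← ι_shiftCoprodIso_inv, Category.assoc, Iso.inv_hom_id, Category.comp_id]

theorem tens_coprod_ext (X : 𝒯.T) {J : Type} (Y : J → 𝒯.T) {Z : 𝒯.T} {f g : X ⊗ ∐ Y ⟶ Z}
    (h : ∀ j, X ◁ Sigma.ι Y j ≫ f = X ◁ Sigma.ι Y j ≫ g) : f = g := by
  rw [← cancel_epi (tensCoprodIso X Y).inv]
  ext j
  simp [h]

theorem tens_coprod_desc (X : 𝒯.T) {J : Type} (Y : J → 𝒯.T) {Z : 𝒯.T} (f : ∀ j, X ⊗ Y j ⟶ Z) :
    ∃ g : X ⊗ ∐ Y ⟶ Z, ∀ j, X ◁ Sigma.ι Y j ≫ g = f j :=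
  ⟨(tensCoprodIso X Y).hom ≫ Sigma.desc f, fun j => by simp⟩

theorem isZero_coprod {J : Type} (Y : J → 𝒯.T) (h : ∀ j, IsZero (Y j)) : IsZero (∐ Y) := by
  rw [IsZero.iff_id_eq_zero]
  ext j
  exact (h j).eq_of_src _ _

/-! ### localizing subcategories and ideals -/

/-- induction over a localizing subcategory for properties with a five-lemma closure -/
theorem LocSub.five {S : Set 𝒯.T} (P : 𝒯.T → Prop)
    (iso : ∀ x y : 𝒯.T, (x ≅ y) → P x → P y)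
    (zero : ∀ x : 𝒯.T, IsZero x → P x)
    (five : ∀ D ∈ distTriang 𝒯.T, P (D.obj₃⟦(-1 : ℤ)⟧) → P D.obj₁ → P D.obj₃ →
      P (D.obj₁⟦(1 : ℤ)⟧) → P D.obj₂)
    (coprod : ∀ (J : Type) (Y : J → 𝒯.T), (∀ j, P (Y j)) → P (∐ Y))
    (gen : ∀ s ∈ S, ∀ n : ℤ, P (s⟦n⟧)) {x : 𝒯.T} (hx : LocSub S x) : P x := by
  have key : ∀ n : ℤ, P (x⟦n⟧) := by
    induction hx with
    | of x h => exact gen x h
    | zero x h => exact fun n => zero _ (isZero_shift h n)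
    | iso x y e _ ih => exact fun n => iso _ _ ((shiftFunctor _ n).mapIso e) (ih n)
    | shift x m _ ih =>
      exact fun n => iso _ _ ((shiftFunctorAdd' 𝒯.T m n (m + n) rfl).app x) (ih (m + n))
    | ext D hD _ _ ih₁ ih₃ =>
      intro n
      refine five _ (Triangle.shift_distinguished D hD n) ?_ (ih₁ n) (ih₃ n) ?_
      · exact iso _ _ ((shiftFunctorAdd' 𝒯.T n (-1) (n + -1) rfl).app D.obj₃) (ih₃ _)
      · exact iso _ _ ((shiftFunctorAdd' 𝒯.T n 1 (n + 1) rfl).app D.obj₁) (ih₁ _)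
    | coprod J Y _ ih =>
      exact fun n => iso _ _ (shiftCoprodIso Y n).symm (coprod J _ fun j => ih j n)
  exact iso _ _ ((shiftFunctorZero 𝒯.T ℤ).app x) (key 0)

theorem LocSub.trans {S S' : Set 𝒯.T} (h : ∀ s ∈ S, LocSub S' s) {x : 𝒯.T} (hx : LocSub S x) :
    LocSub S' x := by
  induction hx with
  | of x hx => exact h x hx
  | zero x hx => exact .zero x hx
  | iso x y e _ ih => exact .iso x y e ih
  | shift x n _ ih => exact .shift x n ih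
  | ext D hD _ _ ih₁ ih₃ => exact .ext D hD ih₁ ih₃
  | coprod J Y _ ih => exact .coprod J Y ih

theorem LocSub.mono {S S' : Set 𝒯.T} (h : S ⊆ S') {x : 𝒯.T} (hx : LocSub S x) : LocSub S' x :=
  hx.trans fun s hs => .of s (h hs)

theorem LocSub.ext₃ {S : Set 𝒯.T} (D : Triangle 𝒯.T) (hD : D ∈ distTriang 𝒯.T)
    (h₁ : LocSub S D.obj₁) (h₂ : LocSub S D.obj₂) : LocSub S D.obj₃ :=
  .ext _ (rot_of_distTriang D hD) h₂ (.shift _ 1 h₁)

theorem LocSub.ext₁ {S : Set 𝒯.T} (D : Triangle 𝒯.T) (hD : D ∈ distTriang 𝒯.T)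
    (h₂ : LocSub S D.obj₂) (h₃ : LocSub S D.obj₃) : LocSub S D.obj₁ :=
  .ext _ (inv_rot_of_distTriang D hD) (.shift _ (-1) h₃) h₂

/-- an exact coproduct-preserving operation `a ⊗ -` maps localizing subcategories accordingly -/
theorem LocSub.tensL {S S' : Set 𝒯.T} (a : 𝒯.T) (h : ∀ s ∈ S, LocSub S' (a ⊗ s)) {x : 𝒯.T}
    (hx : LocSub S x) : LocSub S' (a ⊗ x) := by
  induction hx with
  | of x hx => exact h x hx
  | zero x hx => exact .zero _ (isZero_tensL a hx)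
  | iso x y e _ ih => exact .iso _ _ (whiskerLeftIso a e) ih
  | shift x n _ ih => exact .iso _ _ (tensShiftIso a x n).symm (.shift _ n ih)
  | ext D hD _ _ ih₁ ih₃ =>
    obtain ⟨w, hw⟩ := tensL_dist a D hD
    exact .ext _ hw ih₁ ih₃
  | coprod J Y _ ih => exact .iso _ _ (tensCoprodIso a Y).symm (.coprod J _ ih)

theorem LocSub.tensR {S S' : Set 𝒯.T} (a : 𝒯.T) (h : ∀ s ∈ S, LocSub S' (s ⊗ a)) {x : 𝒯.T}
    (hx : LocSub S x) : LocSub S' (x ⊗ a) :=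
  .iso _ _ (β_ a x) (hx.tensL a fun s hs => .iso _ _ (β_ s a) (h s hs))

theorem locSub_empty {x : 𝒯.T} (hx : LocSub (∅ : Set 𝒯.T) x) : IsZero x := by
  induction hx with
  | of x hx => exact hx.elim
  | zero x hx => exact hx
  | iso x y e _ ih => exact ih.of_iso e.symm
  | shift x n _ ih => exact isZero_shift ih n
  | ext D hD _ _ ih₁ ih₃ => exact Triangle.isZero₂_of_isZero₁₃ D hD ih₁ ih₃
  | coprod J Y _ ih => exact isZero_coprod Y ih

theorem LocSub.isZero_tensR {S : Set 𝒯.T} {z : 𝒯.T} (h : ∀ s ∈ S, IsZero (s ⊗ z)) {x : 𝒯.T}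
    (hx : LocSub S x) : IsZero (x ⊗ z) :=
  locSub_empty (hx.tensR z fun s hs => .zero _ (h s hs))

theorem LocSub.isZero_tensL {S : Set 𝒯.T} {z : 𝒯.T} (h : ∀ s ∈ S, IsZero (z ⊗ s)) {x : 𝒯.T}
    (hx : LocSub S x) : IsZero (z ⊗ x) :=
  locSub_empty (hx.tensL z fun s hs => .zero _ (h s hs))

theorem LocSub.orth {S : Set 𝒯.T} {y : 𝒯.T} (h : ∀ s ∈ S, ∀ (n : ℤ) (f : s⟦n⟧ ⟶ y), f = 0)
    {x : 𝒯.T} (hx : LocSub S x) (f : x ⟶ y) : f = 0 := by
  refine LocSub.five (fun x => ∀ f : x ⟶ y, f = 0) ?_ ?_ ?_ ?_ h hx f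
  · intro x x' e hx f
    rw [← cancel_epi e.hom, hx (e.hom ≫ f), comp_zero]
  · intro x hx f
    exact hx.eq_of_src _ _
  · intro D hD _ h₁ h₃ _ f
    obtain ⟨g, rfl⟩ := Triangle.yoneda_exact₂ D hD f (h₁ _)
    rw [h₃ g, comp_zero]
  · intro J Y hY f
    ext j
    rw [hY j (_ ≫ f), comp_zero]

theorem subset_loc (S : Set 𝒯.T) : S ⊆ Loc S := fun _ hx _ hL => hL.2 hx

theorem loc_subset {S L : Set 𝒯.T} (hL : IsLocIdeal L) (h : S ⊆ L) : Loc S ⊆ L :=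
  fun _ hx => hx L ⟨hL, h⟩

theorem isLocIdeal_loc (S : Set 𝒯.T) : IsLocIdeal (Loc S) where
  zero x hx _ hL := hL.1.zero x hx
  iso x y e hx L hL := hL.1.iso x y e (hx L hL)
  shift x hx n L hL := hL.1.shift x (hx L hL) n
  ext D hD h₁ h₃ L hL := hL.1.ext D hD (h₁ L hL) (h₃ L hL)
  coprod J Y hY L hL := hL.1.coprod J Y fun j => hY j L hL
  tensor a x hx L hL := hL.1.tensor a x (hx L hL)

theorem LocSub.mem_of_isLocIdeal {S L : Set 𝒯.T} (hL : IsLocIdeal L) (h : S ⊆ L) {x : 𝒯.T}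
    (hx : LocSub S x) : x ∈ L := by
  induction hx with
  | of x hx => exact h hx
  | zero x hx => exact hL.zero x hx
  | iso x y e _ ih => exact hL.iso x y e ih
  | shift x n _ ih => exact hL.shift x ih n
  | ext D hD _ _ ih₁ ih₃ => exact hL.ext D hD ih₁ ih₃
  | coprod J Y _ ih => exact hL.coprod J Y ih

theorem LocSub.mem_loc {S : Set 𝒯.T} {x : 𝒯.T} (hx : LocSub S x) : x ∈ Loc S :=
  hx.mem_of_isLocIdeal (isLocIdeal_loc S) (subset_loc S)

theorem isLocIdeal_killL (z : 𝒯.T) : IsLocIdeal {a : 𝒯.T | IsZero (z ⊗ a)} where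
  zero x hx := isZero_tensL z hx
  iso x y e hx := IsZero.of_iso hx (whiskerLeftIso z e).symm
  shift x hx n := (isZero_shift hx n).of_iso (tensShiftIso z x n)
  ext D hD h₁ h₃ := by
    obtain ⟨w, hw⟩ := tensL_dist z D hD
    exact Triangle.isZero₂_of_isZero₁₃ _ hw h₁ h₃
  coprod J Y hY := (isZero_coprod _ hY).of_iso (tensCoprodIso z Y)
  tensor a x hx := (isZero_tensL a hx).of_iso
    ((α_ _ _ _).symm ≪≫ whiskerRightIso (β_ z a) x ≪≫ α_ _ _ _)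

theorem isLocIdeal_killR (z : 𝒯.T) : IsLocIdeal {a : 𝒯.T | IsZero (a ⊗ z)} := by
  have : {a : 𝒯.T | IsZero (a ⊗ z)} = {a : 𝒯.T | IsZero (z ⊗ a)} := by
    ext a
    exact ⟨fun h => IsZero.of_iso h (β_ _ _), fun h => IsZero.of_iso h (β_ _ _)⟩
  rw [this]
  exact isLocIdeal_killL z

theorem isLocIdeal_zero : IsLocIdeal {a : 𝒯.T | IsZero a} where
  zero _ hx := hx
  iso _ _ e hx := IsZero.of_iso hx e.symm
  shift _ hx n := isZero_shift hx n
  ext D hD h₁ h₃ := Triangle.isZero₂_of_isZero₁₃ D hD h₁ h₃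
  coprod _ Y hY := isZero_coprod Y hY
  tensor a _ hx := isZero_tensL a hx

theorem IsLocIdeal.inter {L L' : Set 𝒯.T} (h : IsLocIdeal L) (h' : IsLocIdeal L') :
    IsLocIdeal (L ∩ L') where
  zero x hx := ⟨h.zero x hx, h'.zero x hx⟩
  iso x y e hx := ⟨h.iso x y e hx.1, h'.iso x y e hx.2⟩
  shift x hx n := ⟨h.shift x hx.1 n, h'.shift x hx.2 n⟩
  ext D hD h₁ h₃ := ⟨h.ext D hD h₁.1 h₃.1, h'.ext D hD h₁.2 h₃.2⟩
  coprod J Y hY := ⟨h.coprod J Y fun j => (hY j).1, h'.coprod J Y fun j => (hY j).2⟩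
  tensor a x hx := ⟨h.tensor a x hx.1, h'.tensor a x hx.2⟩

/-! ### compact objects -/

open Classical in
theorem compact_iff {x : 𝒯.T} : Compact x ↔ ∀ (J : Type) (Y : J → 𝒯.T) (f : x ⟶ ∐ Y),
    ∃ s : Finset J, f = ∑ j ∈ s, (f ≫ Sigma.π Y j) ≫ Sigma.ι Y j := by
  refine ⟨fun h J Y f => ?_, fun h J Y f => ?_⟩
  · obtain ⟨s, g, hg⟩ := h J Y f
    refine ⟨s, hg.trans (Finset.sum_congr rfl fun j hj => ?_)⟩
    congr 1
    rw [hg, Preadditive.sum_comp, Finset.sum_eq_single j]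
    · simp
    · intro b _ hb
      simp [Sigma.ι_π_of_ne _ hb]
    · exact fun h => (h hj).elim
  · obtain ⟨s, hs⟩ := h J Y f
    exact ⟨s, _, hs⟩

theorem Compact.retract {x y : 𝒯.T} (r : Retract x y) (hy : Compact y) : Compact x := by
  intro J Y f
  obtain ⟨s, g, hg⟩ := hy J Y (r.r ≫ f)
  refine ⟨s, fun j => r.i ≫ g j, ?_⟩
  simp only [Category.assoc, ← Preadditive.comp_sum, ← hg, r.retract_assoc]

theorem Compact.of_iso {x y : 𝒯.T} (e : x ≅ y) (hx : Compact x) : Compact y :=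
  Compact.retract (Retract.ofIso e.symm) hx

theorem compact_of_isZero {x : 𝒯.T} (h : IsZero x) : Compact x :=
  fun _ _ _ => ⟨∅, fun _ => 0, h.eq_of_src _ _⟩

/-- the image of a compact object under a left adjoint whose right adjoint preserves coproducts -/
theorem Compact.adj {F R : 𝒯.T ⥤ 𝒯.T} (adj : F ⊣ R) [F.Additive]
    [∀ J : Type, PreservesColimitsOfShape (Discrete J) R] {x : 𝒯.T} (hx : Compact x) :
    Compact (F.obj x) := by
  intro J Y f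
  obtain ⟨s, g, hg⟩ := hx J (fun j => R.obj (Y j))
    (adj.homEquiv _ _ f ≫ (PreservesCoproduct.iso R Y).hom)
  refine ⟨s, fun j => (adj.homEquiv _ _).symm (g j), ?_⟩
  have h1 : adj.homEquiv _ _ f = ∑ j ∈ s, g j ≫ R.map (Sigma.ι Y j) := by
    rw [← Iso.eq_comp_inv] at hg
    rw [hg, Preadditive.sum_comp]
    refine Finset.sum_congr rfl fun j _ => ?_
    rw [Category.assoc, PreservesCoproduct.inv_hom, ι_comp_sigmaComparison]
  have h2 : f = (adj.homEquiv _ _).symm (∑ j ∈ s, g j ≫ R.map (Sigma.ι Y j)) := by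
    rw [← h1, Equiv.symm_apply_apply]
  rw [h2, Adjunction.homEquiv_counit, F.map_sum, Preadditive.sum_comp]
  refine Finset.sum_congr rfl fun j _ => ?_
  simp [Adjunction.homEquiv_counit]

theorem Compact.shift {x : 𝒯.T} (hx : Compact x) (n : ℤ) : Compact (x⟦n⟧) :=
  haveI : ∀ J : Type, PreservesColimitsOfShape (Discrete J) (shiftEquiv 𝒯.T n).inverse :=
    fun _ => inferInstance
  haveI : (shiftEquiv 𝒯.T n).functor.Additive := inferInstanceAs (shiftFunctor 𝒯.T n).Additive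
  Compact.adj (shiftEquiv 𝒯.T n).toAdjunction hx

theorem Compact.ext (D : Triangle 𝒯.T) (hD : D ∈ distTriang 𝒯.T) (h₁ : Compact D.obj₁)
    (h₃ : Compact D.obj₃) : Compact D.obj₂ := by
  classical
  intro J Y f
  obtain ⟨s, hs⟩ := compact_iff.1 h₁ J Y (D.mor₁ ≫ f)
  obtain ⟨g, hg⟩ := Triangle.yoneda_exact₂ D hD
    (f - ∑ j ∈ s, (f ≫ Sigma.π Y j) ≫ Sigma.ι Y j) (by
      rw [Preadditive.comp_sub, Preadditive.comp_sum, sub_eq_zero]
      simpa using hs)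
  obtain ⟨s', g', hg'⟩ := h₃ J Y g
  refine ⟨s ∪ s', fun j => (if j ∈ s then f ≫ Sigma.π Y j else 0) +
    (if j ∈ s' then D.mor₂ ≫ g' j else 0), ?_⟩
  simp only [Preadditive.add_comp, Finset.sum_add_distrib]
  rw [sub_eq_iff_eq_add'] at hg
  conv_lhs => rw [hg, hg', Preadditive.comp_sum]
  congr 1
  · rw [← Finset.sum_subset (Finset.subset_union_left (s₂ := s'))]
    · exact Finset.sum_congr rfl fun j hj => by simp [hj]
    · intro j _ hj
      simp [hj]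
  · rw [← Finset.sum_subset (Finset.subset_union_right (s₁ := s))]
    · exact Finset.sum_congr rfl fun j hj => by simp [hj]
    · intro j _ hj
      simp [hj]

theorem Compact.ext₃ (D : Triangle 𝒯.T) (hD : D ∈ distTriang 𝒯.T) (h₁ : Compact D.obj₁)
    (h₂ : Compact D.obj₂) : Compact D.obj₃ :=
  Compact.ext _ (rot_of_distTriang D hD) h₂ (h₁.shift 1)

theorem Compact.ext₁ (D : Triangle 𝒯.T) (hD : D ∈ distTriang 𝒯.T) (h₂ : Compact D.obj₂)
    (h₃ : Compact D.obj₃) : Compact D.obj₁ :=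
  Compact.ext _ (inv_rot_of_distTriang D hD) (h₃.shift (-1)) h₂

theorem Compact.biprod {x y : 𝒯.T} (hx : Compact x) (hy : Compact y) : Compact (x ⊞ y) :=
  Compact.ext _ (binaryBiproductTriangle_distinguished x y) hx hy

/-- a dualizable object tensored with a compact object is compact -/
theorem Compact.tens_of_pairing (y y' : 𝒯.T) [ExactPairing y y'] {x : 𝒯.T} (hx : Compact x) :
    Compact (x ⊗ y) :=
  Compact.adj (tensorRightAdjunction y y') hx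

/-! ### invertible objects -/

theorem Inv.of_iso {x y : 𝒯.T} (e : x ≅ y) (h : Inv x) : Inv y := by
  obtain ⟨z, ⟨i⟩⟩ := h
  exact ⟨z, ⟨whiskerRightIso e.symm z ≪≫ i⟩⟩

theorem inv_unit : Inv (𝟙_ 𝒯.T) := ⟨𝟙_ _, ⟨λ_ _⟩⟩

theorem Inv.tensor {x y : 𝒯.T} (hx : Inv x) (hy : Inv y) : Inv (x ⊗ y) := by
  obtain ⟨x', ⟨i⟩⟩ := hx
  obtain ⟨y', ⟨j⟩⟩ := hy
  exact ⟨y' ⊗ x', ⟨α_ _ _ _ ≪≫ whiskerLeftIso x ((α_ _ _ _).symm ≪≫ whiskerRightIso j x' ≪≫ λ_ _)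
    ≪≫ i⟩⟩

theorem Inv.shift {x : 𝒯.T} (hx : Inv x) (n : ℤ) : Inv (x⟦n⟧) := by
  obtain ⟨x', ⟨i⟩⟩ := hx
  exact ⟨x'⟦-n⟧, ⟨shiftTensIso _ _ n ≪≫ (shiftFunctor _ n).mapIso (tensShiftIso _ _ (-n) ≪≫
    (shiftFunctor _ (-n)).mapIso i) ≪≫ (shiftFunctorCompIsoId 𝒯.T (-n) n (by simp)).app _⟩⟩

theorem Inv.isEquivalence_right {z : 𝒯.T} (h : Inv z) : (tensorRight z).IsEquivalence := by
  obtain ⟨z', ⟨i⟩⟩ := h
  exact Functor.IsEquivalence.mk' (tensorRight z')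
    (NatIso.ofComponents (fun a => (ρ_ a).symm ≪≫ whiskerLeftIso a i.symm ≪≫ (α_ _ _ _).symm)
      (by
        intro a b f
        change f ≫ (ρ_ b).inv ≫ b ◁ i.inv ≫ (α_ b z z').inv =
          ((ρ_ a).inv ≫ a ◁ i.inv ≫ (α_ a z z').inv) ≫ f ▷ z ▷ z'
        rw [rightUnitor_inv_naturality_assoc, ← whisker_exchange_assoc,
          associator_inv_naturality_left, Category.assoc, Category.assoc]))
    (NatIso.ofComponents (fun a => α_ _ _ _ ≪≫ whiskerLeftIso a (β_ z' z ≪≫ i) ≪≫ ρ_ a)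
      (by
        intro a b f
        change f ▷ z' ▷ z ≫ (α_ b z' z).hom ≫ b ◁ (β_ z' z ≪≫ i).hom ≫ (ρ_ b).hom =
          ((α_ a z' z).hom ≫ a ◁ (β_ z' z ≪≫ i).hom ≫ (ρ_ a).hom) ≫ f
        rw [associator_naturality_left_assoc, ← whisker_exchange_assoc,
          rightUnitor_naturality, Category.assoc, Category.assoc]))

theorem Inv.isEquivalence_left {z : 𝒯.T} (h : Inv z) : (tensorLeft z).IsEquivalence :=
  haveI := h.isEquivalence_right
  Functor.isEquivalence_of_iso (BraidedCategory.tensorLeftIsoTensorRight z).symm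

theorem Inv.whiskerRight_ne {z : 𝒯.T} (h : Inv z) {a b : 𝒯.T} {f : a ⟶ b} (hf : f ≠ 0) :
    f ▷ z ≠ 0 := by
  have := h.isEquivalence_right
  intro h0
  exact hf ((tensorRight z).map_injective (h0.trans ((tensorRight z).map_zero _ _).symm))

theorem Inv.whiskerLeft_ne {z : 𝒯.T} (h : Inv z) {a b : 𝒯.T} {f : a ⟶ b} (hf : f ≠ 0) :
    z ◁ f ≠ 0 := by
  have := h.isEquivalence_left
  intro h0
  exact hf ((tensorLeft z).map_injective (h0.trans ((tensorLeft z).map_zero _ _).symm))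

theorem Inv.compact_tens {z : 𝒯.T} (h : Inv z) {x : 𝒯.T} (hx : Compact x) : Compact (x ⊗ z) := by
  have := h.isEquivalence_right
  have : ∀ J : Type, PreservesColimitsOfShape (Discrete J) (tensorRight z).asEquivalence.inverse :=
    fun _ => inferInstance
  have : (tensorRight z).asEquivalence.functor.Additive :=
    inferInstanceAs (tensorRight z).Additive
  exact Compact.adj (tensorRight z).asEquivalence.toAdjunction hx

theorem Inv.isZero_of_tens {z : 𝒯.T} (h : Inv z) {x : 𝒯.T} (hx : IsZero (z ⊗ x)) : IsZero x := by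
  by_contra h0
  rw [IsZero.iff_id_eq_zero] at h0
  exact h.whiskerLeft_ne h0 (hx.eq_of_src _ _)

/-! ### thick ideals -/

theorem IsThickIdeal.iso {J : Set 𝒯.T} (h : IsThickIdeal J) {x y : 𝒯.T} (e : x ≅ y) (hx : x ∈ J) :
    y ∈ J :=
  h.retract y x (Retract.ofIso e.symm) hx

theorem IsThickIdeal.ext₃ {J : Set 𝒯.T} (h : IsThickIdeal J) (D : Triangle 𝒯.T)
    (hD : D ∈ distTriang 𝒯.T) (h₁ : D.obj₁ ∈ J) (h₂ : D.obj₂ ∈ J) : D.obj₃ ∈ J :=
  h.ext _ (rot_of_distTriang D hD) h₂ (h.shift _ h₁ 1)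

theorem IsThickIdeal.ext₁ {J : Set 𝒯.T} (h : IsThickIdeal J) (D : Triangle 𝒯.T)
    (hD : D ∈ distTriang 𝒯.T) (h₂ : D.obj₂ ∈ J) (h₃ : D.obj₃ ∈ J) : D.obj₁ ∈ J :=
  h.ext _ (inv_rot_of_distTriang D hD) (h.shift _ h₃ (-1)) h₂

theorem IsThickIdeal.tensorR {J : Set 𝒯.T} (h : IsThickIdeal J) {x a : 𝒯.T} (hx : x ∈ J)
    (ha : Compact a) : x ⊗ a ∈ J :=
  h.iso (β_ a x) (h.tensor a x ha hx)

theorem IsThickIdeal.biprod {J : Set 𝒯.T} (h : IsThickIdeal J) {x y : 𝒯.T} (hx : x ∈ J)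
    (hy : y ∈ J) : (x ⊞ y) ∈ J :=
  h.ext _ (binaryBiproductTriangle_distinguished x y) hx hy

/-! ### rigidly-compactly generated categories -/

theorem IsRCG.compact_unit (h : 𝒯.IsRCG) : Compact (𝟙_ 𝒯.T) :=
  (h.rigid _).2 ⟨𝟙_ _, ⟨inferInstance⟩⟩

theorem IsRCG.compact_tensor (h : 𝒯.IsRCG) {x y : 𝒯.T} (hx : Compact x) (hy : Compact y) :
    Compact (x ⊗ y) := by
  obtain ⟨y', ⟨p⟩⟩ := (h.rigid y).1 hy
  exact hx.tens_of_pairing y y'

theorem IsRCG.exists_dual (h : 𝒯.IsRCG) {x : 𝒯.T} (hx : Compact x) :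
    ∃ y : 𝒯.T, Compact y ∧ Nonempty (ExactPairing x y) := by
  obtain ⟨y, ⟨p⟩⟩ := (h.rigid x).1 hx
  exact ⟨y, (h.rigid y).2 ⟨x, ⟨BraidedCategory.exactPairing_swap x y⟩⟩, ⟨p⟩⟩

/-- `x` is a retract of `x ⊗ y ⊗ x` for a dual pair -/
def retractPairing (x y : 𝒯.T) [ExactPairing x y] : Retract x ((x ⊗ y) ⊗ x) where
  i := (λ_ x).inv ≫ η_ x y ▷ x
  r := (α_ _ _ _).hom ≫ x ◁ ε_ x y ≫ (ρ_ x).hom
  retract := by
    rw [Category.assoc, ExactPairing.evaluation_coevaluation_assoc]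
    simp

theorem IsRCG.isThickIdeal_compact (h : 𝒯.IsRCG) : IsThickIdeal {x : 𝒯.T | Compact x} where
  compact _ hx := hx
  zero _ hx := compact_of_isZero hx
  shift _ hx n := Compact.shift hx n
  ext D hD h₁ h₃ := Compact.ext D hD h₁ h₃
  retract _ _ r hy := Compact.retract r hy
  tensor _ _ ha hx := h.compact_tensor ha hx

theorem IsRCG.isThickIdeal_ann (h : 𝒯.IsRCG) (z : 𝒯.T) : IsThickIdeal (ann z) where
  compact _ hx := hx.1
  zero _ hx := ⟨compact_of_isZero hx, isZero_tensR hx z⟩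
  shift x hx n := ⟨hx.1.shift n, (isLocIdeal_killR z).shift x hx.2 n⟩
  ext D hD h₁ h₃ := ⟨Compact.ext D hD h₁.1 h₃.1, (isLocIdeal_killR z).ext D hD h₁.2 h₃.2⟩
  retract x y r hy := ⟨Compact.retract r hy.1, by
    rw [IsZero.iff_id_eq_zero, ← id_whiskerRight, ← r.retract, comp_whiskerRight,
      hy.2.eq_of_tgt (r.i ▷ z) 0, zero_comp]⟩
  tensor a x ha hx := ⟨h.compact_tensor ha hx.1, (isLocIdeal_killR z).tensor a x hx.2⟩

/-! ### the generating family -/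

namespace Gen

variable {G : Type} [AddCommGroup G] {M : AddSubmonoid G} (Γ : Gen 𝒯 M)

theorem inv (γ : G) : Inv (Γ.L γ) := by
  obtain ⟨i⟩ := Γ.mu γ (-γ)
  obtain ⟨j⟩ := Γ.eta
  exact ⟨Γ.L (-γ), ⟨i ≪≫ eqToIso (by rw [add_neg_cancel]) ≪≫ j⟩⟩

include Γ in
theorem compact_unit : Compact (𝟙_ 𝒯.T) := (Γ.cpt 0).of_iso Γ.eta.some

theorem hom_shift' (α β : G) {m n : ℤ} (h : m ≠ n) (f : (Γ.L α)⟦m⟧ ⟶ (Γ.L β)⟦n⟧) : f = 0 := by
  obtain ⟨g, hg⟩ := (shiftFunctor 𝒯.T m).map_surjective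
    (f ≫ (shiftFunctorAdd' 𝒯.T (n - m) m n (by ring)).hom.app (Γ.L β))
  rw [Γ.hom_shift α β (n - m) (by omega) g, Functor.map_zero] at hg
  rw [← cancel_mono ((shiftFunctorAdd' 𝒯.T (n - m) m n (by ring)).hom.app (Γ.L β)), ← hg, zero_comp]

theorem add_self {α β : G} (f : Γ.L α ⟶ Γ.L β) : f + f = 0 := by
  by_contra h
  have hf : f ≠ 0 := by
    rintro rfl
    simp at h
  exact hf (by simpa using Γ.uniq α β _ _ h hf)

theorem tau_uniq {ψ : G} {τ τ' : Γ.L ψ ⟶ 𝟙_ 𝒯.T} (h : τ ≠ 0) (h' : τ' ≠ 0) : τ = τ' := by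
  obtain ⟨j⟩ := Γ.eta
  rw [← cancel_mono j.inv]
  apply Γ.uniq
  · intro h0
    exact h (by rw [← cancel_mono j.inv, h0, zero_comp])
  · intro h0
    exact h' (by rw [← cancel_mono j.inv, h0, zero_comp])

theorem tau_iff (ψ : G) : (∃ τ : Γ.L ψ ⟶ 𝟙_ 𝒯.T, τ ≠ 0) ↔ ψ ∈ M := by
  obtain ⟨j⟩ := Γ.eta
  rw [← sub_zero ψ, ← Γ.ex_iff, sub_zero]
  refine ⟨fun ⟨τ, h⟩ => ⟨τ ≫ j.inv, fun h0 => h ?_⟩, fun ⟨τ, h⟩ => ⟨τ ≫ j.hom, fun h0 => h ?_⟩⟩
  · rw [← cancel_mono j.inv, h0, zero_comp]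
  · rw [← cancel_mono j.hom, h0, zero_comp]

theorem exists_cone {ψ : G} (h : ψ ∈ M) : ∃ c, Γ.IsCone ψ c := by
  obtain ⟨τ, hτ⟩ := (Γ.tau_iff ψ).2 h
  obtain ⟨c, u, w, hD⟩ := distinguished_cocone_triangle τ
  exact ⟨c, τ, u, w, hτ, hD⟩

variable {Γ}

theorem IsCone.mem {ψ : G} {c : 𝒯.T} (h : Γ.IsCone ψ c) : ψ ∈ M := by
  obtain ⟨τ, -, -, hτ, -⟩ := h
  exact (Γ.tau_iff ψ).1 ⟨τ, hτ⟩

theorem IsCone.compact {ψ : G} {c : 𝒯.T} (h : Γ.IsCone ψ c) : Compact c := by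
  obtain ⟨τ, u, w, -, hD⟩ := h
  exact Compact.ext₃ _ hD (Γ.cpt ψ) Γ.compact_unit

theorem IsCone.iso {ψ : G} {c c' : 𝒯.T} (h : Γ.IsCone ψ c) (h' : Γ.IsCone ψ c') :
    Nonempty (c ≅ c') := by
  obtain ⟨τ, u, w, hτ, hD⟩ := h
  obtain ⟨τ', u', w', hτ', hD'⟩ := h'
  obtain rfl := Γ.tau_uniq hτ hτ'
  exact ⟨Triangle.π₃.mapIso (isoTriangleOfIso₁₂ _ _ hD hD' (Iso.refl _) (Iso.refl _)
    ((Category.comp_id _).trans (Category.id_comp _).symm))⟩

theorem Kos.compact (h𝒯 : 𝒯.IsRCG) {S : Set G} {K : 𝒯.T} (h : Γ.Kos S K) : Compact K := by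
  induction h with
  | one => exact h𝒯.compact_unit
  | cons ψ c K _ hc _ ih => exact h𝒯.compact_tensor hc.compact ih

theorem Cell.compact {I : Set ℤ} {x : 𝒯.T} (h : Γ.Cell I x) : Compact x := by
  induction h with
  | zero x hx => exact compact_of_isZero hx
  | gen x γ n _ e => exact ((Γ.cpt γ).shift n).of_iso e.symm
  | ext D hD _ _ ih₁ ih₃ => exact Compact.ext D hD ih₁ ih₃

theorem Cell.mono {I J : Set ℤ} (hIJ : I ⊆ J) {x : 𝒯.T} (h : Γ.Cell I x) : Γ.Cell J x := by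
  induction h with
  | zero x hx => exact .zero x hx
  | gen x γ n hn e => exact .gen x γ n (hIJ hn) e
  | ext D hD _ _ ih₁ ih₃ => exact .ext D hD ih₁ ih₃

theorem Cell.of_iso {I : Set ℤ} {x y : 𝒯.T} (e : x ≅ y) (h : Γ.Cell I x) : Γ.Cell I y :=
  .ext (Triangle.mk e.hom (0 : y ⟶ 0) 0) (isomorphic_distinguished _ (contractible_distinguished x) _
    (Triangle.isoMk _ _ (Iso.refl _) e.symm (Iso.refl _) (by simp) (by simp) (by simp))) h
    (.zero _ (isZero_zero _))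

theorem Cell.shift {I J : Set ℤ} (k : ℤ) (hIJ : ∀ n ∈ I, n + k ∈ J) {x : 𝒯.T} (h : Γ.Cell I x) :
    Γ.Cell J (x⟦k⟧) := by
  induction h with
  | zero x hx => exact .zero _ (isZero_shift hx k)
  | gen x γ n hn e =>
    exact .gen _ γ (n + k) (hIJ n hn) ((shiftFunctor _ k).mapIso e ≪≫
      ((shiftFunctorAdd' 𝒯.T n k (n + k) rfl).app _).symm)
  | ext D hD _ _ ih₁ ih₃ => exact .ext _ (Triangle.shift_distinguished D hD k) ih₁ ih₃

end Gen

end TTCat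

end Pool.Agent.Lib.MP_ded707_al
end
end

-- part Pool.Agent.Lib.MP_ded707_al.KTT
section

/-!
The homotopy category as a tt-category.
-/

set_option autoImplicit false
set_option backward.isDefEq.respectTransparency false
set_option backward.defeqAttrib.useBackward true

open CategoryTheory Limits Pretriangulated MonoidalCategory ZeroObject

noncomputable section

namespace Pool.Agent.Lib.MP_ded707_al

namespace ACat

/-- the homotopy category as a tt-category -/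
abbrev KTT (𝒜 : ACat) : TTCat where
  T := 𝒜.K

variable {𝒜 : ACat}

/-- complexes concentrated in degree zero -/
abbrev sg (𝒜 : ACat) : 𝒜.A ⥤ 𝒜.Cx := HomologicalComplex.single 𝒜.A (ComplexShape.up ℤ) 0

/-- complexes concentrated in degree zero, in the homotopy category -/
abbrev S (𝒜 : ACat) : 𝒜.A ⥤ 𝒜.K := 𝒜.sg ⋙ 𝒜.Q

/-- degreewise tensor product with an object -/
abbrev dw (X : 𝒜.A) : 𝒜.Cx ⥤ 𝒜.Cx := (tensorLeft X).mapHomologicalComplex (ComplexShape.up ℤ)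

end ACat

end Pool.Agent.Lib.MP_ded707_al
end
end

-- part Pool.Agent.Lib.MP_ded707_al.KSingle
section

/-!
Complexes concentrated in one degree.
-/

set_option autoImplicit false
set_option backward.isDefEq.respectTransparency false
set_option backward.defeqAttrib.useBackward true

open CategoryTheory Limits Pretriangulated MonoidalCategory ZeroObject

noncomputable section

namespace Pool.Agent.Lib.MP_ded707_al

namespace ACat

variable {𝒜 : ACat}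

open HomologicalComplex CochainComplex.HomComplex in
/-- a map out of a single complex is null-homotopic iff it is a boundary -/
theorem Q_single_eq_zero_iff {X : 𝒜.A} {Z : 𝒜.Cx} {m : ℤ}
    (g : (single 𝒜.A (ComplexShape.up ℤ) m).obj X ⟶ Z) :
    𝒜.Q.map g = 0 ↔ ∃ y : X ⟶ Z.X (m - 1),
      y ≫ Z.d (m - 1) m = (singleObjXSelf (ComplexShape.up ℤ) m X).inv ≫ g.f m := by
  have hg : Cochain.ofHom g = Cochain.fromSingleMk
      ((singleObjXSelf (ComplexShape.up ℤ) m X).inv ≫ g.f m) (add_zero m) :=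
    (Cochain.fromSingleEquiv (add_zero m)).injective (by simp [Cochain.fromSingleEquiv])
  rw [HomotopyCategory.quotient_map_eq_zero_iff]
  constructor
  · rintro ⟨h⟩
    obtain ⟨β, hβ⟩ := Cochain.equivHomotopy _ _ h
    obtain ⟨y, rfl⟩ := Cochain.fromSingleMk_surjective (X := X) (p := m) β (m - 1) (by omega)
    rw [Cochain.δ_fromSingleMk _ _ 0 m (add_zero m), hg, Cochain.ofHom_zero, add_zero] at hβ
    exact ⟨y, ((Cochain.fromSingleEquiv (add_zero m)).symm.injective hβ).symm⟩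
  · rintro ⟨y, hy⟩
    refine ⟨(Cochain.equivHomotopy _ _).symm
      ⟨Cochain.fromSingleMk (X := X) (p := m) y (by omega), ?_⟩⟩
    rw [Cochain.δ_fromSingleMk _ _ 0 m (add_zero m), hg, Cochain.ofHom_zero, add_zero, hy]

theorem S_bijective (X Y : 𝒜.A) : Function.Bijective (fun f : X ⟶ Y => 𝒜.S.map f) := by
  refine ⟨fun f g h => ?_, fun a => ?_⟩
  · have h' : 𝒜.Q.map (𝒜.sg.map f - 𝒜.sg.map g) = 0 := by
      rw [Functor.map_sub, sub_eq_zero]; exact h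
    obtain ⟨y, hy⟩ := (Q_single_eq_zero_iff _).1 h'
    apply 𝒜.sg.map_injective
    rw [← sub_eq_zero]
    apply HomologicalComplex.from_single_hom_ext
    rw [← cancel_epi (HomologicalComplex.singleObjXSelf (ComplexShape.up ℤ) 0 X).inv, ← hy]
    simp
  · obtain ⟨g, rfl⟩ := 𝒜.Q.map_surjective (X := 𝒜.sg.obj X) (Y := 𝒜.sg.obj Y) a
    obtain ⟨f, rfl⟩ := 𝒜.sg.map_surjective g
    exact ⟨f, rfl⟩

theorem S_hom_shift (X Y : 𝒜.A) (n : ℤ) (hn : n ≠ 0) (f : 𝒜.S.obj X ⟶ (𝒜.S.obj Y)⟦n⟧) :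
    f = 0 := by
  obtain ⟨g, hg⟩ := 𝒜.Q.map_surjective (X := 𝒜.sg.obj X) (Y := (𝒜.sg.obj Y)⟦n⟧)
    (f ≫ (𝒜.Q.commShiftIso n).inv.app (𝒜.sg.obj Y))
  have h0 : g = 0 := HomologicalComplex.from_single_hom_ext
    ((HomologicalComplex.isZero_single_obj_X (ComplexShape.up ℤ) 0 Y (0 + n)
      (by omega)).eq_of_tgt _ _)
  rw [h0, Functor.map_zero] at hg
  rw [← cancel_mono ((𝒜.Q.commShiftIso n).inv.app (𝒜.sg.obj Y)), zero_comp]
  exact hg.symm

theorem S_compact (X : 𝒜.A) (hX : ∀ (J : Type) (Y : J → 𝒜.A) (f : X ⟶ ∐ Y),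
    ∃ (s : Finset J) (g : ∀ j, X ⟶ Y j), f = ∑ j ∈ s, g j ≫ Sigma.ι Y j) :
    TTCat.Compact (𝒯 := 𝒜.KTT) (𝒜.S.obj X) := by
  classical
  intro J Y f
  let Y' : J → 𝒜.Cx := fun j => (Y j).as
  let c : ∐ Y ⟶ 𝒜.Q.obj (∐ Y') := sigmaComparison 𝒜.Q Y'
  have hc : IsIso c := inferInstanceAs (IsIso (sigmaComparison 𝒜.Q Y'))
  have hι : ∀ j, Sigma.ι Y j ≫ c = 𝒜.Q.map (Sigma.ι Y' j) := fun j =>
    ι_comp_sigmaComparison 𝒜.Q Y' j
  obtain ⟨g, hg⟩ := 𝒜.Q.map_surjective (X := 𝒜.sg.obj X) (Y := ∐ Y') (f ≫ c)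
  let E := HomologicalComplex.eval 𝒜.A (ComplexShape.up ℤ) 0
  obtain ⟨s, z, hz⟩ := hX J (fun j => E.obj (Y' j))
    ((HomologicalComplex.singleObjXSelf (ComplexShape.up ℤ) 0 X).inv ≫ g.f 0 ≫
      inv (sigmaComparison E Y'))
  have h1 : g.f 0 = (HomologicalComplex.singleObjXSelf (ComplexShape.up ℤ) 0 X).hom ≫
      ∑ j ∈ s, z j ≫ (Sigma.ι Y' j).f 0 := by
    rw [← Iso.inv_comp_eq, ← Category.assoc, IsIso.comp_inv_eq, Preadditive.sum_comp] at *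
    rw [hz]
    refine Finset.sum_congr rfl fun j _ => ?_
    rw [Category.assoc, ι_comp_sigmaComparison]
    rfl
  have h2 : g = ∑ j ∈ s, (g ≫ Sigma.π Y' j) ≫ Sigma.ι Y' j := by
    apply HomologicalComplex.from_single_hom_ext
    have e := E.map_sum (fun j => (g ≫ Sigma.π Y' j) ≫ Sigma.ι Y' j) s
    refine h1.trans (Eq.trans ?_ e.symm)
    rw [Preadditive.comp_sum]
    refine Finset.sum_congr rfl fun j hj => ?_
    change _ = (g.f 0 ≫ (Sigma.π Y' j).f 0) ≫ (Sigma.ι Y' j).f 0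
    rw [h1, Category.assoc, Category.assoc, Preadditive.sum_comp, Finset.sum_eq_single j]
    · rw [Category.assoc, ← HomologicalComplex.comp_f_assoc, Sigma.ι_π_eq_id]
      simp
    · intro k _ hk
      rw [Category.assoc, ← HomologicalComplex.comp_f_assoc, Sigma.ι_π_of_ne _ hk]
      simp
    · exact fun h => absurd hj h
  refine ⟨s, fun j => 𝒜.Q.map (g ≫ Sigma.π Y' j), ?_⟩
  rw [← cancel_mono c, ← hg, Preadditive.sum_comp]
  conv_lhs => rw [h2]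
  rw [Functor.map_sum]
  refine Finset.sum_congr rfl fun j _ => ?_
  rw [Category.assoc _ (Sigma.ι Y j), hι, Functor.map_comp]

theorem ext_sg {X Y : 𝒜.A} {Z : 𝒜.Cx} {n : ℤ} {f g : (𝒜.sg.obj X ⊗ Z).X n ⟶ Y}
    (h : ιT _ Z 0 n n (zero_add n) ≫ f = ιT _ Z 0 n n (zero_add n) ≫ g) : f = g := by
  apply extT
  intro p q hpq
  by_cases hp : p = 0
  · subst hp
    obtain rfl : q = n := by omega
    exact h
  · exact ((tensorRight (Z.X q)).map_isZero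
      (HomologicalComplex.isZero_single_obj_X (ComplexShape.up ℤ) 0 X p hp)).eq_of_src _ _

/-- the degreewise comparison map -/
def sgHom (X : 𝒜.A) (Z : 𝒜.Cx) (n : ℤ) : (𝒜.sg.obj X ⊗ Z).X n ⟶ X ⊗ Z.X n :=
  descT fun p q h => if hp : p = 0 then
    (HomologicalComplex.singleObjXIsoOfEq (ComplexShape.up ℤ) 0 X p hp).hom ▷ Z.X q ≫
      X ◁ (Z.XIsoOfEq (show q = n by omega)).hom else 0

@[reassoc]
theorem ιT_sgHom (X : 𝒜.A) (Z : 𝒜.Cx) (n : ℤ) : ιT _ Z 0 n n (zero_add n) ≫ sgHom X Z n =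
    (HomologicalComplex.singleObjXSelf (ComplexShape.up ℤ) 0 X).hom ▷ Z.X n := by
  rw [sgHom, ιT_descT, dif_pos rfl]
  simp [HomologicalComplex.singleObjXSelf]

/-- the degreewise comparison isomorphism -/
def sgIsoX (X : 𝒜.A) (Z : 𝒜.Cx) (n : ℤ) : (𝒜.sg.obj X ⊗ Z).X n ≅ X ⊗ Z.X n where
  hom := sgHom X Z n
  inv := (HomologicalComplex.singleObjXSelf (ComplexShape.up ℤ) 0 X).inv ▷ Z.X n ≫
    ιT _ Z 0 n n (zero_add n)
  hom_inv_id := ext_sg (by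
    rw [ιT_sgHom_assoc, ← comp_whiskerRight_assoc, Iso.hom_inv_id, id_whiskerRight,
      Category.id_comp, Category.comp_id])
  inv_hom_id := by
    rw [Category.assoc, ιT_sgHom, ← comp_whiskerRight, Iso.inv_hom_id, id_whiskerRight]

/-- the comparison isomorphism -/
def sgIso (X : 𝒜.A) (Z : 𝒜.Cx) : 𝒜.sg.obj X ⊗ Z ≅ (dw X).obj Z :=
  HomologicalComplex.Hom.isoOfComponents (fun n => sgIsoX X Z n) (by
    rintro i j (rfl : i + 1 = j)
    apply ext_sg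
    change _ ≫ sgHom X Z i ≫ X ◁ Z.d i (i + 1) = _ ≫ _ ≫ sgHom X Z (i + 1)
    rw [ιT_sgHom_assoc, ιT_d_assoc, HomologicalComplex.single_obj_d,
      MonoidalPreadditive.zero_whiskerRight, zero_comp, zero_add, Category.assoc, ιT_sgHom,
      whisker_exchange])

/-- tensoring with a complex concentrated in degree zero -/
theorem sg_tensor (Z : 𝒜.Cx) : ∃ e : ∀ X : 𝒜.A, 𝒜.sg.obj X ⊗ Z ≅ (dw X).obj Z,
    (∀ (X X' : 𝒜.A) (f : X ⟶ X') (n : ℤ),
      (𝒜.sg.map f ▷ Z).f n ≫ (e X').hom.f n = (e X).hom.f n ≫ f ▷ Z.X n) ∧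
    ∀ n : ℤ, (e (𝟙_ 𝒜.A)).hom.f n ≫ (λ_ (Z.X n)).hom = (λ_ Z).hom.f n := by
  refine ⟨fun X => sgIso X Z, fun X X' f n => ?_, fun n => ?_⟩
  · apply ext_sg
    change _ ≫ _ ≫ sgHom X' Z n = _ ≫ sgHom X Z n ≫ _
    rw [ιT_whiskerRight_assoc, ιT_sgHom, ιT_sgHom_assoc, ← comp_whiskerRight,
      ← comp_whiskerRight, HomologicalComplex.single_map_f_self]
    simp
  · have h1 : (λ_ Z).inv.f n = (λ_ (Z.X n)).inv ≫ (sgIsoX (𝟙_ 𝒜.A) Z n).inv :=
      HomologicalComplex.leftUnitor'_inv Z n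
    have h2 : (λ_ Z).inv.f n ≫ (λ_ Z).hom.f n = 𝟙 _ := by
      rw [← HomologicalComplex.comp_f, Iso.inv_hom_id, HomologicalComplex.id_f]
    rw [h1, Category.assoc, Iso.inv_comp_eq, Iso.inv_comp_eq, Category.comp_id] at h2
    exact h2.symm

theorem S_tensor (X Y : 𝒜.A) : Nonempty (𝒜.S.obj X ⊗ 𝒜.S.obj Y ≅ 𝒜.S.obj (X ⊗ Y)) :=
  ⟨𝒜.Q.mapIso (sgIso X (𝒜.sg.obj Y) ≪≫ (HomologicalComplex.singleMapHomologicalComplex
    (tensorLeft X) (ComplexShape.up ℤ) 0).app Y)⟩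

/-- maps out of a shifted single complex are cohomology classes -/
theorem hom_from_S (Z : 𝒜.Cx) (n m : ℤ) (h : n + m = 0) :
    ∃ cls : ∀ (X : 𝒜.A) (z : X ⟶ Z.X m), z ≫ Z.d m (m + 1) = 0 → ((𝒜.S.obj X)⟦n⟧ ⟶ 𝒜.Q.obj Z),
      (∀ (X : 𝒜.A) (a : (𝒜.S.obj X)⟦n⟧ ⟶ 𝒜.Q.obj Z), ∃ z hz, cls X z hz = a) ∧
      (∀ (X : 𝒜.A) (z : X ⟶ Z.X m) (hz : z ≫ Z.d m (m + 1) = 0),
        cls X z hz = 0 ↔ ∃ y : X ⟶ Z.X (m - 1), y ≫ Z.d (m - 1) m = z) ∧
      ∀ (X X' : 𝒜.A) (t : X' ⟶ X) (z : X ⟶ Z.X m) (hz : z ≫ Z.d m (m + 1) = 0)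
        (hz' : (t ≫ z) ≫ Z.d m (m + 1) = 0),
        (𝒜.S.map t)⟦n⟧' ≫ cls X z hz = cls X' (t ≫ z) hz' := by
  let e : 𝒜.S ⋙ shiftFunctor 𝒜.K n ≅
      HomologicalComplex.single 𝒜.A (ComplexShape.up ℤ) m ⋙ 𝒜.Q :=
    (HomotopyCategory.singleFunctors 𝒜.A).shiftIso n m 0 h
  let mk : ∀ (X : 𝒜.A) (z : X ⟶ Z.X m), z ≫ Z.d m (m + 1) = 0 →
      ((HomologicalComplex.single 𝒜.A (ComplexShape.up ℤ) m).obj X ⟶ Z) := fun X z hz =>
    HomologicalComplex.mkHomFromSingle z (by rintro k (rfl : m + 1 = k); exact hz)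
  have hmk : ∀ X z hz, (mk X z hz).f m =
      (HomologicalComplex.singleObjXSelf (ComplexShape.up ℤ) m X).hom ≫ z := fun X z hz =>
    HomologicalComplex.mkHomFromSingle_f _ _
  refine ⟨fun X z hz => e.hom.app X ≫ 𝒜.Q.map (mk X z hz), fun X a => ?_, fun X z hz => ?_,
    fun X X' t z hz hz' => ?_⟩
  · obtain ⟨g, hg⟩ := 𝒜.Q.map_surjective
      (X := (HomologicalComplex.single 𝒜.A (ComplexShape.up ℤ) m).obj X) (Y := Z)
      (e.inv.app X ≫ a)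
    have hz : ((HomologicalComplex.singleObjXSelf (ComplexShape.up ℤ) m X).inv ≫ g.f m) ≫
        Z.d m (m + 1) = 0 := by
      rw [Category.assoc, g.comm, HomologicalComplex.single_obj_d, zero_comp, comp_zero]
    refine ⟨_, hz, ?_⟩
    have : mk X _ hz = g := HomologicalComplex.from_single_hom_ext (by rw [hmk _ _ hz]; simp)
    simp only [this, hg]
    exact e.hom_inv_id_app_assoc X a
  · have := Q_single_eq_zero_iff (mk X z hz)
    rw [hmk _ _ hz, Iso.inv_hom_id_assoc] at this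
    rw [← this]
    exact ⟨fun h0 => (cancel_epi (e.hom.app X)).1 (h0.trans comp_zero.symm),
      fun h0 => by simp only [h0, comp_zero]⟩
  · have h1 := e.hom.naturality t
    have h2 : (HomologicalComplex.single 𝒜.A (ComplexShape.up ℤ) m).map t ≫ mk X z hz =
        mk X' (t ≫ z) hz' := HomologicalComplex.from_single_hom_ext (by
      rw [HomologicalComplex.comp_f, hmk _ _ hz, hmk _ _ hz', HomologicalComplex.single_map_f_self]
      simp)
    simp only [← h2, Functor.map_comp]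
    exact (Category.assoc _ _ _).symm.trans ((congrArg (· ≫ _) h1).trans (Category.assoc _ _ _))

end ACat

end Pool.Agent.Lib.MP_ded707_al
end
end

-- part Pool.Agent.Lib.MP_ded707_al.CDefs
section

/-!
Filtered complexes given on one vector space.
-/

set_option autoImplicit false
set_option backward.isDefEq.respectTransparency false
set_option backward.defeqAttrib.useBackward true

open Set

noncomputable section

namespace Pool.Agent.Lib.MP_ded707_al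

variable {G : Type} [AddCommGroup G]

/-- a differential vector space over the field with two elements with a bifiltration -/
structure FC (M : AddSubmonoid G) : Type 1 where
  V : Type
  [acg : AddCommGroup V]
  [mod : Module (ZMod 2) V]
  d : V →ₗ[ZMod 2] V
  dd : ∀ v, d (d v) = 0
  F : ℤ → G → Submodule (ZMod 2) V
  mono : ∀ m α β, β - α ∈ M → F m α ≤ F m β
  dF : ∀ m γ, ∀ v ∈ F m γ, d v ∈ F (m + 1) γ

attribute [instance] FC.acg FC.mod

namespace FC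

variable {M : AddSubmonoid G} (E : FC M)

/-- some filtration piece has nonzero cohomology -/
def NonZ : Prop := ∃ m γ, ∃ z ∈ E.F m γ, E.d z = 0 ∧ ∀ w ∈ E.F (m - 1) γ, E.d w ≠ z

/-- acyclic after localization at `Φ` -/
def TA (Φ : AddSubmonoid G) : Prop :=
  ∀ m γ, ∀ z ∈ E.F m γ, E.d z = 0 → ∃ φ ∈ Φ, ∃ w ∈ E.F (m - 1) (γ + φ), E.d w = z

/-- Mayer-Vietoris property after localization at `Φ` -/
def MV (Φ : AddSubmonoid G) (ψ₁ ψ₂ : G) : Prop :=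
  (∀ m γ, ∀ b ∈ E.F m γ, E.d b ∈ E.F (m + 1) (γ - ψ₁) ⊔ E.F (m + 1) (γ - ψ₂) →
    ∃ φ ∈ Φ, ∃ b' ∈ E.F (m - 1) (γ + φ), b - E.d b' ∈ E.F m (γ + φ - ψ₁) ⊔ E.F m (γ + φ - ψ₂)) ∧
  ∀ m γ, ∀ v ∈ E.F m (γ - ψ₁) ⊓ E.F m (γ - ψ₂), ∃ φ ∈ Φ, v ∈ E.F m (γ + φ - ψ₁ - ψ₂)

end FC

/-- the common zero set of a monoid of functions -/
def zs {X : Type} [TopologicalSpace X] (Φ : AddSubmonoid C(X, ℝ)) : Set X :=
  {y | ∀ φ ∈ Φ, φ y = 0}

/-- the Hilbert cube -/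
abbrev HC := ℕ → unitInterval

end Pool.Agent.Lib.MP_ded707_al
end
end

-- part Pool.Agent.Lib.MP_ded707_al.BDefs
section

/-!
The generating family in the homotopy category of filtered vector spaces.
-/

set_option autoImplicit false
set_option backward.isDefEq.respectTransparency false
set_option backward.defeqAttrib.useBackward true

open CategoryTheory Limits Pretriangulated MonoidalCategory ZeroObject

noncomputable section

namespace Pool.Agent.Lib.MP_ded707_al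

variable {G : Type} [AddCommGroup G] {M : AddSubmonoid G}

namespace Fil

/-- the map from a line given by an element -/
def fromLine {X : Fil M} {γ : G} (v : X.V) (hv : v ∈ X.F γ) : line M γ ⟶ X :=
  ⟨ModuleCat.ofHom (LinearMap.toSpanSingleton k2 X.V v), fun α c hc => by
    rcases mem_line.1 hc with hc | rfl
    · exact Submodule.smul_mem _ _ (X.mono γ α hc hv)
    · simp⟩

theorem fromLine_one {X : Fil M} {γ : G} (v : X.V) (hv : v ∈ X.F γ) :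
    (fromLine v hv).1 (1 : k2) = v := one_smul k2 v

theorem one_mem_line (γ : G) : (1 : k2) ∈ (line M γ).F γ := mem_line.2 (Or.inl (by simp))

theorem line_ext {X : Fil M} {γ : G} {f g : line M γ ⟶ X} (h : f.1 (1 : k2) = g.1 (1 : k2)) :
    f = g := by
  apply hom_ext
  ext1
  exact LinearMap.ext_ring h

/-- the canonical map out of a twist -/
def twι {ψ : G} (h : ψ ∈ M) (X : Fil M) : tw ψ X ⟶ X :=
  ⟨𝟙 X.V, fun γ _ hv => X.mono (γ - ψ) γ (by simpa using h) hv⟩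

/-- twist of a complex -/
def twC (ψ : G) (Z : (filA M).Cx) : (filA M).Cx where
  X n := tw ψ (Z.X n)
  d i j := ⟨(Z.d i j).1, fun γ v hv => (Z.d i j).2 (γ - ψ) v hv⟩
  shape i j h := hom_ext (congrArg (fun f : Z.X i ⟶ Z.X j => f.1) (Z.shape i j h))
  d_comp_d' i j k _ _ := hom_ext (congrArg (fun f : Z.X i ⟶ Z.X k => f.1) (Z.d_comp_d i j k))

/-- the canonical map out of the twist of a complex -/
def twCι {ψ : G} (h : ψ ∈ M) (Z : (filA M).Cx) : twC ψ Z ⟶ Z where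
  f n := twι h (Z.X n)
  comm' _ _ _ := hom_ext ((Category.id_comp _).trans (Category.comp_id _).symm)

/-- cone of the canonical map -/
abbrev Cn {ψ : G} (h : ψ ∈ M) (Z : (filA M).Cx) : (filA M).Cx :=
  CochainComplex.mappingCone (twCι h Z)

/-- acyclic after localization at `Φ` -/
def TA (Φ : AddSubmonoid G) (Z : (filA M).Cx) : Prop :=
  ∀ (m : ℤ) (γ : G), ∀ z ∈ (Z.X m).F γ, (Z.d m (m + 1)).1 z = 0 →
    ∃ φ ∈ Φ, ∃ w ∈ (Z.X (m - 1)).F (γ + φ), (Z.d (m - 1) m).1 w = z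

/-- the complex of a bifiltered differential space -/
def ofFC (E : FC M) : (filA M).Cx where
  X m := ⟨ModuleCat.of k2 E.V, E.F m, E.mono m⟩
  d i j := if h : i + 1 = j then ⟨ModuleCat.ofHom E.d, fun γ v hv => h ▸ E.dF i γ v hv⟩ else 0
  shape _ _ h := dif_neg h
  d_comp_d' i j k hij hjk := by
    rw [dif_pos (show i + 1 = j from hij), dif_pos (show j + 1 = k from hjk)]
    exact hom_ext (ModuleCat.hom_ext (LinearMap.ext E.dd))

theorem ofFC_d (E : FC M) {i j : ℤ} (h : i + 1 = j) (v : E.V) :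
    ((ofFC E).d i j).1 v = E.d v := by
  simp only [ofFC, dif_pos h]
  rfl

theorem ofFC_F (E : FC M) (m : ℤ) (γ : G) : ((ofFC E).X m).F γ = E.F m γ := rfl

end Fil

end Pool.Agent.Lib.MP_ded707_al
end
end

-- part Pool.Agent.Lib.MP_ded707_al.Bridge
section

/-!
The lines form a generating family; torsion criterion.
-/

set_option autoImplicit false
set_option backward.isDefEq.respectTransparency false
set_option backward.defeqAttrib.useBackward true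

open CategoryTheory Limits Pretriangulated MonoidalCategory ZeroObject

noncomputable section

namespace Pool.Agent.Lib.MP_ded707_al

variable {G : Type} [AddCommGroup G] {M : AddSubmonoid G}

namespace Fil

/-- evaluation at the generator of a line -/
def ev1 (γ : G) (X : Fil M) : (line M γ ⟶ X) →+ X.V :=
  AddMonoidHom.mk' (fun f => f.1 (1 : k2)) fun _ _ => rfl

theorem line_cpt (γ : G) (J : Type) (Y : J → Fil M) (f : line M γ ⟶ ∐ Y) :
    ∃ (s : Finset J) (g : ∀ j, line M γ ⟶ Y j), f = ∑ j ∈ s, g j ≫ Sigma.ι Y j := by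
  let e : ∐ Y ≅ dsum Y := (coproductIsCoproduct Y).coconePointUniqueUpToIso (dsumIsColimit Y)
  have he : ∀ j, Sigma.ι Y j ≫ e.hom = dι Y j := fun j =>
    (coproductIsCoproduct Y).comp_coconePointUniqueUpToIso_hom (dsumIsColimit Y) ⟨j⟩
  obtain ⟨u, hu, hs⟩ := (Submodule.mem_iSup_iff_exists_finsupp _ _).1
    (map_mem (f ≫ e.hom) (one_mem_line γ))
  choose w hw hw' using hu
  refine ⟨u.support, fun j => fromLine (w j) (hw j), ?_⟩
  rw [← cancel_mono e.hom, Preadditive.sum_comp]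
  refine line_ext (hs.symm.trans (Eq.symm ((map_sum (ev1 γ (dsum Y)) _ _).trans ?_)))
  refine Finset.sum_congr rfl fun j _ => ?_
  rw [Category.assoc, he, ← hw']
  exact congrArg (dι Y j).1 (fromLine_one (w j) (hw j))

theorem line_one {α β : G} {f : line M α ⟶ line M β} (h : f ≠ 0) : f.1 (1 : k2) = (1 : k2) := by
  have : ∀ c : k2, c = 0 ∨ c = 1 := by decide
  exact (this _).resolve_left fun h' => h (line_ext h')

theorem line_ne {α β : G} {f : line M α ⟶ line M β} (h : f.1 (1 : k2) = (1 : k2)) : f ≠ 0 := by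
  rintro rfl
  exact zero_ne_one (α := k2) h

theorem S_ne {X Y : (filA M).A} {f : X ⟶ Y} : (filA M).S.map f ≠ 0 ↔ f ≠ 0 := by
  rw [← (filA M).S.map_zero X Y]
  exact (ACat.S_bijective X Y).1.ne_iff

/-- the map between lines -/
def tl {α β : G} (h : α - β ∈ M) : line M α ⟶ line M β :=
  fromLine (X := line M β) (1 : k2) (mem_line.2 (Or.inl h))

theorem tl_one {α β : G} (h : α - β ∈ M) : (tl h).1 (1 : k2) = (1 : k2) := fromLine_one _ _

/-- tensor product of two lines -/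
def lineMul (α β : G) : line M α ⊗ line M β ≅ line M (α + β) :=
  lineTens α (line M β) ≪≫ isoMk (Iso.refl (line M β).V)
    (fun γ v hv => mem_line.2 (((mem_line (δ := β)).1 hv).imp_left fun h => by rwa [← sub_sub]))
    (fun γ v hv => (mem_line (δ := β)).2 ((mem_line.1 hv).imp_left fun h => by rwa [sub_sub]))

variable (M) in
/-- the lines as a generating family -/
def genK : TTCat.Gen (filA M).KTT M where
  L γ := (filA M).S.obj (line M γ)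
  cpt γ := ACat.S_compact (𝒜 := filA M) (line M γ) (line_cpt γ)
  mu α β := (ACat.S_tensor (𝒜 := filA M) (line M α) (line M β)).map fun e =>
    e ≪≫ (filA M).S.mapIso (lineMul α β)
  eta := ⟨Iso.refl _⟩
  hom_shift α β := ACat.S_hom_shift (𝒜 := filA M) (line M α) (line M β)
  uniq α β f g hf hg := by
    obtain ⟨f, rfl⟩ := (ACat.S_bijective (𝒜 := filA M) (line M α) (line M β)).2 f
    obtain ⟨g, rfl⟩ := (ACat.S_bijective (𝒜 := filA M) (line M α) (line M β)).2 g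
    exact congrArg _ (line_ext ((line_one (S_ne.1 hf)).trans (line_one (S_ne.1 hg)).symm))
  ex_iff α β := ⟨fun ⟨f, hf⟩ => by
    obtain ⟨f, rfl⟩ := (ACat.S_bijective (𝒜 := filA M) (line M α) (line M β)).2 f
    have := map_mem f (one_mem_line α)
    rw [line_one (S_ne.1 hf)] at this
    exact (mem_line.1 this).resolve_right (one_ne_zero (α := k2)),
    fun h => ⟨_, S_ne.2 (line_ne (tl_one h))⟩⟩
  comp_ne α β γ f g hf hg := by
    obtain ⟨f, rfl⟩ := (ACat.S_bijective (𝒜 := filA M) (line M α) (line M β)).2 f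
    obtain ⟨g, rfl⟩ := (ACat.S_bijective (𝒜 := filA M) (line M β) (line M γ)).2 g
    rw [← Functor.map_comp]
    exact S_ne.2 (line_ne ((congrArg g.1 (line_one (S_ne.1 hf))).trans (line_one (S_ne.1 hg))))

theorem tors_of_TA {Φ : AddSubmonoid G} (hΦ : Φ ≤ M) {Z : (filA M).Cx} (h : TA Φ Z) :
    (genK M).Tors Φ ((filA M).Q.obj Z) := by
  intro γ n a
  obtain ⟨cls, h1, h2, h3⟩ := ACat.hom_from_S Z n (-n) (add_neg_cancel n)
  obtain ⟨z, hz, rfl⟩ := h1 (line M γ) a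
  obtain ⟨φ, hφ, w, hw, e⟩ := h (-n) γ _ (map_mem z (one_mem_line γ)) (congrArg (ev1 γ _) hz)
  have hm : γ + φ - γ ∈ M := by simpa using hΦ hφ
  have hz' : (tl hm ≫ z) ≫ Z.d (-n) (-n + 1) = 0 := by
    erw [Category.assoc, hz, comp_zero]
  refine ⟨φ, hφ, (filA M).S.map (tl hm), S_ne.2 (line_ne (tl_one hm)),
    (h3 _ _ (tl hm) z hz hz').trans ((h2 _ _ hz').2 ⟨fromLine w hw, line_ext ?_⟩)⟩
  exact ((congrArg (Z.d (-n - 1) (-n)).1 (fromLine_one w hw)).trans e).trans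
    (congrArg z.1 (tl_one hm)).symm

theorem nonzero_of_nonZ (E : FC M) (h : E.NonZ) :
    ∃ (γ : G) (n : ℤ) (a : ((genK M).L γ)⟦n⟧ ⟶ (filA M).Q.obj (ofFC E)), a ≠ 0 := by
  obtain ⟨m, γ, z, hz, hd, hn⟩ := h
  obtain ⟨cls, -, h2, -⟩ := ACat.hom_from_S (ofFC E) (-m) m (neg_add_cancel m)
  have e := fromLine_one (X := (ofFC E).X m) z hz
  have hz' : fromLine (X := (ofFC E).X m) z hz ≫ (ofFC E).d m (m + 1) = 0 :=
    line_ext (((congrArg ((ofFC E).d m (m + 1)).1 e).trans (ofFC_d E rfl z)).trans hd)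
  refine ⟨γ, -m, cls (line M γ) _ hz', fun h0 => ?_⟩
  obtain ⟨y, hy⟩ := (h2 _ _ hz').1 h0
  exact hn _ (map_mem y (one_mem_line γ))
    ((ofFC_d E (sub_add_cancel m 1) _).symm.trans ((congrArg (ev1 γ _) hy).trans e))

theorem tl_whisker {ψ : G} (h : ψ ∈ M) (hm : ψ - 0 ∈ M) (X : Fil M) :
    tl hm ▷ X ≫ (λ_ X).hom = (lineTens ψ X).hom ≫ twι h X := by
  refine hom_ext ?_
  have : (tl hm).1 = 𝟙 (𝟙_ (ModuleCat.{0} k2)) :=
    ModuleCat.hom_ext (LinearMap.ext_ring (tl_one hm))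
  rw [comp_val, whiskerRight_val, this]
  change 𝟙 (𝟙_ (ModuleCat.{0} k2)) ▷ X.V ≫ (λ_ X.V).hom ≫ 𝟙 X.V = (λ_ X.V).hom ≫ 𝟙 X.V
  rw [id_whiskerRight, Category.id_comp]

/-- degreewise tensor product with a line -/
def dwIso (ψ : G) (Z : (filA M).Cx) : (ACat.dw (𝒜 := filA M) (line M ψ)).obj Z ≅ twC ψ Z :=
  HomologicalComplex.Hom.isoOfComponents (fun n => lineTens ψ (Z.X n)) fun i j _ => hom_ext (by
    change (λ_ (Z.X i).V).hom ≫ (Z.d i j).1 = (line M ψ ◁ Z.d i j).1 ≫ (λ_ (Z.X j).V).hom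
    rw [whiskerLeft_val]
    exact (leftUnitor_naturality _).symm)

theorem sq_of {𝒜 : ACat} (Z W : 𝒜.Cx) {X : 𝒜.A} (t : X ⟶ 𝟙_ 𝒜.A) (e' : (ACat.dw X).obj Z ≅ W)
    (i : W ⟶ Z) (h : ∀ n, t ▷ Z.X n ≫ (λ_ (Z.X n)).hom = e'.hom.f n ≫ i.f n) {c : 𝒜.K}
    {u : 𝟙_ 𝒜.K ⟶ c} {w : c ⟶ (𝒜.S.obj X)⟦(1 : ℤ)⟧}
    (hD : Triangle.mk (𝒜.S.map t) u w ∈ distTriang 𝒜.K) :
    Nonempty (c ⊗ 𝒜.Q.obj Z ≅ 𝒜.Q.obj (CochainComplex.mappingCone i)) := by
  obtain ⟨k, hk⟩ := TTCat.tensR_dist (𝒯 := 𝒜.KTT) (𝒜.Q.obj Z) _ hD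
  obtain ⟨e, he, he'⟩ := ACat.sg_tensor Z
  have hsq : 𝒜.sg.map t ▷ Z ≫ (λ_ Z).hom = (e X ≪≫ e').hom ≫ i := by
    ext n
    simp only [HomologicalComplex.comp_f, Iso.trans_hom, Category.assoc]
    rw [← he', ← h, ← Category.assoc, ← Category.assoc, ← he]
  refine ⟨Triangle.π₃.mapIso (isoTriangleOfIso₁₂ _ _ hk
    (HomotopyCategory.mappingCone_triangleh_distinguished i)
    (𝒜.Q.mapIso (e X ≪≫ e')) (𝒜.Q.mapIso (λ_ Z)) ?_)⟩
  exact (𝒜.Q.map_comp _ _).symm.trans ((congrArg 𝒜.Q.map hsq).trans (𝒜.Q.map_comp _ _))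

theorem cone_tensor {ψ : G} (h : ψ ∈ M) {c : (filA M).K} (hc : (genK M).IsCone ψ c)
    (Z : (filA M).Cx) : Nonempty (c ⊗ (filA M).Q.obj Z ≅ (filA M).Q.obj (Cn h Z)) := by
  obtain ⟨τ, u, w, hτ, hD⟩ := hc
  have hm : ψ - 0 ∈ M := by simpa using h
  obtain rfl : τ = (filA M).S.map (tl hm) :=
    (genK M).uniq ψ 0 _ _ hτ (S_ne.2 (line_ne (tl_one hm)))
  exact sq_of Z (twC ψ Z) (tl hm) (dwIso ψ Z) (twCι h Z) (fun n => tl_whisker h hm (Z.X n)) hD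

end Fil

end Pool.Agent.Lib.MP_ded707_al
end
end

-- part Pool.Agent.Lib.MP_ded707_al.SubDefs
section

/-!
The full subcategory on a localizing subcategory closed under the tensor product.
-/

set_option autoImplicit false
set_option backward.isDefEq.respectTransparency false
set_option backward.defeqAttrib.useBackward true

open CategoryTheory Limits Pretriangulated MonoidalCategory ZeroObject

noncomputable section

namespace Pool.Agent.Lib.MP_ded707_al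

namespace TTCat

variable {𝒦 : TTCat} {G : Type} [AddCommGroup G] {M : AddSubmonoid G} (Γ : Gen 𝒦 M)

namespace Gen

/-- the localizing subcategory generated by the family, as an object property -/
def LP : ObjectProperty 𝒦.T := fun x => LocSub (Set.range Γ.L) x

instance : Γ.LP.IsClosedUnderIsomorphisms where
  of_iso e h := LocSub.iso _ _ e h

instance : Γ.LP.IsTriangulated where
  exists_zero := ⟨0, isZero_zero _, LocSub.zero _ (isZero_zero _)⟩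
  isStableUnderShiftBy n := ⟨fun x hx => LocSub.shift x n hx⟩
  toIsTriangulatedClosed₂ := .mk' fun D hD h₁ h₃ => LocSub.ext D hD h₁ h₃

theorem LP_tensor {x y : 𝒦.T} (hx : Γ.LP x) (hy : Γ.LP y) : Γ.LP (x ⊗ y) := by
  refine LocSub.tensR y ?_ hx
  rintro _ ⟨α, rfl⟩
  refine LocSub.tensL _ ?_ hy
  rintro _ ⟨β, rfl⟩
  exact .iso _ _ (Γ.mu α β).some.symm (.of _ ⟨_, rfl⟩)

instance : Γ.LP.IsMonoidal where
  prop_unit := LocSub.iso _ _ Γ.eta.some (.of _ ⟨_, rfl⟩)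
  prop_tensor _ _ := Γ.LP_tensor

instance (J : Type) : Γ.LP.IsClosedUnderColimitsOfShape (Discrete J) where
  colimitsOfShape_le := by
    rintro x ⟨h⟩
    exact LocSub.iso _ _ ((colimit.isoColimitCocone ⟨_, h.isColimit⟩).symm ≪≫
      HasColimit.isoOfNatIso Discrete.natIsoFunctor).symm
      (LocSub.coprod J _ fun j => h.prop_diag_obj _)

/-- the subcategory -/
abbrev Sub := Γ.LP.FullSubcategory

instance : HasCoproducts.{0} Γ.Sub := fun _ => inferInstance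

instance (J : Type) : PreservesColimitsOfShape (Discrete J) Γ.LP.ι := inferInstance

/-- the inclusion commutes with `X ⊗ -` -/
def tensorι (X : Γ.Sub) : tensorLeft X ⋙ Γ.LP.ι ≅ Γ.LP.ι ⋙ tensorLeft X.obj := Iso.refl _

instance subShift (X : Γ.Sub) : (tensorLeft X).CommShift ℤ :=
  Functor.CommShift.ofComp (Γ.tensorι X) ℤ

instance (X : Γ.Sub) : NatTrans.CommShift (Γ.tensorι X).hom ℤ :=
  Functor.CommShift.ofComp_compatibility _ _

instance (X : Γ.Sub) : (tensorLeft X).IsTriangulated := by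
  rw [Functor.isTriangulated_iff_comp_right (Γ.tensorι X)]
  infer_instance

instance (X : Γ.Sub) (J : Type) : PreservesColimitsOfShape (Discrete J) (tensorLeft X) := by
  have : PreservesColimitsOfShape (Discrete J) (tensorLeft X ⋙ Γ.LP.ι) :=
    preservesColimitsOfShape_of_natIso (Γ.tensorι X).symm
  exact preservesColimitsOfShape_of_reflects_of_preserves _ Γ.LP.ι

/-- the localizing subcategory as a tt-category -/
abbrev subTT : TTCat where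
  T := Γ.Sub

end Gen

end TTCat

end Pool.Agent.Lib.MP_ded707_al
end
end
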