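import Pool.Agent.Lib.MP_ded707_al.Idem
import Pool.Agent.Lib.MP_ded707_al.SubDefs
import Pool.Agent.Lib.MP_ded707_al.Geo

-- part Pool.Agent.Lib.MP_ded707_al.Nil
section

/-!
The nilpotence dichotomy.
-/

set_option autoImplicit false
set_option backward.isDefEq.respectTransparency false
set_option backward.defeqAttrib.useBackward true

open CategoryTheory Limits Pretriangulated MonoidalCategory ZeroObject

noncomputable section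

namespace Pool.Agent.Lib.MP_ded707_al

namespace TTCat

variable {𝒯 : TTCat}

namespace Nil

/-! ### linear algebra over the field with two elements -/

theorem lin_alt {κ ν : Type} [Fintype κ] [Fintype ν] (U : κ → ZMod 2) (R : ν → κ → ZMod 2) :
    (∃ h : ν → ZMod 2, ∀ k, U k = ∑ l, R l k * h l) ∨
      ∃ v : κ → ZMod 2, (∀ l, ∑ k, v k * R l k = 0) ∧ ∑ k, v k * U k ≠ 0 := by
  classical
  by_cases hv : ∃ v : κ → ZMod 2, (∀ l, ∑ k, v k * R l k = 0) ∧ ∑ k, v k * U k ≠ 0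
  · exact Or.inr hv
  left
  push Not at hv
  let F : (κ → ZMod 2) → ((κ → ZMod 2) →ₗ[ZMod 2] ZMod 2) := fun w =>
    { toFun := fun v => ∑ k, v k * w k
      map_add' := fun a b => by simp [add_mul, Finset.sum_add_distrib]
      map_smul' := fun c a => by simp [Finset.mul_sum, mul_assoc] }
  have h1 : F U ∈ Submodule.span (ZMod 2) (Set.range fun l => F (R l)) := by
    refine mem_span_of_iInf_ker_le_ker fun v hv' => ?_
    exact hv v fun l => (Submodule.mem_iInf _).1 hv' l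
  obtain ⟨c, hc⟩ := (Submodule.mem_span_range_iff_exists_fun _).1 h1
  refine ⟨c, fun k => ?_⟩
  have h2 := LinearMap.congr_fun hc (Pi.single k 1)
  simp only [LinearMap.coe_sum, Finset.sum_apply, LinearMap.smul_apply, smul_eq_mul, F,
    LinearMap.coe_mk, AddHom.coe_mk, Pi.single_apply, ite_mul, one_mul, zero_mul,
    Finset.sum_ite_eq', Finset.mem_univ, if_true] at h2
  rw [← h2]
  exact Finset.sum_congr rfl fun l _ => mul_comm _ _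

/-! ### maps with cone in an ideal -/

/-- the cone of `g` lies in `J` -/
def W (J : Set 𝒯.T) {a b : 𝒯.T} (g : a ⟶ b) : Prop :=
  ∃ (c : 𝒯.T) (u : b ⟶ c) (w : c ⟶ a⟦(1 : ℤ)⟧), Triangle.mk g u w ∈ distTriang 𝒯.T ∧ c ∈ J

variable {J : Set 𝒯.T}

theorem W.comp (hJ : IsThickIdeal J) {a b c : 𝒯.T} {f : a ⟶ b} {g : b ⟶ c} (hf : W J f)
    (hg : W J g) : W J (f ≫ g) := by
  obtain ⟨z₁, u₁, w₁, h₁, m₁⟩ := hf
  obtain ⟨z₂, u₂, w₂, h₂, m₂⟩ := hg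
  obtain ⟨z₃, u₃, w₃, h₃⟩ := distinguished_cocone_triangle (f ≫ g)
  exact ⟨z₃, u₃, w₃, h₃, hJ.ext _ (Triangulated.someOctahedron rfl h₁ h₂ h₃).mem m₁ m₂⟩

theorem W.of_iso (hJ : IsThickIdeal J) {a b : 𝒯.T} (f : a ⟶ b) [IsIso f] : W J f := by
  obtain ⟨z, u, w, h⟩ := distinguished_cocone_triangle f
  exact ⟨z, u, w, h, hJ.zero _ ((Triangle.isZero₃_iff_isIso₁ _ h).2 ‹_›)⟩

theorem W.whiskerRight (hJ : IsThickIdeal J) {a b : 𝒯.T} {f : a ⟶ b} (hf : W J f) {z : 𝒯.T}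
    (hz : Compact z) : W J (f ▷ z) := by
  obtain ⟨c, u, w, h, m⟩ := hf
  obtain ⟨w', h'⟩ := tensR_dist z _ h
  exact ⟨_, _, w', h', hJ.tensorR m hz⟩

theorem W.whiskerLeft (hJ : IsThickIdeal J) {a b : 𝒯.T} {f : a ⟶ b} (hf : W J f) {z : 𝒯.T}
    (hz : Compact z) : W J (z ◁ f) := by
  obtain ⟨c, u, w, h, m⟩ := hf
  obtain ⟨w', h'⟩ := tensL_dist z _ h
  exact ⟨_, _, w', h', hJ.tensor _ _ hz m⟩

theorem W.mem_of_zero (hJ : IsThickIdeal J) {a b : 𝒯.T} {f : a ⟶ b} (hf : W J f) (h0 : f = 0) :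
    b ∈ J := by
  obtain ⟨c, u, w, h, m⟩ := hf
  obtain ⟨r, hr⟩ := Triangle.yoneda_exact₂ _ h (𝟙 b) (by
    change f ≫ 𝟙 b = 0
    rw [h0, zero_comp])
  exact hJ.retract b c ⟨u, r, hr.symm⟩ m

theorem mem_of_inv (hJ : IsThickIdeal J) (hu : Compact (𝟙_ 𝒯.T)) {z K : 𝒯.T} (hz : Inv z)
    (h : z ⊗ K ∈ J) : K ∈ J := by
  obtain ⟨z', ⟨e⟩⟩ := hz
  have hz' : Inv z' := ⟨z, ⟨β_ _ _ ≪≫ e⟩⟩
  have hc : Compact z' := (hz'.compact_tens hu).of_iso (λ_ z')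
  exact hJ.iso ((α_ _ _ _).symm ≪≫ whiskerRightIso (β_ z' z ≪≫ e) K ≪≫ λ_ K) (hJ.tensor _ _ hc h)

/-! ### factorizations after tensoring with `k` -/

/-- `g ▷ k` factors as `π ▷ k ≫ w ≫ ι ▷ k` -/
def Fac (k : 𝒯.T) {a b a' b' : 𝒯.T} (g : a ⟶ b) (π : a ⟶ a') (ι : b' ⟶ b) : Prop :=
  ∃ w : a' ⊗ k ⟶ b' ⊗ k, g ▷ k = π ▷ k ≫ w ≫ ι ▷ k

/-- exchange of the last two factors -/
def sw (a z k : 𝒯.T) : (a ⊗ z) ⊗ k ≅ (a ⊗ k) ⊗ z :=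
  α_ _ _ _ ≪≫ whiskerLeftIso a (β_ z k) ≪≫ (α_ _ _ _).symm

@[reassoc]
theorem sw_nat₁ {a b : 𝒯.T} (f : a ⟶ b) (z k : 𝒯.T) :
    f ▷ z ▷ k ≫ (sw b z k).hom = (sw a z k).hom ≫ f ▷ k ▷ z := by
  simp only [sw, Iso.trans_hom, whiskerLeftIso_hom, Iso.symm_hom, Category.assoc]
  rw [associator_naturality_left_assoc, ← whisker_exchange_assoc, associator_inv_naturality_left]

@[reassoc]
theorem sw_nat₂ (a : 𝒯.T) {z z' : 𝒯.T} (h : z ⟶ z') (k : 𝒯.T) :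
    (a ◁ h) ▷ k ≫ (sw a z' k).hom = (sw a z k).hom ≫ (a ⊗ k) ◁ h := by
  simp only [sw, Iso.trans_hom, whiskerLeftIso_hom, Iso.symm_hom, Category.assoc]
  rw [associator_naturality_middle_assoc, ← MonoidalCategory.whiskerLeft_comp_assoc,
    BraidedCategory.braiding_naturality_left, MonoidalCategory.whiskerLeft_comp_assoc,
    associator_inv_naturality_right]

@[reassoc]
theorem sw_inv_nat₁ {a b : 𝒯.T} (f : a ⟶ b) (z k : 𝒯.T) :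
    f ▷ k ▷ z ≫ (sw b z k).inv = (sw a z k).inv ≫ f ▷ z ▷ k := by
  rw [Iso.comp_inv_eq, Category.assoc, sw_nat₁, Iso.inv_hom_id_assoc]

@[reassoc]
theorem sw_inv_nat₂ (a : 𝒯.T) {z z' : 𝒯.T} (h : z ⟶ z') (k : 𝒯.T) :
    (a ⊗ k) ◁ h ≫ (sw a z' k).inv = (sw a z k).inv ≫ (a ◁ h) ▷ k := by
  rw [Iso.comp_inv_eq, Category.assoc, sw_nat₂, Iso.inv_hom_id_assoc]

theorem Fac.tensor {k a₁ b₁ a₁' b₁' a₂ b₂ a₂' b₂' : 𝒯.T} {g₁ : a₁ ⟶ b₁} {π₁ : a₁ ⟶ a₁'}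
    {ι₁ : b₁' ⟶ b₁} {g₂ : a₂ ⟶ b₂} {π₂ : a₂ ⟶ a₂'} {ι₂ : b₂' ⟶ b₂} (h₁ : Fac k g₁ π₁ ι₁)
    (h₂ : Fac k g₂ π₂ ι₂) : Fac k (g₁ ⊗ₘ g₂) (π₁ ⊗ₘ π₂) (ι₁ ⊗ₘ ι₂) := by
  obtain ⟨w₁, h₁⟩ := h₁
  obtain ⟨w₂, h₂⟩ := h₂
  refine ⟨(sw a₁' a₂' k).hom ≫ w₁ ▷ a₂' ≫ (sw b₁' a₂' k).inv ≫ (α_ _ _ _).hom ≫ b₁' ◁ w₂ ≫
    (α_ _ _ _).inv, ?_⟩
  have e₁ : g₁ ▷ a₂ ▷ k = π₁ ▷ a₂ ▷ k ≫ (sw a₁' a₂ k).hom ≫ w₁ ▷ a₂ ≫ (sw b₁' a₂ k).inv ≫
      ι₁ ▷ a₂ ▷ k := by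
    rw [sw_nat₁_assoc, ← sw_inv_nat₁, ← comp_whiskerRight_assoc, ← comp_whiskerRight_assoc,
      Category.assoc, ← h₁, ← sw_nat₁_assoc, Iso.hom_inv_id, Category.comp_id]
  have e₂ : (b₁ ◁ g₂) ▷ k = (b₁ ◁ π₂) ▷ k ≫ (α_ _ _ _).hom ≫ b₁ ◁ w₂ ≫ (α_ _ _ _).inv ≫
      (b₁ ◁ ι₂) ▷ k := by
    rw [associator_naturality_middle_assoc, ← associator_inv_naturality_middle,
      ← MonoidalCategory.whiskerLeft_comp_assoc, ← MonoidalCategory.whiskerLeft_comp_assoc,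
      Category.assoc, ← h₂, associator_inv_naturality_middle, Iso.hom_inv_id_assoc]
  have e₃ : ι₁ ▷ a₂ ▷ k ≫ (b₁ ◁ π₂) ▷ k = (b₁' ◁ π₂) ▷ k ≫ ι₁ ▷ a₂' ▷ k := by
    rw [← comp_whiskerRight, ← comp_whiskerRight, whisker_exchange]
  simp only [MonoidalCategory.tensorHom_def, comp_whiskerRight, Category.assoc]
  rw [e₁, e₂]
  simp only [Category.assoc]
  rw [reassoc_of% e₃, sw_nat₂_assoc, whisker_exchange_assoc, sw_inv_nat₂_assoc,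
    associator_naturality_left_assoc, ← whisker_exchange_assoc,
    associator_inv_naturality_left_assoc]

/-- tensor powers of an object -/
def tp (a : 𝒯.T) : ℕ → 𝒯.T
  | 0 => 𝟙_ 𝒯.T
  | n + 1 => tp a n ⊗ a

/-- tensor powers of a map -/
def tpm {a b : 𝒯.T} (g : a ⟶ b) : ∀ n : ℕ, tp a n ⟶ tp b n
  | 0 => 𝟙 _
  | n + 1 => tpm g n ⊗ₘ g

theorem Fac.pow {k a b a' b' : 𝒯.T} {g : a ⟶ b} {π : a ⟶ a'} {ι : b' ⟶ b} (h : Fac k g π ι)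
    (n : ℕ) : Fac k (tpm g n) (tpm π n) (tpm ι n) := by
  induction n with
  | zero => exact ⟨𝟙 _, by simp [tpm]⟩
  | succ n ih => exact ih.tensor h

theorem compact_tp (h : 𝒯.IsRCG) {a : 𝒯.T} (ha : Compact a) (n : ℕ) : Compact (tp a n) := by
  induction n with
  | zero => exact h.compact_unit
  | succ n ih => exact h.compact_tensor ih ha

theorem inv_tp {a : 𝒯.T} (ha : Inv a) (n : ℕ) : Inv (tp a n) := by
  induction n with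
  | zero => exact inv_unit
  | succ n ih => exact ih.tensor ha

theorem W.pow (h : 𝒯.IsRCG) (hJ : IsThickIdeal J) {a b : 𝒯.T} (ha : Compact a) (hb : Compact b)
    {g : a ⟶ b} (hg : W J g) (n : ℕ) : W J (tpm g n) := by
  induction n with
  | zero => exact W.of_iso hJ (𝟙 _)
  | succ n ih =>
    change W J (tpm g n ⊗ₘ g)
    rw [MonoidalCategory.tensorHom_def]
    exact (ih.whiskerRight hJ ha).comp hJ (hg.whiskerLeft hJ (compact_tp h hb n))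

section Rho

variable {G : Type} [AddCommGroup G] {M : AddSubmonoid G} {Γ : Gen 𝒯 M}

theorem cell_L (γ : G) : Γ.Cell {0} (Γ.L γ) :=
  .gen _ γ 0 rfl ((shiftFunctorZero 𝒯.T ℤ).app _).symm

theorem cell_tp (I : ℕ → Set ℤ) {I₁ : Set ℤ} (h0 : (0 : ℤ) ∈ I 0)
    (hs : ∀ n, ∀ i ∈ I n, ∀ j ∈ I₁, i + j ∈ I (n + 1)) {a : 𝒯.T} (ha : Γ.Cell I₁ a) (n : ℕ) :
    Γ.Cell (I n) (tp a n) := by
  induction n with
  | zero => exact ((cell_L 0).of_iso Γ.eta.some).mono (by simpa using h0)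
  | succ n ih => exact Gen.Cell.tensor (hs n) ih ha

variable (Φ : AddSubmonoid G)

open Classical in
/-- reduction of a map between generators modulo the complement of the face -/
def rho {α β : G} (t : Γ.L α ⟶ Γ.L β) : ZMod 2 := if t ≠ 0 ∧ α - β ∈ Φ then 1 else 0

theorem rho_zero {α β : G} : rho Φ (0 : Γ.L α ⟶ Γ.L β) = 0 := by simp [rho]

theorem rho_add {α β : G} (t t' : Γ.L α ⟶ Γ.L β) : rho Φ (t + t') = rho Φ t + rho Φ t' := by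
  by_cases ht : t = 0
  · rw [ht, zero_add, rho_zero, zero_add]
  by_cases ht' : t' = 0
  · rw [ht', add_zero, rho_zero, add_zero]
  obtain rfl := Γ.uniq _ _ t t' ht ht'
  rw [Γ.add_self, rho_zero]
  generalize rho Φ t = r
  revert r
  decide

theorem rho_sub {α β : G} (t t' : Γ.L α ⟶ Γ.L β) : rho Φ (t - t') = rho Φ t - rho Φ t' := by
  rw [eq_sub_iff_add_eq, ← rho_add, sub_add_cancel]

theorem rho_sum {α β : G} {ι : Type} (s : Finset ι) (t : ι → (Γ.L α ⟶ Γ.L β)) :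
    rho Φ (∑ k ∈ s, t k) = ∑ k ∈ s, rho Φ (t k) := by
  classical
  induction s using Finset.induction_on with
  | empty => simp [rho_zero]
  | insert a s ha ih => rw [Finset.sum_insert ha, Finset.sum_insert ha, rho_add, ih]

variable {Φ}

theorem rho_ne {α β : G} {t : Γ.L α ⟶ Γ.L β} (h : rho Φ t ≠ 0) : t ≠ 0 ∧ α - β ∈ Φ := by
  by_contra h'
  exact h (if_neg h')

theorem rho_comp (hΦ : IsFace M Φ) {α β γ : G} (t : Γ.L α ⟶ Γ.L β) (t' : Γ.L β ⟶ Γ.L γ) :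
    rho Φ (t ≫ t') = rho Φ t * rho Φ t' := by
  by_cases ht : t = 0
  · rw [ht, zero_comp, rho_zero, rho_zero, zero_mul]
  by_cases ht' : t' = 0
  · rw [ht', comp_zero, rho_zero, rho_zero, mul_zero]
  have h₁ := (Γ.ex_iff _ _).1 ⟨t, ht⟩
  have h₂ := (Γ.ex_iff _ _).1 ⟨t', ht'⟩
  have h₃ := Γ.comp_ne _ _ _ t t' ht ht'
  have h₄ : α - γ ∈ Φ ↔ α - β ∈ Φ ∧ β - γ ∈ Φ := by
    refine ⟨fun h => ⟨hΦ.face _ h₁ _ h₂ ?_, hΦ.face _ h₂ _ h₁ ?_⟩, fun h => ?_⟩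
    · rwa [sub_add_sub_cancel]
    · rwa [add_comm, sub_add_sub_cancel]
    · simpa using Φ.add_mem h.1 h.2
  unfold rho
  by_cases a : α - β ∈ Φ <;> by_cases b : β - γ ∈ Φ <;> simp [a, b, ht, ht', h₃, h₄]

open Classical in
/-- a map with prescribed reduction -/
theorem exists_rho (hΦ : IsFace M Φ) (α β : G) (p : Prop) (hp : p → α - β ∈ Φ) (r : ZMod 2) :
    ∃ t : Γ.L α ⟶ Γ.L β, rho Φ t = if p then r else 0 := by
  by_cases h : p ∧ r ≠ 0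
  · obtain ⟨t, ht⟩ := (Γ.ex_iff α β).2 (hΦ.le (hp h.1))
    refine ⟨t, ?_⟩
    have hr : r = 1 := (by decide : ∀ r : ZMod 2, r ≠ 0 → r = 1) r h.2
    rw [if_pos h.1, hr]
    exact if_pos ⟨ht, hp h.1⟩
  · refine ⟨0, ?_⟩
    rw [rho_zero]
    by_cases h' : p
    · rw [if_pos h']
      by_contra h''
      exact h ⟨h', fun h0 => h'' h0.symm⟩
    · rw [if_neg h']

theorem kill_of_rho {ι : Type} [Fintype ι] (a b : ι → G) (t : ∀ k, Γ.L (a k) ⟶ Γ.L (b k))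
    (h : ∀ k, rho Φ (t k) = 0) :
    ∃ K : 𝒯.T, Γ.Kos {ψ | ψ ∉ Φ} K ∧ ∀ k, t k ▷ K = 0 := by
  classical
  obtain ⟨K, hK, hK'⟩ := Gen.exists_kos (Γ := Γ) {ψ | ψ ∉ Φ}
    ((Finset.univ.image fun k => a k - b k).filter fun ψ => ψ ∉ Φ ∧ ψ ∈ M)
    (fun ψ hψ => (Finset.mem_filter.1 hψ).2)
  refine ⟨K, hK, fun k => ?_⟩
  by_cases ht : t k = 0
  · rw [ht, MonoidalPreadditive.zero_whiskerRight]
  refine hK' _ _ _ (Finset.mem_filter.2 ⟨Finset.mem_image.2 ⟨k, Finset.mem_univ _, rfl⟩, ?_,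
    (Γ.ex_iff _ _).1 ⟨t k, ht⟩⟩)
  intro hm
  have := h k
  rw [rho, if_pos ⟨ht, hm⟩] at this
  exact one_ne_zero this

theorem W_of_rho (hJ : IsThickIdeal J) (hc : ∀ φ ∈ Φ, ∀ c, Γ.IsCone φ c → c ∈ J) {α β : G}
    {t : Γ.L α ⟶ Γ.L β} (h : rho Φ t ≠ 0) : W J t := by
  obtain ⟨z, u, w, hD⟩ := distinguished_cocone_triangle t
  exact ⟨z, u, w, hD, Gen.cone_mem hJ (hc _ (rho_ne h).2) _ hD (Iso.refl _) (Iso.refl _)
    (rho_ne h).1⟩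

end Rho

end Nil

open Nil in
theorem Gen.dichotomy {G : Type} [AddCommGroup G] {M : AddSubmonoid G} (Γ : Gen 𝒯 M)
    (hgen : Generates Γ.L) {Φ : AddSubmonoid G} (hΦ : IsFace M Φ) {x : 𝒯.T} (hx : Compact x) :
    ∃ K : 𝒯.T, Γ.Kos {ψ | ψ ∉ Φ} K ∧
      ((∀ J : Set 𝒯.T, IsThickIdeal J → (∀ φ ∈ Φ, ∀ c, Γ.IsCone φ c → c ∈ J) → x ⊗ K ∈ J) ∨
       (∀ J : Set 𝒯.T, IsThickIdeal J → (∀ φ ∈ Φ, ∀ c, Γ.IsCone φ c → c ∈ J) → x ∈ J → K ∈ J)) := by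
  classical
  have h𝒯 : 𝒯.IsRCG := isRCG_of_gen Γ.L Γ.cpt Γ.inv Γ.compact_unit hgen
  obtain ⟨y, hy, ⟨pr⟩⟩ := h𝒯.exists_dual hx
  obtain ⟨V₀, f, f₃, hf⟩ := distinguished_cocone_triangle₁ (η_ x y)
  have hV₀ : Compact V₀ := Compact.ext₁ _ hf h𝒯.compact_unit (h𝒯.compact_tensor hx hy)
  have hfx : f ▷ x = 0 := by
    have h1 : f ≫ η_ x y = 0 := comp_distTriang_mor_zero₁₂ _ hf
    have h2 : f ▷ x ≫ η_ x y ▷ x ≫ (α_ _ _ _).hom ≫ x ◁ ε_ x y = 0 := by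
      rw [← comp_whiskerRight_assoc, h1, MonoidalPreadditive.zero_whiskerRight, zero_comp]
    rw [ExactPairing.evaluation_coevaluation] at h2
    rw [← cancel_mono ((λ_ x).hom ≫ (ρ_ x).inv), h2, zero_comp]
  obtain ⟨C, hC, ⟨rt⟩⟩ := Γ.retract_cell hgen hV₀
  obtain ⟨e⟩ := Γ.eta
  obtain ⟨C₀, Cp, a, b, c₃, hab, hC₀, hCp⟩ := hC.decomp 0
  obtain ⟨Cm, F, a', q, d, hqd, hCm, hF⟩ := hC₀.decomp (-1)
  have hD : Γ.Cell (Set.Iic 0) (Cm⟦(1 : ℤ)⟧) := hCm.shift 1 (by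
    rintro n ⟨-, hn⟩
    simp only [Set.mem_Iic] at hn ⊢
    omega)
  obtain ⟨Dm, F', ι, q', d', hιq, hDm, hF'⟩ := hD.decomp (-1)
  have hF0 : Γ.Cell {0} F := hF.mono (by
    rintro n ⟨⟨-, h1⟩, h2⟩
    simp only [Set.mem_Iic, Set.mem_Ioi, Set.mem_singleton_iff] at h1 h2 ⊢
    omega)
  have hF0' : Γ.Cell {0} F' := hF'.mono (by
    rintro n ⟨h1, h2⟩
    simp only [Set.mem_Iic, Set.mem_Ioi, Set.mem_singleton_iff] at h1 h2 ⊢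
    omega)
  obtain ⟨f', hf'⟩ : ∃ f' : C ⟶ Γ.L 0, f' = rt.r ≫ f ≫ e.inv := ⟨_, rfl⟩
  have hf'x : f' ▷ x = 0 := by
    rw [hf', comp_whiskerRight, comp_whiskerRight, hfx, zero_comp, comp_zero]
  obtain ⟨u, hu⟩ : ∃ u : F ⟶ Γ.L 0, a ≫ f' = q ≫ u :=
    Triangle.yoneda_exact₂ _ hqd (a ≫ f') (Gen.Cell.orth (by
      rw [Set.disjoint_singleton_right]
      rintro ⟨-, h⟩
      simp at h) hCm (cell_L 0) _)
  have hqd0 : q ≫ d = 0 := comp_distTriang_mor_zero₂₃ _ hqd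
  obtain ⟨κ, _, α, i, p, hip⟩ := hF0.free
  obtain ⟨ν, _, β, i', p', hip'⟩ := hF0'.free
  let Z : G → Prop := fun γ => ∃ φ ∈ Φ, γ + φ ∈ Φ
  have hch : ∀ γ : G, ∃ φ ∈ Φ, Z γ → γ + φ ∈ Φ := by
    intro γ
    by_cases h : Z γ
    · obtain ⟨φ, h1, h2⟩ := h
      exact ⟨φ, h1, fun _ => h2⟩
    · exact ⟨0, Φ.zero_mem, fun h' => (h h').elim⟩
  choose ph hph hph' using hch
  rcases lin_alt (fun k => if Z (α k) then rho Φ (i k ≫ u) else 0)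
    (fun l k => if Z (α k) then rho Φ (i k ≫ d ≫ q' ≫ p' l) else 0) with ⟨h, hh⟩ | ⟨v, hv, hv'⟩
  · -- case (B)
    obtain ⟨φ, hφ, hφ'⟩ : ∃ φ ∈ Φ, ∀ l, Z (β l) → β l - -φ ∈ Φ := by
      refine ⟨∑ l, ph (β l), Φ.sum_mem fun l _ => hph _, fun l hl => ?_⟩
      rw [sub_neg_eq_add, ← Finset.add_sum_erase _ _ (Finset.mem_univ l), ← add_assoc]
      exact Φ.add_mem (hph' _ hl) (Φ.sum_mem fun l _ => hph _)
    obtain ⟨t₀, ht₀⟩ := exists_rho (Γ := Γ) hΦ 0 (-φ) True (fun _ => by simpa using hφ) 1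
    rw [if_pos trivial] at ht₀
    choose t ht using fun l => exists_rho (Γ := Γ) hΦ (β l) (-φ) (Z (β l)) (hφ' l) (h l)
    obtain ⟨K, hK, hK'⟩ := kill_of_rho (Φ := Φ) α (fun _ => -φ)
      (fun k => i k ≫ (u ≫ t₀ - d ≫ q' ≫ ∑ l, p' l ≫ t l)) (by
        intro k
        by_cases hk : Z (α k)
        · have h1 : i k ≫ (u ≫ t₀ - d ≫ q' ≫ ∑ l, p' l ≫ t l) =
              (i k ≫ u) ≫ t₀ - ∑ l, (i k ≫ d ≫ q' ≫ p' l) ≫ t l := by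
            simp only [Preadditive.comp_sub, Preadditive.comp_sum, Category.assoc]
          have h2 := hh k
          simp only [if_pos hk] at h2
          rw [h1, rho_sub, rho_sum, rho_comp hΦ, ht₀, mul_one, h2, sub_eq_zero]
          refine Finset.sum_congr rfl fun l _ => ?_
          rw [rho_comp hΦ _ (t l), ht]
          by_cases hl : Z (β l)
          · rw [if_pos hl]
          · rw [if_neg hl, mul_zero]
            by_contra h3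
            obtain ⟨ψ, h4, h5⟩ := hk
            refine hl ⟨α k - β l + ψ, Φ.add_mem (rho_ne (left_ne_zero_of_mul h3)).2 h4, ?_⟩
            rwa [← add_assoc, add_sub_cancel]
        · by_contra h3
          exact hk ⟨φ, hφ, by simpa using (rho_ne h3).2⟩)
    have h1 : (u ≫ t₀ - d ≫ q' ≫ ∑ l, p' l ≫ t l) ▷ K = 0 := by
      rw [← Category.id_comp (u ≫ t₀ - _), ← hip, Preadditive.sum_comp, sum_whiskerRight]
      refine Finset.sum_eq_zero fun k _ => ?_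
      rw [Category.assoc, comp_whiskerRight, hK', comp_zero]
    have h2 : a ▷ K ≫ (f' ≫ t₀) ▷ K = 0 := by
      have h3 : a ≫ f' ≫ t₀ = q ≫ (u ≫ t₀ - d ≫ q' ≫ ∑ l, p' l ≫ t l) := by
        rw [Preadditive.comp_sub, reassoc_of% hqd0, zero_comp, sub_zero, reassoc_of% hu]
      rw [← comp_whiskerRight, h3, comp_whiskerRight, h1, comp_zero]
    obtain ⟨c₃', hab'⟩ := tensR_dist K _ hab
    obtain ⟨w, hw⟩ : ∃ w : Cp ⊗ K ⟶ Γ.L (-φ) ⊗ K, (f' ≫ t₀) ▷ K = b ▷ K ≫ w :=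
      Triangle.yoneda_exact₂ _ hab' _ h2
    have hfac : Fac K (f ≫ e.inv ≫ t₀) (rt.i ≫ b) (𝟙 _) := by
      refine ⟨w, ?_⟩
      have h3 : f ≫ e.inv ≫ t₀ = rt.i ≫ f' ≫ t₀ := by
        rw [hf', Category.assoc, rt.retract_assoc, Category.assoc]
      rw [h3, comp_whiskerRight, hw, comp_whiskerRight, id_whiskerRight, Category.comp_id,
        Category.assoc]
    obtain ⟨m, hm⟩ := hK.cell
    obtain ⟨wn, hwn⟩ := hfac.pow (m + 1)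
    have hwn0 : wn = 0 := by
      have c1 := cell_tp (fun n => Set.Ici (n : ℤ)) (by simp) (by
        rintro n i hi j ⟨-, hj⟩
        simp only [Set.mem_Ici, Set.mem_Ioi] at hi hj ⊢
        push_cast
        omega) hCp (m + 1)
      have c2 := cell_tp (fun _ => {0}) rfl (by
        rintro n i rfl j rfl
        rfl) (cell_L (Γ := Γ) (-φ)) (m + 1)
      refine Gen.Cell.orth (I := Set.Ioi (m : ℤ)) (J := Set.Iic (m : ℤ)) ?_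
        (Gen.Cell.tensor ?_ c1 hm) (Gen.Cell.tensor ?_ c2 hm) wn
      · exact (Set.Iic_disjoint_Ioi le_rfl).symm
      · rintro i hi j ⟨hj, -⟩
        simp only [Set.mem_Ici, Set.mem_Ioi] at hi ⊢
        push_cast at hi
        omega
      · rintro i rfl j ⟨-, hj⟩
        simpa using hj
    refine ⟨K, hK, Or.inr fun J hJ hc hxJ => ?_⟩
    have w1 : W J (f ≫ e.inv ≫ t₀) :=
      W.comp hJ ⟨_, _, _, hf, hJ.tensorR hxJ hy⟩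
        ((W.of_iso hJ _).comp hJ (W_of_rho hJ hc (by rw [ht₀]; exact one_ne_zero)))
    have w2 := (w1.pow h𝒯 hJ hV₀ (Γ.cpt _) (m + 1)).whiskerRight hJ (hK.compact h𝒯)
    refine mem_of_inv hJ h𝒯.compact_unit (inv_tp (Γ.inv (-φ)) (m + 1)) (w2.mem_of_zero hJ ?_)
    rw [hwn, hwn0, zero_comp, comp_zero]
  · -- case (A)
    obtain ⟨δ, hδ⟩ : ∃ δ : G, ∀ k, Z (α k) → δ - α k ∈ Φ := by
      refine ⟨∑ k, if Z (α k) then α k + ph (α k) else 0, fun k hk => ?_⟩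
      rw [← Finset.add_sum_erase _ _ (Finset.mem_univ k), if_pos hk, add_assoc,
        add_sub_cancel_left]
      refine Φ.add_mem (hph _) (Φ.sum_mem fun l _ => ?_)
      split_ifs with hl
      · exact hph' _ hl
      · exact Φ.zero_mem
    choose t ht using fun k => exists_rho (Γ := Γ) hΦ δ (α k) (Z (α k)) (hδ k) (v k)
    obtain ⟨V, hV⟩ : ∃ V : Γ.L δ ⟶ F, V = ∑ k, t k ≫ i k := ⟨_, rfl⟩
    have hrho : ∀ (γ : G) (s : F ⟶ Γ.L γ),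
        rho Φ (V ≫ s) = ∑ k, v k * if Z (α k) then rho Φ (i k ≫ s) else 0 := by
      intro γ s
      rw [hV, Preadditive.sum_comp, rho_sum]
      refine Finset.sum_congr rfl fun k _ => ?_
      rw [Category.assoc, rho_comp hΦ, ht]
      split_ifs <;> simp
    obtain ⟨K, hK, hK'⟩ := kill_of_rho (Φ := Φ) (fun _ => δ) β
      (fun l => V ≫ d ≫ q' ≫ p' l) (fun l => (hrho _ _).trans (hv l))
    have h1 : (V ≫ d) ▷ K ≫ q' ▷ K = 0 := by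
      rw [← comp_whiskerRight, ← Category.comp_id ((V ≫ d) ≫ q'), ← hip', Preadditive.comp_sum,
        sum_whiskerRight]
      refine Finset.sum_eq_zero fun l _ => ?_
      have h3 : ((V ≫ d) ≫ q') ≫ p' l ≫ i' l = (V ≫ d ≫ q' ≫ p' l) ≫ i' l := by
        simp only [Category.assoc]
      rw [h3, comp_whiskerRight, hK', zero_comp]
    obtain ⟨c₃', hιq'⟩ := tensR_dist K _ hιq
    obtain ⟨w, hw⟩ : ∃ w : Γ.L δ ⊗ K ⟶ Dm ⊗ K, (V ≫ d) ▷ K = w ≫ ι ▷ K :=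
      Triangle.coyoneda_exact₂ _ hιq' _ h1
    have hfacK : Fac K (V ≫ d) (𝟙 _) ι := ⟨w, by rw [hw, id_whiskerRight, Category.id_comp]⟩
    have h2 : q ▷ x ≫ u ▷ x = 0 := by
      rw [← comp_whiskerRight, ← hu, comp_whiskerRight, hf'x, comp_zero]
    obtain ⟨c₄, hrot⟩ := tensR_dist x _ (rot_of_distTriang _ hqd)
    obtain ⟨b', hb'⟩ : ∃ b' : Cm⟦(1 : ℤ)⟧ ⊗ x ⟶ Γ.L 0 ⊗ x, u ▷ x = d ▷ x ≫ b' :=
      Triangle.yoneda_exact₂ _ hrot _ h2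
    have hfacx : Fac x (V ≫ u) (V ≫ d) (𝟙 _) := ⟨b', by
      rw [comp_whiskerRight, hb', comp_whiskerRight, id_whiskerRight, Category.comp_id,
        Category.assoc]⟩
    obtain ⟨m, hm⟩ := hK.cell
    obtain ⟨wn, hwn⟩ := hfacK.pow (m + 1)
    obtain ⟨bn, hbn⟩ := hfacx.pow (m + 1)
    have hwn0 : wn = 0 := by
      have c1 := cell_tp (fun n => Set.Iic (-(n : ℤ))) (by simp) (by
        rintro n i hi j ⟨-, hj⟩
        simp only [Set.mem_Iic] at hi hj ⊢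
        push_cast
        omega) hDm (m + 1)
      have c2 := cell_tp (fun _ => {0}) rfl (by
        rintro n i rfl j rfl
        rfl) (cell_L (Γ := Γ) δ) (m + 1)
      refine Gen.Cell.orth (I := Set.Ici (0 : ℤ)) (J := Set.Iio (0 : ℤ)) ?_
        (Gen.Cell.tensor ?_ c2 hm) (Gen.Cell.tensor ?_ c1 hm) wn
      · exact (Set.Iio_disjoint_Ici le_rfl).symm
      · rintro i rfl j ⟨hj, -⟩
        simpa using hj
      · rintro i hi j ⟨-, hj⟩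
        simp only [Set.mem_Iic, Set.mem_Iio] at hi ⊢
        push_cast at hi
        omega
    rw [hwn0, zero_comp, comp_zero] at hwn
    have h3 : tpm (V ≫ d) (m + 1) ▷ x ▷ K = 0 := by
      rw [← cancel_mono (sw _ x K).hom, sw_nat₁, hwn, MonoidalPreadditive.zero_whiskerRight,
        comp_zero, zero_comp]
    have h4 : tpm (V ≫ u) (m + 1) ▷ (x ⊗ K) = 0 := by
      rw [← cancel_epi (α_ _ x K).hom, ← associator_naturality_left, hbn, comp_whiskerRight, h3,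
        zero_comp, zero_comp, comp_zero]
    refine ⟨K, hK, Or.inl fun J hJ hc => ?_⟩
    have w1 : W J (V ≫ u) := W_of_rho hJ hc (by rw [hrho]; exact hv')
    have w2 := (w1.pow h𝒯 hJ (Γ.cpt _) (Γ.cpt _) (m + 1)).whiskerRight hJ
      (h𝒯.compact_tensor hx (hK.compact h𝒯))
    exact mem_of_inv hJ h𝒯.compact_unit (inv_tp (Γ.inv 0) (m + 1)) (w2.mem_of_zero hJ h4)

end TTCat

end Pool.Agent.Lib.MP_ded707_al
end
end

-- part Pool.Agent.Lib.MP_ded707_al.AbsMain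
section

/-!
From the generating family and the two hypotheses to the conclusion.
-/

set_option autoImplicit false
set_option backward.isDefEq.respectTransparency false
set_option backward.defeqAttrib.useBackward true

open CategoryTheory Limits Pretriangulated MonoidalCategory ZeroObject

noncomputable section

namespace Pool.Agent.Lib.MP_ded707_al

namespace TTCat

variable {𝒯 : TTCat}

namespace Gen

variable {G : Type} [AddCommGroup G] {M : AddSubmonoid G} (Γ : Gen 𝒯 M)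

/-- the map `a` is killed by a nonzero map of generators with exponent in `Φ` -/
def AmKilled (Φ : AddSubmonoid G) {γ : G} {n : ℤ} {z : 𝒯.T} (a : (Γ.L γ)⟦n⟧ ⟶ z) : Prop :=
  ∃ δ : G, δ - γ ∈ Φ ∧ ∃ t : Γ.L δ ⟶ Γ.L γ, t ≠ 0 ∧ t⟦n⟧' ≫ a = 0

theorem am_tors_iff (Φ : AddSubmonoid G) (z : 𝒯.T) :
    Γ.Tors Φ z ↔ ∀ (γ : G) (n : ℤ) (a : (Γ.L γ)⟦n⟧ ⟶ z), Γ.AmKilled Φ a := by
  refine ⟨fun h γ n a => ?_, fun h γ n a => ?_⟩
  · obtain ⟨φ, hφ, t, ht, h0⟩ := h γ n a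
    exact ⟨γ + φ, by rwa [add_sub_cancel_left], t, ht, h0⟩
  · obtain ⟨δ, hδ, t, ht, h0⟩ := h γ n a
    obtain ⟨φ, rfl⟩ : ∃ φ, δ = γ + φ := ⟨δ - γ, by abel⟩
    exact ⟨φ, by rwa [add_sub_cancel_left] at hδ, t, ht, h0⟩

theorem am_killed_zero (Φ : AddSubmonoid G) {γ : G} {n : ℤ} {z : 𝒯.T} :
    Γ.AmKilled Φ (0 : (Γ.L γ)⟦n⟧ ⟶ z) := by
  obtain ⟨t, ht⟩ := (Γ.ex_iff γ γ).2 (by rw [sub_self]; exact M.zero_mem)
  exact ⟨γ, by rw [sub_self]; exact Φ.zero_mem, t, ht, comp_zero⟩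

variable {Γ} in
theorem AmKilled.comp {Φ : AddSubmonoid G} {γ : G} {n : ℤ} {z z' : 𝒯.T} {a : (Γ.L γ)⟦n⟧ ⟶ z}
    (h : Γ.AmKilled Φ a) (b : z ⟶ z') : Γ.AmKilled Φ (a ≫ b) := by
  obtain ⟨δ, hδ, t, ht, h0⟩ := h
  exact ⟨δ, hδ, t, ht, by rw [← Category.assoc, h0, zero_comp]⟩

variable {Γ} in
theorem AmKilled.add {Φ : AddSubmonoid G} (hΦ : IsFace M Φ) {γ : G} {n : ℤ} {z : 𝒯.T}
    {a b : (Γ.L γ)⟦n⟧ ⟶ z} (ha : Γ.AmKilled Φ a) (hb : Γ.AmKilled Φ b) : Γ.AmKilled Φ (a + b) := by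
  obtain ⟨δ, hδ, t, ht, h0⟩ := ha
  obtain ⟨δ', hδ', t', ht', h0'⟩ := hb
  obtain ⟨s, hs⟩ := (Γ.ex_iff (δ + δ' - γ) δ).2
    (by rw [show δ + δ' - γ - δ = δ' - γ by abel]; exact hΦ.le hδ')
  obtain ⟨s', hs'⟩ := (Γ.ex_iff (δ + δ' - γ) δ').2
    (by rw [show δ + δ' - γ - δ' = δ - γ by abel]; exact hΦ.le hδ)
  have h1 := Γ.comp_ne _ _ _ s t hs ht
  have h2 := Γ.uniq _ _ _ _ h1 (Γ.comp_ne _ _ _ s' t' hs' ht')
  refine ⟨δ + δ' - γ, ?_, s ≫ t, h1, ?_⟩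
  · rw [show δ + δ' - γ - γ = (δ - γ) + (δ' - γ) by abel]
    exact Φ.add_mem hδ hδ'
  · rw [Preadditive.comp_add]
    conv_lhs => enter [2]; rw [h2]
    rw [Functor.map_comp, Functor.map_comp, Category.assoc, Category.assoc, h0, h0', comp_zero,
      comp_zero, add_zero]

theorem am_tors_shift {Φ : AddSubmonoid G} {x : 𝒯.T} (hx : Γ.Tors Φ x) (k : ℤ) :
    Γ.Tors Φ (x⟦k⟧) := by
  intro γ n a
  obtain ⟨b, hb⟩ := (shiftFunctor 𝒯.T k).map_surjective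
    ((shiftFunctorAdd' 𝒯.T (n - k) k n (by ring)).inv.app (Γ.L γ) ≫ a)
  obtain ⟨φ, hφ, t, ht, h0⟩ := hx γ (n - k) b
  refine ⟨φ, hφ, t, ht, ?_⟩
  have h1 : a = (shiftFunctorAdd' 𝒯.T (n - k) k n (by ring)).hom.app (Γ.L γ) ≫ b⟦k⟧' := by
    rw [hb, Iso.hom_inv_id_app_assoc]
  rw [h1, NatTrans.naturality_assoc, Functor.comp_map, ← Functor.map_comp, h0, Functor.map_zero,
    comp_zero]

theorem am_tors_ext {Φ : AddSubmonoid G} (D : Triangle 𝒯.T) (hD : D ∈ distTriang 𝒯.T)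
    (h₁ : Γ.Tors Φ D.obj₁) (h₃ : Γ.Tors Φ D.obj₃) : Γ.Tors Φ D.obj₂ := by
  rw [am_tors_iff] at h₁ h₃ ⊢
  intro γ n a
  obtain ⟨δ, hδ, t, ht, h0⟩ := h₃ γ n (a ≫ D.mor₂)
  obtain ⟨b, hb⟩ := Triangle.coyoneda_exact₂ D hD (t⟦n⟧' ≫ a) (by rw [Category.assoc, h0])
  obtain ⟨δ', hδ', t', ht', h0'⟩ := h₁ δ n b
  refine ⟨δ', ?_, t' ≫ t, Γ.comp_ne _ _ _ _ _ ht' ht, ?_⟩
  · rw [show δ' - γ = (δ' - δ) + (δ - γ) by abel]
    exact Φ.add_mem hδ' hδ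
  · rw [Functor.map_comp, Category.assoc, hb, ← Category.assoc, h0', zero_comp]

theorem am_tors_gen {Φ : AddSubmonoid G} {φ : G} (hφ : φ ∈ Φ) {c : 𝒯.T} (hc : Γ.IsCone φ c)
    (y : 𝒯.T) : Γ.Tors Φ (c ⊗ y) := by
  rw [am_tors_iff]
  intro α n a
  obtain ⟨τ, hτ⟩ := (Γ.tau_iff φ).2 hc.mem
  obtain ⟨i⟩ := Γ.mu φ α
  let j : Γ.L φ ⊗ (Γ.L α)⟦n⟧ ≅ (Γ.L (φ + α))⟦n⟧ :=
    tensShiftIso _ _ n ≪≫ (shiftFunctor _ n).mapIso i
  obtain ⟨t, ht⟩ := (shiftFunctor 𝒯.T n).map_surjective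
    (j.inv ≫ τ ▷ (Γ.L α)⟦n⟧ ≫ (λ_ _).hom)
  refine ⟨φ + α, by rwa [add_sub_cancel_right], t, ?_, ?_⟩
  · rintro rfl
    apply ((Γ.inv α).shift n).whiskerRight_ne hτ
    rw [← cancel_epi j.inv, ← cancel_mono (λ_ _).hom, Category.assoc, ← ht, Functor.map_zero,
      comp_zero, zero_comp]
  · have h0 : τ ▷ (c ⊗ y) = 0 := by
      rw [whiskerRight_tensor, hc.tau_kill τ, MonoidalPreadditive.zero_whiskerRight, zero_comp,
        comp_zero]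
    rw [ht, Category.assoc, Category.assoc, ← leftUnitor_naturality, ← whisker_exchange_assoc, h0,
      zero_comp, comp_zero, comp_zero]

theorem am_tors_of_locSub {Φ : AddSubmonoid G} (hΦ : IsFace M Φ) {S : Set 𝒯.T}
    (hS : ∀ s ∈ S, Γ.Tors Φ s) {x : 𝒯.T} (hx : LocSub S x) : Γ.Tors Φ x := by
  classical
  induction hx with
  | of x hx => exact hS x hx
  | zero x hx =>
    rw [am_tors_iff]
    intro γ n a
    rw [hx.eq_of_tgt a 0]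
    exact Γ.am_killed_zero Φ
  | iso x y e _ ih =>
    rw [am_tors_iff] at ih ⊢
    intro γ n a
    simpa using (ih γ n (a ≫ e.inv)).comp e.hom
  | shift x n _ ih => exact Γ.am_tors_shift ih n
  | ext D hD _ _ ih₁ ih₃ => exact Γ.am_tors_ext D hD ih₁ ih₃
  | coprod J Y _ ih =>
    rw [am_tors_iff]
    intro γ n a
    obtain ⟨s, g, rfl⟩ := (Γ.cpt γ).shift n J Y a
    induction s using Finset.induction_on with
    | empty => exact Γ.am_killed_zero Φ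
    | insert j s hj ihs =>
      rw [Finset.sum_insert hj]
      exact (((Γ.am_tors_iff Φ _).1 (ih j) γ n (g j)).comp _).add hΦ ihs

theorem am_isRCG (hgen : Generates Γ.L) : 𝒯.IsRCG :=
  isRCG_of_gen Γ.L Γ.cpt Γ.inv Γ.compact_unit hgen

theorem tors_mem (hgen : Generates Γ.L) {Φ : AddSubmonoid G} (hΦ : IsFace M Φ) {z : 𝒯.T}
    (hz : Γ.Tors Φ z) :
    LocSub {y : 𝒯.T | ∃ φ ∈ Φ, ∃ γ c, Γ.IsCone φ c ∧ y = c ⊗ Γ.L γ} z := by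
  obtain ⟨e, f, u, v, w, hD, he, hf⟩ := (Γ.am_isRCG hgen).exists_loc_triangle
    {y : 𝒯.T | ∃ φ ∈ Φ, ∃ γ c, Γ.IsCone φ c ∧ y = c ⊗ Γ.L γ}
    (by
      rintro _ ⟨φ, -, γ, c, hc, rfl⟩
      exact (Γ.inv γ).compact_tens hc.compact) z
  have h1 : Γ.Tors Φ e := Γ.am_tors_of_locSub hΦ (by
    rintro _ ⟨φ, hφ, γ, c, hc, rfl⟩
    exact Γ.am_tors_gen hφ hc _) he
  have h2 : Γ.Tors Φ f := Γ.am_tors_ext _ (rot_of_distTriang _ hD) hz (Γ.am_tors_shift h1 1)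
  have h3 : IsZero f := by
    refine hgen f fun γ n a => ?_
    obtain ⟨δ, hδ, t, ht, h0⟩ := (Γ.am_tors_iff Φ f).1 h2 γ n a
    obtain ⟨c, hc⟩ := Γ.exists_cone (hΦ.le hδ)
    obtain ⟨τ, u', w', hτ, hD'⟩ := id hc
    obtain ⟨i, hi⟩ := eq_tau t τ ht hτ
    obtain ⟨k, hk⟩ := tensR_dist (Γ.L γ) _ hD'
    obtain ⟨g, hg⟩ := Triangle.yoneda_exact₂ _ (Triangle.shift_distinguished _ hk n)
      ((λ_ (Γ.L γ)).hom⟦n⟧' ≫ a) (by
        change (n.negOnePow • (τ ▷ Γ.L γ)⟦n⟧') ≫ (λ_ (Γ.L γ)).hom⟦n⟧' ≫ a = 0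
        rw [Linear.units_smul_comp, ← cancel_epi (i.hom⟦n⟧'), Linear.comp_units_smul,
          ← Functor.map_comp_assoc, ← Functor.map_comp_assoc, Category.assoc, ← hi, h0, smul_zero,
          comp_zero])
    have h4 : g = 0 := hf _ (.shift _ n (.of _ ⟨δ - γ, hδ, γ, c, hc, rfl⟩)) g
    rw [← cancel_epi ((λ_ (Γ.L γ)).hom⟦n⟧'), hg, h4, comp_zero, comp_zero]
  have : IsIso u := (Triangle.isZero₃_iff_isIso₁ _ hD).1 h3
  exact .iso e z (asIso u) he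

theorem am_tau_comp {α β : G} {t : Γ.L α ⟶ Γ.L β} {τ : Γ.L β ⟶ 𝟙_ 𝒯.T} (ht : t ≠ 0) (hτ : τ ≠ 0) :
    t ≫ τ ≠ 0 := by
  obtain ⟨j⟩ := Γ.eta
  intro h
  refine Γ.comp_ne _ _ _ t (τ ≫ j.inv) ht (fun h0 => hτ ?_) ?_
  · rw [← cancel_mono j.inv, h0, zero_comp]
  · rw [← Category.assoc, h, zero_comp]

/-- the face attached to a prime -/
theorem exists_face (hgen : Generates Γ.L) (P : 𝒯.Spc) :
    ∃ Φ : AddSubmonoid G, IsFace M Φ ∧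
      ∀ ψ c, Γ.IsCone ψ c → (c ∈ P.carrier ↔ ψ ∈ Φ) := by
  have _ := hgen
  refine ⟨⟨⟨{ψ | ψ ∈ M ∧ ∀ c, Γ.IsCone ψ c → c ∈ P.carrier}, ?_⟩, M.zero_mem, ?_⟩,
    ⟨fun ψ h => h.1, ?_⟩, ?_⟩
  · rintro α β ⟨hα, hα'⟩ ⟨hβ, hβ'⟩
    refine ⟨M.add_mem hα hβ, ?_⟩
    rintro c ⟨τ, u, w, hτ, hD⟩
    obtain ⟨t, ht⟩ := (Γ.ex_iff (α + β) β).2 (by rwa [add_sub_cancel_right])
    obtain ⟨c', hc'⟩ := Γ.exists_cone hβ
    obtain ⟨τ', u', w', hτ', hD'⟩ := id hc'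
    obtain ⟨c'', u'', w'', hD''⟩ := distinguished_cocone_triangle t
    have h1 : t ≫ τ' = τ := Γ.tau_uniq (Γ.am_tau_comp ht hτ') hτ
    have O := Triangulated.someOctahedron h1 hD'' hD' hD
    refine P.thick.ext _ O.mem ?_ (hβ' c' hc')
    exact cone_mem (α := α + β) (β := β) P.thick (by rwa [add_sub_cancel_right]) _ hD''
      (Iso.refl _) (Iso.refl _) ht
  · rintro c ⟨τ, u, w, hτ, hD⟩
    obtain ⟨j⟩ := Γ.eta
    have h1 : τ = j.hom := Γ.tau_uniq hτ fun h0 => hτ (by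
      rw [← Category.comp_id τ, ← j.inv_hom_id, h0, comp_zero, comp_zero])
    exact P.thick.zero c ((Triangle.isZero₃_iff_isIso₁ _ hD).2 (by
      change IsIso τ
      rw [h1]
      infer_instance))
  · rintro a ha b hb ⟨hab, hab'⟩
    refine ⟨ha, fun c hc => ?_⟩
    obtain ⟨c', hc'⟩ := Γ.exists_cone hab
    obtain ⟨τ', u', w', hτ', hD'⟩ := id hc'
    obtain ⟨τ, hτ⟩ := (Γ.tau_iff a).2 ha
    obtain ⟨t, ht⟩ := (Γ.ex_iff (a + b) a).2 (by rwa [add_sub_cancel_left])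
    have h1 : t ≫ τ = τ' := Γ.tau_uniq (Γ.am_tau_comp ht hτ) hτ'
    obtain ⟨k, hk⟩ := tensR_dist c _ hD'
    obtain ⟨g, hg⟩ := Triangle.yoneda_exact₂ _ hk (λ_ c).hom (by
      change τ' ▷ c ≫ (λ_ c).hom = 0
      rw [← h1, comp_whiskerRight, hc.tau_kill τ, comp_zero, zero_comp])
    refine P.thick.retract c (c' ⊗ c) ⟨(λ_ c).inv ≫ u' ▷ c, g, ?_⟩
      (P.thick.tensorR (hab' c' hc') hc.compact)
    rw [Category.assoc, Iso.inv_comp_eq, Category.comp_id]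
    exact hg.symm
  · intro ψ c hc
    exact ⟨fun h => ⟨hc.mem, fun c' hc' => P.thick.iso (hc.iso hc').some h⟩, fun h => h.2 c hc⟩

theorem am_kos_not_mem (h : 𝒯.IsRCG) {P : 𝒯.Spc} {Φ : AddSubmonoid G}
    (hP : ∀ ψ c, Γ.IsCone ψ c → (c ∈ P.carrier ↔ ψ ∈ Φ)) {K : 𝒯.T}
    (hK : Γ.Kos {ψ | ψ ∉ Φ} K) : K ∉ P.carrier := by
  induction hK with
  | one => exact P.proper
  | cons ψ c K hψ hc hK ih =>
    intro hm
    rcases P.prime c K hc.compact (hK.compact h) hm with h1 | h1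
    · exact hψ ((hP ψ c hc).1 h1)
    · exact ih h1

theorem am_subset_of_face (hgen : Generates Γ.L) {P Q : 𝒯.Spc} {Φ : AddSubmonoid G}
    (hΦ : IsFace M Φ) (hP : ∀ ψ c, Γ.IsCone ψ c → (c ∈ P.carrier ↔ ψ ∈ Φ))
    (hQ : ∀ ψ c, Γ.IsCone ψ c → (c ∈ Q.carrier ↔ ψ ∈ Φ)) : Q.carrier ⊆ P.carrier := by
  intro x hx
  have h := Γ.am_isRCG hgen
  have hxc := Q.thick.compact x hx
  obtain ⟨K, hK, h1 | h1⟩ := Γ.dichotomy hgen hΦ hxc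
  · exact (P.prime x K hxc (hK.compact h)
      (h1 _ P.thick fun φ hφ c hc => (hP φ c hc).2 hφ)).resolve_right (Γ.am_kos_not_mem h hP hK)
  · exact absurd (h1 _ Q.thick (fun φ hφ c hc => (hQ φ c hc).2 hφ) hx) (Γ.am_kos_not_mem h hQ hK)

theorem am_exists_supp (h : 𝒯.IsRCG) (s : Finset G) (hs : ∀ ψ ∈ s, ψ ∈ M) :
    ∃ K : 𝒯.T, Compact K ∧ ∀ Q : 𝒯.Spc,
      K ∉ Q.carrier ↔ ∀ ψ ∈ s, ∀ c, Γ.IsCone ψ c → c ∉ Q.carrier := by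
  classical
  induction s using Finset.induction_on with
  | empty => exact ⟨𝟙_ _, h.compact_unit, fun Q => by simpa using Q.proper⟩
  | insert ψ s _ ih =>
    obtain ⟨K, hK, hK'⟩ := ih fun φ hφ => hs φ (Finset.mem_insert_of_mem hφ)
    obtain ⟨c, hc⟩ := Γ.exists_cone (hs ψ (Finset.mem_insert_self _ _))
    refine ⟨c ⊗ K, h.compact_tensor hc.compact hK, fun Q => ?_⟩
    rw [Finset.forall_mem_insert, ← hK']
    refine ⟨fun h1 => ⟨fun c' hc' h2 => h1 ?_, fun h2 => h1 ?_⟩, fun h1 h2 => ?_⟩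
    · exact Q.thick.tensorR (Q.thick.iso (hc'.iso hc).some h2) hK
    · exact Q.thick.tensor c K hc.compact h2
    · exact (Q.prime c K hc.compact hK h2).elim (h1.1 c hc) h1.2

theorem am_weaklyVisible (hgen : Generates Γ.L) (hV : HypV M) (P : 𝒯.Spc) : WeaklyVisible P := by
  have h := Γ.am_isRCG hgen
  obtain ⟨Φ, hΦ, hP⟩ := Γ.exists_face hgen P
  obtain ⟨s, hs, hs'⟩ := hV Φ hΦ
  obtain ⟨K, hK, hK'⟩ := Γ.am_exists_supp h s fun ψ hψ => (hs ψ hψ).1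
  refine ⟨supp K, {Q | ¬ P.carrier ⊆ Q.carrier}, (h.thomason_iff _).2 fun Q hQ =>
    ⟨K, hK, hQ, subset_rfl⟩, (h.thomason_iff _).2 fun Q hQ => ?_, ?_⟩
  · obtain ⟨x, hx, hx'⟩ := Set.not_subset.1 hQ
    exact ⟨x, P.thick.compact x hx, hx', fun Q' hQ' h1 => hQ' (h1 hx)⟩
  · ext Q
    refine ⟨fun ⟨h1, h2⟩ => ?_, ?_⟩
    · have h3 : P.carrier ⊆ Q.carrier := not_not.1 h2
      obtain ⟨Φ', hΦ', hQ⟩ := Γ.exists_face hgen Q
      have h4 : Φ ≤ Φ' := fun ψ hψ => by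
        obtain ⟨c, hc⟩ := Γ.exists_cone (hΦ.le hψ)
        exact (hQ ψ c hc).1 (h3 ((hP ψ c hc).2 hψ))
      obtain rfl : Φ = Φ' := by
        by_contra hne
        obtain ⟨ψ, hψ, hψ'⟩ := hs' Φ' hΦ' (lt_of_le_of_ne h4 hne)
        obtain ⟨c, hc⟩ := Γ.exists_cone (hΦ'.le hψ')
        exact (hK' Q).1 h1 ψ hψ c hc ((hQ ψ c hc).2 hψ')
      exact Spc.ext (Set.Subset.antisymm (Γ.am_subset_of_face hgen hΦ hP hQ) h3)
    · rintro rfl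
      exact ⟨(hK' Q).2 fun ψ hψ c hc h1 => (hs ψ hψ).2 ((hP ψ c hc).1 h1), fun h1 => h1 subset_rfl⟩

theorem concl (hgen : Generates Γ.L) (hV : HypV M) (X : 𝒯.T) (hX : ¬ IsZero X)
    (hH : Γ.HypH X) : Concl 𝒯 := by
  have h := Γ.am_isRCG hgen
  refine h.concl (Γ.am_weaklyVisible hgen hV) X hX fun P g hg => ?_
  obtain ⟨Φ, hΦ, hP⟩ := Γ.exists_face hgen P
  have key : ∀ z : 𝒯.T, Γ.Tors Φ z → z ∈ Loc P.carrier := fun z hz =>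
    ((Γ.tors_mem hgen hΦ hz).mono (by
      rintro _ ⟨φ, hφ, γ, c, hc, rfl⟩
      exact P.thick.tensorR ((hP φ c hc).2 hφ) (Γ.cpt γ))).mem_loc
  rcases hH Φ hΦ with h1 | ⟨ψ₁, -, ψ₂, -, n₁, n₂, c₁, c₂, hc₁, hc₂, h1⟩
  · exact h.van P h.compact_unit P.proper
      ((isLocIdeal_loc _).iso _ _ (λ_ X).symm (key X h1)) hg
  · refine h.van P (h.compact_tensor hc₁.compact hc₂.compact) (fun h2 => ?_)
      ((isLocIdeal_loc _).iso _ _ (α_ c₁ c₂ X).symm (key _ h1)) hg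
    exact (P.prime c₁ c₂ hc₁.compact hc₂.compact h2).elim
      (fun h3 => n₁ ((hP _ _ hc₁).1 h3)) fun h3 => n₂ ((hP _ _ hc₂).1 h3)

end Gen

end TTCat

end Pool.Agent.Lib.MP_ded707_al
end
end

-- part Pool.Agent.Lib.MP_ded707_al.Sub
section

/-!
Transfer of the data to the localizing subcategory.
-/

set_option autoImplicit false
set_option backward.isDefEq.respectTransparency false
set_option backward.defeqAttrib.useBackward true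

open CategoryTheory Limits Pretriangulated MonoidalCategory ZeroObject

noncomputable section

namespace Pool.Agent.Lib.MP_ded707_al

namespace TTCat

variable {𝒯 : TTCat}

namespace Gen

variable {G : Type} [AddCommGroup G] {M : AddSubmonoid G} (Γ : Gen 𝒯 M)

/-- the comparison isomorphism between the two shifts -/
def cs (Y : Γ.Sub) (n : ℤ) : (Y⟦n⟧).obj ≅ Y.obj⟦n⟧ := (Γ.LP.ι.commShiftIso n).app Y

@[reassoc]
theorem cs_nat {Y Y' : Γ.Sub} (f : Y ⟶ Y') (n : ℤ) :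
    (f⟦n⟧').hom ≫ (Γ.cs Y' n).hom = (Γ.cs Y n).hom ≫ f.hom⟦n⟧' :=
  (Γ.LP.ι.commShiftIso n).hom.naturality f

@[reassoc]
theorem sh_sub (X Y : Γ.Sub) (n : ℤ) :
    (Γ.subTT.sh X Y n).hom ≫ (Γ.cs (X ⊗ Y) n).hom =
      X.obj ◁ (Γ.cs Y n).hom ≫ 𝒯.sh X.obj Y.obj n := by
  have h := NatTrans.shift_app_comm (Γ.tensorι X).hom n Y
  rw [Functor.commShiftIso_comp_hom_app, Functor.commShiftIso_comp_hom_app] at h
  have h' := by simpa [tensorι] using h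
  exact h'

theorem compat_sub (hc : 𝒯.Compat) : Γ.subTT.Compat := by
  refine ⟨?_, ?_, ?_, ?_⟩
  · intro X X' Y f n
    apply ObjectProperty.hom_ext
    rw [← cancel_mono (Γ.cs (X' ⊗ Y) n).hom]
    change (f.hom ▷ (Y⟦n⟧).obj ≫ (Γ.subTT.sh X' Y n).hom) ≫ _ =
      ((Γ.subTT.sh X Y n).hom ≫ ((f ▷ Y)⟦n⟧').hom) ≫ _
    rw [Category.assoc, Category.assoc, sh_sub, cs_nat, sh_sub_assoc, ← whisker_exchange_assoc,
      hc.nat]
    rfl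
  · intro Y n
    apply ObjectProperty.hom_ext
    rw [← cancel_mono (Γ.cs Y n).hom]
    change ((Γ.subTT.sh (𝟙_ _) Y n).hom ≫ ((λ_ Y).hom⟦n⟧').hom) ≫ _ =
      (λ_ (Y⟦n⟧).obj).hom ≫ _
    rw [Category.assoc, cs_nat, sh_sub_assoc, ← leftUnitor_naturality, ← hc.unit]
    rfl
  · intro X X' Y n
    apply ObjectProperty.hom_ext
    rw [← cancel_mono (Γ.cs (X ⊗ (X' ⊗ Y)) n).hom]
    change ((α_ X.obj X'.obj (Y⟦n⟧).obj).hom ≫ X.obj ◁ (Γ.subTT.sh X' Y n).hom ≫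
      (Γ.subTT.sh X (X' ⊗ Y) n).hom) ≫ _ =
      ((Γ.subTT.sh (X ⊗ X') Y n).hom ≫ ((α_ X X' Y).hom⟦n⟧').hom) ≫ _
    rw [Category.assoc, Category.assoc, Category.assoc, sh_sub, cs_nat, sh_sub_assoc,
      ← whiskerLeft_comp_assoc, sh_sub, whiskerLeft_comp_assoc]
    have h := hc.assoc X.obj X'.obj Y.obj n
    have h2 := associator_naturality_right X.obj X'.obj (Γ.cs Y n).hom
    change _ = (X.obj ⊗ X'.obj) ◁ (Γ.cs Y n).hom ≫ 𝒯.sh (X.obj ⊗ X'.obj) Y.obj n ≫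
      (α_ X.obj X'.obj Y.obj).hom⟦n⟧'
    rw [← h, reassoc_of% h2]
    rfl
  · apply ObjectProperty.hom_ext
    let e : ((𝟙_ Γ.Sub)⟦(1 : ℤ)⟧).obj ≅ (𝟙_ 𝒯.T)⟦(1 : ℤ)⟧ := Γ.cs (𝟙_ Γ.Sub) 1
    change (β_ ((𝟙_ Γ.Sub)⟦(1 : ℤ)⟧).obj ((𝟙_ Γ.Sub)⟦(1 : ℤ)⟧).obj).hom = -𝟙 _
    rw [← cancel_mono (e ⊗ᵢ e).hom, tensorIso_hom, ← BraidedCategory.braiding_naturality,
      hc.twist]
    simp

theorem sub_eq_zero {X Y : Γ.Sub} (f : X ⟶ Y) : f = 0 ↔ f.hom = 0 :=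
  ⟨fun h => by rw [h]; exact Γ.LP.ι.map_zero X Y,
    fun h => Γ.LP.ι.map_injective (h.trans (Γ.LP.ι.map_zero X Y).symm)⟩

theorem compact_sub {X : Γ.Sub} (h : Compact X.obj) : Compact (𝒯 := Γ.subTT) X := by
  intro J Y f
  obtain ⟨s, g, hg⟩ := h J (fun j => (Y j).obj) (f.hom ≫ (PreservesCoproduct.iso Γ.LP.ι Y).hom)
  refine ⟨s, fun j => ObjectProperty.homMk (g j), Γ.LP.ι.map_injective ?_⟩
  rw [← Iso.eq_comp_inv] at hg
  rw [Γ.LP.ι.map_sum]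
  refine hg.trans ?_
  rw [Preadditive.sum_comp]
  refine Finset.sum_congr rfl fun j _ => ?_
  rw [Category.assoc, PreservesCoproduct.inv_hom]
  exact congrArg (fun t => g j ≫ t) (ι_comp_sigmaComparison Γ.LP.ι Y j)

/-- the generators as objects of the subcategory -/
def subL (γ : G) : Γ.Sub := ⟨Γ.L γ, LocSub.of _ ⟨γ, rfl⟩⟩

/-- the generating family in the subcategory -/
def subGen : Gen Γ.subTT M where
  L := Γ.subL
  cpt γ := Γ.compact_sub (Γ.cpt γ)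
  mu α β := ⟨ObjectProperty.isoMk _ (Γ.mu α β).some⟩
  eta := ⟨ObjectProperty.isoMk _ Γ.eta.some⟩
  hom_shift α β n hn f := by
    rw [Γ.sub_eq_zero, ← cancel_mono (Γ.cs (Γ.subL β) n).hom, zero_comp]
    exact Γ.hom_shift α β n hn _
  uniq α β f g hf hg := ObjectProperty.hom_ext _
    (Γ.uniq α β _ _ (fun h => hf ((Γ.sub_eq_zero f).2 h)) (fun h => hg ((Γ.sub_eq_zero g).2 h)))
  ex_iff α β := by
    rw [← Γ.ex_iff]
    exact ⟨fun ⟨f, hf⟩ => ⟨f.hom, fun h => hf ((Γ.sub_eq_zero f).2 h)⟩,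
      fun ⟨f, hf⟩ => ⟨ObjectProperty.homMk f, fun h => hf ((Γ.sub_eq_zero _).1 h)⟩⟩
  comp_ne α β γ f g hf hg h :=
    Γ.comp_ne α β γ f.hom g.hom (fun h => hf ((Γ.sub_eq_zero f).2 h))
      (fun h => hg ((Γ.sub_eq_zero g).2 h)) ((Γ.sub_eq_zero _).1 h)

theorem subGen_generates : Generates Γ.subGen.L := by
  intro y hy
  rw [IsZero.iff_id_eq_zero, Γ.sub_eq_zero]
  refine LocSub.orth (S := Set.range Γ.L) ?_ y.property (𝟙 y.obj)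
  rintro _ ⟨γ, rfl⟩ n f
  have h := (Γ.sub_eq_zero _).1
    (hy γ n (ObjectProperty.homMk ((Γ.cs (Γ.subL γ) n).hom ≫ f)))
  rw [← cancel_epi (Γ.cs (Γ.subL γ) n).hom, comp_zero]
  exact h

/-- right orthogonal to the localizing subcategory -/
def Orth (N : 𝒯.T) : Prop := ∀ a : 𝒯.T, Γ.LP a → ∀ φ : a ⟶ N, φ = 0

variable {Γ}

theorem Orth.iso {N N' : 𝒯.T} (e : N ≅ N') (h : Γ.Orth N) : Γ.Orth N' := by
  intro a ha φ
  rw [← cancel_mono e.inv, h a ha (φ ≫ e.inv), zero_comp]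

theorem Orth.shift {N : 𝒯.T} (h : Γ.Orth N) (k : ℤ) : Γ.Orth (N⟦k⟧) := by
  intro a ha φ
  obtain ⟨g, hg⟩ := (shiftFunctor 𝒯.T k).map_surjective
    ((shiftFunctorCompIsoId 𝒯.T (-k) k (by simp)).hom.app a ≫ φ)
  rw [h _ (LocSub.shift a (-k) ha) g, Functor.map_zero] at hg
  rw [← cancel_epi ((shiftFunctorCompIsoId 𝒯.T (-k) k (by simp)).hom.app a), ← hg, comp_zero]

theorem Orth.ext (D : Triangle 𝒯.T) (hD : D ∈ distTriang 𝒯.T) (h₁ : Γ.Orth D.obj₁)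
    (h₃ : Γ.Orth D.obj₃) : Γ.Orth D.obj₂ := by
  intro a ha φ
  obtain ⟨g, rfl⟩ := Triangle.coyoneda_exact₂ D hD φ (h₃ a ha _)
  rw [h₁ a ha g, zero_comp]

theorem Orth.tensL {N : 𝒯.T} (h : Γ.Orth N) (γ : G) : Γ.Orth (Γ.L γ ⊗ N) := by
  intro a ha φ
  have := (Γ.inv γ).isEquivalence_left
  let e : Γ.L γ ⊗ (Γ.L (-γ) ⊗ a) ≅ a := (α_ _ _ _).symm ≪≫
    whiskerRightIso ((Γ.mu γ (-γ)).some ≪≫ eqToIso (by rw [add_neg_cancel]) ≪≫ Γ.eta.some) a ≪≫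
      λ_ a
  obtain ⟨g, hg⟩ := (tensorLeft (Γ.L γ)).map_surjective (X := Γ.L (-γ) ⊗ a) (Y := N) (e.hom ≫ φ)
  rw [h _ (Γ.LP_tensor (LocSub.of _ ⟨-γ, rfl⟩) ha) g, Functor.map_zero] at hg
  rw [← cancel_epi e.hom, ← hg, comp_zero]

theorem Orth.cone {N : 𝒯.T} (h : Γ.Orth N) {ψ : G} {c : 𝒯.T} (hc : Γ.IsCone ψ c) :
    Γ.Orth (c ⊗ N) := by
  obtain ⟨τ, u, w, -, hD⟩ := hc
  obtain ⟨w', hw'⟩ := tensR_dist N _ hD
  exact Orth.ext _ (rot_of_distTriang _ hw') (h.iso (λ_ N).symm) ((h.tensL ψ).shift 1)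

theorem Orth.inj (D : Triangle 𝒯.T) (hD : D ∈ distTriang 𝒯.T) (h₃ : Γ.Orth D.obj₃)
    {a : 𝒯.T} (ha : Γ.LP a) (φ : a ⟶ D.obj₁) (hφ : φ ≫ D.mor₁ = 0) : φ = 0 := by
  obtain ⟨g, hg⟩ := Triangle.coyoneda_exact₂ _ (inv_rot_of_distTriang D hD) φ hφ
  rw [hg, h₃.shift (-1) a ha g, zero_comp]

theorem tors_sub {Φ : AddSubmonoid G} {z : Γ.Sub} {z' : 𝒯.T} (u : z.obj ⟶ z')
    (hu : ∀ a : 𝒯.T, Γ.LP a → ∀ φ : a ⟶ z.obj, φ ≫ u = 0 → φ = 0) (h : Γ.Tors Φ z') :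
    Γ.subGen.Tors Φ z := by
  intro γ n a
  obtain ⟨φ, hφ, t, ht, h0⟩ := h γ n ((Γ.cs (Γ.subL γ) n).inv ≫ a.hom ≫ u)
  let t' : Γ.subL (γ + φ) ⟶ Γ.subL γ := ObjectProperty.homMk t
  refine ⟨φ, hφ, t', fun h => ht ((Γ.sub_eq_zero _).1 h), ?_⟩
  rw [Γ.sub_eq_zero]
  refine hu _ ((Γ.subL (γ + φ))⟦n⟧).property _ ?_
  have h1 : (t'⟦n⟧').hom =
      (Γ.cs (Γ.subL (γ + φ)) n).hom ≫ t⟦n⟧' ≫ (Γ.cs (Γ.subL γ) n).inv := by
    rw [← Category.assoc, Iso.eq_comp_inv]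
    exact Γ.cs_nat t' n
  change ((t'⟦n⟧').hom ≫ a.hom) ≫ u = 0
  rw [h1]
  simp only [Category.assoc]
  rw [h0, comp_zero]

theorem IsCone.lp {ψ : G} {c : 𝒯.T} (hc : Γ.IsCone ψ c) : Γ.LP c := by
  obtain ⟨τ, u, w, -, hD⟩ := hc
  exact LocSub.ext₃ _ hD (LocSub.of _ ⟨ψ, rfl⟩)
    (LocSub.iso _ _ Γ.eta.some (LocSub.of _ ⟨0, rfl⟩))

theorem IsCone.sub {ψ : G} {c : 𝒯.T} (hc : Γ.IsCone ψ c) :
    Γ.subGen.IsCone ψ ⟨c, hc.lp⟩ := by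
  have hlp := hc.lp
  obtain ⟨τ, u, w, hτ, hD⟩ := hc
  let τ' : Γ.subL ψ ⟶ 𝟙_ Γ.Sub := ObjectProperty.homMk τ
  let u' : 𝟙_ Γ.Sub ⟶ (⟨c, hlp⟩ : Γ.Sub) := ObjectProperty.homMk u
  let w' : (⟨c, hlp⟩ : Γ.Sub) ⟶ (Γ.subL ψ)⟦(1 : ℤ)⟧ :=
    ObjectProperty.homMk (w ≫ (Γ.cs (Γ.subL ψ) 1).inv)
  refine ⟨τ', u', w', fun h => hτ ((Γ.sub_eq_zero _).1 h), ?_⟩
  rw [← Γ.LP.ι.map_distinguished_iff]
  have h1 : (w ≫ (Γ.cs (Γ.subL ψ) 1).inv) ≫ (Γ.cs (Γ.subL ψ) 1).hom = w := by simp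
  change Triangle.mk τ u ((w ≫ (Γ.cs (Γ.subL ψ) 1).inv) ≫ (Γ.cs (Γ.subL ψ) 1).hom) ∈ _
  rw [h1]
  exact hD

variable (Γ)

theorem exists_sub (Xt : 𝒯.T) (h0 : ∃ (γ : G) (n : ℤ) (a : (Γ.L γ)⟦n⟧ ⟶ Xt), a ≠ 0)
    (hH : Γ.HypH Xt) :
    ∃ (Γ' : Gen Γ.subTT M) (X : Γ.subTT.T), Generates Γ'.L ∧ ¬ IsZero X ∧ Γ'.HypH X := by
  obtain ⟨e, N, u, v, w, hD, he, hN⟩ := cellular_triangle Γ.L Γ.cpt Xt
  have hN' : Γ.Orth N := hN
  refine ⟨Γ.subGen, ⟨e, he⟩, Γ.subGen_generates, ?_, ?_⟩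
  · intro hz
    obtain ⟨γ, n, a, ha⟩ := h0
    obtain ⟨g, hg⟩ := Triangle.coyoneda_exact₂ _ hD a
      (hN _ (LocSub.shift _ n (LocSub.of _ ⟨γ, rfl⟩)) _)
    have hz' : IsZero e := Γ.LP.ι.map_isZero hz
    exact ha (by rw [hg, hz'.eq_of_tgt g 0, zero_comp])
  · intro Φ hΦ
    rcases hH Φ hΦ with h | ⟨ψ₁, h₁, ψ₂, h₂, n₁, n₂, c₁, c₂, hc₁, hc₂, h⟩
    · exact Or.inl (tors_sub (z := ⟨e, he⟩) u (fun a ha φ hφ => hN'.inj _ hD ha φ hφ) h)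
    · refine Or.inr ⟨ψ₁, h₁, ψ₂, h₂, n₁, n₂, _, _, hc₁.sub, hc₂.sub, ?_⟩
      obtain ⟨w₂, hw₂⟩ := tensL_dist c₂ _ hD
      obtain ⟨w₁, hw₁⟩ := tensL_dist c₁ _ hw₂
      exact tors_sub (c₁ ◁ (c₂ ◁ u))
        (fun a ha φ hφ => Orth.inj _ hw₁ ((hN'.cone hc₂).cone hc₁) ha φ hφ) h

end Gen

end TTCat

end Pool.Agent.Lib.MP_ded707_al
end
end

-- part Pool.Agent.Lib.MP_ded707_al.Main
section

/-!
Assembly.
-/

set_option autoImplicit false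
set_option backward.isDefEq.respectTransparency false
set_option backward.defeqAttrib.useBackward true

open CategoryTheory Limits Pretriangulated MonoidalCategory ZeroObject

noncomputable section

namespace Pool.Agent.Lib.MP_ded707_al

open TTCat Fil

theorem main : ∃ 𝒯 : TTCat, 𝒯.Compat ∧ Concl 𝒯 := by
  obtain ⟨M, hM, hV, hK⟩ := exists_monoid
  obtain ⟨E, h0, hTA, hMV⟩ := exists_FC M hM acyc_cube acyc_cube_compl
  have hH : (genK M).HypH ((filA M).Q.obj (ofFC E)) := by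
    intro Φ hΦ
    rcases hK Φ hΦ with h | ⟨ψ₁, h₁, ψ₂, h₂, n₁, n₂, h⟩
    · exact Or.inl (tors_of_TA hΦ.le (TA_ofFC (hTA Φ hΦ.le h)))
    · obtain ⟨c₁, hc₁⟩ := (genK M).exists_cone h₁
      obtain ⟨c₂, hc₂⟩ := (genK M).exists_cone h₂
      refine Or.inr ⟨ψ₁, h₁, ψ₂, h₂, n₁, n₂, c₁, c₂, hc₁, hc₂, ?_⟩
      obtain ⟨e₂⟩ := cone_tensor h₂ hc₂ (ofFC E)
      obtain ⟨e₁⟩ := cone_tensor h₁ hc₁ (Cn h₂ (ofFC E))
      have e := whiskerLeftIso c₁ e₂ ≪≫ e₁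
      intro γ n a
      obtain ⟨φ, hφ, t, ht, h0⟩ := tors_of_TA hΦ.le
        (TA_cone_cone hΦ.le h₁ h₂ (hMV Φ hΦ.le ψ₁ h₁ ψ₂ h₂ h)) γ n (a ≫ e.hom)
      refine ⟨φ, hφ, t, ht, ?_⟩
      rw [← cancel_mono e.hom, Category.assoc, zero_comp]
      exact h0
  obtain ⟨Γ', X, hgen, hX, hH'⟩ := (genK M).exists_sub _ (nonzero_of_nonZ E h0) hH
  exact ⟨(genK M).subTT, (genK M).compat_sub (ACat.compatK _), Γ'.concl hgen hV X hX hH'⟩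

end Pool.Agent.Lib.MP_ded707_al
end
end
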